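import Mathlib

/-!
Correspondences between metric spaces, and three four-point metric spaces without a simultaneously
optimal triple correspondence.
-/

set_option autoImplicit false

universe u v

namespace Pool.Agent.V11215.Corr

open Set

/-- `S ⊆ X × Y` is a correspondence: both coordinate projections are surjective. -/
def IsCorrespondence {X : Type u} {Y : Type v} (S : Set (X × Y)) : Prop :=
  (∀ x, ∃ y, (x, y) ∈ S) ∧ ∀ y, ∃ x, (x, y) ∈ S

/-- The distortion `sup {|d(x,x') - d(y,y')| : (x,y), (x',y') ∈ S}`. -/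
noncomputable def dis {X : Type u} {Y : Type v} [MetricSpace X] [MetricSpace Y]
    (S : Set (X × Y)) : ℝ :=
  sSup {r | ∃ p ∈ S, ∃ q ∈ S, r = |dist p.1 q.1 - dist p.2 q.2|}

/-- The Gromov–Hausdorff distance: half the infimum of the distortions of all correspondences. -/
noncomputable def ghDist (X : Type u) (Y : Type v) [MetricSpace X] [MetricSpace Y] : ℝ :=
  (1 / 2) * sInf {r | ∃ S : Set (X × Y), IsCorrespondence S ∧ r = dis S}

/-- A correspondence is optimal if its distortion is `2 d_GH(X, Y)`. -/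
def IsOptimal {X : Type u} {Y : Type v} [MetricSpace X] [MetricSpace Y] (S : Set (X × Y)) : Prop :=
  IsCorrespondence S ∧ dis S = 2 * ghDist X Y

/-- `e_ij(R) = {(x_i, x_j) : x ∈ R} ⊆ X_i × X_j` for `R ⊆ X_1 × X_2 × X_3`. -/
def proj {X : Fin 3 → Type u} (i j : Fin 3) (R : Set (∀ k, X k)) : Set (X i × X j) :=
  (fun x => (x i, x j)) '' R

section basic

variable {X : Type u} {Y : Type v} [MetricSpace X] [MetricSpace Y]

theorem dis_nonneg (S : Set (X × Y)) : 0 ≤ dis S := by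
  apply Real.sSup_nonneg
  rintro r ⟨p, _, q, _, rfl⟩
  exact abs_nonneg _

theorem dis_le {S : Set (X × Y)} {c : ℝ} (hc : 0 ≤ c)
    (h : ∀ p ∈ S, ∀ q ∈ S, |dist p.1 q.1 - dist p.2 q.2| ≤ c) : dis S ≤ c := by
  apply Real.sSup_le _ hc
  rintro r ⟨p, hp, q, hq, rfl⟩
  exact h p hp q hq

theorem le_dis [Finite X] [Finite Y] {S : Set (X × Y)} {p q : X × Y} (hp : p ∈ S) (hq : q ∈ S) :
    |dist p.1 q.1 - dist p.2 q.2| ≤ dis S := by
  apply le_csSup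
  · have : {r : ℝ | ∃ p ∈ S, ∃ q ∈ S, r = |dist p.1 q.1 - dist p.2 q.2|} ⊆
        range (fun z : (X × Y) × (X × Y) => |dist z.1.1 z.2.1 - dist z.1.2 z.2.2|) := by
      rintro r ⟨p, _, q, _, rfl⟩
      exact ⟨(p, q), rfl⟩
    exact ((finite_range _).subset this).bddAbove
  · exact ⟨p, hp, q, hq, rfl⟩

theorem two_ghDist_le {S : Set (X × Y)} (hS : IsCorrespondence S) : 2 * ghDist X Y ≤ dis S := by
  unfold ghDist
  have : sInf {r | ∃ S : Set (X × Y), IsCorrespondence S ∧ r = dis S} ≤ dis S := by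
    apply csInf_le
    · refine ⟨0, ?_⟩
      rintro r ⟨T, _, rfl⟩
      exact dis_nonneg T
    · exact ⟨S, hS, rfl⟩
  linarith

theorem le_two_ghDist [Nonempty X] [Nonempty Y] {c : ℝ}
    (h : ∀ S : Set (X × Y), IsCorrespondence S → c ≤ dis S) : c ≤ 2 * ghDist X Y := by
  unfold ghDist
  have : c ≤ sInf {r | ∃ S : Set (X × Y), IsCorrespondence S ∧ r = dis S} := by
    apply le_csInf
    · exact ⟨_, univ, ⟨fun x => ⟨Classical.arbitrary Y, mem_univ _⟩,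
        fun y => ⟨Classical.arbitrary X, mem_univ _⟩⟩, rfl⟩
    · rintro r ⟨T, hT, rfl⟩
      exact h T hT
  linarith

end basic

/-! ### The four-point spaces -/

/-- The three distance matrices. -/
def W : Fin 3 → Fin 4 → Fin 4 → ℤ :=
  ![![![0, 4, 3, 2], ![4, 0, 4, 3], ![3, 4, 0, 2], ![2, 3, 2, 0]],
    ![![0, 4, 2, 2], ![4, 0, 3, 2], ![2, 3, 0, 3], ![2, 2, 3, 0]],
    ![![0, 3, 4, 4], ![3, 0, 3, 4], ![4, 3, 0, 2], ![4, 4, 2, 0]]]

/-- The `k`-th four-point space. -/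
structure Q (k : Fin 3) : Type where
  /-- the index of the point -/
  val : Fin 4

/-- `Q k` has four points. -/
def Qequiv (k : Fin 3) : Q k ≃ Fin 4 where
  toFun := Q.val
  invFun := Q.mk
  left_inv _ := rfl
  right_inv _ := rfl

instance (k : Fin 3) : Finite (Q k) := Finite.of_equiv _ (Qequiv k).symm

instance (k : Fin 3) : Nonempty (Q k) := ⟨⟨0⟩⟩

theorem W_self : ∀ k i, W k i i = 0 := by decide

theorem W_comm : ∀ k i j, W k i j = W k j i := by decide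

theorem W_tri : ∀ k i j l, W k i l ≤ W k i j + W k j l := by decide

theorem W_pos : ∀ k i j, W k i j = 0 → i = j := by decide

instance (k : Fin 3) : MetricSpace (Q k) where
  dist x y := (W k x.val y.val : ℝ)
  dist_self x := by
    simp [W_self]
  dist_comm x y := by
    rw [W_comm]
  dist_triangle x y z := by
    exact_mod_cast W_tri k x.val y.val z.val
  eq_of_dist_eq_zero := by
    rintro ⟨x⟩ ⟨y⟩ h
    have : W k x y = 0 := by exact_mod_cast h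
    rw [W_pos k x y this]

theorem Q_dist (k : Fin 3) (x y : Q k) : dist x y = (W k x.val y.val : ℝ) := rfl

/-- Bijections of distortion at most `1` between any two of the three spaces. -/
def bij : Fin 3 → Fin 3 → Fin 4 → Fin 4 :=
  ![![![0, 1, 2, 3], ![0, 1, 2, 3], ![1, 0, 3, 2]],
    ![![0, 1, 2, 3], ![0, 1, 2, 3], ![1, 3, 0, 2]],
    ![![1, 0, 3, 2], ![2, 0, 3, 1], ![0, 1, 2, 3]]]

theorem bij_le : ∀ i j : Fin 3, ∀ x x' : Fin 4,
    |W i x x' - W j (bij i j x) (bij i j x')| ≤ 1 := by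
  decide

theorem bij_surj : ∀ i j : Fin 3, ∀ y : Fin 4, ∃ x, bij i j x = y := by
  decide

theorem near01 : ∀ y0 y1 y2 y3 : Fin 4, |W 0 0 1 - W 1 y0 y1| ≤ 1 ∧ |W 0 0 2 - W 1 y0 y2| ≤ 1 ∧
    |W 0 1 2 - W 1 y1 y2| ≤ 1 ∧ |W 0 0 3 - W 1 y0 y3| ≤ 1 ∧ |W 0 1 3 - W 1 y1 y3| ≤ 1 ∧
    |W 0 2 3 - W 1 y2 y3| ≤ 1 → (y0 = 0 ∧ y1 = 1 ∧ y2 = 2 ∧ y3 = 3) ∨
      (y0 = 2 ∧ y1 = 1 ∧ y2 = 0 ∧ y3 = 3) := by
  decide +kernel

theorem near02 : ∀ y0 y1 y2 y3 : Fin 4, |W 0 0 1 - W 2 y0 y1| ≤ 1 ∧ |W 0 0 2 - W 2 y0 y2| ≤ 1 ∧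
    |W 0 1 2 - W 2 y1 y2| ≤ 1 ∧ |W 0 0 3 - W 2 y0 y3| ≤ 1 ∧ |W 0 1 3 - W 2 y1 y3| ≤ 1 ∧
    |W 0 2 3 - W 2 y2 y3| ≤ 1 → (y0 = 1 ∧ y1 = 0 ∧ y2 = 3 ∧ y3 = 2) ∨
      (y0 = 3 ∧ y1 = 0 ∧ y2 = 1 ∧ y3 = 2) := by
  decide +kernel

/-- No triple of compatible maps all have distortion at most `1`. -/
theorem no_triple (y z : Fin 4 → Fin 4) (h1 : ∀ m n : Fin 4, |W 0 m n - W 1 (y m) (y n)| ≤ 1)
    (h2 : ∀ m n : Fin 4, |W 0 m n - W 2 (z m) (z n)| ≤ 1)
    (h3 : ∀ m n : Fin 4, |W 1 (y m) (y n) - W 2 (z m) (z n)| ≤ 1) : False := by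
  have hy := near01 (y 0) (y 1) (y 2) (y 3) ⟨h1 _ _, h1 _ _, h1 _ _, h1 _ _, h1 _ _, h1 _ _⟩
  have hz := near02 (z 0) (z 1) (z 2) (z 3) ⟨h2 _ _, h2 _ _, h2 _ _, h2 _ _, h2 _ _, h2 _ _⟩
  have k01 := h3 0 1
  have k02 := h3 0 2
  have k03 := h3 0 3
  have k12 := h3 1 2
  have k13 := h3 1 3
  have k23 := h3 2 3
  rcases hy with ⟨e0, e1, e2, e3⟩ | ⟨e0, e1, e2, e3⟩ <;>
    rcases hz with ⟨f0, f1, f2, f3⟩ | ⟨f0, f1, f2, f3⟩ <;>
    rw [e0, e1, f0, f1] at k01 <;> rw [e0, e2, f0, f2] at k02 <;> rw [e0, e3, f0, f3] at k03 <;>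
    rw [e1, e2, f1, f2] at k12 <;> rw [e1, e3, f1, f3] at k13 <;> rw [e2, e3, f2, f3] at k23 <;>
    revert k01 k02 k03 k12 k13 k23 <;> decide

theorem ghDist_Q_le (i j : Fin 3) : 2 * ghDist (Q i) (Q j) ≤ 1 := by
  have hS : IsCorrespondence {p : Q i × Q j | p.2 = ⟨bij i j p.1.val⟩} := by
    constructor
    · intro x
      exact ⟨⟨bij i j x.val⟩, rfl⟩
    · rintro ⟨y⟩
      obtain ⟨x, hx⟩ := bij_surj i j y
      exact ⟨⟨x⟩, by simp [hx]⟩
  refine (two_ghDist_le hS).trans (dis_le zero_le_one ?_)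
  rintro ⟨x, y⟩ hy ⟨x', y'⟩ hy'
  rw [Q_dist, Q_dist]
  have := bij_le i j x.val x'.val
  have e : y.val = bij i j x.val := congrArg Q.val hy
  have e' : y'.val = bij i j x'.val := congrArg Q.val hy'
  rw [← e, ← e'] at this
  exact_mod_cast this

theorem no_optimal (R : Set (∀ k, Q k)) : ∃ i j, i ≠ j ∧ ¬ IsOptimal (proj i j R) := by
  by_contra hcon
  push Not at hcon
  have h1 : ∀ i j, i ≠ j → ∀ x ∈ R, ∀ x' ∈ R,
      |W i (x i).val (x' i).val - W j (x j).val (x' j).val| ≤ 1 := by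
    intro i j hij x hx x' hx'
    have h2 := (hcon i j hij).2
    have h3 := le_dis (S := proj i j R) (p := (x i, x j)) (q := (x' i, x' j)) ⟨x, hx, rfl⟩
      ⟨x', hx', rfl⟩
    rw [h2] at h3
    have h4 := h3.trans (ghDist_Q_le i j)
    rw [Q_dist, Q_dist] at h4
    exact_mod_cast h4
  have h2 : ∀ m : Fin 4, ∃ x ∈ R, (x 0).val = m := by
    intro m
    obtain ⟨y, x, hx, hxy⟩ := (hcon 0 1 (by decide)).1.1 ⟨m⟩
    refine ⟨x, hx, ?_⟩
    have := congrArg Prod.fst hxy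
    simp only at this
    rw [this]
  choose x hx hxm using h2
  have h3 : ∀ m n : Fin 4, |W 0 m n - W 1 (x m 1).val (x n 1).val| ≤ 1 := by
    intro m n
    have := h1 0 1 (by decide) _ (hx m) _ (hx n)
    rwa [hxm, hxm] at this
  have h4 : ∀ m n : Fin 4, |W 0 m n - W 2 (x m 2).val (x n 2).val| ≤ 1 := by
    intro m n
    have := h1 0 2 (by decide) _ (hx m) _ (hx n)
    rwa [hxm, hxm] at this
  have h5 : ∀ m n : Fin 4, |W 1 (x m 1).val (x n 1).val - W 2 (x m 2).val (x n 2).val| ≤ 1 :=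
    fun m n => h1 1 2 (by decide) _ (hx m) _ (hx n)
  exact no_triple (fun m => (x m 1).val) (fun m => (x m 2).val) h3 h4 h5

end Pool.Agent.V11215.Corr
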