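import Mathlib

/-!
Maps from the circle of length `2π` to itself with distortion less than `2π/3` are coarsely
surjective.
-/

set_option autoImplicit false

namespace Pool.Agent.V11215.Circle

open Set Metric

/-- The circle of length `2π`. -/
abbrev S1 : Type := AddCircle (2 * Real.pi)

theorem two_pi_pos' : (0 : ℝ) < 2 * Real.pi := by positivity

instance : Fact ((0 : ℝ) < 2 * Real.pi) := ⟨two_pi_pos'⟩

theorem coe_int_mul (m : ℤ) : ((m * (2 * Real.pi) : ℝ) : S1) = 0 := by
  rw [AddCircle.coe_eq_zero_iff]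
  exact ⟨m, by simp⟩

theorem norm_le_abs_sub (y : ℝ) (m : ℤ) : ‖(y : S1)‖ ≤ |y - m * (2 * Real.pi)| := by
  have hp := two_pi_pos'
  rw [AddCircle.norm_eq' _ hp]
  have h := round_le ((2 * Real.pi)⁻¹ * y) m
  calc 2 * Real.pi * |(2 * Real.pi)⁻¹ * y - round ((2 * Real.pi)⁻¹ * y)|
      ≤ 2 * Real.pi * |(2 * Real.pi)⁻¹ * y - m| := by gcongr
    _ = |2 * Real.pi * ((2 * Real.pi)⁻¹ * y - m)| := by
        rw [abs_mul, abs_of_pos hp]
    _ = |y - m * (2 * Real.pi)| := by
        congr 1
        field_simp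

theorem norm_le_abs (y : ℝ) : ‖(y : S1)‖ ≤ |y| := by
  simpa using norm_le_abs_sub y 0

theorem norm_le_pi (q : S1) : ‖q‖ ≤ Real.pi := by
  have := AddCircle.norm_le_half_period (2 * Real.pi) (x := q) two_pi_pos'.ne'
  rw [abs_of_pos two_pi_pos'] at this
  linarith

theorem norm_eq_abs {y : ℝ} (h : |y| ≤ Real.pi) : ‖(y : S1)‖ = |y| := by
  rw [AddCircle.norm_coe_eq_abs_iff _ two_pi_pos'.ne', abs_of_pos two_pi_pos']
  linarith

theorem exists_int (y : ℝ) : ∃ m : ℤ, ‖(y : S1)‖ = |y - m * (2 * Real.pi)| :=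
  ⟨_, AddCircle.norm_eq _⟩

theorem exists_rep (q : S1) : ∃ x : ℝ, (x : S1) = q ∧ |x| = ‖q‖ := by
  induction q using QuotientAddGroup.induction_on with
  | H y =>
    obtain ⟨m, hm⟩ := exists_int y
    refine ⟨y - m * (2 * Real.pi), ?_, hm.symm⟩
    have : ((y - m * (2 * Real.pi) : ℝ) : S1) = (y : S1) - ((m * (2 * Real.pi) : ℝ) : S1) := rfl
    rw [this, coe_int_mul, sub_zero]

/-- If `y` is far from `2πℤ` then it is close to an odd multiple of `π`. -/
theorem near_odd {y c : ℝ} (h : Real.pi - c ≤ ‖(y : S1)‖) :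
    ∃ m : ℤ, |y - (2 * m + 1) * Real.pi| ≤ c := by
  obtain ⟨m, hm⟩ := exists_int y
  have h2 := norm_le_pi (y : S1)
  rw [hm] at h h2
  rcases le_total 0 (y - m * (2 * Real.pi)) with h0 | h0
  · rw [abs_of_nonneg h0] at h h2
    refine ⟨m, ?_⟩
    rw [abs_le]
    constructor <;> nlinarith
  · rw [abs_of_nonpos h0] at h h2
    refine ⟨m - 1, ?_⟩
    push_cast
    rw [abs_le]
    constructor <;> nlinarith

theorem odd_unique {y y' c : ℝ} {m m' : ℤ} (h : |y - (2 * m + 1) * Real.pi| ≤ c)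
    (h' : |y' - (2 * m' + 1) * Real.pi| ≤ c) (hy : |y - y'| ≤ c) (hc : 3 * c < 2 * Real.pi) :
    m = m' := by
  have hp := Real.pi_pos
  rw [abs_le] at h h' hy
  have h1 : ((m - m' : ℤ) : ℝ) * (2 * Real.pi) < 1 * (2 * Real.pi) := by
    push_cast
    nlinarith
  have h2 : (-1) * (2 * Real.pi) < ((m - m' : ℤ) : ℝ) * (2 * Real.pi) := by
    push_cast
    nlinarith
  have h3 := lt_of_mul_lt_mul_right h1 two_pi_pos'.le
  have h4 := lt_of_mul_lt_mul_right h2 two_pi_pos'.le
  have h5 : m - m' < 1 := by exact_mod_cast h3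
  have h6 : -1 < m - m' := by exact_mod_cast h4
  omega

/-- Discrete intermediate value theorem. -/
theorem discrete_ivt (x : ℕ → ℝ) (c : ℝ) (hx : ∀ i, |x (i + 1) - x i| ≤ c) (M : ℕ) (y : ℝ)
    (h0 : x 0 ≤ y) (h1 : y ≤ x M) : ∃ i, |y - x i| ≤ c / 2 := by
  by_contra hcon
  push Not at hcon
  have key : ∀ i, x i ≤ y := by
    intro i
    induction i with
    | zero => exact h0
    | succ n ih =>
      by_contra hlt
      push Not at hlt
      have a := hcon n
      have b := hcon (n + 1)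
      rw [abs_of_nonneg (by linarith)] at a
      rw [abs_of_nonpos (by linarith)] at b
      have := le_of_abs_le (hx n)
      linarith
  have := hcon M
  rw [le_antisymm h1 (key M), sub_self, abs_zero] at this
  have h3 := hcon M
  have h4 := (abs_nonneg _).trans (hx 0)
  linarith

theorem discrete_ivt' (x : ℕ → ℝ) (c : ℝ) (hx : ∀ i, |x (i + 1) - x i| ≤ c) (M : ℕ) (y : ℝ)
    (h0 : y ≤ x 0) (h1 : x M ≤ y) : ∃ i, |y - x i| ≤ c / 2 := by
  obtain ⟨i, hi⟩ := discrete_ivt (fun i => - x i) c (fun i => by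
    have : - x (i + 1) - - x i = -(x (i + 1) - x i) := by ring
    simp only [this, abs_neg]
    exact hx i) M (-y) (by simpa using h0) (by simpa using h1)
  refine ⟨i, ?_⟩
  have : - y - - x i = -(y - x i) := by ring
  rwa [this, abs_neg] at hi

/-- A self-map of the circle with distortion at most `D`, where `D + π/N < 2π/3`, is
`(D + π/N)/2`-surjective. -/
theorem coarse_surj (f : S1 → S1) (D : ℝ) (hD : 0 ≤ D)
    (hf : ∀ p q, |dist (f p) (f q) - dist p q| ≤ D) (N : ℕ) (hN : 0 < N)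
    (hDN : 3 * (D + Real.pi / N) < 2 * Real.pi) (p : S1) :
    ∃ q, dist p (f q) ≤ (D + Real.pi / N) / 2 := by
  have hpi := Real.pi_pos
  have hN' : (0 : ℝ) < N := by exact_mod_cast hN
  set δ := Real.pi / N with hδ
  have hδ0 : 0 < δ := by positivity
  have hNδ : (N : ℝ) * δ = Real.pi := by
    rw [hδ]
    field_simp
  set c := D + δ with hc
  -- the points
  let P : ℕ → S1 := fun i => ((i * δ : ℝ) : S1)
  have hPsub : ∀ i j : ℕ, P j - P i = (((j - i : ℝ) * δ : ℝ) : S1) := by
    intro i j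
    have : (((j - i : ℝ) * δ : ℝ) : S1) = ((j * δ : ℝ) : S1) - ((i * δ : ℝ) : S1) := by
      rw [sub_mul]
      rfl
    rw [this]
  have hP1 : ∀ i, dist (P (i + 1)) (P i) ≤ δ := by
    intro i
    rw [dist_eq_norm, hPsub]
    refine (norm_le_abs _).trans ?_
    push_cast
    rw [add_sub_cancel_left, one_mul, abs_of_pos hδ0]
  have hstep : ∀ i, dist (f (P (i + 1))) (f (P i)) ≤ c := by
    intro i
    have h1 := le_of_abs_le (hf (P (i + 1)) (P i))
    have h2 := hP1 i
    linarith
  -- the lift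
  have hlift : ∀ i, ∃ s : ℝ, (s : S1) = f (P (i + 1)) - f (P i) ∧
      |s| = ‖f (P (i + 1)) - f (P i)‖ := fun i => exists_rep _
  choose s hs1 hs2 using hlift
  obtain ⟨x0, hx0, _⟩ := exists_rep (f (P 0))
  obtain ⟨x, hx00, hx_succ⟩ : ∃ x : ℕ → ℝ, x 0 = x0 ∧ ∀ i, x (i + 1) = x i + s i :=
    ⟨fun i => Nat.rec x0 (fun n y => y + s n) i, rfl, fun i => rfl⟩
  subst hx00
  have hxf : ∀ i : ℕ, ((x i : ℝ) : S1) = f (P i) := by
    intro i
    induction i with
    | zero => exact hx0
    | succ n ih =>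
      rw [hx_succ]
      have : ((x n + s n : ℝ) : S1) = (x n : S1) + (s n : S1) := rfl
      rw [this, ih, hs1]
      abel
  have hx_step : ∀ i, |x (i + 1) - x i| ≤ c := by
    intro i
    rw [hx_succ, add_sub_cancel_left, hs2, ← dist_eq_norm]
    exact hstep i
  have hsub : ∀ i j, ((x j - x i : ℝ) : S1) = f (P j) - f (P i) := by
    intro i j
    have : ((x j - x i : ℝ) : S1) = (x j : S1) - (x i : S1) := rfl
    rw [this, hxf, hxf]
  -- antipodal points
  have hfar : ∀ i, Real.pi - δ ≤ dist (P (i + N)) (P (i + 1)) := by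
    intro i
    rw [dist_eq_norm, hPsub]
    push_cast
    have e : ((i : ℝ) + N - (i + 1)) * δ = Real.pi - δ := by
      rw [← hNδ]
      ring
    rw [e, norm_eq_abs]
    · exact le_abs_self _
    · rw [abs_le]
      have : δ ≤ Real.pi := by
        rw [← hNδ]
        have : (1 : ℝ) ≤ N := by exact_mod_cast hN
        nlinarith
      constructor <;> linarith
  have hfar' : ∀ i, Real.pi ≤ dist (P (i + N)) (P i) := by
    intro i
    rw [dist_eq_norm, hPsub]
    push_cast
    have e : ((i : ℝ) + N - i) * δ = Real.pi := by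
      rw [← hNδ]
      ring
    rw [e, norm_eq_abs]
    · exact le_abs_self _
    · rw [abs_of_pos hpi]
  have hG : ∀ i, Real.pi - c ≤ ‖((x (i + N) - x i : ℝ) : S1)‖ := by
    intro i
    rw [hsub, ← dist_eq_norm]
    have h1 := neg_le_of_abs_le (hf (P (i + N)) (P i))
    have h2 := hfar' i
    linarith
  have hG' : ∀ i, Real.pi - c ≤ ‖((x (i + N) - x (i + 1) : ℝ) : S1)‖ := by
    intro i
    rw [hsub, ← dist_eq_norm]
    have h1 := neg_le_of_abs_le (hf (P (i + N)) (P (i + 1)))
    have h2 := hfar i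
    linarith
  obtain ⟨m, hm⟩ := near_odd (hG 0)
  have hmi : ∀ i, |(x (i + N) - x i) - (2 * m + 1) * Real.pi| ≤ c := by
    intro i
    induction i with
    | zero => exact hm
    | succ n ih =>
      obtain ⟨m1, h1⟩ := near_odd (hG' n)
      obtain ⟨m2, h2⟩ := near_odd (hG (n + 1))
      have e1 : m = m1 := by
        refine odd_unique ih h1 ?_ hDN
        have : x (n + N) - x n - (x (n + N) - x (n + 1)) = x (n + 1) - x n := by ring
        rw [this]
        exact hx_step n
      have e2 : m1 = m2 := by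
        refine odd_unique h1 h2 ?_ hDN
        have e3 : n + 1 + N = n + N + 1 := by ring
        have : x (n + N) - x (n + 1) - (x (n + 1 + N) - x (n + 1)) =
            -(x (n + N + 1) - x (n + N)) := by
          rw [e3]
          ring
        rw [this, abs_neg]
        exact hx_step _
      rw [e1, e2]
      exact h2
  have h0 := hmi 0
  have hN1 := hmi N
  -- the degree
  have hdeg : ∃ d : ℤ, x (N + N) - x 0 = d * (2 * Real.pi) := by
    have : ((x (N + N) - x 0 : ℝ) : S1) = 0 := by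
      rw [hsub]
      have : P (N + N) = P 0 := by
        rw [← sub_eq_zero, hPsub]
        push_cast
        have e : ((N : ℝ) + N - 0) * δ = (1 : ℤ) * (2 * Real.pi) := by
          push_cast
          rw [← hNδ]
          ring
        rw [e, coe_int_mul]
      rw [this, sub_self]
    rw [AddCircle.coe_eq_zero_iff] at this
    obtain ⟨d, hd⟩ := this
    exact ⟨d, by rw [← hd]; simp⟩
  obtain ⟨d, hd⟩ := hdeg
  have hdm : d = 2 * m + 1 := by
    rw [zero_add] at h0
    rw [abs_le] at h0 hN1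
    have e : x (N + N) - x N + (x N - x 0) = d * (2 * Real.pi) := by
      rw [← hd]
      ring
    have h1 : ((d - (2 * m + 1) : ℤ) : ℝ) * (2 * Real.pi) < 1 * (2 * Real.pi) := by
      push_cast
      nlinarith
    have h2 : (-1) * (2 * Real.pi) < ((d - (2 * m + 1) : ℤ) : ℝ) * (2 * Real.pi) := by
      push_cast
      nlinarith
    have h3 := lt_of_mul_lt_mul_right h1 two_pi_pos'.le
    have h4 := lt_of_mul_lt_mul_right h2 two_pi_pos'.le
    have h5 : d - (2 * m + 1) < 1 := by exact_mod_cast h3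
    have h6 : -1 < d - (2 * m + 1) := by exact_mod_cast h4
    omega
  have hd0 : 1 ≤ d ∨ d ≤ -1 := by omega
  -- surjectivity
  obtain ⟨t, ht, _⟩ := exists_rep (p - (x 0 : S1))
  have hfin : ∀ (y : ℝ) (i : ℕ), (y : S1) = p → |y - x i| ≤ c / 2 →
      ∃ q, dist p (f q) ≤ c / 2 := by
    intro y i hy hi
    refine ⟨P i, ?_⟩
    rw [← hy, ← hxf, dist_eq_norm]
    exact (norm_le_abs _).trans hi
  rcases hd0 with hd0 | hd0
  · let y := x 0 + (t - ⌊t / (2 * Real.pi)⌋ * (2 * Real.pi))
    have hy : (y : S1) = p := by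
      have : (y : S1) = (x 0 : S1) + ((t : S1) - ((⌊t / (2 * Real.pi)⌋ * (2 * Real.pi) : ℝ) : S1)) :=
        rfl
      rw [this, coe_int_mul, ht]
      abel
    have hfl := Int.floor_le (t / (2 * Real.pi))
    have hfl' := Int.lt_floor_add_one (t / (2 * Real.pi))
    rw [le_div_iff₀ two_pi_pos'] at hfl
    rw [div_lt_iff₀ two_pi_pos'] at hfl'
    have hd' : (1 : ℝ) ≤ d := by exact_mod_cast hd0
    obtain ⟨i, hi⟩ := discrete_ivt x c hx_step (N + N) y (by simp only [y]; linarith)
      (by simp only [y]; nlinarith)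
    exact hfin y i hy hi
  · let y := x 0 + (t - (⌊t / (2 * Real.pi)⌋ + 1 : ℤ) * (2 * Real.pi))
    have hy : (y : S1) = p := by
      have : (y : S1) = (x 0 : S1) + ((t : S1) -
        (((⌊t / (2 * Real.pi)⌋ + 1 : ℤ) * (2 * Real.pi) : ℝ) : S1)) := rfl
      rw [this, coe_int_mul, ht]
      abel
    have hfl := Int.floor_le (t / (2 * Real.pi))
    have hfl' := Int.lt_floor_add_one (t / (2 * Real.pi))
    rw [le_div_iff₀ two_pi_pos'] at hfl
    rw [div_lt_iff₀ two_pi_pos'] at hfl'
    have hd' : (d : ℝ) ≤ -1 := by exact_mod_cast hd0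
    obtain ⟨i, hi⟩ := discrete_ivt' x c hx_step (N + N) y
      (by simp only [y]; push_cast; linarith) (by simp only [y]; push_cast; nlinarith)
    exact hfin y i hy hi

end Pool.Agent.V11215.Circle
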