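import Mathlib

/-!
Gromov–Hausdorff distance for arbitrary metric spaces: definition and the elementary comparison with
correspondences.
-/

set_option autoImplicit false

universe u

namespace Pool.Agent.V11215.GH

open Set Metric
open scoped ENNReal

/-- The Gromov–Hausdorff distance `d_GH(X, Y) ∈ [0, ∞]`: the infimum of the Hausdorff distances
`d_H(φ(X), ψ(Y))` over all metric spaces `Z` and all isometric embeddings `φ : X → Z`,
`ψ : Y → Z`. -/
noncomputable def ghDist (X Y : Type u) [MetricSpace X] [MetricSpace Y] : ℝ≥0∞ :=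
  ⨅ (Z : Type u) (_ : MetricSpace Z) (φ : X → Z) (ψ : Y → Z) (_ : Isometry φ) (_ : Isometry ψ),
    hausdorffEDist (range φ) (range ψ)

variable {X Y : Type u} [MetricSpace X] [MetricSpace Y]

theorem ghDist_le_of_isometry {Z : Type u} [MetricSpace Z] {φ : X → Z} {ψ : Y → Z}
    (hφ : Isometry φ) (hψ : Isometry ψ) : ghDist X Y ≤ hausdorffEDist (range φ) (range ψ) := by
  unfold ghDist
  exact iInf_le_of_le Z (iInf_le_of_le _ (iInf_le_of_le φ (iInf_le_of_le ψ
    (iInf_le_of_le hφ (iInf_le_of_le hψ le_rfl)))))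

/-- A correspondence with distortion at most `2 r` bounds the Gromov–Hausdorff distance by `r`. -/
theorem ghDist_le [Nonempty X] (R : X → Y → Prop) (hX : ∀ x, ∃ y, R x y) (hY : ∀ y, ∃ x, R x y)
    (r : ℝ) (hr : 0 < r)
    (h : ∀ x y x' y', R x y → R x' y' → |dist x x' - dist y y'| ≤ 2 * r) :
    ghDist X Y ≤ ENNReal.ofReal r := by
  let P := {p : X × Y // R p.1 p.2}
  haveI : Nonempty P := by
    obtain ⟨x⟩ := ‹Nonempty X›
    obtain ⟨y, hy⟩ := hX x
    exact ⟨⟨(x, y), hy⟩⟩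
  let Φ : P → X := fun p => p.1.1
  let Ψ : P → Y := fun p => p.1.2
  have hd : ∀ p q : P, |dist (Φ p) (Φ q) - dist (Ψ p) (Ψ q)| ≤ 2 * r :=
    fun p q => h _ _ _ _ p.2 q.2
  letI : MetricSpace (X ⊕ Y) := glueMetricApprox Φ Ψ r hr hd
  have hl : Isometry (Sum.inl : X → X ⊕ Y) := Isometry.of_dist_eq fun _ _ => rfl
  have hrr : Isometry (Sum.inr : Y → X ⊕ Y) := Isometry.of_dist_eq fun _ _ => rfl
  refine (ghDist_le_of_isometry hl hrr).trans ?_
  apply hausdorffEDist_le_of_mem_edist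
  · rintro _ ⟨x, rfl⟩
    obtain ⟨y, hy⟩ := hX x
    refine ⟨Sum.inr y, mem_range_self y, ?_⟩
    rw [edist_dist]
    apply ENNReal.ofReal_le_ofReal
    exact (glueDist_glued_points Φ Ψ r (⟨(x, y), hy⟩ : P)).le
  · rintro _ ⟨y, rfl⟩
    obtain ⟨x, hx⟩ := hY y
    refine ⟨Sum.inl x, mem_range_self x, ?_⟩
    rw [edist_dist, dist_comm]
    apply ENNReal.ofReal_le_ofReal
    exact (glueDist_glued_points Φ Ψ r (⟨(x, y), hx⟩ : P)).le

/-- If two sets in a metric space are at Hausdorff distance `< r` then the relation of being at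
distance `< r` is total on both sides. -/
theorem exists_rel_of_ghDist_lt {r : ℝ} (h : ghDist X Y < ENNReal.ofReal r) :
    ∃ R : X → Y → Prop, (∀ x, ∃ y, R x y) ∧ (∀ y, ∃ x, R x y) ∧
      ∀ x y x' y', R x y → R x' y' → |dist x x' - dist y y'| < 2 * r := by
  unfold ghDist at h
  simp only [iInf_lt_iff] at h
  obtain ⟨Z, mZ, φ, ψ, hφ, hψ, hlt⟩ := h
  refine ⟨fun x y => dist (φ x) (ψ y) < r, fun x => ?_, fun y => ?_, ?_⟩
  · obtain ⟨_, ⟨y, rfl⟩, hy⟩ := exists_edist_lt_of_hausdorffEDist_lt (mem_range_self x) hlt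
    refine ⟨y, ?_⟩
    rw [edist_dist] at hy
    exact (ENNReal.ofReal_lt_ofReal_iff_of_nonneg dist_nonneg).1 hy
  · rw [hausdorffEDist_comm] at hlt
    obtain ⟨_, ⟨x, rfl⟩, hx⟩ := exists_edist_lt_of_hausdorffEDist_lt (mem_range_self y) hlt
    refine ⟨x, ?_⟩
    rw [edist_dist, dist_comm] at hx
    exact (ENNReal.ofReal_lt_ofReal_iff_of_nonneg dist_nonneg).1 hx
  · intro x y x' y' h1 h2
    rw [← hφ.dist_eq x x', ← hψ.dist_eq y y', abs_lt]
    have t1 := dist_triangle4 (φ x) (ψ y) (ψ y') (φ x')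
    have t2 := dist_triangle4 (ψ y) (φ x) (φ x') (ψ y')
    rw [dist_comm (ψ y') (φ x')] at t1
    rw [dist_comm (ψ y) (φ x)] at t2
    constructor <;> linarith

end Pool.Agent.V11215.GH
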