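import Mathlib

open MeasureTheory Set Topology Filter
open scoped Pointwise

namespace Pool.Agent.V11215.AnA

/-- A continuous image of a Polish space under a map all of whose images of nonempty open sets
are somewhere dense is comeager in a nonempty open set. -/
theorem comeager_image {X : Type*} [TopologicalSpace X] [PolishSpace X] [Nonempty X]
    (g : X → ℝ) (hg : Continuous g)
    (h : ∀ U : Set X, IsOpen U → U.Nonempty → (interior (closure (g '' U))).Nonempty) :
    ∃ O : Set ℝ, IsOpen O ∧ O.Nonempty ∧ ∃ R : Set ℝ, IsMeagre R ∧ O \ R ⊆ range g := by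
  classical
  let _ := TopologicalSpace.upgradeIsCompletelyMetrizable X
  set B := TopologicalSpace.countableBasis X with hB
  have hBb := TopologicalSpace.isBasis_countableBasis X
  have hBc : B.Countable := TopologicalSpace.countable_countableBasis X
  set O : Set X → Set ℝ := fun U => interior (closure (g '' U)) with hO
  set V : ℕ → Set X → Set (Set X) := fun n U =>
    {U' | U' ∈ B ∧ U'.Nonempty ∧ closure U' ⊆ U ∧ ∀ x ∈ U', ∀ y ∈ U', dist x y ≤ 1 / (n + 1 : ℝ)} with hV
  -- density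
  have hdense : ∀ (n : ℕ) (U : Set X), IsOpen U → O U ⊆ closure (⋃ U' ∈ V n U, O U') := by
    intro n U hU y hy
    rw [mem_closure_iff]
    intro N hN hyN
    have hNO : IsOpen (N ∩ O U) := hN.inter isOpen_interior
    have hy2 : y ∈ closure (g '' U) := interior_subset hy
    obtain ⟨z, hz, x, hxU, rfl⟩ := mem_closure_iff.1 hy2 (N ∩ O U) hNO ⟨hyN, hy⟩
    -- a closed neighbourhood of g x in N
    obtain ⟨N', hN'x, hN'c, hN'N⟩ := exists_mem_nhds_isClosed_subset (hN.mem_nhds hz.1)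
    have h1 : g ⁻¹' N' ∈ 𝓝 x := hg.continuousAt.preimage_mem_nhds hN'x
    have h2 : U ∈ 𝓝 x := hU.mem_nhds hxU
    obtain ⟨K, hKx, hKc, hKU⟩ := exists_mem_nhds_isClosed_subset (inter_mem h1 h2)
    have hpos : (0 : ℝ) < 1 / (n + 1 : ℝ) / 2 := by positivity
    have h3 : K ∩ Metric.ball x (1 / (n + 1 : ℝ) / 2) ∈ 𝓝 x := inter_mem hKx (Metric.ball_mem_nhds x hpos)
    obtain ⟨U', hU'B, hxU', hU'K⟩ := hBb.mem_nhds_iff.1 h3
    have hU'V : U' ∈ V n U := by
      refine ⟨hU'B, ⟨x, hxU'⟩, ?_, ?_⟩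
      · have : closure U' ⊆ K := closure_minimal (fun z hz => (hU'K hz).1) hKc
        exact this.trans (fun z hz => (hKU hz).2)
      · intro a ha b hb
        have h4 := (hU'K ha).2
        have h5 := (hU'K hb).2
        rw [Metric.mem_ball] at h4 h5
        calc dist a b ≤ dist a x + dist b x := dist_triangle_right a b x
          _ ≤ 1 / (n + 1 : ℝ) / 2 + 1 / (n + 1 : ℝ) / 2 := by linarith
          _ = 1 / (n + 1 : ℝ) := by ring
    have hU'o : IsOpen U' := hBb.isOpen hU'B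
    obtain ⟨w, hw⟩ := h U' hU'o ⟨x, hxU'⟩
    have hsub : closure (g '' U') ⊆ N' := by
      refine closure_minimal ?_ hN'c
      rintro _ ⟨t, ht, rfl⟩
      exact (hKU (hU'K ht).1).1
    refine ⟨w, hN'N (hsub (interior_subset hw)), ?_⟩
    exact mem_biUnion hU'V hw
  -- the exceptional sets
  set E : ℕ → Set X → Set ℝ := fun n U => closure (⋃ U' ∈ V n U, O U') \ ⋃ U' ∈ V n U, O U' with hE
  have hEn : ∀ n U, IsMeagre (E n U) := by
    intro n U
    have hop : IsOpen (⋃ U' ∈ V n U, O U') := isOpen_biUnion (fun _ _ => isOpen_interior)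
    have : E n U = frontier (⋃ U' ∈ V n U, O U') := by
      rw [hop.frontier_eq]
    rw [this]
    apply IsNowhereDense.isMeagre
    rw [isClosed_frontier.isNowhereDense_iff]
    rw [← frontier_compl]
    exact interior_frontier hop.isClosed_compl
  set R : Set ℝ := ⋃ n : ℕ, ⋃ U ∈ insert univ B, E n U with hR
  have hRm : IsMeagre R := by
    refine isMeagre_iUnion (fun n => ?_)
    exact isMeagre_biUnion (hBc.insert _) (fun U _ => hEn n U)
  refine ⟨O univ, isOpen_interior, h univ isOpen_univ univ_nonempty, R, hRm, ?_⟩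
  rintro y ⟨hy, hyR⟩
  have hstep : ∀ (n : ℕ) (U : Set X), U ∈ insert univ B → y ∈ O U → ∃ U' ∈ V n U, y ∈ O U' := by
    intro n U hU hyU
    have hUo : IsOpen U := by
      rcases hU with rfl | hU
      · exact isOpen_univ
      · exact hBb.isOpen hU
    by_contra hcon
    push Not at hcon
    apply hyR
    refine mem_iUnion.2 ⟨n, mem_biUnion hU ⟨hdense n U hUo hyU, ?_⟩⟩
    intro hmem
    obtain ⟨U', hU', hyU'⟩ := mem_iUnion₂.1 hmem
    exact hcon U' hU' hyU'
  choose! f hf1 hf2 using hstep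
  -- the nested sequence
  let W : ℕ → Set X := fun n => Nat.rec univ (fun n U => f n U) n
  have hW : ∀ n, W n ∈ insert univ B ∧ y ∈ O (W n) := by
    intro n
    induction n with
    | zero => exact ⟨mem_insert _ _, hy⟩
    | succ n ih => exact ⟨mem_insert_of_mem _ (hf1 n (W n) ih.1 ih.2).1, hf2 n (W n) ih.1 ih.2⟩
  have hWV : ∀ n, W (n + 1) ∈ V n (W n) := fun n => hf1 n (W n) (hW n).1 (hW n).2
  have hne : ∀ n, (W (n + 1)).Nonempty := fun n => (hWV n).2.1
  choose x hx using hne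
  have hanti : ∀ m n, m ≤ n → W n ⊆ W m := by
    intro m n hmn
    induction hmn with
    | refl => exact subset_rfl
    | step hmn ih => exact (subset_closure.trans (hWV _).2.2.1).trans ih
  have hcauchy : CauchySeq x := by
    rw [Metric.cauchySeq_iff']
    intro ε hε
    obtain ⟨N, hN⟩ := exists_nat_one_div_lt hε
    refine ⟨N, fun n hn => ?_⟩
    have h1 : x n ∈ W (N + 1) := hanti (N + 1) (n + 1) (by omega) (hx n)
    exact lt_of_le_of_lt ((hWV N).2.2.2 _ h1 _ (hx N)) hN
  obtain ⟨a, ha⟩ := cauchySeq_tendsto_of_complete hcauchy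
  have haW : ∀ n, a ∈ closure (W n) := by
    intro n
    refine mem_closure_of_tendsto ha ?_
    filter_upwards [eventually_ge_atTop n] with k hk
    exact hanti n (k + 1) (by omega) (hx k)
  refine ⟨a, ?_⟩
  -- g a = y
  by_contra hne
  have hpos : 0 < dist (g a) y := dist_pos.2 hne
  obtain ⟨δ, hδ, hδ'⟩ := Metric.continuousAt_iff.1 (hg.continuousAt (x := a)) (dist (g a) y / 2) (by linarith)
  obtain ⟨N, hN⟩ := exists_nat_one_div_lt hδ
  -- all points of W (N+2) are near a
  have haN : a ∈ W (N + 1) := (hWV (N + 1)).2.2.1 (haW (N + 2))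
  have hsub : closure (g '' (W (N + 1))) ⊆ Metric.closedBall (g a) (dist (g a) y / 2) := by
    refine closure_minimal ?_ Metric.isClosed_closedBall
    rintro _ ⟨t, ht, rfl⟩
    rw [Metric.mem_closedBall]
    exact (hδ' (lt_of_le_of_lt ((hWV N).2.2.2 _ ht _ haN) hN)).le
  have hyc : y ∈ closure (g '' (W (N + 1))) := interior_subset (hW (N + 1)).2
  have := hsub hyc
  rw [Metric.mem_closedBall, dist_comm] at this
  linarith

/-- Steinhaus for sums of two sets of positive measure. -/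
theorem steinhaus_add {A B : Set ℝ} (hA : IsClosed A) (hB : IsClosed B) (hA0 : volume A ≠ 0)
    (hB0 : volume B ≠ 0) : (interior (A + B)).Nonempty := by
  have hBm := hB.measurableSet
  have hAm := hA.measurableSet
  -- find x₀ with A ∩ (x₀ - B) of positive measure
  have h1 : ∃ x : ℝ, volume (A ∩ (fun a => x - a) ⁻¹' B) ≠ 0 := by
    by_contra hcon
    push Not at hcon
    have h2 : (volume.prod volume) {q : ℝ × ℝ | q.2 ∈ A ∧ q.1 - q.2 ∈ B} = 0 := by
      have hm : MeasurableSet {q : ℝ × ℝ | q.2 ∈ A ∧ q.1 - q.2 ∈ B} := by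
        exact (measurable_snd hAm).inter ((measurable_fst.sub measurable_snd) hBm)
      rw [Measure.measure_prod_null hm]
      refine Filter.Eventually.of_forall (fun x => ?_)
      exact hcon x
    have h3 : (volume.prod volume) {q : ℝ × ℝ | q.2 ∈ A ∧ q.1 - q.2 ∈ B} = volume A * volume B := by
      have hm : MeasurableSet {q : ℝ × ℝ | q.2 ∈ A ∧ q.1 - q.2 ∈ B} := by
        exact (measurable_snd hAm).inter ((measurable_fst.sub measurable_snd) hBm)
      rw [Measure.prod_apply_symm hm]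
      have h4 : ∀ y : ℝ, volume ((fun x => (x, y)) ⁻¹' {q : ℝ × ℝ | q.2 ∈ A ∧ q.1 - q.2 ∈ B}) =
          A.indicator (fun _ => volume B) y := by
        intro y
        by_cases hy : y ∈ A
        · rw [indicator_of_mem hy]
          have : ((fun x => (x, y)) ⁻¹' {q : ℝ × ℝ | q.2 ∈ A ∧ q.1 - q.2 ∈ B}) = (fun x => x - y) ⁻¹' B := by
            ext x; simp [hy]
          rw [this]
          simpa only [sub_eq_add_neg] using measure_preimage_add_right volume (-y) B
        · rw [indicator_of_notMem hy]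
          have : ((fun x => (x, y)) ⁻¹' {q : ℝ × ℝ | q.2 ∈ A ∧ q.1 - q.2 ∈ B}) = ∅ := by
            ext x; simp [hy]
          rw [this, measure_empty]
      simp_rw [h4]
      rw [lintegral_indicator hAm, lintegral_const]
      simp [mul_comm]
    rw [h2] at h3
    rcases mul_eq_zero.1 h3.symm with h | h
    · exact hA0 h
    · exact hB0 h
  obtain ⟨x, hx⟩ := h1
  set E : Set ℝ := A ∩ (fun a => x - a) ⁻¹' B with hE
  have hEm : MeasurableSet E := hAm.inter ((measurable_const.sub measurable_id) hBm)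
  have h5 : E - E ∈ 𝓝 (0 : ℝ) :=
    Measure.sub_mem_nhds_zero_of_addHaar_pos volume E hEm (pos_iff_ne_zero.2 hx)
  have h6 : (fun t => t - x) ⁻¹' (E - E) ∈ 𝓝 x := by
    apply ContinuousAt.preimage_mem_nhds (by fun_prop)
    simpa using h5
  have h7 : (fun t => t - x) ⁻¹' (E - E) ⊆ A + B := by
    intro t ht
    obtain ⟨a, ha, b, hb, hab⟩ := ht
    refine ⟨a, ha.1, x - b, hb.2, ?_⟩
    simp only at hab ⊢
    linarith
  exact ⟨x, mem_interior_iff_mem_nhds.2 (mem_of_superset h6 h7)⟩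

/-- `A` is covered by countably many closed Lebesgue-null sets. -/
def Small (A : Set ℝ) : Prop :=
  ∃ C : Set (Set ℝ), C.Countable ∧ (∀ K ∈ C, IsClosed K ∧ volume K = 0) ∧ A ⊆ ⋃₀ C

theorem Small.mono {A B : Set ℝ} (h : A ⊆ B) (hB : Small B) : Small A := by
  obtain ⟨C, h1, h2, h3⟩ := hB
  exact ⟨C, h1, h2, h.trans h3⟩

theorem Small.biUnion {ι : Type*} {I : Set ι} (hI : I.Countable) {A : ι → Set ℝ}
    (h : ∀ i ∈ I, Small (A i)) : Small (⋃ i ∈ I, A i) := by
  choose! C h1 h2 h3 using h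
  refine ⟨⋃ i ∈ I, C i, hI.biUnion h1, ?_, ?_⟩
  · intro K hK
    obtain ⟨i, hi, hKi⟩ := mem_iUnion₂.1 hK
    exact h2 i hi K hKi
  · intro x hx
    obtain ⟨i, hi, hxi⟩ := mem_iUnion₂.1 hx
    obtain ⟨K, hK, hxK⟩ := h3 i hi hxi
    exact ⟨K, mem_iUnion₂.2 ⟨i, hi, hK⟩, hxK⟩

theorem Small.union {A B : Set ℝ} (hA : Small A) (hB : Small B) : Small (A ∪ B) := by
  obtain ⟨C, h1, h2, h3⟩ := hA
  obtain ⟨C', h1', h2', h3'⟩ := hB
  refine ⟨C ∪ C', h1.union h1', ?_, ?_⟩
  · rintro K (hK | hK)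
    · exact h2 K hK
    · exact h2' K hK
  · rw [sUnion_union]
    exact union_subset_union h3 h3'

theorem small_of_closure {A : Set ℝ} (h : volume (closure A) = 0) : Small A :=
  ⟨{closure A}, countable_singleton _, by
    intro K hK
    rw [mem_singleton_iff.1 hK]
    exact ⟨isClosed_closure, h⟩, by
    simpa using subset_closure⟩

/-- A proper analytic subgroup of the line is covered by countably many closed null sets
(Laczkovich). -/
theorem small_of_analytic (G : AddSubgroup ℝ) (hG : AnalyticSet (G : Set ℝ))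
    (hne : (G : Set ℝ) ≠ univ) : Small (G : Set ℝ) := by
  classical
  rw [AnalyticSet_def] at hG
  rcases hG with hG | ⟨p, hp, hpr⟩
  · exact absurd G.zero_mem (by
      intro h0
      have : (0 : ℝ) ∈ (G : Set ℝ) := h0
      rw [hG] at this
      exact this)
  by_contra hns
  apply hne
  set B := TopologicalSpace.countableBasis (ℕ → ℕ) with hB
  have hBb := TopologicalSpace.isBasis_countableBasis (ℕ → ℕ)
  have hBc : B.Countable := TopologicalSpace.countable_countableBasis (ℕ → ℕ)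
  set I : Set (Set (ℕ → ℕ)) := {U | U ∈ B ∧ Small (p '' U)} with hI
  set W : Set (ℕ → ℕ) := ⋃ U ∈ I, U with hW
  have hWo : IsOpen W := isOpen_biUnion (fun U hU => hBb.isOpen hU.1)
  have hWs : Small (p '' W) := by
    have : p '' W = ⋃ U ∈ I, p '' U := by
      rw [hW, image_iUnion₂]
    rw [this]
    exact Small.biUnion (hBc.mono (fun U hU => hU.1)) (fun U hU => hU.2)
  set Z : Set (ℕ → ℕ) := Wᶜ with hZ
  have hZc : IsClosed Z := hWo.isClosed_compl
  -- local largeness
  have hloc : ∀ U : Set (ℕ → ℕ), IsOpen U → (U ∩ Z).Nonempty →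
      volume (closure (p '' (U ∩ Z))) ≠ 0 := by
    rintro U hU ⟨z, hzU, hzZ⟩ h0
    obtain ⟨U', hU'B, hzU', hU'U⟩ := hBb.mem_nhds_iff.1 (hU.mem_nhds hzU)
    apply hzZ
    refine mem_biUnion (x := U') ⟨hU'B, ?_⟩ hzU'
    have hsub : p '' U' ⊆ p '' (U ∩ Z) ∪ p '' W := by
      rintro _ ⟨t, ht, rfl⟩
      by_cases htW : t ∈ W
      · exact Or.inr ⟨t, htW, rfl⟩
      · exact Or.inl ⟨t, ⟨hU'U ht, htW⟩, rfl⟩
    exact ((small_of_closure h0).union hWs).mono hsub
  have hZne : Z.Nonempty := by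
    by_contra hcon
    rw [not_nonempty_iff_eq_empty] at hcon
    have : W = univ := by rw [← compl_empty_iff]; exact hcon
    rw [this, image_univ, hpr] at hWs
    exact hns hWs
  haveI : PolishSpace Z := hZc.polishSpace
  haveI : Nonempty Z := hZne.to_subtype
  obtain ⟨O, hO, hOne, R, hR, hOR⟩ := comeager_image (X := Z × Z) (fun q => p q.1 + p q.2)
    (by fun_prop) (by
      rintro U hU ⟨⟨a, b⟩, hab⟩
      obtain ⟨U1, U2, hU1, hU2, ha, hb, hsub⟩ := isOpen_prod_iff.1 hU a b hab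
      obtain ⟨V1, hV1, rfl⟩ := isOpen_induced_iff.1 hU1
      obtain ⟨V2, hV2, rfl⟩ := isOpen_induced_iff.1 hU2
      have h1 := hloc V1 hV1 ⟨a, ha, a.2⟩
      have h2 := hloc V2 hV2 ⟨b, hb, b.2⟩
      have h3 := steinhaus_add isClosed_closure isClosed_closure h1 h2
      refine h3.mono (interior_mono ?_)
      rintro _ ⟨x, hx, y, hy, rfl⟩
      refine map_mem_closure₂ continuous_add hx hy ?_
      rintro _ ⟨s, hs, rfl⟩ _ ⟨t, ht, rfl⟩
      exact ⟨(⟨s, hs.2⟩, ⟨t, ht.2⟩), hsub ⟨hs.1, ht.1⟩, rfl⟩)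
  have hsubG : O \ R ⊆ (G : Set ℝ) := by
    intro x hx
    obtain ⟨q, hq⟩ := hOR hx
    rw [← hq]
    have h1 : p q.1 ∈ (G : Set ℝ) := by rw [← hpr]; exact mem_range_self _
    have h2 : p q.2 ∈ (G : Set ℝ) := by rw [← hpr]; exact mem_range_self _
    exact G.add_mem h1 h2
  -- G contains a neighbourhood of 0
  obtain ⟨x₀, hx₀⟩ := hOne
  obtain ⟨ε, hε, hball⟩ := Metric.isOpen_iff.1 hO x₀ hx₀
  have hnb : ∀ t : ℝ, |t| < ε → t ∈ G := by
    intro t ht
    have hOt : IsOpen (O ∩ (fun x => x + t) ⁻¹' O) := hO.inter (hO.preimage (by fun_prop))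
    have hRt : IsMeagre ((fun x : ℝ => x + t) ⁻¹' R) := by
      exact hR.preimage_of_isOpenMap (by fun_prop) (Homeomorph.addRight t).isOpenMap
    have hne2 : (O ∩ (fun x => x + t) ⁻¹' O).Nonempty := by
      refine ⟨x₀, hx₀, hball ?_⟩
      rw [Metric.mem_ball, Real.dist_eq]
      simpa using ht
    have hnm : ¬ IsMeagre (O ∩ (fun x => x + t) ⁻¹' O) := not_isMeagre_of_isOpen hOt hne2
    have : ¬ (O ∩ (fun x => x + t) ⁻¹' O) ⊆ R ∪ (fun x : ℝ => x + t) ⁻¹' R :=
      fun hs => hnm ((hR.union hRt).mono hs)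
    obtain ⟨y, hy1, hy2⟩ := not_subset.1 this
    have h1 : y ∈ (G : Set ℝ) := hsubG ⟨hy1.1, fun h => hy2 (Or.inl h)⟩
    have h2 : y + t ∈ (G : Set ℝ) := hsubG ⟨hy1.2, fun h => hy2 (Or.inr h)⟩
    have := G.sub_mem h2 h1
    simpa using this
  rw [eq_univ_iff_forall]
  intro x
  obtain ⟨n, hn⟩ := exists_nat_gt (|x| / ε)
  have hn0 : (0 : ℝ) < n := lt_of_le_of_lt (by positivity) hn
  have h1 : x / n ∈ G := by
    apply hnb
    rw [abs_div, Nat.abs_cast, div_lt_iff₀ hn0]
    rw [div_lt_iff₀ hε] at hn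
    linarith
  have h2 := G.nsmul_mem h1 n
  rw [nsmul_eq_mul, mul_div_cancel₀ _ hn0.ne'] at h2
  exact h2

end Pool.Agent.V11215.AnA
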