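import Mathlib

open MeasureTheory Set Topology Filter

namespace Pool.Agent.V11215.AnB

/-- The partial order on the plane: equal, or strictly to the left and not above. -/
def Le (r s : ℝ × ℝ) : Prop := r = s ∨ (r.1 < s.1 ∧ r.2 ≤ s.2)

theorem Le.rfl' (r : ℝ × ℝ) : Le r r := Or.inl rfl

theorem Le.trans {r s t : ℝ × ℝ} (h : Le r s) (h' : Le s t) : Le r t := by
  rcases h with rfl | h
  · exact h'
  · rcases h' with rfl | h'
    · exact Or.inr h
    · exact Or.inr ⟨h.1.trans h'.1, h.2.trans h'.2⟩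

theorem Le.fst {r s : ℝ × ℝ} (h : Le r s) : r.1 ≤ s.1 := by
  rcases h with rfl | h
  · exact le_rfl
  · exact h.1.le

theorem Le.snd {r s : ℝ × ℝ} (h : Le r s) : r.2 ≤ s.2 := by
  rcases h with rfl | h
  · exact le_rfl
  · exact h.2

/-- A filling of the block with corners `p`, `p'`: a chain `P` of points with second coordinate in
`G` and a family `S` of sub-blocks avoiding `M`. -/
structure Fill (G : AddSubgroup ℝ) (M : Set ℝ) (p p' : ℝ × ℝ) (P : Set (ℝ × ℝ))
    (S : Set ((ℝ × ℝ) × (ℝ × ℝ))) : Prop where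
  left : p ∈ P
  right : p' ∈ P
  mem : ∀ r ∈ P, r.2 ∈ G
  betw : ∀ r ∈ P, Le p r ∧ Le r p'
  chain : ∀ r ∈ P, ∀ s ∈ P, Le r s ∨ Le s r
  sub : ∀ b ∈ S, b.1 ∈ P ∧ b.2 ∈ P ∧ b.1.1 < b.2.1 ∧ b.1.2 < b.2.2
  avy : ∀ b ∈ S, Disjoint (Icc b.1.1 b.2.1) M
  avx : ∀ b ∈ S, Disjoint (Icc (b.1.1 + b.1.2) (b.2.1 + b.2.2)) M
  sep : ∀ b ∈ S, ∀ r ∈ P, Le r b.1 ∨ Le b.2 r
  covy : ∀ y ∈ Icc p.1 p'.1, (∃ r ∈ P, r.1 = y) ∨ ∃ b ∈ S, y ∈ Icc b.1.1 b.2.1
  covx : ∀ x ∈ Icc (p.1 + p.2) (p'.1 + p'.2), (∃ r ∈ P, r.1 + r.2 = x) ∨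
    ∃ b ∈ S, x ∈ Icc (b.1.1 + b.1.2) (b.2.1 + b.2.2)

variable {G : AddSubgroup ℝ} {M : Set ℝ}

theorem Fill.append {p p' p'' : ℝ × ℝ} {P P' : Set (ℝ × ℝ)} {S S' : Set ((ℝ × ℝ) × (ℝ × ℝ))}
    (h : Fill G M p p' P S) (h' : Fill G M p' p'' P' S') : Fill G M p p'' (P ∪ P') (S ∪ S') where
  left := Or.inl h.left
  right := Or.inr h'.right
  mem := by
    rintro r (hr | hr)
    · exact h.mem r hr
    · exact h'.mem r hr
  betw := by
    have h1 : Le p p' := (h.betw p' h.right).1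
    have h2 : Le p' p'' := (h'.betw p' h'.left).2
    rintro r (hr | hr)
    · exact ⟨(h.betw r hr).1, (h.betw r hr).2.trans h2⟩
    · exact ⟨h1.trans (h'.betw r hr).1, (h'.betw r hr).2⟩
  chain := by
    rintro r (hr | hr) s (hs | hs)
    · exact h.chain r hr s hs
    · exact Or.inl ((h.betw r hr).2.trans (h'.betw s hs).1)
    · exact Or.inr ((h.betw s hs).2.trans (h'.betw r hr).1)
    · exact h'.chain r hr s hs
  sub := by
    rintro b (hb | hb)
    · obtain ⟨h1, h2, h3, h4⟩ := h.sub b hb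
      exact ⟨Or.inl h1, Or.inl h2, h3, h4⟩
    · obtain ⟨h1, h2, h3, h4⟩ := h'.sub b hb
      exact ⟨Or.inr h1, Or.inr h2, h3, h4⟩
  avy := by
    rintro b (hb | hb)
    · exact h.avy b hb
    · exact h'.avy b hb
  avx := by
    rintro b (hb | hb)
    · exact h.avx b hb
    · exact h'.avx b hb
  sep := by
    rintro b (hb | hb) r (hr | hr)
    · exact h.sep b hb r hr
    · exact Or.inr ((h.betw _ (h.sub b hb).2.1).2.trans (h'.betw r hr).1)
    · exact Or.inl ((h.betw r hr).2.trans (h'.betw _ (h'.sub b hb).1).1)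
    · exact h'.sep b hb r hr
  covy := by
    rintro y ⟨hy1, hy2⟩
    rcases le_total y p'.1 with hy | hy
    · rcases h.covy y ⟨hy1, hy⟩ with ⟨r, hr, hry⟩ | ⟨b, hb, hby⟩
      · exact Or.inl ⟨r, Or.inl hr, hry⟩
      · exact Or.inr ⟨b, Or.inl hb, hby⟩
    · rcases h'.covy y ⟨hy, hy2⟩ with ⟨r, hr, hry⟩ | ⟨b, hb, hby⟩
      · exact Or.inl ⟨r, Or.inr hr, hry⟩
      · exact Or.inr ⟨b, Or.inr hb, hby⟩
  covx := by
    rintro y ⟨hy1, hy2⟩
    rcases le_total y (p'.1 + p'.2) with hy | hy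
    · rcases h.covx y ⟨hy1, hy⟩ with ⟨r, hr, hry⟩ | ⟨b, hb, hby⟩
      · exact Or.inl ⟨r, Or.inl hr, hry⟩
      · exact Or.inr ⟨b, Or.inl hb, hby⟩
    · rcases h'.covx y ⟨hy, hy2⟩ with ⟨r, hr, hry⟩ | ⟨b, hb, hby⟩
      · exact Or.inl ⟨r, Or.inr hr, hry⟩
      · exact Or.inr ⟨b, Or.inr hb, hby⟩

/-- Some filling exists. -/
def Fillable (G : AddSubgroup ℝ) (M : Set ℝ) (p p' : ℝ × ℝ) : Prop := ∃ P S, Fill G M p p' P S

theorem Fillable.append {p p' p'' : ℝ × ℝ} (h : Fillable G M p p') (h' : Fillable G M p' p'') :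
    Fillable G M p p'' := by
  obtain ⟨P, S, h⟩ := h
  obtain ⟨P', S', h'⟩ := h'
  exact ⟨_, _, h.append h'⟩

/-- A plateau. -/
theorem fillable_plateau {y y' q : ℝ} (hq : q ∈ G) (hy : y ≤ y') :
    Fillable G M (y, q) (y', q) := by
  have hLe : ∀ a b : ℝ, a ≤ b → Le (a, q) (b, q) := by
    intro a b hab
    rcases hab.eq_or_lt with rfl | h
    · exact Or.inl rfl
    · exact Or.inr ⟨h, le_rfl⟩
  refine ⟨{r | r.2 = q ∧ y ≤ r.1 ∧ r.1 ≤ y'}, ∅, ?_, ?_, ?_, ?_, ?_, ?_, ?_, ?_, ?_, ?_, ?_⟩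
  · exact ⟨rfl, le_rfl, hy⟩
  · exact ⟨rfl, hy, le_rfl⟩
  · rintro ⟨a, b⟩ ⟨rfl, h1, h2⟩
    exact hq
  · rintro ⟨a, b⟩ ⟨rfl, h1, h2⟩
    exact ⟨hLe _ _ h1, hLe _ _ h2⟩
  · rintro ⟨a, b⟩ ⟨rfl, h1, h2⟩ ⟨c, d⟩ ⟨h3, h4, h5⟩
    simp only at h3
    subst h3
    rcases le_total a c with h | h
    · exact Or.inl (hLe _ _ h)
    · exact Or.inr (hLe _ _ h)
  · rintro b hb
    exact absurd hb (notMem_empty _)
  · rintro b hb
    exact absurd hb (notMem_empty _)
  · rintro b hb
    exact absurd hb (notMem_empty _)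
  · rintro b hb
    exact absurd hb (notMem_empty _)
  · rintro t ⟨h1, h2⟩
    exact Or.inl ⟨(t, q), ⟨rfl, h1, h2⟩, rfl⟩
  · rintro x ⟨h1, h2⟩
    refine Or.inl ⟨(x - q, q), ⟨rfl, ?_, ?_⟩, by simp⟩
    · simp only at h1 ⊢; linarith
    · simp only at h2 ⊢; linarith

/-- A single gap. -/
theorem fillable_gap {y y' q q' : ℝ} (hq : q ∈ G) (hq' : q' ∈ G) (hy : y < y') (hqq : q < q')
    (h1 : Disjoint (Icc y y') M) (h2 : Disjoint (Icc (y + q) (y' + q')) M) :
    Fillable G M (y, q) (y', q') := by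
  have hLe : Le (y, q) (y', q') := Or.inr ⟨hy, hqq.le⟩
  refine ⟨{(y, q), (y', q')}, {((y, q), (y', q'))}, ?_, ?_, ?_, ?_, ?_, ?_, ?_, ?_, ?_, ?_, ?_⟩
  · exact Or.inl rfl
  · exact Or.inr rfl
  · rintro r (rfl | rfl)
    · exact hq
    · exact hq'
  · rintro r (rfl | rfl)
    · exact ⟨Le.rfl' _, hLe⟩
    · exact ⟨hLe, Le.rfl' _⟩
  · rintro r (rfl | rfl) s (rfl | rfl)
    · exact Or.inl (Le.rfl' _)
    · exact Or.inl hLe
    · exact Or.inr hLe
    · exact Or.inl (Le.rfl' _)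
  · rintro b rfl
    exact ⟨Or.inl rfl, Or.inr rfl, hy, hqq⟩
  · rintro b rfl
    exact h1
  · rintro b rfl
    exact h2
  · rintro b rfl r (rfl | rfl)
    · exact Or.inl (Le.rfl' _)
    · exact Or.inr (Le.rfl' _)
  · rintro t ht
    exact Or.inr ⟨_, rfl, ht⟩
  · rintro t ht
    exact Or.inr ⟨_, rfl, ht⟩

/-- A single cell. -/
theorem fillable_cell (hMc : IsClosed M) (hM0 : volume M = 0) {x w h h' : ℝ} (hw : 0 < w)
    (hh : h ∈ G) (hh' : h' ∈ G) (hle : h ≤ h') (hlt : h' < h + w)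
    (hgood : h = h' ∨ Disjoint (Icc x (x + w)) M) :
    Fillable G M (x - h, h) (x + w - h', h') := by
  rcases hle.eq_or_lt with rfl | hlt'
  · exact fillable_plateau hh (by linarith)
  have hgood' : Disjoint (Icc x (x + w)) M := by
    rcases hgood with hg | hg
    · exact absurd hg hlt'.ne
    · exact hg
  have hex : ∃ c ∈ Ioo (x - h) (x + w - h'), c ∉ M := by
    by_contra hcon
    push Not at hcon
    have h1 : volume (Ioo (x - h) (x + w - h')) ≤ volume M := measure_mono hcon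
    rw [hM0, Real.volume_Ioo] at h1
    have h2 : ENNReal.ofReal (x + w - h' - (x - h)) = 0 := le_antisymm h1 zero_le
    rw [ENNReal.ofReal_eq_zero] at h2
    linarith
  obtain ⟨c, ⟨hc1, hc2⟩, hcM⟩ := hex
  obtain ⟨ε, hε, hball⟩ := Metric.isOpen_iff.1 hMc.isOpen_compl c hcM
  set r := min (ε / 2) ((x + w - h' - c) / 2) with hr
  have hr0 : 0 < r := lt_min (by linarith) (by linarith)
  have hr1 : r ≤ ε / 2 := min_le_left _ _
  have hr2 : r ≤ (x + w - h' - c) / 2 := min_le_right _ _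
  refine (fillable_plateau (y' := c) hh hc1.le).append
    ((fillable_gap (y' := c + r) (q' := h') hh hh' (by linarith) hlt' ?_ ?_).append
      (fillable_plateau hh' (by linarith)))
  · rw [disjoint_left]
    rintro t ⟨ht1, ht2⟩ htM
    refine hball ?_ htM
    rw [Metric.mem_ball, Real.dist_eq, abs_lt]
    constructor <;> linarith
  · refine hgood'.mono_left ?_
    rintro t ⟨ht1, ht2⟩
    constructor <;> linarith

/-- The block lemma. -/
theorem fillable_block (hd : Dense (G : Set ℝ)) (hMc : IsClosed M) (hM0 : volume M = 0)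
    {p p' : ℝ × ℝ} (hp : p.2 ∈ G) (hp' : p'.2 ∈ G) (h1 : p.1 < p'.1) (h2 : p.2 < p'.2) :
    Fillable G M p p' := by
  classical
  set x0 := p.1 + p.2 with hx0
  set x1 := p'.1 + p'.2 with hx1
  set L := p'.2 - p.2 with hL
  have hL0 : 0 < L := by linarith
  have hΛ : L < x1 - x0 := by linarith
  -- a compact set of measure > L in [x0,x1] \ M
  have hmeas : ENNReal.ofReal L < volume (Icc x0 x1 \ M) := by
    rw [measure_sdiff_null hM0, Real.volume_Icc]
    exact (ENNReal.ofReal_lt_ofReal_iff (by linarith)).2 hΛ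
  obtain ⟨K, hKsub, hKc, hKL⟩ :=
    (measurableSet_Icc.diff hMc.measurableSet).exists_lt_isCompact hmeas
  have hKfin : volume K ≠ ⊤ := hKc.measure_lt_top.ne
  set κ := (volume K).toReal with hκ
  have hκL : L < κ := by
    rw [hκ]
    exact (ENNReal.ofReal_lt_iff_lt_toReal hL0.le hKfin).1 hKL
  obtain ⟨δ, hδ, hthick⟩ := hKc.exists_thickening_subset_open hMc.isOpen_compl
    (fun x hx => (hKsub hx).2)
  obtain ⟨N, hN⟩ := exists_nat_gt ((x1 - x0) / δ)
  have hN0 : (0 : ℝ) < N := lt_of_le_of_lt (div_nonneg (by linarith) hδ.le) hN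
  set w := (x1 - x0) / N with hw
  have hw0 : 0 < w := div_pos (by linarith) hN0
  have hwδ : w < δ := by
    rw [hw, div_lt_iff₀ hN0]
    rw [div_lt_iff₀ hδ] at hN
    linarith
  have hNw : N * w = x1 - x0 := by
    rw [hw]; field_simp
  set cell : ℕ → Set ℝ := fun i => Icc (x0 + i * w) (x0 + i * w + w) with hcell
  set good : ℕ → Prop := fun i => (cell i ∩ K).Nonempty with hgood
  have hgoodM : ∀ i, good i → Disjoint (cell i) M := by
    rintro i ⟨k, ⟨hk1, hk2⟩, hkK⟩
    rw [disjoint_left]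
    rintro t ⟨ht1, ht2⟩ htM
    refine hthick ?_ htM
    rw [Metric.mem_thickening_iff]
    refine ⟨k, hkK, ?_⟩
    rw [Real.dist_eq, abs_lt]
    constructor <;> linarith
  set g : ℕ → ℕ := fun i => ((Finset.range i).filter good).card with hg
  have hg0 : g 0 = 0 := by simp [hg]
  have hgs : ∀ i, g (i + 1) = g i + if good i then 1 else 0 := by
    intro i
    simp only [hg, Finset.range_add_one, Finset.filter_insert]
    split_ifs with h
    · rw [Finset.card_insert_of_notMem (by simp)]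
    · simp
  have hcount : κ ≤ g N * w := by
    have hcov : K ⊆ ⋃ i ∈ (Finset.range N).filter good, cell i := by
      intro k hk
      obtain ⟨⟨hk1, hk2⟩, -⟩ := hKsub hk
      -- index
      rcases hk2.eq_or_lt with hk2 | hk2
      · have hN1 : 1 ≤ N := by
          rcases Nat.eq_zero_or_pos N with h | h
          · rw [h] at hN0; simp at hN0
          · exact h
        have hcast : ((N - 1 : ℕ) : ℝ) = N - 1 := by
          rw [Nat.cast_sub hN1]; simp
        have hkc : k ∈ cell (N - 1) := by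
          simp only [hcell, hcast]
          constructor
          · rw [hk2]; nlinarith
          · rw [hk2]; nlinarith
        refine mem_biUnion (x := N - 1) ?_ hkc
        simp only [Finset.coe_filter, Finset.mem_range, Set.mem_ofPred_eq]
        exact ⟨by omega, ⟨k, hkc, hk⟩⟩
      · set i := ⌊(k - x0) / w⌋₊ with hi
        have hnn : 0 ≤ (k - x0) / w := div_nonneg (by linarith) hw0.le
        have hi1 : (i : ℝ) ≤ (k - x0) / w := Nat.floor_le hnn
        have hi2 : (k - x0) / w < i + 1 := Nat.lt_floor_add_one _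
        rw [le_div_iff₀ hw0] at hi1
        rw [div_lt_iff₀ hw0] at hi2
        have hkc : k ∈ cell i := by
          simp only [hcell]
          constructor <;> nlinarith
        refine mem_biUnion (x := i) ?_ hkc
        simp only [Finset.coe_filter, Finset.mem_range, Set.mem_ofPred_eq]
        refine ⟨?_, ⟨k, hkc, hk⟩⟩
        have : (i : ℝ) * w < N * w := by rw [hNw]; linarith
        exact_mod_cast lt_of_mul_lt_mul_right this hw0.le
    have hle : volume K ≤ ENNReal.ofReal (g N * w) := by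
      calc volume K ≤ volume (⋃ i ∈ (Finset.range N).filter good, cell i) := measure_mono hcov
        _ ≤ ∑ i ∈ (Finset.range N).filter good, volume (cell i) := measure_biUnion_finset_le _ _
        _ = ∑ i ∈ (Finset.range N).filter good, ENNReal.ofReal w := by
            refine Finset.sum_congr rfl (fun i _ => ?_)
            simp [hcell, Real.volume_Icc]
        _ = ENNReal.ofReal (g N * w) := by
            rw [Finset.sum_const, nsmul_eq_mul, ENNReal.ofReal_mul (by positivity)]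
            simp [hg]
    rw [hκ]
    exact ENNReal.toReal_le_of_le_ofReal (by positivity) hle
  -- the increment
  have hκ0 : 0 < κ := by linarith
  have hγex : ∃ γ ∈ (G : Set ℝ), γ ∈ Ioo (w * L / κ) w := by
    have hlt : w * L / κ < w := by
      rw [div_lt_iff₀ hκ0]
      exact mul_lt_mul_of_pos_left hκL hw0
    obtain ⟨γ, hγ1, hγ2⟩ := hd.exists_mem_open isOpen_Ioo (nonempty_Ioo.2 hlt)
    exact ⟨γ, hγ1, hγ2⟩
  obtain ⟨γ, hγG, hγ1, hγ2⟩ := hγex
  have hγ0 : 0 < γ := lt_of_le_of_lt (by positivity) hγ1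
  have hgNγ : L ≤ g N * γ := by
    have h3 : w * L < γ * κ := by rwa [div_lt_iff₀ hκ0] at hγ1
    have h4 : γ * κ ≤ γ * (g N * w) := mul_le_mul_of_nonneg_left hcount hγ0.le
    have h5 : w * L < w * (g N * γ) := by linarith
    exact (lt_of_mul_lt_mul_left h5 hw0.le).le
  set h : ℕ → ℝ := fun i => min (p.2 + g i * γ) p'.2 with hh
  have hhG : ∀ i, h i ∈ G := by
    intro i
    simp only [hh]
    rcases min_choice (p.2 + g i * γ) p'.2 with h3 | h3
    · rw [h3]
      refine G.add_mem hp ?_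
      rw [← nsmul_eq_mul]
      exact G.nsmul_mem hγG _
    · rw [h3]; exact hp'
  have hh0 : h 0 = p.2 := by
    simp only [hh, hg0]
    simp [h2.le]
  have hhN : h N = p'.2 := by
    simp only [hh]
    exact min_eq_right (by linarith)
  have hstep : ∀ i, h i ≤ h (i + 1) ∧ h (i + 1) < h i + w ∧ (h i = h (i + 1) ∨ good i) := by
    intro i
    by_cases hgi : good i
    · have e : (g (i + 1) : ℝ) = g i + 1 := by
        rw [hgs i, if_pos hgi]; push_cast; ring
      refine ⟨?_, ?_, Or.inr hgi⟩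
      · simp only [hh, e]
        exact min_le_min (by nlinarith) le_rfl
      · simp only [hh, e]
        rw [← min_add_add_right]
        refine lt_min ?_ ?_
        · exact lt_of_le_of_lt (min_le_left _ _) (by nlinarith)
        · exact lt_of_le_of_lt (min_le_right _ _) (by linarith)
    · have e : g (i + 1) = g i := by
        rw [hgs i, if_neg hgi, add_zero]
      have e2 : h (i + 1) = h i := by simp only [hh, e]
      refine ⟨e2.ge, ?_, Or.inl e2.symm⟩
      rw [e2]; linarith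
  have hmain : ∀ i : ℕ, Fillable G M (x0 - h 0, h 0) (x0 + i * w - h i, h i) := by
    intro i
    induction i with
    | zero =>
      have : x0 + ((0 : ℕ) : ℝ) * w - h 0 = x0 - h 0 := by simp
      rw [this]
      exact fillable_plateau (hhG 0) le_rfl
    | succ i ih =>
      obtain ⟨s1, s2, s3⟩ := hstep i
      have := fillable_cell hMc hM0 (x := x0 + i * w) hw0 (hhG i) (hhG (i + 1)) s1 s2 (by
        rcases s3 with s3 | s3
        · exact Or.inl s3
        · exact Or.inr (hgoodM i s3))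
      have e : x0 + ((i + 1 : ℕ) : ℝ) * w - h (i + 1) = x0 + i * w + w - h (i + 1) := by
        push_cast; ring
      rw [e]
      exact ih.append this
  have := hmain N
  rw [hh0, hhN, hNw] at this
  have e1 : (x0 - p.2, p.2) = p := by
    ext
    · simp [hx0]
    · rfl
  have e2 : (x0 + (x1 - x0) - p'.2, p'.2) = p' := by
    ext
    · simp [hx1]
    · rfl
  rwa [e1, e2] at this

/-- The infinite recursion: a chain of points through a block which meets every point of
`⋃ M n` in both coordinates. -/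
theorem exists_chain (hd : Dense (G : Set ℝ)) (M : ℕ → Set ℝ) (hMc : ∀ n, IsClosed (M n))
    (hM0 : ∀ n, volume (M n) = 0)
    {p p' : ℝ × ℝ} (hp : p.2 ∈ G) (hp' : p'.2 ∈ G) (h1 : p.1 < p'.1) (h2 : p.2 < p'.2) :
    ∃ T : Set (ℝ × ℝ), p ∈ T ∧ p' ∈ T ∧ (∀ r ∈ T, r.2 ∈ G) ∧ (∀ r ∈ T, Le p r ∧ Le r p') ∧
      (∀ r ∈ T, ∀ s ∈ T, Le r s ∨ Le s r) ∧
      (∀ n, ∀ y ∈ Icc p.1 p'.1, y ∈ M n → ∃ r ∈ T, r.1 = y) ∧
      (∀ n, ∀ x ∈ Icc (p.1 + p.2) (p'.1 + p'.2), x ∈ M n → ∃ r ∈ T, r.1 + r.2 = x) := by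
  classical
  have hfill : ∀ (n : ℕ) (b : (ℝ × ℝ) × (ℝ × ℝ)),
      (b.1.2 ∈ G ∧ b.2.2 ∈ G ∧ b.1.1 < b.2.1 ∧ b.1.2 < b.2.2) →
      ∃ P S, Fill G (M n) b.1 b.2 P S := by
    rintro n b ⟨a1, a2, a3, a4⟩
    exact fillable_block hd (hMc n) (hM0 n) a1 a2 a3 a4
  choose! P S hPS using hfill
  let Lev : ℕ → Set ((ℝ × ℝ) × (ℝ × ℝ)) := fun n =>
    Nat.rec {(p, p')} (fun n L => {b | ∃ c ∈ L, b ∈ S n c}) n
  have hLev0 : ∀ b, b ∈ Lev 0 ↔ b = (p, p') := fun b => Iff.rfl
  have hLevS : ∀ n b, b ∈ Lev (n + 1) ↔ ∃ c ∈ Lev n, b ∈ S n c := fun n b => Iff.rfl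
  -- validity
  have hval : ∀ n, ∀ b ∈ Lev n, b.1.2 ∈ G ∧ b.2.2 ∈ G ∧ b.1.1 < b.2.1 ∧ b.1.2 < b.2.2 := by
    intro n
    induction n with
    | zero =>
      intro b hb
      rw [hLev0] at hb
      subst hb
      exact ⟨hp, hp', h1, h2⟩
    | succ n ih =>
      intro b hb
      obtain ⟨c, hc, hbc⟩ := (hLevS n b).1 hb
      have hF := hPS n c (ih c hc)
      obtain ⟨a1, a2, a3, a4⟩ := hF.sub b hbc
      exact ⟨hF.mem _ a1, hF.mem _ a2, a3, a4⟩
  have hF : ∀ n, ∀ b ∈ Lev n, Fill G (M n) b.1 b.2 (P n b) (S n b) :=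
    fun n b hb => hPS n b (hval n b hb)
  have hcorner : ∀ n, ∀ b ∈ Lev n, Le b.1 b.2 := fun n b hb => ((hF n b hb).betw _ (hF n b hb).right).1
  -- position relative to the big block
  have hbig : ∀ n, ∀ b ∈ Lev n, Le p b.1 ∧ Le b.2 p' := by
    intro n
    induction n with
    | zero =>
      intro b hb
      rw [hLev0] at hb
      subst hb
      exact ⟨Le.rfl' _, Le.rfl' _⟩
    | succ n ih =>
      intro b hb
      obtain ⟨c, hc, hbc⟩ := (hLevS n b).1 hb
      have hFc := hF n c hc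
      obtain ⟨a1, a2, -, -⟩ := hFc.sub b hbc
      exact ⟨(ih c hc).1.trans (hFc.betw _ a1).1, (hFc.betw _ a2).2.trans (ih c hc).2⟩
  -- blocks of the same level
  have hsame : ∀ n, ∀ b ∈ Lev n, ∀ c ∈ Lev n, b = c ∨ Le b.2 c.1 ∨ Le c.2 b.1 := by
    intro n
    induction n with
    | zero =>
      intro b hb c hc
      rw [hLev0] at hb hc
      exact Or.inl (hb.trans hc.symm)
    | succ n ih =>
      intro b hb c hc
      obtain ⟨b', hb', hbb⟩ := (hLevS n b).1 hb
      obtain ⟨c', hc', hcc⟩ := (hLevS n c).1 hc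
      rcases ih b' hb' c' hc' with rfl | h | h
      · have hFb := hF n b' hb'
        obtain ⟨a1, a2, a3, a4⟩ := hFb.sub b hbb
        obtain ⟨d1, d2, d3, d4⟩ := hFb.sub c hcc
        rcases hFb.sep c hcc _ a2 with e | e
        · exact Or.inr (Or.inl e)
        rcases hFb.sep b hbb _ d2 with f | f
        · exact Or.inr (Or.inr f)
        rcases hFb.sep c hcc _ a1 with e' | e'
        · rcases hFb.sep b hbb _ d1 with f' | f'
          · left
            have key : ∀ r s : ℝ × ℝ, Le r s → Le s r → r = s := by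
              intro r s hrs hsr
              rcases hrs with h | h
              · exact h
              · exact absurd hsr.fst (not_le.2 h.1)
            exact Prod.ext (key _ _ e' f') (key _ _ f e)
          · exact Or.inr (Or.inl f')
        · exact Or.inr (Or.inr e')
      · obtain ⟨a1, a2, a3, a4⟩ := (hF n b' hb').sub b hbb
        obtain ⟨d1, d2, d3, d4⟩ := (hF n c' hc').sub c hcc
        exact Or.inr (Or.inl ((((hF n b' hb').betw _ a2).2.trans h).trans ((hF n c' hc').betw _ d1).1))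
      · obtain ⟨a1, a2, a3, a4⟩ := (hF n b' hb').sub b hbb
        obtain ⟨d1, d2, d3, d4⟩ := (hF n c' hc').sub c hcc
        exact Or.inr (Or.inr ((((hF n c' hc').betw _ d2).2.trans h).trans ((hF n b' hb').betw _ a1).1))
  -- older points and blocks
  have hold : ∀ n, ∀ k < n, ∀ c ∈ Lev k, ∀ r ∈ P k c, ∀ b ∈ Lev n, Le r b.1 ∨ Le b.2 r := by
    intro n
    induction n with
    | zero => intro k hk; omega
    | succ n ih =>
      intro k hk c hc r hr b hb
      obtain ⟨b', hb', hbb⟩ := (hLevS n b).1 hb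
      obtain ⟨a1, a2, a3, a4⟩ := (hF n b' hb').sub b hbb
      have i1 := ((hF n b' hb').betw _ a1).1
      have i2 := ((hF n b' hb').betw _ a2).2
      rcases Nat.lt_succ_iff_lt_or_eq.1 hk with hk' | rfl
      · rcases ih k hk' c hc r hr b' hb' with h | h
        · exact Or.inl (h.trans i1)
        · exact Or.inr (i2.trans h)
      · rcases hsame k c hc b' hb' with rfl | h | h
        · exact (hF k c hc).sep b hbb r hr
        · exact Or.inl ((((hF k c hc).betw r hr).2.trans h).trans i1)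
        · exact Or.inr (i2.trans (h.trans ((hF k c hc).betw r hr).1))
  refine ⟨{r | ∃ n, ∃ b ∈ Lev n, r ∈ P n b}, ?_, ?_, ?_, ?_, ?_, ?_, ?_⟩
  · exact ⟨0, (p, p'), rfl, (hF 0 (p, p') rfl).left⟩
  · exact ⟨0, (p, p'), rfl, (hF 0 (p, p') rfl).right⟩
  · rintro r ⟨n, b, hb, hr⟩
    exact (hF n b hb).mem r hr
  · rintro r ⟨n, b, hb, hr⟩
    exact ⟨(hbig n b hb).1.trans ((hF n b hb).betw r hr).1,
      ((hF n b hb).betw r hr).2.trans (hbig n b hb).2⟩
  · have key : ∀ n m, n ≤ m → ∀ b ∈ Lev n, ∀ r ∈ P n b, ∀ c ∈ Lev m, ∀ s ∈ P m c,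
        Le r s ∨ Le s r := by
      intro n m hnm b hb r hr c hc s hs
      have i1 := ((hF m c hc).betw s hs).1
      have i2 := ((hF m c hc).betw s hs).2
      rcases hnm.eq_or_lt with rfl | hlt
      · rcases hsame n b hb c hc with rfl | h | h
        · exact (hF n b hb).chain r hr s hs
        · exact Or.inl ((((hF n b hb).betw r hr).2.trans h).trans i1)
        · exact Or.inr (i2.trans (h.trans ((hF n b hb).betw r hr).1))
      · rcases hold m n hlt b hb r hr c hc with h | h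
        · exact Or.inl (h.trans i1)
        · exact Or.inr (i2.trans h)
    rintro r ⟨n, b, hb, hr⟩ s ⟨m, c, hc, hs⟩
    rcases le_total n m with h | h
    · exact key n m h b hb r hr c hc s hs
    · exact (key m n h c hc s hs b hb r hr).symm
  · intro n y hy hyM
    have key : ∀ k, (∃ r ∈ {r | ∃ n, ∃ b ∈ Lev n, r ∈ P n b}, r.1 = y) ∨
        ∃ b ∈ Lev k, y ∈ Icc b.1.1 b.2.1 := by
      intro k
      induction k with
      | zero => exact Or.inr ⟨(p, p'), rfl, hy⟩
      | succ k ih =>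
        rcases ih with h | ⟨b, hb, hyb⟩
        · exact Or.inl h
        · rcases (hF k b hb).covy y hyb with ⟨r, hr, hry⟩ | ⟨c, hc, hyc⟩
          · exact Or.inl ⟨r, ⟨k, b, hb, hr⟩, hry⟩
          · exact Or.inr ⟨c, (hLevS k c).2 ⟨b, hb, hc⟩, hyc⟩
    rcases key (n + 1) with h | ⟨b, hb, hyb⟩
    · exact h
    · obtain ⟨c, hc, hbc⟩ := (hLevS n b).1 hb
      exact absurd hyM (disjoint_left.1 ((hF n c hc).avy b hbc) hyb)
  · intro n y hy hyM
    have key : ∀ k, (∃ r ∈ {r | ∃ n, ∃ b ∈ Lev n, r ∈ P n b}, r.1 + r.2 = y) ∨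
        ∃ b ∈ Lev k, y ∈ Icc (b.1.1 + b.1.2) (b.2.1 + b.2.2) := by
      intro k
      induction k with
      | zero => exact Or.inr ⟨(p, p'), rfl, hy⟩
      | succ k ih =>
        rcases ih with h | ⟨b, hb, hyb⟩
        · exact Or.inl h
        · rcases (hF k b hb).covx y hyb with ⟨r, hr, hry⟩ | ⟨c, hc, hyc⟩
          · exact Or.inl ⟨r, ⟨k, b, hb, hr⟩, hry⟩
          · exact Or.inr ⟨c, (hLevS k c).2 ⟨b, hb, hc⟩, hyc⟩
    rcases key (n + 1) with h | ⟨b, hb, hyb⟩
    · exact h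
    · obtain ⟨c, hc, hbc⟩ := (hLevS n b).1 hb
      exact absurd hyM (disjoint_left.1 ((hF n c hc).avx b hbc) hyb)

end Pool.Agent.V11215.AnB
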