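import Mathlib

/-!
A Poincaré type inequality for maps of finite tori with the sup metric into inner product spaces.
-/

set_option autoImplicit false

namespace Pool.Agent.V11215.Energy

open Finset
open scoped RealInnerProductSpace

universe u v

variable {H : Type u} [NormedAddCommGroup H] [InnerProductSpace ℝ H]

theorem sum_sq {J : Type v} [Fintype J] (X Y : J → H) :
    ∑ s, ∑ t, ‖X s - Y t‖ ^ 2 =
      Fintype.card J * ∑ s, ‖X s‖ ^ 2 + Fintype.card J * ∑ s, ‖Y s‖ ^ 2 -
        2 * ⟪∑ s, X s, ∑ s, Y s⟫ := by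
  have h1 : ∀ s t, ‖X s - Y t‖ ^ 2 = ‖X s‖ ^ 2 - 2 * ⟪X s, Y t⟫ + ‖Y t‖ ^ 2 :=
    fun s t => norm_sub_sq_real _ _
  simp_rw [h1, sum_add_distrib, sum_sub_distrib, sum_const, card_univ, nsmul_eq_mul,
    ← mul_sum, ← inner_sum, ← sum_inner]
  ring

/-- The energy inequality. -/
theorem energy {J : Type v} [Fintype J] (X Y : J → H) :
    ∑ s, ∑ t, ‖X s - X t‖ ^ 2 + ∑ s, ∑ t, ‖Y s - Y t‖ ^ 2 ≤ 2 * ∑ s, ∑ t, ‖X s - Y t‖ ^ 2 := by
  rw [sum_sq X X, sum_sq Y Y, sum_sq X Y]
  have h := sq_nonneg ‖∑ s, X s - ∑ s, Y s‖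
  rw [norm_sub_sq_real] at h
  rw [real_inner_self_eq_norm_sq, real_inner_self_eq_norm_sq]
  linarith

section step

variable {A I Ω : Type} [AddCommGroup A] [Fintype A] [Fintype I] [Fintype Ω] [DecidableEq Ω]

/-- `Φ(v) = Σ_x |h(x) - h(x+v)|²`. -/
noncomputable def Phi (h : (Ω → A) → H) (v : Ω → A) : ℝ := ∑ x, ‖h x - h (x + v)‖ ^ 2

theorem sum_translate (h : (Ω → A) → H) (a b : Ω → A) :
    ∑ x, ‖h (x + a) - h (x + b)‖ ^ 2 = Phi h (b - a) := by
  unfold Phi
  rw [← Equiv.sum_comp (Equiv.addRight a) (fun x => ‖h x - h (x + (b - a))‖ ^ 2)]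
  apply Finset.sum_congr rfl
  intro x _
  have : Equiv.addRight a x + (b - a) = x + b := by
    simp only [Equiv.coe_addRight]
    abel
  rw [this]
  rfl

/-- The new per-coordinate law. -/
def w' (w : I → A) (t : Bool × I × I) : A := if t.1 then w t.2.1 - w t.2.2 else 0

/-- Restriction of `w ∘ s` to the coordinates in `B`. -/
def cut (w : I → A) (B : Ω → Bool) (s : Ω → I) : Ω → A := fun ω => if B ω then w (s ω) else 0

theorem sum_triple (f : (Ω → Bool × I × I) → ℝ) :
    ∑ t, f t = ∑ B : Ω → Bool, ∑ s : Ω → I, ∑ t : Ω → I, f (fun ω => (B ω, t ω, s ω)) := by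
  let e : (Ω → Bool) × (Ω → I) × (Ω → I) ≃ (Ω → Bool × I × I) :=
    { toFun := fun z ω => (z.1 ω, z.2.2 ω, z.2.1 ω)
      invFun := fun t => (fun ω => (t ω).1, fun ω => (t ω).2.2, fun ω => (t ω).2.1)
      left_inv := fun z => rfl
      right_inv := fun t => rfl }
  rw [← Equiv.sum_comp e, Fintype.sum_prod_type]
  apply Finset.sum_congr rfl
  intro B _
  rw [Fintype.sum_prod_type]
  rfl

theorem sum_swap (w : I → A) (σ : I → I) (hσ : ∀ i, w (σ i) = - w i) (hσσ : ∀ i, σ (σ i) = i)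
    (B : Ω → Bool) (φ : (Ω → A) → ℝ) :
    ∑ s : Ω → I, ∑ t : Ω → I, φ (cut w (fun ω => !B ω) t - cut w B s) =
      Fintype.card (Ω → I) * ∑ u : Ω → I, φ (fun ω => w (u ω)) := by
  let e : (Ω → I) × (Ω → I) ≃ (Ω → I) × (Ω → I) :=
    { toFun := fun z => (fun ω => if B ω then σ (z.1 ω) else z.2 ω,
        fun ω => if B ω then z.2 ω else z.1 ω)
      invFun := fun z => (fun ω => if B ω then σ (z.1 ω) else z.2 ω,
        fun ω => if B ω then z.2 ω else z.1 ω)
      left_inv := by
        rintro ⟨s, t⟩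
        ext ω <;> by_cases hB : B ω = true <;> simp [hB, hσσ]
      right_inv := by
        rintro ⟨s, t⟩
        ext ω <;> by_cases hB : B ω = true <;> simp [hB, hσσ] }
  have h1 : ∑ s : Ω → I, ∑ t : Ω → I, φ (cut w (fun ω => !B ω) t - cut w B s) =
      ∑ z : (Ω → I) × (Ω → I), φ (fun ω => w ((e z).1 ω)) := by
    rw [Fintype.sum_prod_type]
    apply Finset.sum_congr rfl
    intro s _
    apply Finset.sum_congr rfl
    intro t _
    congr 1
    ext ω
    by_cases hB : B ω = true <;> simp [e, cut, hB, hσ]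
  rw [h1, Equiv.sum_comp e (fun z => φ (fun ω => w (z.1 ω))), Fintype.sum_prod_type]
  simp only [sum_const, card_univ, nsmul_eq_mul, ← mul_sum]

theorem step (w : I → A) (σ : I → I) (hσ : ∀ i, w (σ i) = - w i) (hσσ : ∀ i, σ (σ i) = i)
    (h : (Ω → A) → H) :
    ∑ t : Ω → Bool × I × I, Phi h (fun ω => w' w (t ω)) ≤
      2 ^ Fintype.card Ω * Fintype.card (Ω → I) * ∑ s : Ω → I, Phi h (fun ω => w (s ω)) := by
  have key : ∀ (x : Ω → A) (B : Ω → Bool), _ := fun x B =>
    energy (fun s : Ω → I => h (x + cut w B s)) (fun s : Ω → I => h (x + cut w (fun ω => !B ω) s))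
  have h1 := Finset.sum_le_sum fun B (_ : B ∈ (univ : Finset (Ω → Bool))) =>
    Finset.sum_le_sum fun x (_ : x ∈ (univ : Finset (Ω → A))) => key x B
  simp only [sum_add_distrib] at h1
  -- first term
  have e1 : ∀ B : Ω → Bool, ∑ x : Ω → A, ∑ s : Ω → I, ∑ t : Ω → I,
      ‖h (x + cut w B s) - h (x + cut w B t)‖ ^ 2 =
        ∑ s : Ω → I, ∑ t : Ω → I, Phi h (cut w B t - cut w B s) := by
    intro B
    rw [sum_comm]
    apply Finset.sum_congr rfl
    intro s _
    rw [sum_comm]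
    apply Finset.sum_congr rfl
    intro t _
    exact sum_translate h _ _
  have e3 : ∀ B : Ω → Bool, ∑ x : Ω → A, 2 * ∑ s : Ω → I, ∑ t : Ω → I,
      ‖h (x + cut w B s) - h (x + cut w (fun ω => !B ω) t)‖ ^ 2 =
        2 * (Fintype.card (Ω → I) * ∑ u : Ω → I, Phi h (fun ω => w (u ω))) := by
    intro B
    rw [← mul_sum, ← sum_swap w σ hσ hσσ B]
    congr 1
    rw [sum_comm]
    apply Finset.sum_congr rfl
    intro s _
    rw [sum_comm]
    apply Finset.sum_congr rfl
    intro t _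
    exact sum_translate h _ _
  simp only [e1, e3] at h1
  -- the second term equals the first
  have e2 : ∑ B : Ω → Bool, ∑ s : Ω → I, ∑ t : Ω → I,
      Phi h (cut w (fun ω => !B ω) t - cut w (fun ω => !B ω) s) =
      ∑ B : Ω → Bool, ∑ s : Ω → I, ∑ t : Ω → I, Phi h (cut w B t - cut w B s) := by
    let e : (Ω → Bool) ≃ (Ω → Bool) :=
      { toFun := fun B ω => !B ω
        invFun := fun B ω => !B ω
        left_inv := fun B => by ext ω; simp
        right_inv := fun B => by ext ω; simp }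
    exact Equiv.sum_comp e (fun B => ∑ s : Ω → I, ∑ t : Ω → I, Phi h (cut w B t - cut w B s))
  have e4 : ∑ t : Ω → Bool × I × I, Phi h (fun ω => w' w (t ω)) =
      ∑ B : Ω → Bool, ∑ s : Ω → I, ∑ t : Ω → I, Phi h (cut w B t - cut w B s) := by
    rw [sum_triple]
    apply Finset.sum_congr rfl
    intro B _
    apply Finset.sum_congr rfl
    intro s _
    apply Finset.sum_congr rfl
    intro t _
    congr 1
    ext ω
    by_cases hB : B ω = true <;> simp [cut, w', hB]
  rw [e2, ← e4] at h1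
  simp only [sum_const, card_univ, nsmul_eq_mul, Fintype.card_fun, Fintype.card_bool] at h1
  simp only [Fintype.card_fun]
  push_cast at h1 ⊢
  linarith

end step

/-- The iterated inequality. -/
theorem exists_law (A : Type) [AddCommGroup A] [Fintype A] (e : A) (k : ℕ) :
    ∃ (I : Type) (_ : Fintype I) (w : I → A) (σ : I → I), (∀ i, w (σ i) = - w i) ∧
      (∀ i, σ (σ i) = i) ∧ (∃ i, w i = (2 ^ k : ℕ) • e) ∧
      ∀ (Ω : Type) [Fintype Ω] [DecidableEq Ω] (H : Type u) [NormedAddCommGroup H]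
        [InnerProductSpace ℝ H] (h : (Ω → A) → H) (C2 : ℝ),
        (∀ x, ∀ v : Ω → A, (∀ ω, v ω = e ∨ v ω = -e) → ‖h x - h (x + v)‖ ^ 2 ≤ C2) →
        ∑ s : Ω → I, Phi h (fun ω => w (s ω)) ≤
          Fintype.card (Ω → A) * Fintype.card (Ω → I) * C2 := by
  induction k with
  | zero =>
    refine ⟨Bool, inferInstance, fun b => if b then e else -e, fun b => !b, ?_, ?_, ?_, ?_⟩
    · intro b
      cases b <;> simp
    · intro b
      simp
    · exact ⟨true, by simp⟩
    · intro Ω _ _ H _ _ h C2 hC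
      have : ∀ s : Ω → Bool, Phi h (fun ω => if s ω then e else -e) ≤ Fintype.card (Ω → A) * C2 := by
        intro s
        unfold Phi
        have h1 : ∀ x ∈ (univ : Finset (Ω → A)),
            ‖h x - h (x + fun ω => if s ω then e else -e)‖ ^ 2 ≤ C2 := by
          intro x _
          apply hC
          intro ω
          by_cases hs : s ω = true <;> simp [hs]
        have h2 := Finset.sum_le_card_nsmul _ _ _ h1
        rwa [nsmul_eq_mul, card_univ] at h2
      have h3 := Finset.sum_le_card_nsmul (univ : Finset (Ω → Bool)) _ _ fun s _ => this s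
      rw [nsmul_eq_mul, card_univ] at h3
      refine h3.trans (le_of_eq ?_)
      ring
  | succ k ih =>
    obtain ⟨I, _, w, σ, hσ, hσσ, ⟨i, hi⟩, hI⟩ := ih
    refine ⟨Bool × I × I, inferInstance, w' w, fun t => (t.1, t.2.2, t.2.1), ?_, ?_, ?_, ?_⟩
    · rintro ⟨b, i, j⟩
      cases b <;> simp [w']
    · rintro ⟨b, i, j⟩
      rfl
    · refine ⟨(true, i, σ i), ?_⟩
      simp only [w', if_true, hσ, hi]
      rw [sub_neg_eq_add, ← add_nsmul]
      congr 1
      ring
    · intro Ω _ _ H _ _ h C2 hC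
      refine (step w σ hσ hσσ h).trans ?_
      have h1 := hI Ω H h C2 hC
      have h2 : (0 : ℝ) ≤ 2 ^ Fintype.card Ω * Fintype.card (Ω → I) := by positivity
      refine (mul_le_mul_of_nonneg_left h1 h2).trans (le_of_eq ?_)
      simp only [Fintype.card_fun, Fintype.card_prod, Fintype.card_bool]
      push_cast
      rw [mul_pow, mul_pow]
      ring

end Pool.Agent.V11215.Energy
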