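import Mathlib
import Pool.Agent.V11215.Energy

/-!
Finite metric spaces (tori with the sup metric) all of whose snowflakes embed badly into inner
product spaces.
-/

set_option autoImplicit false

namespace Pool.Agent.V11215.TorusBad

open Finset
open Pool.Agent.V11215.Energy

universe u

/-- `d` is a metric on `Y` with all nonzero distances at least `1`. -/
structure IsMet {Y : Type} (d : Y → Y → ℝ) : Prop where
  self : ∀ x, d x x = 0
  symm : ∀ x y, d x y = d y x
  tri : ∀ x y z, d x z ≤ d x y + d y z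
  one_le : ∀ x y, x ≠ y → 1 ≤ d x y

/-- No snowflake of `d` with exponent at least `1/(q+1)` embeds into an inner product space with
constants `1/(q+1)` and `q+1`. -/
def Bad (q : ℕ) {Y : Type} (d : Y → Y → ℝ) : Prop :=
  ∀ (H : Type u) [NormedAddCommGroup H] [InnerProductSpace ℝ H] (h : Y → H) (c C α : ℝ),
    1 / ((q : ℝ) + 1) ≤ c → 0 ≤ C → C ≤ (q : ℝ) + 1 → 1 / ((q : ℝ) + 1) ≤ α →
    ¬ ∀ x y, c * d x y ^ α ≤ ‖h x - h y‖ ∧ ‖h x - h y‖ ≤ C * d x y ^ α

theorem Bad.mono {q q' : ℕ} (hq : q ≤ q') {Y : Type} {d : Y → Y → ℝ} (h : Bad.{u} q' d) :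
    Bad.{u} q d := by
  intro H _ _ f c C α h1 h2 h3 h4
  have h5 : (q : ℝ) ≤ q' := by exact_mod_cast hq
  have h6 : 1 / ((q' : ℝ) + 1) ≤ 1 / ((q : ℝ) + 1) := by
    apply one_div_le_one_div_of_le (by positivity)
    linarith
  exact h H f c C α (h6.trans h1) h2 (by linarith) (h6.trans h4)

/-- The norm on `ZMod m`. -/
def N {m : ℕ} (t : ZMod m) : ℕ := t.valMinAbs.natAbs

theorem N_zero {m : ℕ} : N (0 : ZMod m) = 0 := by
  simp [N]

theorem N_eq_zero {m : ℕ} {t : ZMod m} (h : N t = 0) : t = 0 := by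
  unfold N at h
  rw [Int.natAbs_eq_zero, ZMod.valMinAbs_eq_zero] at h
  exact h

theorem N_neg {m : ℕ} (t : ZMod m) : N (-t) = N t := ZMod.natAbs_valMinAbs_neg t

theorem N_add {m : ℕ} (s t : ZMod m) : N (s + t) ≤ N s + N t :=
  (ZMod.natAbs_valMinAbs_add_le s t).trans (Int.natAbs_add_le _ _)

theorem N_natCast {m : ℕ} [NeZero m] {a : ℕ} (h : a ≤ m / 2) : N (a : ZMod m) = a := by
  unfold N
  rw [ZMod.valMinAbs_natCast_of_le_half h, Int.natAbs_natCast]

variable {m : ℕ} {Ω : Type} [Fintype Ω]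

/-- The sup metric on the torus. -/
def dn (x y : Ω → ZMod m) : ℕ := univ.sup fun ω => N (x ω - y ω)

theorem dn_self (x : Ω → ZMod m) : dn x x = 0 := by
  simp [dn, N_zero]

theorem dn_symm (x y : Ω → ZMod m) : dn x y = dn y x := by
  unfold dn
  congr 1
  ext ω
  rw [← N_neg, neg_sub]

theorem le_dn (x y : Ω → ZMod m) (ω : Ω) : N (x ω - y ω) ≤ dn x y :=
  Finset.le_sup (f := fun ω => N (x ω - y ω)) (mem_univ ω)

theorem dn_le {x y : Ω → ZMod m} {a : ℕ} (h : ∀ ω, N (x ω - y ω) ≤ a) : dn x y ≤ a :=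
  Finset.sup_le fun ω _ => h ω

theorem dn_tri (x y z : Ω → ZMod m) : dn x z ≤ dn x y + dn y z := by
  apply dn_le
  intro ω
  have h1 := le_dn x y ω
  have h2 := le_dn y z ω
  have h3 := N_add (x ω - y ω) (y ω - z ω)
  rw [sub_add_sub_cancel] at h3
  omega

theorem dn_pos {x y : Ω → ZMod m} (h : x ≠ y) : 1 ≤ dn x y := by
  obtain ⟨ω, hω⟩ := Function.ne_iff.1 h
  have h1 := le_dn x y ω
  have h2 : N (x ω - y ω) ≠ 0 := fun h0 => hω (sub_eq_zero.1 (N_eq_zero h0))
  omega

theorem isMet : IsMet (fun x y : Ω → ZMod m => (dn x y : ℝ)) where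
  self x := by simp [dn_self]
  symm x y := by rw [dn_symm]
  tri x y z := by exact_mod_cast dn_tri x y z
  one_le x y h := by exact_mod_cast dn_pos h

theorem card_avoid {I : Type} [Fintype I] [DecidableEq I] [DecidableEq Ω] (i : I) :
    (univ.filter fun s : Ω → I => ∀ ω, s ω ≠ i).card ≤
      (Fintype.card I - 1) ^ Fintype.card Ω := by
  have h1 : Fintype.card (Ω → {j : I // j ≠ i}) = (Fintype.card I - 1) ^ Fintype.card Ω := by
    rw [Fintype.card_fun, Fintype.card_subtype_compl, Fintype.card_subtype_eq]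
  rw [← h1, ← Finset.card_univ]
  apply Finset.card_le_card_of_surjOn (fun (g : Ω → {j : I // j ≠ i}) ω => (g ω).1)
  intro s hs
  simp only [coe_filter, mem_univ, true_and, Set.mem_ofPred_eq] at hs
  exact ⟨fun ω => ⟨s ω, hs ω⟩, by simp, rfl⟩

theorem exists_M (n : ℕ) (hn : 0 < n) : ∃ M : ℕ, 1 ≤ M ∧ 2 * ((n : ℝ) - 1) ^ M ≤ (n : ℝ) ^ M := by
  have hn' : (0 : ℝ) < n := by exact_mod_cast hn
  have hn1 : (1 : ℝ) ≤ n := by exact_mod_cast hn
  have h0 : 0 ≤ ((n : ℝ) - 1) / n := by
    apply div_nonneg <;> linarith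
  have h1 : ((n : ℝ) - 1) / n < 1 := by
    rw [div_lt_one hn']
    linarith
  obtain ⟨M, hM⟩ := exists_pow_lt_of_lt_one (show (0 : ℝ) < 1 / 2 by norm_num) h1
  refine ⟨M + 1, by omega, ?_⟩
  have h2 : (((n : ℝ) - 1) / n) ^ (M + 1) ≤ 1 / 2 := by
    rw [pow_succ]
    nlinarith [pow_nonneg h0 M]
  rw [div_pow, div_le_iff₀ (by positivity)] at h2
  linarith

theorem exists_bad (q : ℕ) : ∃ (Y : Type) (_ : Fintype Y) (d : Y → Y → ℝ), IsMet d ∧
    q + 1 ≤ Fintype.card Y ∧ Bad.{u} q d := by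
  set Q : ℝ := (q : ℝ) + 1 with hQ
  have hQ0 : 0 < Q := by positivity
  obtain ⟨l, hl⟩ := pow_unbounded_of_one_lt (2 * Q ^ 4) (show (1 : ℝ) < 4 by norm_num)
  set k : ℕ := (q + 1) * (l + 1) with hk
  have hkq : q + 1 ≤ k := Nat.le_mul_of_pos_right _ (by omega)
  set m : ℕ := 2 ^ (k + 1) with hm
  have : NeZero m := ⟨by positivity⟩
  obtain ⟨I, _, w, σ, _, _, ⟨i, hi⟩, hI⟩ := exists_law.{u} (ZMod m) 1 k
  classical
  have hn : 0 < Fintype.card I := Fintype.card_pos_iff.2 ⟨i⟩
  obtain ⟨M, hM1, hM⟩ := exists_M (Fintype.card I) hn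
  refine ⟨Fin M → ZMod m, inferInstance, fun x y => (dn x y : ℝ), isMet, ?_, ?_⟩
  · rw [Fintype.card_fun, ZMod.card, Fintype.card_fin]
    calc q + 1 ≤ k := hkq
      _ ≤ 2 ^ (k + 1) := by
          have := Nat.lt_two_pow_self (n := k + 1)
          omega
      _ = m ^ 1 := by rw [pow_one]
      _ ≤ m ^ M := Nat.pow_le_pow_right (Nat.pos_of_neZero m) hM1
  · intro H _ _ h c C α hc hC0 hC hα hcon
    have hα0 : 0 < α := lt_of_lt_of_le (by positivity) hα
    have hc0 : 0 < c := lt_of_lt_of_le (by positivity) hc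
    have hm2 : 2 ≤ m := by
      rw [hm, pow_succ]
      have := Nat.one_le_two_pow (n := k)
      omega
    have hN1 : N (1 : ZMod m) = 1 := by
      have := N_natCast (m := m) (a := 1) (by omega)
      simpa using this
    have hNk : N (((2 ^ k : ℕ) : ZMod m)) = 2 ^ k := by
      apply N_natCast
      rw [hm, pow_succ]
      omega
    -- the upper bound
    have hup : ∀ x, ∀ v : Fin M → ZMod m, (∀ ω, v ω = 1 ∨ v ω = -1) →
        ‖h x - h (x + v)‖ ^ 2 ≤ C ^ 2 := by
      intro x v hv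
      have h1 : dn x (x + v) ≤ 1 := by
        apply dn_le
        intro ω
        have : x ω - (x + v) ω = - v ω := by simp
        rw [this, N_neg]
        rcases hv ω with h | h <;> rw [h]
        · exact hN1.le
        · rw [N_neg]
          exact hN1.le
      have h2 : ((dn x (x + v) : ℕ) : ℝ) ^ α ≤ 1 := by
        apply Real.rpow_le_one (by positivity) (by exact_mod_cast h1) hα0.le
      have h3 : ‖h x - h (x + v)‖ ≤ C := by
        refine (hcon x (x + v)).2.trans ?_
        calc C * ((dn x (x + v) : ℕ) : ℝ) ^ α ≤ C * 1 := by gcongr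
          _ = C := mul_one C
      gcongr
    have hmain := hI (Fin M) H h (C ^ 2) hup
    -- the lower bound
    set L : ℝ := c ^ 2 * (((2 : ℝ) ^ k) ^ α) ^ 2 with hL
    have hL0 : 0 ≤ L := by positivity
    have hlow : ∀ s : Fin M → I, (∃ ω, s ω = i) →
        Fintype.card (Fin M → ZMod m) * L ≤ Phi h (fun ω => w (s ω)) := by
      rintro s ⟨ω, hω⟩
      unfold Phi
      have h1 : ∀ x ∈ (univ : Finset (Fin M → ZMod m)),
          L ≤ ‖h x - h (x + fun ω => w (s ω))‖ ^ 2 := by
        intro x _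
        have h2 : 2 ^ k ≤ dn x (x + fun ω => w (s ω)) := by
          have := le_dn x (x + fun ω => w (s ω)) ω
          have e : x ω - (x + fun ω => w (s ω)) ω = -((2 ^ k : ℕ) : ZMod m) := by
            simp only [Pi.add_apply, hω, hi]
            simp
          rw [e, N_neg, hNk] at this
          exact this
        have h3 : (((2 : ℝ) ^ k) ^ α) ≤ ((dn x (x + fun ω => w (s ω)) : ℕ) : ℝ) ^ α := by
          apply Real.rpow_le_rpow (by positivity) _ hα0.le
          exact_mod_cast h2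
        have h4 := (hcon x (x + fun ω => w (s ω))).1
        have h5 : c * ((2 : ℝ) ^ k) ^ α ≤ ‖h x - h (x + fun ω => w (s ω))‖ :=
          le_trans (by gcongr) h4
        rw [hL, ← mul_pow]
        gcongr
      have h2 := Finset.card_nsmul_le_sum _ _ _ h1
      rwa [nsmul_eq_mul, card_univ] at h2
    have hlow2 : (Fintype.card (Fin M → I) : ℝ) / 2 * (Fintype.card (Fin M → ZMod m) * L) ≤
        ∑ s : Fin M → I, Phi h (fun ω => w (s ω)) := by
      have h1 : ∑ s ∈ univ.filter (fun s : Fin M → I => ∃ ω, s ω = i),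
          Phi h (fun ω => w (s ω)) ≤ ∑ s : Fin M → I, Phi h (fun ω => w (s ω)) := by
        apply Finset.sum_le_sum_of_subset_of_nonneg (Finset.filter_subset _ _)
        intro s _ _
        unfold Phi
        positivity
      refine le_trans ?_ h1
      have h2 := Finset.card_nsmul_le_sum (univ.filter (fun s : Fin M → I => ∃ ω, s ω = i))
        (fun s => Phi h (fun ω => w (s ω))) (Fintype.card (Fin M → ZMod m) * L)
        (fun s hs => hlow s (by simpa using hs))
      rw [nsmul_eq_mul] at h2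
      refine le_trans ?_ h2
      have h3 : ((univ.filter (fun s : Fin M → I => ∃ ω, s ω = i)).card : ℝ) +
          ((univ.filter (fun s : Fin M → I => ∀ ω, s ω ≠ i)).card : ℝ) =
            Fintype.card (Fin M → I) := by
        have := Finset.card_filter_add_card_filter_not
          (s := (univ : Finset (Fin M → I))) (fun s : Fin M → I => ∃ ω, s ω = i)
        simp only [not_exists] at this
        rw [← Finset.card_univ]
        exact_mod_cast this
      have h4 : ((univ.filter (fun s : Fin M → I => ∀ ω, s ω ≠ i)).card : ℝ) ≤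
          (Fintype.card (Fin M → I) : ℝ) / 2 := by
        have h5 := card_avoid (Ω := Fin M) i
        have h6 : ((univ.filter (fun s : Fin M → I => ∀ ω, s ω ≠ i)).card : ℝ) ≤
            ((Fintype.card I : ℝ) - 1) ^ M := by
          have : (((Fintype.card I - 1) ^ Fintype.card (Fin M) : ℕ) : ℝ) =
              ((Fintype.card I : ℝ) - 1) ^ M := by
            rw [Fintype.card_fin]
            push_cast [Nat.cast_sub hn]
            ring
          rw [← this]
          exact_mod_cast h5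
        have h7 : ((Fintype.card (Fin M → I) : ℕ) : ℝ) = (Fintype.card I : ℝ) ^ M := by
          rw [Fintype.card_fun, Fintype.card_fin]
          push_cast
          ring
        rw [h7]
        linarith
      have h8 : (0 : ℝ) ≤ Fintype.card (Fin M → ZMod m) * L := by positivity
      apply mul_le_mul_of_nonneg_right _ h8
      linarith
    have hfin := hlow2.trans hmain
    have hp1 : (0 : ℝ) < Fintype.card (Fin M → I) := by
      have : 0 < Fintype.card (Fin M → I) := Fintype.card_pos_iff.2 ⟨fun _ => i⟩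
      exact_mod_cast this
    have hp2 : (0 : ℝ) < Fintype.card (Fin M → ZMod m) := by
      have : 0 < Fintype.card (Fin M → ZMod m) := Fintype.card_pos_iff.2 ⟨fun _ => 0⟩
      exact_mod_cast this
    have hLC : L ≤ 2 * C ^ 2 := by
      have h1 : ((Fintype.card (Fin M → I) : ℝ) * Fintype.card (Fin M → ZMod m)) * L ≤
          ((Fintype.card (Fin M → I) : ℝ) * Fintype.card (Fin M → ZMod m)) * (2 * C ^ 2) := by
        linarith
      exact le_of_mul_le_mul_left h1 (by positivity)
    -- the contradiction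
    have h4l : (4 : ℝ) ^ (l + 1) ≤ (((2 : ℝ) ^ k) ^ α) ^ 2 := by
      have h1 : ((2 : ℝ) ^ k) ^ (1 / Q) ≤ ((2 : ℝ) ^ k) ^ α :=
        Real.rpow_le_rpow_of_exponent_le (one_le_pow₀ (by norm_num)) hα
      have h2 : ((2 : ℝ) ^ k) ^ (1 / Q) = 2 ^ (l + 1) := by
        rw [← Real.rpow_natCast, ← Real.rpow_mul (by norm_num), ← Real.rpow_natCast]
        congr 1
        rw [hk, hQ]
        push_cast
        field_simp
      rw [h2] at h1
      calc (4 : ℝ) ^ (l + 1) = (2 ^ (l + 1)) ^ 2 := by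
            rw [← pow_mul, mul_comm, pow_mul]
            norm_num
        _ ≤ _ := by gcongr
    have h5 : (1 / Q) ^ 2 * 4 ^ (l + 1) ≤ L := by
      rw [hL]
      gcongr
    have h6 : (1 / Q) ^ 2 * 4 ^ (l + 1) ≤ 2 * Q ^ 2 := by
      refine (h5.trans hLC).trans ?_
      gcongr
    have h7 : (4 : ℝ) ^ (l + 1) ≤ 2 * Q ^ 4 := by
      have : (1 / Q) ^ 2 * 4 ^ (l + 1) * Q ^ 2 ≤ 2 * Q ^ 2 * Q ^ 2 := by gcongr
      have e : (1 / Q) ^ 2 * 4 ^ (l + 1) * Q ^ 2 = 4 ^ (l + 1) := by
        field_simp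
      rw [e] at this
      linarith
    have h8 : (4 : ℝ) ^ l ≤ 4 ^ (l + 1) := by
      rw [pow_succ]
      have : (0 : ℝ) < 4 ^ l := by positivity
      linarith
    linarith

end Pool.Agent.V11215.TorusBad
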