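import Mathlib

open MeasureTheory Filter Topology Set

namespace Pool.Agent.V11215.SH

/-- The measure center: the complement of the union of all open sets that are null for every
invariant Borel probability measure. -/
def measureCenter {X : Type*} [TopologicalSpace X] [MeasurableSpace X] (f : X → X) : Set X :=
  (⋃₀ {U : Set X | IsOpen U ∧
    ∀ μ : Measure X, IsProbabilityMeasure μ → μ.map f = μ → μ U = 0})ᶜ

/-- The average shadowing property. -/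
def ASP {X : Type*} [MetricSpace X] (f : X → X) : Prop :=
  ∀ ε > 0, ∃ δ > 0, ∀ x : ℕ → X,
    (∃ N : ℕ, ∀ n ≥ N, ∀ k : ℕ,
      (∑ i ∈ Finset.range n, dist (f (x (i + k))) (x (i + k + 1))) / n < δ) →
    ∃ y : X, limsup (fun n : ℕ => (∑ i ∈ Finset.range n, dist (f^[i] y) (x i)) / n) atTop < ε

/-- The asymptotic average shadowing property. -/
def AASP {X : Type*} [MetricSpace X] (f : X → X) : Prop :=
  ∀ x : ℕ → X,
    Tendsto (fun n : ℕ => (∑ i ∈ Finset.range n, dist (f (x i)) (x (i + 1))) / n) atTop (𝓝 0) →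
    ∃ y : X, Tendsto (fun n : ℕ => (∑ i ∈ Finset.range n, dist (f^[i] y) (x i)) / n) atTop (𝓝 0)

/-- A mistake function: `g n ε` for `n ≥ 1`, `0 < ε ≤ ε₀`, extended by `g n ε = g n ε₀` for
`ε > ε₀`. -/
def IsMistake (ε₀ : ℝ) (g : ℕ → ℝ → ℕ) : Prop :=
  0 < ε₀ ∧ (∀ ε : ℝ, 0 < ε → ε ≤ ε₀ →
    (∀ m n : ℕ, 1 ≤ m → m ≤ n → g m ε ≤ g n ε) ∧
    Tendsto (fun n : ℕ => (g n ε : ℝ) / n) atTop (𝓝 0)) ∧
  ∀ n : ℕ, ∀ ε : ℝ, ε₀ < ε → g n ε = g n ε₀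

/-- `y ∈ B_n(g; x, ε)`. -/
def InBall {X : Type*} [MetricSpace X] (f : X → X) (g : ℕ → ℝ → ℕ) (n : ℕ) (x : X) (ε : ℝ)
    (y : X) : Prop :=
  ∃ Λ : Finset ℕ, Λ ⊆ Finset.range n ∧ n ≤ Λ.card + g n ε ∧
    ∀ j ∈ Λ, dist (f^[j] x) (f^[j] y) < ε

/-- The almost specification property. -/
def AS {X : Type*} [MetricSpace X] (f : X → X) : Prop :=
  ∃ (ε₀ : ℝ) (g : ℕ → ℝ → ℕ) (k : ℝ → ℕ), IsMistake ε₀ g ∧
    (∀ ε : ℝ, 0 < ε → ∀ n : ℕ, k ε ≤ n → g n ε < n) ∧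
    ∀ (m : ℕ) (ε : ℕ → ℝ) (x : ℕ → X) (n : ℕ → ℕ), 1 ≤ m → (∀ j < m, 0 < ε j) →
      (∀ j < m, k (ε j) ≤ n j) →
      ∃ z : X, ∀ j < m, InBall f g (n j) (x j) (ε j) (f^[∑ l ∈ Finset.range j, n l] z)

end Pool.Agent.V11215.SH
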