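import Mathlib
import Pool.Agent.V11215.SHDefs

open MeasureTheory Filter Topology Set

namespace Pool.Agent.V11215.SH

variable {X : Type*} [MetricSpace X] [CompactSpace X] [MeasurableSpace X] [BorelSpace X]

/-- If a closed set is visited at all the times `0, L, 2L, …, (R-1)L` by some point, for every `R`,
then it meets the measure center. -/
theorem meets_center (f : X → X) (hf : Continuous f) (L : ℕ) (hL : 1 ≤ L) (T : Set X)
    (hT : IsClosed T) (h : ∀ R : ℕ, ∃ z : X, ∀ r < R, f^[r * L] z ∈ T) :
    (T ∩ measureCenter f).Nonempty := by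
  classical
  by_contra hcon
  rw [not_nonempty_iff_eq_empty] at hcon
  choose z hz using fun n : ℕ => h (n + 1)
  -- the empirical measures
  let ν0 : ℕ → Measure X := fun n =>
    ((n + 1 : ℕ) : ENNReal)⁻¹ • ∑ r ∈ Finset.range (n + 1), Measure.dirac (f^[r * L] (z n))
  have hν0 : ∀ n, IsProbabilityMeasure (ν0 n) := by
    intro n
    constructor
    simp only [ν0, Measure.smul_apply, Measure.finsetSum_apply, measure_univ, Finset.sum_const,
      Finset.card_range, nsmul_eq_mul, mul_one, smul_eq_mul]
    exact ENNReal.inv_mul_cancel (by simp) (by simp)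
  let ν : ℕ → ProbabilityMeasure X := fun n => ⟨ν0 n, hν0 n⟩
  let U : Ultrafilter ℕ := hyperfilter ℕ
  obtain ⟨μ, -, hμ⟩ := isCompact_univ.ultrafilter_le_nhds (U.map ν) (by simp)
  have hlim : Tendsto ν (U : Filter ℕ) (𝓝 μ) := hμ
  have hFc : Continuous (f^[L]) := hf.iterate L
  -- invariance under `f^[L]`
  have hint := (ProbabilityMeasure.tendsto_iff_forall_integral_tendsto.1 hlim)
  have hintν : ∀ (n : ℕ) (φ : BoundedContinuousFunction X ℝ),
      ∫ x, φ x ∂(ν n : Measure X) =
        ((n + 1 : ℕ) : ℝ)⁻¹ * ∑ r ∈ Finset.range (n + 1), φ (f^[r * L] (z n)) := by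
    intro n φ
    change ∫ x, φ x ∂(ν0 n) = _
    simp only [ν0]
    rw [integral_smul_measure, integral_finsetSum_measure]
    · simp only [integral_dirac, smul_eq_mul]
      congr 1
      rw [ENNReal.toReal_inv, ENNReal.toReal_natCast]
    · intro i _
      exact integrable_dirac (by simp)
  have hinv : (μ : Measure X).map (f^[L]) = μ := by
    have hm : Measurable (f^[L]) := hFc.measurable
    have : IsProbabilityMeasure ((μ : Measure X).map (f^[L])) :=
      Measure.isProbabilityMeasure_map hm.aemeasurable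
    apply ext_of_forall_integral_eq_of_IsFiniteMeasure
    intro φ
    rw [integral_map hm.aemeasurable (φ.continuous.aestronglyMeasurable)]
    let ψ : BoundedContinuousFunction X ℝ := φ.compContinuous ⟨f^[L], hFc⟩
    have h1 := hint φ
    have h2 := hint ψ
    have h3 : Tendsto (fun n => ∫ x, ψ x ∂(ν n : Measure X) - ∫ x, φ x ∂(ν n : Measure X))
        (U : Filter ℕ) (𝓝 0) := by
      have h4 : Tendsto (fun n : ℕ => (2 * ‖φ‖) * (1 / ((n : ℝ) + 1))) atTop (𝓝 0) := by
        simpa using tendsto_one_div_add_atTop_nhds_zero_nat.const_mul (2 * ‖φ‖)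
      have h5 : Tendsto (fun n : ℕ => (2 * ‖φ‖) * (1 / ((n : ℝ) + 1))) (U : Filter ℕ) (𝓝 0) :=
        h4.mono_left (by
          rw [← Nat.cofinite_eq_atTop]
          exact hyperfilter_le_cofinite)
      refine squeeze_zero_norm (fun n => ?_) h5
      rw [hintν, hintν, ← mul_sub, ← Finset.sum_sub_distrib]
      have h6 : ∀ r : ℕ, ψ (f^[r * L] (z n)) = φ (f^[(r + 1) * L] (z n)) := by
        intro r
        change φ (f^[L] (f^[r * L] (z n))) = _
        rw [← Function.iterate_add_apply]
        congr 2
        ring_nf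
      simp only [h6]
      rw [Finset.sum_range_sub (fun r => φ (f^[r * L] (z n)))]
      rw [norm_mul, norm_inv, Real.norm_natCast]
      have h7 : ‖φ (f^[(n + 1) * L] (z n)) - φ (f^[0 * L] (z n))‖ ≤ 2 * ‖φ‖ := by
        calc ‖φ (f^[(n + 1) * L] (z n)) - φ (f^[0 * L] (z n))‖
            ≤ ‖φ (f^[(n + 1) * L] (z n))‖ + ‖φ (f^[0 * L] (z n))‖ := norm_sub_le _ _
          _ ≤ ‖φ‖ + ‖φ‖ := add_le_add (φ.norm_coe_le_norm _) (φ.norm_coe_le_norm _)
          _ = 2 * ‖φ‖ := by ring
      rw [mul_comm]
      calc ‖φ (f^[(n + 1) * L] (z n)) - φ (f^[0 * L] (z n))‖ * ((n + 1 : ℕ) : ℝ)⁻¹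
          ≤ (2 * ‖φ‖) * ((n + 1 : ℕ) : ℝ)⁻¹ := by gcongr
        _ = (2 * ‖φ‖) * (1 / ((n : ℝ) + 1)) := by push_cast; rw [one_div]
    have h8 := tendsto_nhds_unique (h2.sub h1) h3
    have h9 : ∫ x, ψ x ∂(μ : Measure X) = ∫ x, φ (f^[L] x) ∂(μ : Measure X) := rfl
    rw [← h9]
    linarith
  -- mass of T
  have hμT : (μ : Measure X) T = 1 := by
    apply le_antisymm prob_le_one
    have h1 := ProbabilityMeasure.limsup_measure_closed_le_of_tendsto hlim hT
    refine le_trans ?_ h1
    have h2 : ∀ n, (ν n : Measure X) T = 1 := by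
      intro n
      change ν0 n T = 1
      simp only [ν0, Measure.smul_apply, Measure.finsetSum_apply, smul_eq_mul]
      have h3 : ∀ r ∈ Finset.range (n + 1), Measure.dirac (f^[r * L] (z n)) T = 1 := by
        intro r hr
        rw [Measure.dirac_apply' _ hT.measurableSet]
        simp [hz n r (Finset.mem_range.1 hr)]
      rw [Finset.sum_congr rfl h3]
      simp only [Finset.sum_const, Finset.card_range, nsmul_eq_mul, mul_one]
      exact ENNReal.inv_mul_cancel (by simp) (by simp)
    simp only [h2]
    rw [limsup_const]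
  -- the `f`-invariant average
  let S : Measure X := ∑ i ∈ Finset.range L, (μ : Measure X).map (f^[i])
  let μ' : Measure X := (L : ENNReal)⁻¹ • S
  have hLne : (L : ENNReal) ≠ 0 := by
    simp only [ne_eq, Nat.cast_eq_zero]; omega
  have hSmap : S.map f = S := by
    have hadd : ∀ (s : Finset ℕ), (∑ i ∈ s, (μ : Measure X).map (f^[i])).map f =
        ∑ i ∈ s, ((μ : Measure X).map (f^[i])).map f := by
      intro s
      induction s using Finset.induction_on with
      | empty => simp
      | insert a s ha ih =>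
        rw [Finset.sum_insert ha, Finset.sum_insert ha, Measure.map_add _ _ hf.measurable, ih]
    have hmm : ∀ i : ℕ, ((μ : Measure X).map (f^[i])).map f = (μ : Measure X).map (f^[i + 1]) := by
      intro i
      rw [Measure.map_map hf.measurable (hf.iterate i).measurable, Function.iterate_succ']
    change (∑ i ∈ Finset.range L, (μ : Measure X).map (f^[i])).map f = _
    rw [hadd]
    simp only [hmm]
    have e1 := Finset.sum_range_succ (fun i => (μ : Measure X).map (f^[i])) L
    have e2 := Finset.sum_range_succ' (fun i => (μ : Measure X).map (f^[i])) L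
    have e3 : (μ : Measure X).map (f^[0]) = (μ : Measure X).map (f^[L]) := by
      rw [hinv]
      simp
    rw [e1] at e2
    rw [e3] at e2
    have hfin : IsFiniteMeasure ((μ : Measure X).map (f^[L])) := by
      rw [hinv]; infer_instance
    ext s hs
    have e4 := congrArg (fun m : Measure X => m s) e2
    simp only [Measure.add_apply] at e4
    have hne : (μ : Measure X).map (f^[L]) s ≠ ⊤ := measure_ne_top _ _
    exact (ENNReal.add_left_inj hne).1 e4.symm
  have hμ'p : IsProbabilityMeasure μ' := by
    constructor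
    have h1 : ∀ i ∈ Finset.range L, (μ : Measure X).map (f^[i]) univ = 1 := by
      intro i _
      rw [Measure.map_apply (hf.iterate i).measurable MeasurableSet.univ]
      simp
    change (L : ENNReal)⁻¹ * (∑ i ∈ Finset.range L, (μ : Measure X).map (f^[i])) univ = 1
    rw [Measure.finsetSum_apply, Finset.sum_congr rfl h1]
    simp only [Finset.sum_const, Finset.card_range, nsmul_eq_mul, mul_one]
    exact ENNReal.inv_mul_cancel hLne (by simp)
  have hμ'inv : μ'.map f = μ' := by
    change ((L : ENNReal)⁻¹ • S).map f = (L : ENNReal)⁻¹ • S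
    rw [Measure.map_smul, hSmap]
  -- T is null for μ'
  have hcover : T ⊆ ⋃₀ {U : Set X | IsOpen U ∧
      ∀ μ : Measure X, IsProbabilityMeasure μ → μ.map f = μ → μ U = 0} := by
    intro x hx
    by_contra hx'
    have : x ∈ T ∩ measureCenter f := ⟨hx, hx'⟩
    rw [hcon] at this
    exact this
  obtain ⟨t, ht⟩ := hT.isCompact.elim_finite_subcover
    (fun V : {U : Set X | IsOpen U ∧
      ∀ μ : Measure X, IsProbabilityMeasure μ → μ.map f = μ → μ U = 0} => (V : Set X))
    (fun V => V.2.1) (by rw [← sUnion_eq_iUnion]; exact hcover)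
  have hnull : μ' T = 0 := by
    refine measure_mono_null ht ?_
    refine le_antisymm ((measure_biUnion_finset_le t _).trans ?_) zero_le
    rw [Finset.sum_eq_zero (fun s _ => s.2.2 μ' hμ'p hμ'inv)]
  have hge : (L : ENNReal)⁻¹ * (μ : Measure X) T ≤ μ' T := by
    change _ ≤ (L : ENNReal)⁻¹ * (∑ i ∈ Finset.range L, (μ : Measure X).map (f^[i])) T
    apply mul_le_mul' le_rfl
    rw [Measure.finsetSum_apply]
    have h0 : (μ : Measure X) T = (μ : Measure X).map (f^[0]) T := by simp
    rw [h0]
    exact Finset.single_le_sum (f := fun i => (μ : Measure X).map (f^[i]) T) (fun _ _ => zero_le)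
      (Finset.mem_range.2 (by omega))
  rw [hnull, hμT, mul_one] at hge
  have : (L : ENNReal)⁻¹ = 0 := le_antisymm hge zero_le
  rw [ENNReal.inv_eq_zero] at this
  exact absurd this (by simp)

/-- **Almost specification passes to closed invariant sets containing the measure center.** -/
theorem AS_restrict (f : X → X) (hf : Continuous f) (hAS : AS f) (A : Set X)
    (hfA : MapsTo f A A) (hM : measureCenter f ⊆ A) : AS (hfA.restrict f A A) := by
  classical
  obtain ⟨ε₀, g, k, ⟨hε₀, hg1, hg2⟩, hk, hspec⟩ := hAS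
  set F := hfA.restrict f A A with hF
  have hFit : ∀ (n : ℕ) (a : A), ((F^[n] a : A) : X) = f^[n] a := by
    intro n
    induction n with
    | zero => intro a; rfl
    | succ n ih =>
      intro a
      rw [Function.iterate_succ_apply', Function.iterate_succ_apply', ← ih a]
      rfl
  refine ⟨ε₀, fun n ε => g n (min ε ε₀ / 2), fun ε => k (min ε ε₀ / 2), ⟨hε₀, ?_, ?_⟩, ?_, ?_⟩
  · intro ε h1 h2
    have h3 : min ε ε₀ / 2 = ε / 2 := by rw [min_eq_left h2]
    simp only [h3]
    exact hg1 (ε / 2) (by linarith) (by linarith)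
  · intro n ε h1
    simp only [min_eq_right h1.le, min_self]
  · intro ε h1 n hn
    exact hk _ (by have := lt_min h1 hε₀; linarith) n hn
  · intro m ε x n hm hε hn
    set e : ℕ → ℝ := fun j => min (ε j) ε₀ / 2 with he
    have he0 : ∀ j < m, 0 < e j := fun j hj => by
      have := lt_min (hε j hj) hε₀
      simp only [he]; linarith
    have hee : ∀ j < m, e j < ε j := fun j hj => by
      have h1 := lt_min (hε j hj) hε₀
      have h2 := min_le_left (ε j) ε₀
      simp only [he]; linarith
    set L := ∑ l ∈ Finset.range m, n l with hL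
    -- the closed tracking set
    let T : Set X := {z | ∀ j < m, ∃ Λ ∈ (Finset.range (n j)).powerset,
      (n j ≤ Λ.card + g (n j) (e j)) ∧
      ∀ i ∈ Λ, dist (f^[i] (x j)) (f^[i] (f^[∑ l ∈ Finset.range j, n l] z)) ≤ e j}
    have hTc : IsClosed T := by
      have : T = ⋂ j ∈ Finset.range m, ⋃ Λ ∈ {Λ ∈ (Finset.range (n j)).powerset |
          n j ≤ Λ.card + g (n j) (e j)}, ⋂ i ∈ Λ,
          {z | dist (f^[i] (x j)) (f^[i] (f^[∑ l ∈ Finset.range j, n l] z)) ≤ e j} := by
        ext z
        simp only [T, mem_iInter, mem_iUnion, Finset.mem_range, Finset.mem_filter, exists_prop,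
          Set.mem_ofPred_eq, and_assoc]
      rw [this]
      refine isClosed_biInter (fun j _ => ?_)
      refine Set.Finite.isClosed_biUnion (Finset.finite_toSet _) (fun Λ _ => ?_)
      refine isClosed_biInter (fun i _ => ?_)
      exact isClosed_le (by
        exact continuous_const.dist ((hf.iterate i).comp (hf.iterate _))) continuous_const
    have hL1 : 1 ≤ L := by
      have h0 : 0 < m := hm
      have h1 : g (n 0) (min (ε 0) ε₀ / 2) < n 0 := hk _ (he0 0 h0) (n 0) (hn 0 h0)
      have h2 : n 0 ≤ L := Finset.single_le_sum (f := n) (fun _ _ => Nat.zero_le _)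
        (Finset.mem_range.2 h0)
      omega
    have hvisit : ∀ R : ℕ, ∃ z : X, ∀ r < R, f^[r * L] z ∈ T := by
      intro R
      rcases Nat.eq_zero_or_pos R with rfl | hR
      · exact ⟨x 0, fun r hr => absurd hr (Nat.not_lt_zero r)⟩
      obtain ⟨z, hz⟩ := hspec (R * m) (fun j => e (j % m)) (fun j => (x (j % m) : X))
        (fun j => n (j % m)) (by nlinarith) (fun j _ => he0 _ (Nat.mod_lt _ hm))
        (fun j _ => hn _ (Nat.mod_lt _ hm))
      have hsum : ∀ r s, s < m → ∑ l ∈ Finset.range (r * m + s), n (l % m) =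
          r * L + ∑ l ∈ Finset.range s, n l := by
        intro r s hs
        have h1 : ∀ r, ∑ l ∈ Finset.range (r * m), n (l % m) = r * L := by
          intro r
          induction r with
          | zero => simp
          | succ r ih =>
            rw [Nat.succ_mul, Finset.sum_range_add, ih, Nat.succ_mul]
            congr 1
            refine Finset.sum_congr rfl (fun l hl => ?_)
            rw [Finset.mem_range] at hl
            rw [add_comm, Nat.add_mul_mod_self_right, Nat.mod_eq_of_lt hl]
        rw [Finset.sum_range_add, h1]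
        congr 1
        refine Finset.sum_congr rfl (fun l hl => ?_)
        rw [Finset.mem_range] at hl
        rw [add_comm, Nat.add_mul_mod_self_right, Nat.mod_eq_of_lt (by omega)]
      refine ⟨z, fun r hr => ?_⟩
      intro s hs
      have hlt : r * m + s < R * m := by
        calc r * m + s < r * m + m := by omega
          _ = (r + 1) * m := by ring
          _ ≤ R * m := Nat.mul_le_mul_right m hr
      have hmod : (r * m + s) % m = s := by
        rw [add_comm, Nat.add_mul_mod_self_right, Nat.mod_eq_of_lt hs]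
      obtain ⟨Λ, hΛ1, hΛ2, hΛ3⟩ := hz (r * m + s) hlt
      simp only [hmod, hsum r s hs] at hΛ1 hΛ2 hΛ3
      refine ⟨Λ, Finset.mem_powerset.2 hΛ1, hΛ2, fun i hi => ?_⟩
      have := (hΛ3 i hi).le
      rw [add_comm (r * L), Function.iterate_add_apply] at this
      exact this
    obtain ⟨z, hzT, hzM⟩ := meets_center f hf L hL1 T hTc hvisit
    refine ⟨⟨z, hM hzM⟩, fun j hj => ?_⟩
    obtain ⟨Λ, hΛ1, hΛ2, hΛ3⟩ := hzT j hj
    refine ⟨Λ, Finset.mem_powerset.1 hΛ1, hΛ2, fun i hi => ?_⟩
    rw [Subtype.dist_eq, hFit, hFit, hFit]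
    exact lt_of_le_of_lt (hΛ3 i hi) (hee j hj)

end Pool.Agent.V11215.SH
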