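import Mathlib

open Filter Topology Set

namespace Pool.Agent.V11215.SH

attribute [local instance] PiNat.metricSpace

/-- One-sided sequences over a three letter alphabet. -/
abbrev Sg : Type := ℕ → Fin 3

/-- The shift. -/
def shift (x : Sg) : Sg := fun n => x (n + 1)

/-- The letter of the `j`-th window. -/
def letter (j : ℕ) : Fin 3 := if Even j then 1 else 2

theorem letter_ne_zero (j : ℕ) : letter j ≠ 0 := by
  unfold letter
  split_ifs <;> decide

theorem letter_succ_ne (j : ℕ) : letter (j + 1) ≠ letter j := by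
  unfold letter
  by_cases h : Even j
  · rw [if_pos h, if_neg (by rw [Nat.even_add_one]; simpa using h)]
    decide
  · rw [if_neg h, if_pos (by rw [Nat.even_add_one]; exact h)]
    decide

/-- The number of occurrences of the letter of window `j` in the window `(t + 2^j, t + 2^(j+1)]`. -/
def cnt (x : Sg) (t j : ℕ) : ℕ :=
  ((Finset.Ioc (t + 2 ^ j) (t + 2 ^ (j + 1))).filter (fun i => x i = letter j)).card

/-- `t` is a bad base at scale `m`. -/
def bad (x : Sg) (t m : ℕ) : Prop := ∀ j, m ≤ j → j < 2 * m → 7 * 2 ^ j ≤ 8 * cnt x t j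

/-- The ambient subshift. -/
def Xs : Set Sg := {x | ∀ t m, 4 ≤ m → bad x t m → t ≤ 4 ^ m}

/-- The smaller subshift. -/
def As : Set Sg := {x | ∀ t m, 4 ≤ m → ¬ bad x t m}

theorem card_window (t j : ℕ) : (Finset.Ioc (t + 2 ^ j) (t + 2 ^ (j + 1))).card = 2 ^ j := by
  rw [Nat.card_Ioc, pow_succ]; omega

/-- translation invariance -/
theorem cnt_translate (x : Sg) (s u j : ℕ) : cnt (fun i => x (s + i)) u j = cnt x (s + u) j := by
  unfold cnt
  refine Finset.card_bij (fun i _ => s + i) ?_ ?_ ?_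
  · intro i hi
    simp only [Finset.mem_filter, Finset.mem_Ioc] at hi ⊢
    exact ⟨⟨by omega, by omega⟩, hi.2⟩
  · intro i _ j _ h
    simpa using h
  · intro i hi
    simp only [Finset.mem_filter, Finset.mem_Ioc] at hi
    refine ⟨i - s, ?_, by omega⟩
    simp only [Finset.mem_filter, Finset.mem_Ioc]
    refine ⟨⟨by omega, by omega⟩, ?_⟩
    rw [show s + (i - s) = i by omega]
    exact hi.2

theorem cnt_congr {x y : Sg} {t j : ℕ} (h : ∀ i ≤ t + 2 ^ (j + 1), x i = y i) :
    cnt x t j = cnt y t j := by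
  unfold cnt
  congr 1
  refine Finset.filter_congr (fun i hi => ?_)
  rw [Finset.mem_Ioc] at hi
  rw [h i hi.2]

theorem bad_translate (x : Sg) (s u m : ℕ) : bad (fun i => x (s + i)) u m ↔ bad x (s + u) m := by
  unfold bad
  simp only [cnt_translate]

theorem bad_congr {x y : Sg} {t m : ℕ} (h : ∀ i ≤ t + 2 ^ (2 * m), x i = y i)
    (hb : bad x t m) : bad y t m := by
  intro j h1 h2
  rw [← cnt_congr (x := x)]
  · exact hb j h1 h2
  · intro i hi
    refine h i (hi.trans ?_)
    have : 2 ^ (j + 1) ≤ 2 ^ (2 * m) := Nat.pow_le_pow_right (by norm_num) (by omega)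
    omega

/-- Separation of bad bases of the same scale. -/
theorem bad_sep {x : Sg} {t t' m : ℕ} (h : bad x t m) (h' : bad x t' m) (hlt : t < t')
    (h1 : 2 ^ m ≤ t' - t) (h2 : t' - t < 2 ^ (2 * m - 1)) : False := by
  set D := t' - t with hD
  have hD0 : D ≠ 0 := by omega
  set j := Nat.log 2 D with hj
  have e1 : 2 ^ j ≤ D := Nat.pow_log_le_self 2 hD0
  have e2 : D < 2 ^ (j + 1) := Nat.lt_pow_succ_log_self (by norm_num) D
  have e3 : m ≤ j := by
    by_contra hcon
    have : 2 ^ (j + 1) ≤ 2 ^ m := Nat.pow_le_pow_right (by norm_num) (by omega)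
    omega
  have e4 : j < 2 * m - 1 := by
    by_contra hcon
    have : 2 ^ (2 * m - 1) ≤ 2 ^ j := Nat.pow_le_pow_right (by norm_num) (by omega)
    omega
  have a1 := h' j e3 (by omega)
  have a2 := h (j + 1) (by omega) (by omega)
  have hp : 2 ^ (j + 1) = 2 * 2 ^ j := by ring
  have hp2 : 2 ^ (j + 1 + 1) = 4 * 2 ^ j := by ring
  have hsum : cnt x t' j + cnt x t (j + 1) ≤ 2 ^ (j + 1) := by
    have hdisj : Disjoint ((Finset.Ioc (t' + 2 ^ j) (t' + 2 ^ (j + 1))).filter
        (fun i => x i = letter j)) ((Finset.Ioc (t + 2 ^ (j + 1)) (t + 2 ^ (j + 1 + 1))).filter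
        (fun i => x i = letter (j + 1))) := by
      rw [Finset.disjoint_left]
      intro i hi hi'
      rw [Finset.mem_filter] at hi hi'
      exact letter_succ_ne j (hi'.2.symm.trans hi.2)
    unfold cnt
    rw [← Finset.card_union_of_disjoint hdisj]
    refine (Finset.card_le_card ?_).trans (card_window t (j + 1)).le
    intro i hi
    rw [Finset.mem_union, Finset.mem_filter, Finset.mem_filter, Finset.mem_Ioc,
      Finset.mem_Ioc] at hi
    rw [Finset.mem_Ioc]
    rcases hi with hi | hi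
    · constructor <;> omega
    · exact hi.1
  rw [hp] at hsum a2
  have : 0 < 2 ^ j := by positivity
  omega

/-- Positions to be erased at scale `m`. -/
def ModS (a : Sg) (m : ℕ) : Set ℕ :=
  {i | ∃ t, 4 ^ m < t ∧ bad a t m ∧ t + 2 ^ m < i ∧ i ≤ t + 2 ^ (m + 1)}

/-- Positions to be erased. -/
def Mod (a : Sg) : Set ℕ := {i | ∃ m, 4 ≤ m ∧ i ∈ ModS a m}

open Classical in
/-- The corrected sequence. -/
noncomputable def Yc (a : Sg) : Sg := fun i => if i ∈ Mod a then 0 else a i

theorem Yc_mem (a : Sg) : Yc a ∈ Xs := by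
  classical
  intro t m hm hb
  by_contra hcon
  push Not at hcon
  have hle : ∀ j, cnt (Yc a) t j ≤ cnt a t j := by
    intro j
    unfold cnt
    apply Finset.card_le_card
    intro i hi
    rw [Finset.mem_filter] at hi ⊢
    refine ⟨hi.1, ?_⟩
    have h2 := hi.2
    unfold Yc at h2
    split_ifs at h2 with h
    · exact absurd h2.symm (letter_ne_zero j)
    · exact h2
  have hba : bad a t m := fun j h1 h2 => (hb j h1 h2).trans (Nat.mul_le_mul_left 8 (hle j))
  have h0 : cnt (Yc a) t m = 0 := by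
    unfold cnt
    rw [Finset.card_eq_zero, Finset.filter_eq_empty_iff]
    intro i hi
    rw [Finset.mem_Ioc] at hi
    have hmod : i ∈ Mod a := ⟨m, hm, t, hcon, hba, hi.1, hi.2⟩
    unfold Yc
    rw [if_pos hmod]
    exact (letter_ne_zero m).symm
  have := hb m le_rfl (by omega)
  rw [h0] at this
  have : 0 < 2 ^ m := by positivity
  omega

open Classical in
/-- counting -/
noncomputable def ct (P : Set ℕ) (N : ℕ) : ℕ := ((Finset.range N).filter (fun i => i ∈ P)).card

theorem ct_mono {P Q : Set ℕ} (h : P ⊆ Q) (N : ℕ) : ct P N ≤ ct Q N := by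
  classical
  unfold ct
  apply Finset.card_le_card
  intro i hi
  rw [Finset.mem_filter] at hi ⊢
  exact ⟨hi.1, h hi.2⟩

theorem ct_add_le (P : Set ℕ) (N R : ℕ) : ct P (N + R) ≤ ct P N + R := by
  classical
  unfold ct
  have : (Finset.range (N + R)).filter (fun i => i ∈ P) ⊆
      (Finset.range N).filter (fun i => i ∈ P) ∪ Finset.Ico N (N + R) := by
    intro i hi
    rw [Finset.mem_filter, Finset.mem_range] at hi
    rw [Finset.mem_union, Finset.mem_filter, Finset.mem_range, Finset.mem_Ico]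
    by_cases h : i < N
    · exact Or.inl ⟨h, hi.2⟩
    · exact Or.inr ⟨by omega, hi.1⟩
  calc _ ≤ _ := Finset.card_le_card this
    _ ≤ _ := Finset.card_union_le _ _
    _ = _ := by rw [Nat.card_Ico, Nat.add_sub_cancel_left]

/-- If every point of `Q` is within `R` of a point of `P` then `Q` is not much denser. -/
theorem ct_near {P Q : Set ℕ} (R : ℕ) (h : ∀ i ∈ Q, ∃ e ∈ P, i ≤ e + R ∧ e ≤ i + R) (N : ℕ) :
    ct Q N ≤ (2 * R + 1) * (ct P N + R) := by
  classical
  have h1 : (Finset.range N).filter (fun i => i ∈ Q) ⊆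
      ((Finset.range (N + R)).filter (fun i => i ∈ P)).biUnion (fun e => Finset.Icc (e - R) (e + R)) := by
    intro i hi
    rw [Finset.mem_filter, Finset.mem_range] at hi
    obtain ⟨e, he, h1, h2⟩ := h i hi.2
    rw [Finset.mem_biUnion]
    refine ⟨e, ?_, ?_⟩
    · rw [Finset.mem_filter, Finset.mem_range]
      exact ⟨by omega, he⟩
    · rw [Finset.mem_Icc]
      exact ⟨by omega, h1⟩
  have h2 := Finset.card_le_card h1
  have h3 : (((Finset.range (N + R)).filter (fun i => i ∈ P)).biUnion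
      (fun e => Finset.Icc (e - R) (e + R))).card ≤ ct P (N + R) * (2 * R + 1) := by
    refine Finset.card_biUnion_le_card_mul _ _ _ (fun e _ => ?_)
    rw [Nat.card_Icc]; omega
  calc ct Q N ≤ ct P (N + R) * (2 * R + 1) := h2.trans h3
    _ ≤ (ct P N + R) * (2 * R + 1) := Nat.mul_le_mul_right _ (ct_add_le P N R)
    _ = _ := by ring

/-- Large scales have small density. -/
theorem ct_ModS_large (a : Sg) (m : ℕ) (hm : 4 ≤ m) (N : ℕ) :
    ct (ModS a m) N * 2 ^ m ≤ 16 * N := by
  classical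
  by_cases hN : N ≤ 4 ^ m
  · have : ct (ModS a m) N = 0 := by
      unfold ct
      rw [Finset.card_eq_zero, Finset.filter_eq_empty_iff]
      rintro i hi ⟨t, h1, -, h2, -⟩
      rw [Finset.mem_range] at hi
      have : 0 < 2 ^ m := by positivity
      omega
    rw [this]; simp
  push Not at hN
  obtain ⟨r, rfl⟩ : ∃ r, m = r + 2 := ⟨m - 2, by omega⟩
  set B := 2 ^ (2 * (r + 2) - 2) with hB
  have hBe : B = 2 ^ (2 * r + 2) := by rw [hB]; congr 1
  have hB0 : 0 < B := by positivity
  have e4B : 4 ^ (r + 2) = 4 * B := by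
    rw [hBe, show (4 : ℕ) = 2 ^ 2 by norm_num, ← pow_mul, ← pow_add]
    congr 1; ring
  have e2B : 2 ^ (2 * (r + 2) - 1) = 2 * B := by
    rw [hBe, ← pow_succ']; congr 1
  have hmB : 2 ^ (r + 2) ≤ B := by
    rw [hBe]; exact Nat.pow_le_pow_right (by norm_num) (by omega)
  have hp1 : 2 ^ (r + 2 + 1) = 2 * 2 ^ (r + 2) := by ring
  -- one block
  have hblock : ∀ k : ℕ, ((Finset.Ico (k * B) (k * B + B)).filter
      (fun i => i ∈ ModS a (r + 2))).card ≤ 2 ^ (r + 2 + 1) := by
    intro k
    by_cases hex : ∃ t, 4 ^ (r + 2) < t ∧ bad a t (r + 2) ∧ ∃ i, k * B ≤ i ∧ i < k * B + B ∧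
        t + 2 ^ (r + 2) < i ∧ i ≤ t + 2 ^ (r + 2 + 1)
    · set t₀ := Nat.find hex with ht₀
      obtain ⟨h1, h2, i₀, h3, h4, h5, h6⟩ := Nat.find_spec hex
      have hsub : (Finset.Ico (k * B) (k * B + B)).filter (fun i => i ∈ ModS a (r + 2)) ⊆
          Finset.Ioo (t₀ + 2 ^ (r + 2)) (t₀ + 2 ^ (r + 2) + 2 ^ (r + 2 + 1)) := by
        intro i hi
        rw [Finset.mem_filter, Finset.mem_Ico] at hi
        obtain ⟨⟨h7, h8⟩, t, h9, h10, h11, h12⟩ := hi
        have hmin : t₀ ≤ t := Nat.find_min' hex ⟨h9, h10, i, h7, h8, h11, h12⟩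
        have hclose : t < t₀ + 2 ^ (r + 2) := by
          by_contra hcon
          push Not at hcon
          have hpos : 0 < 2 ^ (r + 2) := by positivity
          refine bad_sep h2 h10 (by omega) (by omega) ?_
          rw [e2B]
          omega
        rw [Finset.mem_Ioo]
        omega
      refine (Finset.card_le_card hsub).trans ?_
      rw [Nat.card_Ioo]; omega
    · have : (Finset.Ico (k * B) (k * B + B)).filter (fun i => i ∈ ModS a (r + 2)) = ∅ := by
        rw [Finset.filter_eq_empty_iff]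
        rintro i hi ⟨t, h1, h2, h3, h4⟩
        rw [Finset.mem_Ico] at hi
        exact hex ⟨t, h1, h2, i, hi.1, hi.2, h3, h4⟩
      rw [this]; simp
  have hcov : (Finset.range N).filter (fun i => i ∈ ModS a (r + 2)) ⊆
      (Finset.range (N / B + 1)).biUnion (fun k => (Finset.Ico (k * B) (k * B + B)).filter
        (fun i => i ∈ ModS a (r + 2))) := by
    intro i hi
    rw [Finset.mem_filter, Finset.mem_range] at hi
    rw [Finset.mem_biUnion]
    refine ⟨i / B, ?_, ?_⟩
    · rw [Finset.mem_range]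
      exact Nat.lt_succ_of_le (Nat.div_le_div_right hi.1.le)
    · rw [Finset.mem_filter, Finset.mem_Ico]
      refine ⟨⟨Nat.div_mul_le_self i B, ?_⟩, hi.2⟩
      have := Nat.lt_div_mul_add (a := i) hB0
      omega
  have h1 : ct (ModS a (r + 2)) N ≤ (N / B + 1) * 2 ^ (r + 2 + 1) := by
    refine (Finset.card_le_card hcov).trans ?_
    refine (Finset.card_biUnion_le_card_mul _ _ _ (fun k _ => hblock k)).trans ?_
    rw [Finset.card_range]
  have h2 : 2 ^ (r + 2 + 1) * 2 ^ (r + 2) = 8 * B := by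
    rw [hBe, ← pow_add, show (8 : ℕ) = 2 ^ 3 by norm_num, ← pow_add]
    congr 1; ring
  have h3 : N / B * B ≤ N := Nat.div_mul_le_self N B
  calc ct (ModS a (r + 2)) N * 2 ^ (r + 2) ≤ (N / B + 1) * 2 ^ (r + 2 + 1) * 2 ^ (r + 2) :=
        Nat.mul_le_mul_right _ h1
    _ = (N / B + 1) * (8 * B) := by rw [mul_assoc, h2]
    _ = 8 * (N / B * B) + 8 * B := by ring
    _ ≤ 8 * N + 8 * B := by omega
    _ ≤ 16 * N := by omega

/-- The errors of the pseudo-orbit up to precision `K`. -/
def Err (x : ℕ → Sg) (K : ℕ) : Set ℕ := {i | ∃ k < K, x i (k + 1) ≠ x (i + 1) k}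

theorem Err_mono (x : ℕ → Sg) {K K' : ℕ} (h : K ≤ K') : Err x K ⊆ Err x K' := by
  rintro i ⟨k, hk, h1⟩
  exact ⟨k, by omega, h1⟩

theorem chain (x : ℕ → Sg) (K s : ℕ) : ∀ l r, l + r ≤ K → (∀ i < l, s + i ∉ Err x K) →
    x s (l + r) = x (s + l) r := by
  intro l
  induction l with
  | zero => intro r _ _; simp
  | succ l ih =>
    intro r hlr h
    rw [show l + 1 + r = l + (r + 1) by ring, ih (r + 1) (by omega) (fun i hi => h i (by omega))]
    have h1 := h l (by omega)
    have : x (s + l) (r + 1) = x (s + l + 1) r := by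
      by_contra hne
      exact h1 ⟨r, by omega, hne⟩
    rw [this]
    rfl

/-- Erased positions of a small scale are near errors. -/
theorem ModS_near_err (x : ℕ → Sg) (hx : ∀ i, x i ∈ Xs) (m K : ℕ) (hm : 4 ≤ m)
    (hK : 2 * 4 ^ m + 2 ≤ K) :
    ∀ i ∈ ModS (fun i => x i 0) m, ∃ e ∈ Err x K, i ≤ e + 2 * 4 ^ m ∧ e ≤ i + 2 * 4 ^ m := by
  rintro i ⟨t, ht, hb, h1, h2⟩
  by_contra hcon
  push Not at hcon
  have h22 : 2 ^ (2 * m) = 4 ^ m := by rw [pow_mul]; norm_num
  have hsm : 2 ^ (m + 1) + 1 ≤ 4 ^ m := by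
    rw [← h22]
    have : 2 ^ (m + 2) ≤ 2 ^ (2 * m) := Nat.pow_le_pow_right (by norm_num) (by omega)
    have e1 : 2 ^ (m + 2) = 2 * 2 ^ (m + 1) := by ring
    have : 0 < 2 ^ (m + 1) := by positivity
    omega
  set s := t - 4 ^ m - 1 with hs
  have hts : t = s + (4 ^ m + 1) := by omega
  have hno : ∀ e, s ≤ e → e ≤ t + 4 ^ m → e ∉ Err x K := by
    intro e he1 he2 he3
    have := hcon e he3 (by omega)
    have : 0 < 2 ^ m := by positivity
    omega
  have hagree : ∀ l ≤ (4 ^ m + 1) + 2 ^ (2 * m), (fun i => (fun i => x i 0) (s + i)) l = x s l := by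
    intro l hl
    have := chain x K s l 0 (by omega) (fun i hi => hno (s + i) (by omega) (by omega))
    simp only [add_zero] at this
    exact this.symm
  rw [hts, ← bad_translate] at hb
  have hb' := bad_congr hagree hb
  have := hx s (4 ^ m + 1) m hm hb'
  omega

end Pool.Agent.V11215.SH
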