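import Mathlib
import Pool.Agent.V11215.SHB

open Filter Topology Set

namespace Pool.Agent.V11215.SH

attribute [local instance] PiNat.metricSpace

theorem dist_le_of_agree {x y : Sg} {K : ℕ} (h : ∀ k < K, x k = y k) : dist x y ≤ (1 / 2 : ℝ) ^ K :=
  PiNat.mem_cylinder_iff_dist_le.1 (PiNat.mem_cylinder_iff.2 h)

theorem le_dist_of_ne {x y : Sg} {K k : ℕ} (hk : k < K) (h : x k ≠ y k) :
    (1 / 2 : ℝ) ^ K ≤ dist x y := by
  by_contra hcon
  push Not at hcon
  exact h (PiNat.mem_cylinder_iff.1 (PiNat.mem_cylinder_iff_dist_le.2 hcon.le) k hk)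

theorem sdist_le_one (x y : Sg) : dist x y ≤ 1 := PiNat.dist_le_one x y

theorem shift_iter (x : Sg) (i k : ℕ) : shift^[i] x k = x (i + k) := by
  induction i generalizing x with
  | zero => simp
  | succ i ih =>
    rw [Function.iterate_succ_apply, ih]
    show x (i + k + 1) = _
    congr 1; ring

theorem ct_union_le (P Q : Set ℕ) (N : ℕ) : ct (P ∪ Q) N ≤ ct P N + ct Q N := by
  unfold ct
  refine (Finset.card_le_card ?_).trans (Finset.card_union_le _ _)
  intro i hi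
  rw [Finset.mem_union]
  simp only [Finset.mem_filter] at hi ⊢
  rcases hi.2 with h | h
  · exact Or.inl ⟨hi.1, h⟩
  · exact Or.inr ⟨hi.1, h⟩

/-- The density of errors is bounded by the average error. -/
theorem ct_Err_le (x : ℕ → Sg) (K N : ℕ) :
    (ct (Err x K) N : ℝ) ≤ 2 ^ K * ∑ i ∈ Finset.range N, dist (shift (x i)) (x (i + 1)) := by
  classical
  have h1 : (ct (Err x K) N : ℝ) * (1 / 2) ^ K ≤
      ∑ i ∈ Finset.range N, dist (shift (x i)) (x (i + 1)) := by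
    calc (ct (Err x K) N : ℝ) * (1 / 2) ^ K
        = ∑ i ∈ (Finset.range N).filter (fun i => i ∈ Err x K), (1 / 2 : ℝ) ^ K := by
          rw [Finset.sum_const, nsmul_eq_mul]; rfl
      _ ≤ ∑ i ∈ (Finset.range N).filter (fun i => i ∈ Err x K), dist (shift (x i)) (x (i + 1)) := by
          apply Finset.sum_le_sum
          intro i hi
          rw [Finset.mem_filter] at hi
          obtain ⟨k, hk, hne⟩ := hi.2
          exact le_dist_of_ne hk hne
      _ ≤ _ := Finset.sum_le_sum_of_subset_of_nonneg (Finset.filter_subset _ _)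
          (fun i _ _ => dist_nonneg)
  have h2 : (2 : ℝ) ^ K * (1 / 2) ^ K = 1 := by rw [← mul_pow]; norm_num
  have h3 : (0 : ℝ) < 2 ^ K := by positivity
  calc (ct (Err x K) N : ℝ) = 2 ^ K * ((ct (Err x K) N : ℝ) * (1 / 2) ^ K) := by
        rw [mul_left_comm, h2, mul_one]
    _ ≤ _ := mul_le_mul_of_nonneg_left h1 h3.le

/-- The density of erased positions. -/
theorem ct_Mod_le (x : ℕ → Sg) (hx : ∀ i, x i ∈ Xs) (M N : ℕ) (hM : 4 ≤ M) :
    (ct (Mod (fun i => x i 0)) N : ℝ) ≤ 32 * N * (1 / 2) ^ M +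
      M * ((2 * (2 * 4 ^ M) + 1) * (ct (Err x (2 * 4 ^ M + 2)) N + 2 * 4 ^ M)) := by
  classical
  set a : Sg := fun i => x i 0 with ha
  have hsub : (Finset.range N).filter (fun i => i ∈ Mod a) ⊆
      ((Finset.Ico 4 M).biUnion (fun m => (Finset.range N).filter (fun i => i ∈ ModS a m))) ∪
      ((Finset.Ico M (M + N)).biUnion (fun m => (Finset.range N).filter (fun i => i ∈ ModS a m))) := by
    intro i hi
    rw [Finset.mem_filter, Finset.mem_range] at hi
    obtain ⟨hiN, m, hm, him⟩ := hi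
    rw [Finset.mem_union, Finset.mem_biUnion, Finset.mem_biUnion]
    by_cases hmM : m < M
    · refine Or.inl ⟨m, Finset.mem_Ico.2 ⟨hm, hmM⟩, ?_⟩
      rw [Finset.mem_filter, Finset.mem_range]
      exact ⟨hiN, him⟩
    · refine Or.inr ⟨m, Finset.mem_Ico.2 ⟨by omega, ?_⟩, ?_⟩
      · obtain ⟨t, h1, -, h2, -⟩ := him
        have h3 : m < 4 ^ m := Nat.lt_pow_self (by norm_num)
        have h4 : 0 < 2 ^ m := by positivity
        omega
      · rw [Finset.mem_filter, Finset.mem_range]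
        exact ⟨hiN, him⟩
  have h1 : ct (Mod a) N ≤ ∑ m ∈ Finset.Ico 4 M, ct (ModS a m) N +
      ∑ m ∈ Finset.Ico M (M + N), ct (ModS a m) N :=
    (Finset.card_le_card hsub).trans ((Finset.card_union_le _ _).trans
      (Nat.add_le_add Finset.card_biUnion_le Finset.card_biUnion_le))
  have h2 : (∑ m ∈ Finset.Ico 4 M, (ct (ModS a m) N : ℝ)) ≤
      M * ((2 * (2 * 4 ^ M) + 1) * (ct (Err x (2 * 4 ^ M + 2)) N + 2 * 4 ^ M)) := by
    have hterm : ∀ m ∈ Finset.Ico 4 M, (ct (ModS a m) N : ℝ) ≤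
        (2 * (2 * 4 ^ M) + 1) * (ct (Err x (2 * 4 ^ M + 2)) N + 2 * 4 ^ M) := by
      intro m hm
      rw [Finset.mem_Ico] at hm
      have h4 : 4 ^ m ≤ 4 ^ M := Nat.pow_le_pow_right (by norm_num) hm.2.le
      have := ct_near (P := Err x (2 * 4 ^ M + 2)) (Q := ModS a m) (2 * 4 ^ M) (by
        intro i hi
        obtain ⟨e, he, h5, h6⟩ := ModS_near_err x hx m (2 * 4 ^ M + 2) hm.1 (by omega) i hi
        exact ⟨e, he, by omega, by omega⟩) N
      exact_mod_cast this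
    refine (Finset.sum_le_sum hterm).trans ?_
    rw [Finset.sum_const, nsmul_eq_mul, Nat.card_Ico]
    apply mul_le_mul_of_nonneg_right
    · exact_mod_cast Nat.sub_le M 4
    · positivity
  have h3 : (∑ m ∈ Finset.Ico M (M + N), (ct (ModS a m) N : ℝ)) ≤ 32 * N * (1 / 2) ^ M := by
    have hterm : ∀ m ∈ Finset.Ico M (M + N), (ct (ModS a m) N : ℝ) ≤ 16 * N * (1 / 2) ^ m := by
      intro m hm
      rw [Finset.mem_Ico] at hm
      have h4 := ct_ModS_large a m (by omega) N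
      have h5 : (ct (ModS a m) N : ℝ) * 2 ^ m ≤ 16 * N := by exact_mod_cast h4
      have h6 : (2 : ℝ) ^ m * (1 / 2) ^ m = 1 := by rw [← mul_pow]; norm_num
      calc (ct (ModS a m) N : ℝ) = (ct (ModS a m) N : ℝ) * 2 ^ m * (1 / 2) ^ m := by
            rw [mul_assoc, h6, mul_one]
        _ ≤ _ := mul_le_mul_of_nonneg_right h5 (by positivity)
    refine (Finset.sum_le_sum hterm).trans ?_
    rw [← Finset.mul_sum]
    have hgeo : ∀ L : ℕ, ∑ m ∈ Finset.Ico M (M + L), (1 / 2 : ℝ) ^ m ≤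
        2 * (1 / 2) ^ M - 2 * (1 / 2) ^ (M + L) := by
      intro L
      induction L with
      | zero => simp
      | succ L ih =>
        rw [show M + (L + 1) = M + L + 1 by ring, Finset.sum_Ico_succ_top (by omega), pow_succ]
        linarith
    have h7 := hgeo N
    have h8 : (0 : ℝ) ≤ (1 / 2) ^ (M + N) := by positivity
    calc 16 * (N : ℝ) * ∑ m ∈ Finset.Ico M (M + N), (1 / 2 : ℝ) ^ m
        ≤ 16 * (N : ℝ) * (2 * (1 / 2) ^ M) :=
          mul_le_mul_of_nonneg_left (by linarith) (by positivity)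
      _ = _ := by ring
  have h4 : (ct (Mod a) N : ℝ) ≤ ∑ m ∈ Finset.Ico 4 M, (ct (ModS a m) N : ℝ) +
      ∑ m ∈ Finset.Ico M (M + N), (ct (ModS a m) N : ℝ) := by exact_mod_cast h1
  linarith

/-- The average shadowing estimate. -/
theorem sum_bound (ε : ℝ) (hε : 0 < ε) : ∃ C : ℝ, 0 < C ∧ ∀ x : ℕ → Sg, (∀ i, x i ∈ Xs) →
    ∀ N : ℕ, ∑ i ∈ Finset.range N, dist (shift^[i] (Yc (fun i => x i 0))) (x i) ≤
      ε * N + C * (∑ i ∈ Finset.range N, dist (shift (x i)) (x (i + 1)) + 1) := by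
  classical
  obtain ⟨K₀, hK₀⟩ : ∃ K₀ : ℕ, (1 / 2 : ℝ) ^ K₀ < ε / 2 :=
    exists_pow_lt_of_lt_one (by linarith) (by norm_num)
  obtain ⟨M₀, hM₀⟩ : ∃ M₀ : ℕ, (1 / 2 : ℝ) ^ M₀ < ε / (64 * (2 * K₀ + 1)) :=
    exists_pow_lt_of_lt_one (by positivity) (by norm_num)
  set M := M₀ + 4 with hM
  set R : ℝ := 2 * 4 ^ M with hR
  set Ks : ℕ := 2 * 4 ^ M + 2 with hKs
  have hR0 : 0 < R := by positivity
  refine ⟨(2 * K₀ + 1) * (M * ((2 * R + 1) * (2 ^ Ks + R)) + 2 ^ K₀ + K₀) + 1, by positivity, ?_⟩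
  intro x hx N
  set S := ∑ i ∈ Finset.range N, dist (shift (x i)) (x (i + 1)) with hS
  have hS0 : 0 ≤ S := Finset.sum_nonneg (fun i _ => dist_nonneg)
  set a : Sg := fun i => x i 0 with ha
  set D : Set ℕ := {i | ∃ k < K₀, i + k ∈ Mod a ∪ Err x K₀} with hD
  -- pointwise
  have hpt : ∀ i ∈ Finset.range N, dist (shift^[i] (Yc a)) (x i) ≤
      (1 / 2) ^ K₀ + (if i ∈ D then 1 else 0) := by
    intro i _
    by_cases hi : i ∈ D
    · rw [if_pos hi]
      have := sdist_le_one (shift^[i] (Yc a)) (x i)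
      have : (0 : ℝ) < (1 / 2) ^ K₀ := by positivity
      linarith
    · rw [if_neg hi, add_zero]
      apply dist_le_of_agree
      intro k hk
      rw [shift_iter]
      have hno : ∀ l ≤ k, i + l ∉ Mod a ∪ Err x K₀ := by
        intro l hl hmem
        exact hi ⟨l, by omega, hmem⟩
      have h1 : i + k ∉ Mod a := fun h => hno k le_rfl (Or.inl h)
      have h2 : Yc a (i + k) = a (i + k) := by
        unfold Yc
        rw [if_neg h1]
      rw [h2]
      have h3 := chain x K₀ i k 0 (by omega) (fun l hl h => hno l hl.le (Or.inr h))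
      simp only [add_zero] at h3
      exact h3.symm
  have h1 : ∑ i ∈ Finset.range N, dist (shift^[i] (Yc a)) (x i) ≤ N * (1 / 2) ^ K₀ + ct D N := by
    refine (Finset.sum_le_sum hpt).trans ?_
    rw [Finset.sum_add_distrib, Finset.sum_const, Finset.card_range, nsmul_eq_mul,
      Finset.sum_boole]
    apply le_of_eq
    unfold ct
    congr!
  have h2 : ct D N ≤ (2 * K₀ + 1) * (ct (Mod a ∪ Err x K₀) N + K₀) := by
    apply ct_near
    rintro i ⟨k, hk, hmem⟩
    exact ⟨i + k, hmem, by omega, by omega⟩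
  have h3 := ct_union_le (Mod a) (Err x K₀) N
  have h4 : (ct D N : ℝ) ≤ (2 * K₀ + 1) * (ct (Mod a) N + ct (Err x K₀) N + K₀) := by
    have : ct D N ≤ (2 * K₀ + 1) * (ct (Mod a) N + ct (Err x K₀) N + K₀) :=
      h2.trans (Nat.mul_le_mul_left _ (by omega))
    exact_mod_cast this
  have h5 := ct_Err_le x K₀ N
  have h6 := ct_Mod_le x hx M N (by omega)
  have h7 := ct_Err_le x Ks N
  rw [← hS] at h5 h7
  rw [← ha, ← hKs, ← hR] at h6
  have h8 : (ct (Mod a) N : ℝ) ≤ 32 * N * (1 / 2) ^ M + M * ((2 * R + 1) * (2 ^ Ks * S + R)) := by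
    refine h6.trans ?_
    have : (M : ℝ) * ((2 * R + 1) * (ct (Err x Ks) N + R)) ≤
        M * ((2 * R + 1) * (2 ^ Ks * S + R)) := by
      apply mul_le_mul_of_nonneg_left _ (by positivity)
      apply mul_le_mul_of_nonneg_left _ (by positivity)
      linarith
    linarith
  have h9 : (ct D N : ℝ) ≤ (2 * K₀ + 1) * (32 * N * (1 / 2) ^ M +
      M * ((2 * R + 1) * (2 ^ Ks * S + R)) + 2 ^ K₀ * S + K₀) := by
    refine h4.trans ?_
    apply mul_le_mul_of_nonneg_left _ (by positivity)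
    linarith
  have h10 : (1 / 2 : ℝ) ^ M ≤ (1 / 2) ^ M₀ :=
    pow_le_pow_of_le_one (by norm_num) (by norm_num) (by omega)
  have h11 : (2 * (K₀ : ℝ) + 1) * (32 * N * (1 / 2) ^ M) ≤ ε / 2 * N := by
    have e1 : (1 / 2 : ℝ) ^ M ≤ ε / (64 * (2 * K₀ + 1)) := h10.trans hM₀.le
    calc (2 * (K₀ : ℝ) + 1) * (32 * N * (1 / 2) ^ M)
        ≤ (2 * (K₀ : ℝ) + 1) * (32 * N * (ε / (64 * (2 * K₀ + 1)))) := by
          apply mul_le_mul_of_nonneg_left _ (by positivity)
          apply mul_le_mul_of_nonneg_left e1 (by positivity)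
      _ = ε / 2 * N := by field_simp; ring
  have h12 : (2 * (K₀ : ℝ) + 1) * (M * ((2 * R + 1) * (2 ^ Ks * S + R)) + 2 ^ K₀ * S + K₀) ≤
      ((2 * K₀ + 1) * (M * ((2 * R + 1) * (2 ^ Ks + R)) + 2 ^ K₀ + K₀) + 1) * (S + 1) := by
    have e1 : (M : ℝ) * ((2 * R + 1) * (2 ^ Ks * S + R)) ≤
        M * ((2 * R + 1) * (2 ^ Ks + R)) * (S + 1) := by
      rw [mul_assoc, mul_assoc]
      apply mul_le_mul_of_nonneg_left _ (by positivity)
      apply mul_le_mul_of_nonneg_left _ (by positivity)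
      have : (0 : ℝ) < 2 ^ Ks := by positivity
      nlinarith [mul_nonneg hR0.le hS0]
    have e2 : (2 : ℝ) ^ K₀ * S ≤ 2 ^ K₀ * (S + 1) := by
      apply mul_le_mul_of_nonneg_left _ (by positivity)
      linarith
    have e3 : (K₀ : ℝ) ≤ K₀ * (S + 1) := by
      have : (0 : ℝ) ≤ K₀ := by positivity
      nlinarith
    have e4 : (2 * (K₀ : ℝ) + 1) * (M * ((2 * R + 1) * (2 ^ Ks * S + R)) + 2 ^ K₀ * S + K₀) ≤
        (2 * K₀ + 1) * (M * ((2 * R + 1) * (2 ^ Ks + R)) * (S + 1) + 2 ^ K₀ * (S + 1) +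
          K₀ * (S + 1)) := by
      apply mul_le_mul_of_nonneg_left _ (by positivity)
      linarith
    refine e4.trans ?_
    have : (0 : ℝ) ≤ S + 1 := by linarith
    nlinarith
  have h13 : (N : ℝ) * (1 / 2) ^ K₀ ≤ ε / 2 * N := by
    rw [mul_comm]
    exact mul_le_mul_of_nonneg_right hK₀.le (by positivity)
  have h14 : (ct D N : ℝ) ≤ (2 * K₀ + 1) * (32 * N * (1 / 2) ^ M) +
      (2 * (K₀ : ℝ) + 1) * (M * ((2 * R + 1) * (2 ^ Ks * S + R)) + 2 ^ K₀ * S + K₀) := by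
    refine h9.trans (le_of_eq ?_)
    ring
  linarith

end Pool.Agent.V11215.SH
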