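import Mathlib
import Pool.Agent.V11215.SHDefs
import Pool.Agent.V11215.SHC

open MeasureTheory Filter Topology Set

namespace Pool.Agent.V11215.SH

attribute [local instance] PiNat.metricSpace

theorem shift_cont : Continuous shift :=
  continuous_pi (fun n => continuous_apply (n + 1))

theorem isOpen_of_local {P : Sg → Prop} (L : ℕ)
    (h : ∀ x y : Sg, (∀ i ≤ L, x i = y i) → P x → P y) : IsOpen {x | P x} := by
  rw [isOpen_iff_forall_mem_open]
  intro x hx
  refine ⟨PiNat.cylinder x (L + 1), ?_, PiNat.isOpen_cylinder _ x _, PiNat.self_mem_cylinder x _⟩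
  intro y hy
  rw [PiNat.mem_cylinder_iff] at hy
  exact h x y (fun i hi => (hy i (by omega)).symm) hx

theorem isOpen_bad (t m : ℕ) : IsOpen {x : Sg | bad x t m} :=
  isOpen_of_local (t + 2 ^ (2 * m)) (fun _ _ h hb => bad_congr h hb)

theorem isOpen_not_bad (t m : ℕ) : IsOpen {x : Sg | ¬ bad x t m} :=
  isOpen_of_local (t + 2 ^ (2 * m)) (fun _ _ h hb hb' =>
    hb (bad_congr (fun i hi => (h i hi).symm) hb'))

theorem isClosed_bad_imp (t m : ℕ) (p : Prop) : IsClosed {x : Sg | bad x t m → p} := by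
  by_cases hp : p
  · have : {x : Sg | bad x t m → p} = univ := by
      ext x; simp [hp]
    rw [this]; exact isClosed_univ
  · have : {x : Sg | bad x t m → p} = {x : Sg | bad x t m}ᶜ := by
      ext x; simp [hp]
    rw [this]; exact (isOpen_bad t m).isClosed_compl

theorem Xs_closed : IsClosed Xs := by
  have : Xs = ⋂ t : ℕ, ⋂ m : ℕ, {x : Sg | bad x t m → (4 ≤ m → t ≤ 4 ^ m)} := by
    ext x
    simp only [mem_iInter]
    constructor
    · intro h t m hb hm
      exact h t m hm hb
    · intro h t m hm hb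
      exact h t m hb hm
  rw [this]
  exact isClosed_iInter (fun t => isClosed_iInter (fun m => isClosed_bad_imp t m _))

theorem As_closed : IsClosed As := by
  have : As = ⋂ t : ℕ, ⋂ m : ℕ, {x : Sg | bad x t m → ¬ 4 ≤ m} := by
    ext x
    simp only [mem_iInter]
    constructor
    · intro h t m hb hm
      exact h t m hm hb
    · intro h t m hm hb
      exact h t m hb hm
  rw [this]
  exact isClosed_iInter (fun t => isClosed_iInter (fun m => isClosed_bad_imp t m _))

theorem bad_shift_iter (x : Sg) (s t m : ℕ) : bad (shift^[s] x) t m ↔ bad x (s + t) m := by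
  have : shift^[s] x = fun i => x (s + i) := by
    funext i
    exact shift_iter x s i
  rw [this]
  exact bad_translate x s t m

theorem bad_shift (x : Sg) (t m : ℕ) : bad (shift x) t m ↔ bad x (1 + t) m :=
  bad_shift_iter x 1 t m

theorem Xs_inv : MapsTo shift Xs Xs := by
  intro x hx t m hm hb
  rw [bad_shift] at hb
  have := hx _ _ hm hb
  omega

theorem As_inv : MapsTo shift As As := by
  intro x hx t m hm hb
  rw [bad_shift] at hb
  exact hx _ _ hm hb

theorem As_sub : As ⊆ Xs := fun _ hx t m hm hb => absurd hb (hx t m hm)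

/-- The system. -/
def fX : Xs → Xs := Xs_inv.restrict shift Xs Xs

theorem fX_val (y : Xs) : (fX y : Sg) = shift y := rfl

theorem fX_cont : Continuous fX := shift_cont.restrict Xs_inv

theorem fX_iter (y : Xs) (i : ℕ) : ((fX^[i] y : Xs) : Sg) = shift^[i] (y : Sg) := by
  induction i generalizing y with
  | zero => rfl
  | succ i ih => rw [Function.iterate_succ_apply, Function.iterate_succ_apply, ih, fX_val]

/-- The subset. -/
def AX : Set Xs := {x | (x : Sg) ∈ As}

theorem AX_inv : MapsTo fX AX AX := fun _ hx => As_inv hx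

theorem AX_closed : IsClosed AX := As_closed.preimage continuous_subtype_val

theorem center_sub [MeasurableSpace Xs] [BorelSpace Xs] : measureCenter fX ⊆ AX := by
  intro x hx
  by_contra hcon
  have : ∃ t m, 4 ≤ m ∧ bad x t m := by
    by_contra h
    push Not at h
    exact hcon (fun t m hm => h t m hm)
  obtain ⟨t, m, hm, hb⟩ := this
  apply hx
  have hU : IsOpen {y : Xs | bad (y : Sg) t m} := (isOpen_bad t m).preimage continuous_subtype_val
  refine ⟨{y : Xs | bad (y : Sg) t m}, ⟨hU, ?_⟩, hb⟩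
  intro μ _ hμ
  have hp : MeasurePreserving fX μ μ := ⟨fX_cont.measurable, hμ⟩
  rw [← (hp.iterate (4 ^ m + 1)).measure_preimage hU.measurableSet.nullMeasurableSet]
  have : fX^[4 ^ m + 1] ⁻¹' {y : Xs | bad (y : Sg) t m} = ∅ := by
    rw [eq_empty_iff_forall_notMem]
    intro y hy
    have hy' : bad ((fX^[4 ^ m + 1] y : Xs) : Sg) t m := hy
    rw [fX_iter, bad_shift_iter] at hy'
    have := y.2 _ _ hm hy'
    omega
  rw [this]
  exact measure_empty

theorem fX_bound (ε : ℝ) (hε : 0 < ε) : ∃ C : ℝ, 0 < C ∧ ∀ x : ℕ → Xs, ∃ y : Xs,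
    ∀ N : ℕ, ∑ i ∈ Finset.range N, dist (fX^[i] y) (x i) ≤
      ε * N + C * (∑ i ∈ Finset.range N, dist (fX (x i)) (x (i + 1)) + 1) := by
  obtain ⟨C, hC, h⟩ := sum_bound ε hε
  refine ⟨C, hC, fun x => ⟨⟨Yc (fun i => (x i : Sg) 0), Yc_mem _⟩, fun N => ?_⟩⟩
  have := h (fun i => (x i : Sg)) (fun i => (x i).2) N
  calc _ = ∑ i ∈ Finset.range N, dist (shift^[i] (Yc (fun i => (x i : Sg) 0))) (x i : Sg) := by
        apply Finset.sum_congr rfl
        intro i _
        rw [Subtype.dist_eq, fX_iter]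
    _ ≤ _ := this
    _ = _ := rfl

theorem fX_y (x : ℕ → Xs) : ∃ y : Xs, ∀ ε > 0, ∃ C : ℝ, 0 < C ∧ 
    ∀ N : ℕ, ∑ i ∈ Finset.range N, dist (fX^[i] y) (x i) ≤
      ε * N + C * (∑ i ∈ Finset.range N, dist (fX (x i)) (x (i + 1)) + 1) := by
  refine ⟨⟨Yc (fun i => (x i : Sg) 0), Yc_mem _⟩, fun ε hε => ?_⟩
  obtain ⟨C, hC, h⟩ := sum_bound ε hε
  refine ⟨C, hC, fun N => ?_⟩
  have := h (fun i => (x i : Sg)) (fun i => (x i).2) N
  calc _ = ∑ i ∈ Finset.range N, dist (shift^[i] (Yc (fun i => (x i : Sg) 0))) (x i : Sg) := by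
        apply Finset.sum_congr rfl
        intro i _
        rw [Subtype.dist_eq, fX_iter]
    _ ≤ _ := this
    _ = _ := rfl

theorem fX_ASP : ASP fX := by
  intro ε hε
  obtain ⟨C, hC, h⟩ := fX_bound (ε / 4) (by linarith)
  refine ⟨ε / (4 * C), by positivity, fun x hx => ?_⟩
  obtain ⟨N₀, hN₀⟩ := hx
  obtain ⟨y, hy⟩ := h x
  refine ⟨y, ?_⟩
  have hev : ∀ᶠ n : ℕ in atTop, (∑ i ∈ Finset.range n, dist (fX^[i] y) (x i)) / n ≤ 3 * ε / 4 := by
    obtain ⟨N₁, hN₁⟩ := exists_nat_gt (4 * C / ε)
    filter_upwards [eventually_ge_atTop (max N₀ (max N₁ 1))] with n hn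
    have hn1 : N₀ ≤ n := le_trans (le_max_left _ _) hn
    have hn2 : N₁ ≤ n := le_trans (le_trans (le_max_left _ _) (le_max_right _ _)) hn
    have hn3 : 1 ≤ n := le_trans (le_trans (le_max_right _ _) (le_max_right _ _)) hn
    have hn0 : (0 : ℝ) < n := by exact_mod_cast hn3
    have h1 := hN₀ n hn1 0
    simp only [add_zero] at h1
    rw [div_lt_iff₀ hn0] at h1
    have h2 := hy n
    have h3 : 4 * C / ε < n := hN₁.trans_le (by exact_mod_cast hn2)
    rw [div_lt_iff₀ hε] at h3
    rw [div_le_iff₀ hn0]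
    have h4 : C * (∑ i ∈ Finset.range n, dist (fX (x i)) (x (i + 1))) ≤
        C * (ε / (4 * C) * n) := mul_le_mul_of_nonneg_left h1.le hC.le
    have h5 : C * (ε / (4 * C) * n) = ε / 4 * n := by field_simp
    rw [mul_add] at h2
    linarith
  have hb : IsCoboundedUnder (· ≤ ·) atTop
      (fun n : ℕ => (∑ i ∈ Finset.range n, dist (fX^[i] y) (x i)) / n) :=
    isCoboundedUnder_le_of_eventually_le (x := 0) atTop
      (Eventually.of_forall (fun n => by positivity))
  have := limsup_le_of_le hb hev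
  linarith

theorem fX_AASP : AASP fX := by
  intro x hx
  obtain ⟨y, hy⟩ := fX_y x
  refine ⟨y, ?_⟩
  rw [Metric.tendsto_atTop]
  intro ε hε
  obtain ⟨C, hC, h⟩ := hy (ε / 4) (by linarith)
  rw [Metric.tendsto_atTop] at hx
  obtain ⟨N₀, hN₀⟩ := hx (ε / (4 * C)) (by positivity)
  obtain ⟨N₁, hN₁⟩ := exists_nat_gt (4 * C / ε)
  refine ⟨max N₀ (max N₁ 1), fun n hn => ?_⟩
  have hn1 : N₀ ≤ n := le_trans (le_max_left _ _) hn
  have hn2 : N₁ ≤ n := le_trans (le_trans (le_max_left _ _) (le_max_right _ _)) hn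
  have hn3 : 1 ≤ n := le_trans (le_trans (le_max_right _ _) (le_max_right _ _)) hn
  have hn0 : (0 : ℝ) < n := by exact_mod_cast hn3
  have h1 := hN₀ n hn1
  rw [Real.dist_eq, sub_zero, abs_of_nonneg (by positivity), div_lt_iff₀ hn0] at h1
  have h2 := h n
  have h3 : 4 * C / ε < n := hN₁.trans_le (by exact_mod_cast hn2)
  rw [div_lt_iff₀ hε] at h3
  rw [Real.dist_eq, sub_zero, abs_of_nonneg (by positivity), div_lt_iff₀ hn0]
  have h4 : C * (∑ i ∈ Finset.range n, dist (fX (x i)) (x (i + 1))) ≤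
      C * (ε / (4 * C) * n) := mul_le_mul_of_nonneg_left h1.le hC.le
  have h5 : C * (ε / (4 * C) * n) = ε / 4 * n := by field_simp
  rw [mul_add] at h2
  have : 0 < ε * n := by positivity
  linarith

/-! ### Failure on the subset -/

/-- window index -/
def win (i : ℕ) : ℕ := Nat.log 2 (i - 1)

/-- constant sequences -/
def cst (i : ℕ) : Sg := fun _ => letter (win i)

theorem cst_mem (c : Fin 3) : (fun _ => c : Sg) ∈ As := by
  intro t m hm hb
  have key : ∀ j, letter j ≠ c → cnt (fun _ => c) t j = 0 := by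
    intro j hj
    unfold cnt
    rw [Finset.card_eq_zero, Finset.filter_eq_empty_iff]
    intro i _ h
    exact hj h.symm
  by_cases h : letter m = c
  · have h1 := hb (m + 1) (by omega) (by omega)
    rw [key (m + 1) (fun h2 => letter_succ_ne m (h2.trans h.symm))] at h1
    have : 0 < 2 ^ (m + 1) := by positivity
    omega
  · have h1 := hb m le_rfl (by omega)
    rw [key m h] at h1
    have : 0 < 2 ^ m := by positivity
    omega

theorem win_mono {i j : ℕ} (h : i ≤ j) : win i ≤ win j := Nat.log_mono_right (by omega)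

theorem cst_jump (i : ℕ) : dist (shift (cst i)) (cst (i + 1)) ≤ (win (i + 1) : ℝ) - win i := by
  by_cases h : win (i + 1) = win i
  · have : shift (cst i) = cst (i + 1) := by
      funext n
      show letter (win i) = letter (win (i + 1))
      rw [h]
    rw [this, dist_self, h, sub_self]
  · have h1 := win_mono (Nat.le_succ i)
    have h2 : win i + 1 ≤ win (i + 1) := by
      have : i.succ = i + 1 := rfl
      rw [this] at h1
      omega
    have h3 : ((win i : ℝ) + 1) ≤ win (i + 1) := by exact_mod_cast h2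
    have := sdist_le_one (shift (cst i)) (cst (i + 1))
    linarith

theorem win_add_le (n k : ℕ) : win (n + k) ≤ win k + (Nat.log 2 n + 1) := by
  unfold win
  rcases Nat.eq_zero_or_pos (n + k - 1) with h0 | h0
  · rw [h0]; simp
  set a := Nat.log 2 (k - 1)
  set b := Nat.log 2 n
  have h1 : k - 1 < 2 ^ (a + 1) := Nat.lt_pow_succ_log_self (by norm_num) _
  have h2 : n < 2 ^ (b + 1) := Nat.lt_pow_succ_log_self (by norm_num) _
  have h3 : n + k - 1 < 2 ^ (a + (b + 1) + 1) := by
    have e1 : 2 ^ (a + (b + 1) + 1) = 2 ^ (a + 1) * 2 ^ (b + 1) := by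
      rw [← pow_add]; congr 1; ring
    have e2 : 2 ≤ 2 ^ (a + 1) := by
      rw [pow_succ]
      have : 0 < 2 ^ a := by positivity
      omega
    have e3 : 2 ≤ 2 ^ (b + 1) := by
      rw [pow_succ]
      have : 0 < 2 ^ b := by positivity
      omega
    have e4 : 2 ^ (a + 1) + 2 ^ (b + 1) ≤ 2 ^ (a + 1) * 2 ^ (b + 1) := by nlinarith
    rw [e1]
    omega
  have := Nat.log_lt_of_lt_pow (by omega) h3
  omega

theorem cst_sum (n k : ℕ) : ∑ i ∈ Finset.range n, dist (shift (cst (i + k))) (cst (i + k + 1)) ≤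
    (Nat.log 2 n : ℝ) + 1 := by
  have h1 : ∑ i ∈ Finset.range n, dist (shift (cst (i + k))) (cst (i + k + 1)) ≤
      ∑ i ∈ Finset.range n, ((win (i + 1 + k) : ℝ) - win (i + k)) := by
    apply Finset.sum_le_sum
    intro i _
    have := cst_jump (i + k)
    rw [show i + k + 1 = i + 1 + k by ring] at *
    exact this
  have h2 : ∑ i ∈ Finset.range n, ((win (i + 1 + k) : ℝ) - win (i + k)) =
      win (n + k) - win (0 + k) := Finset.sum_range_sub (fun i => (win (i + k) : ℝ)) n
  rw [h2, zero_add] at h1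
  have h3 : (win (n + k) : ℝ) ≤ win k + (Nat.log 2 n + 1) := by exact_mod_cast win_add_le n k
  linarith

theorem log_tendsto : Tendsto (fun n : ℕ => ((Nat.log 2 n : ℝ) + 1) / n) atTop (𝓝 0) := by
  have h1 : Tendsto (fun L : ℕ => ((L : ℝ) + 1) / 2 ^ L) atTop (𝓝 0) := by
    have e1 := tendsto_pow_const_div_const_pow_of_one_lt 1 (r := (2 : ℝ)) (by norm_num)
    have e2 := tendsto_pow_const_div_const_pow_of_one_lt 0 (r := (2 : ℝ)) (by norm_num)
    have := e1.add e2
    simp only [pow_one, pow_zero, add_zero] at this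
    refine this.congr (fun n => ?_)
    rw [add_div]
  have h2 : Tendsto (fun n : ℕ => Nat.log 2 n) atTop atTop := by
    rw [tendsto_atTop]
    intro b
    filter_upwards [eventually_ge_atTop (2 ^ b)] with n hn
    exact Nat.le_log_of_pow_le (by norm_num) hn
  have h3 := h1.comp h2
  refine squeeze_zero' (Eventually.of_forall (fun n => by positivity)) ?_ h3
  filter_upwards [eventually_ge_atTop 1] with n hn
  show _ ≤ ((Nat.log 2 n : ℝ) + 1) / 2 ^ (Nat.log 2 n)
  apply div_le_div_of_nonneg_left (by positivity) (by positivity)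
  exact_mod_cast Nat.pow_log_le_self 2 (by omega)

/-- A point tracking `cst` is bad. -/
theorem tracking_bad (y : Sg) (N₁ : ℕ)
    (h : ∀ n ≥ N₁, (∑ i ∈ Finset.range n, dist (shift^[i] y) (cst i)) / n < 1 / 40) :
    ∃ m, 4 ≤ m ∧ bad y 0 m := by
  refine ⟨max 4 N₁, le_max_left _ _, ?_⟩
  intro j hj _
  have hj' : N₁ ≤ j := le_trans (le_max_right _ _) hj
  have hjl : j < 2 ^ j := Nat.lt_two_pow_self
  have hn := h (2 ^ (j + 1) + 1) (by rw [pow_succ]; omega)
  have hpos : (0 : ℝ) < ((2 ^ (j + 1) + 1 : ℕ) : ℝ) := by positivity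
  rw [div_lt_iff₀ hpos] at hn
  set mis := (Finset.Ioc (2 ^ j) (2 ^ (j + 1))).filter (fun i => ¬ y i = letter j) with hmis
  have h1 : (mis.card : ℝ) * (1 / 2) ≤
      ∑ i ∈ Finset.range (2 ^ (j + 1) + 1), dist (shift^[i] y) (cst i) := by
    calc (mis.card : ℝ) * (1 / 2) = ∑ i ∈ mis, (1 / 2 : ℝ) := by
          rw [Finset.sum_const, nsmul_eq_mul]
      _ ≤ ∑ i ∈ mis, dist (shift^[i] y) (cst i) := by
          apply Finset.sum_le_sum
          intro i hi
          rw [hmis, Finset.mem_filter, Finset.mem_Ioc] at hi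
          have hwin : win i = j := by
            unfold win
            rw [Nat.log_eq_iff (Or.inr ⟨by norm_num, by omega⟩)]
            omega
          have := le_dist_of_ne (x := shift^[i] y) (y := cst i) (K := 1) (k := 0) (by norm_num) (by
            rw [shift_iter]
            show y (i + 0) ≠ letter (win i)
            rw [hwin, add_zero]
            exact hi.2)
          rwa [pow_one] at this
      _ ≤ _ := by
          apply Finset.sum_le_sum_of_subset_of_nonneg
          · intro i hi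
            rw [hmis, Finset.mem_filter, Finset.mem_Ioc] at hi
            rw [Finset.mem_range]; omega
          · intro i _ _; exact dist_nonneg
  have h2 : (mis.card : ℝ) * 20 < ((2 ^ (j + 1) + 1 : ℕ) : ℝ) := by linarith
  have h3 : mis.card * 20 < 2 ^ (j + 1) + 1 := by exact_mod_cast h2
  have h4 : cnt y 0 j + mis.card = 2 ^ j := by
    have := Finset.card_filter_add_card_filter_not (s := Finset.Ioc (2 ^ j) (2 ^ (j + 1)))
      (fun i => y i = letter j)
    have hc : (Finset.Ioc (2 ^ j) (2 ^ (j + 1))).card = 2 ^ j := by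
      have := card_window 0 j
      simpa using this
    rw [hc] at this
    have hcnt : cnt y 0 j = ((Finset.Ioc (2 ^ j) (2 ^ (j + 1))).filter
        (fun i => y i = letter j)).card := by
      unfold cnt
      simp
    rw [hcnt]
    exact this
  rw [pow_succ] at h3
  omega

/-- The pseudo-orbit. -/
def zz (i : ℕ) : AX := ⟨⟨cst i, As_sub (cst_mem _)⟩, cst_mem _⟩

theorem zz_dist (i : ℕ) : dist (AX_inv.restrict fX AX AX (zz i)) (zz (i + 1)) =
    dist (shift (cst i)) (cst (i + 1)) := rfl

theorem res_iter (y : AX) (i : ℕ) :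
    (((AX_inv.restrict fX AX AX)^[i] y : AX) : Xs) = fX^[i] (y : Xs) := by
  induction i generalizing y with
  | zero => rfl
  | succ i ih => rw [Function.iterate_succ_apply, Function.iterate_succ_apply, ih]; rfl

theorem res_dist (y : AX) (i : ℕ) : dist ((AX_inv.restrict fX AX AX)^[i] y) (zz i) =
    dist (shift^[i] ((y : Xs) : Sg)) (cst i) := by
  rw [Subtype.dist_eq, Subtype.dist_eq, res_iter, fX_iter]
  rfl

theorem not_ASP : ¬ ASP (AX_inv.restrict fX AX AX) := by
  intro h
  obtain ⟨δ, hδ, h⟩ := h (1 / 40) (by norm_num)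
  have hps : ∃ N : ℕ, ∀ n ≥ N, ∀ k : ℕ,
      (∑ i ∈ Finset.range n, dist (AX_inv.restrict fX AX AX (zz (i + k))) (zz (i + k + 1))) / n
        < δ := by
    have := (tendsto_order.1 log_tendsto).2 δ hδ
    rw [eventually_atTop] at this
    obtain ⟨N, hN⟩ := this
    refine ⟨N, fun n hn k => lt_of_le_of_lt ?_ (hN n hn)⟩
    apply div_le_div_of_nonneg_right _ (by positivity)
    simp only [zz_dist]
    exact cst_sum n k
  obtain ⟨y, hy⟩ := h zz hps
  simp only [res_dist] at hy
  have hbd : IsBoundedUnder (· ≤ ·) atTop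
      (fun n : ℕ => (∑ i ∈ Finset.range n, dist (shift^[i] ((y : Xs) : Sg)) (cst i)) / n) := by
    refine ⟨1, ?_⟩
    rw [eventually_map]
    refine Eventually.of_forall (fun n => ?_)
    rcases Nat.eq_zero_or_pos n with h0 | h0
    · rw [h0]; simp
    · rw [div_le_one (by exact_mod_cast h0)]
      calc _ ≤ ∑ i ∈ Finset.range n, (1 : ℝ) :=
            Finset.sum_le_sum (fun i _ => sdist_le_one _ _)
        _ = n := by simp
  have hev := eventually_lt_of_limsup_lt hy hbd
  rw [eventually_atTop] at hev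
  obtain ⟨N₁, hN₁⟩ := hev
  obtain ⟨m, hm, hb⟩ := tracking_bad _ N₁ hN₁
  exact y.2 0 m hm hb

theorem not_AASP : ¬ AASP (AX_inv.restrict fX AX AX) := by
  intro h
  obtain ⟨y, hy⟩ := h zz (by
    simp only [zz_dist]
    refine squeeze_zero (fun n => by positivity) (fun n => ?_) log_tendsto
    apply div_le_div_of_nonneg_right _ (by positivity)
    exact cst_sum n 0)
  simp only [res_dist] at hy
  have hev := (tendsto_order.1 hy).2 (1 / 40) (by norm_num)
  rw [eventually_atTop] at hev
  obtain ⟨N₁, hN₁⟩ := hev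
  obtain ⟨m, hm, hb⟩ := tracking_bad _ N₁ hN₁
  exact y.2 0 m hm hb

theorem exists_counterexample : ∃ (X : Type) (_ : MetricSpace X) (_ : CompactSpace X)
    (_ : MeasurableSpace X) (_ : BorelSpace X) (f : X → X), Continuous f ∧ ASP f ∧ AASP f ∧
    ∃ (A : Set X) (hA : MapsTo f A A), IsCompact A ∧ measureCenter f ⊆ A ∧
      ¬ ASP (hA.restrict f A A) ∧ ¬ AASP (hA.restrict f A A) := by
  let _ : MeasurableSpace Xs := borel Xs
  have : BorelSpace Xs := ⟨rfl⟩
  have : CompactSpace Xs := isCompact_iff_compactSpace.1 Xs_closed.isCompact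
  exact ⟨Xs, inferInstance, inferInstance, inferInstance, inferInstance, fX, fX_cont, fX_ASP,
    fX_AASP, AX, AX_inv, AX_closed.isCompact, center_sub, not_ASP, not_AASP⟩

end Pool.Agent.V11215.SH
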