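import Mathlib

/-!
Three three-point subspaces of the line whose Gromov–Hausdorff distances cannot be realised
simultaneously as Hausdorff distances.
-/

set_option autoImplicit false

universe u

namespace Pool.Agent.V11215.LineTriple

open Set Metric

/-- The three subsets `{0, 12, 34}`, `{0, 10, 32}`, `{0, 12, 32}` of the line. -/
def P : Fin 3 → Fin 3 → ℤ := ![![0, 12, 34], ![0, 10, 32], ![0, 12, 32]]

/-- The `i`-th space: three points. -/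
structure Sp (i : Fin 3) : Type where
  /-- the index of the point -/
  val : Fin 3

/-- `Sp i` has three points. -/
def equiv (i : Fin 3) : Sp i ≃ Fin 3 where
  toFun := Sp.val
  invFun := Sp.mk
  left_inv _ := rfl
  right_inv _ := rfl

instance (i : Fin 3) : Finite (Sp i) := Finite.of_equiv _ (equiv i).symm

instance (i : Fin 3) : Nonempty (Sp i) := ⟨⟨0⟩⟩

/-- The point of the line corresponding to a point of the `i`-th space. -/
def pos (i : Fin 3) (x : Sp i) : ℝ := (P i x.val : ℝ)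

theorem P_inj : ∀ i x y : Fin 3, P i x = P i y → x = y := by
  decide

theorem pos_inj (i : Fin 3) : Function.Injective (pos i) := by
  rintro ⟨x⟩ ⟨y⟩ h
  have h' : P i x = P i y := by
    unfold pos at h
    exact_mod_cast h
  rw [P_inj i x y h']

noncomputable instance (i : Fin 3) : MetricSpace (Sp i) :=
  MetricSpace.induced (pos i) (pos_inj i) inferInstance

theorem dist_eq (i : Fin 3) (x y : Sp i) :
    dist x y = ((|P i x.val - P i y.val| : ℤ) : ℝ) := by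
  change dist (pos i x) (pos i y) = _
  rw [Real.dist_eq]
  unfold pos
  push_cast
  rfl

theorem exists_near {X Y : Type} [MetricSpace X] [MetricSpace Y] [CompactSpace X] [CompactSpace Y]
    [Nonempty X] [Nonempty Y] {Z : Type u} [MetricSpace Z] {φ : X → Z} {ψ : Y → Z}
    (hφ : Isometry φ) (hψ : Isometry ψ) (h : hausdorffDist (range φ) (range ψ) < 5 / 4) :
    ∃ f : X → Y, (∀ x, dist (φ x) (ψ (f x)) < 5 / 4) ∧
      ∀ x x', |dist x x' - dist (f x) (f x')| < 5 / 2 := by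
  have hfin : hausdorffEDist (range φ) (range ψ) ≠ ⊤ :=
    hausdorffEDist_ne_top_of_nonempty_of_bounded (range_nonempty _) (range_nonempty _)
      (isCompact_range hφ.continuous).isBounded (isCompact_range hψ.continuous).isBounded
  have h1 : ∀ x, ∃ y, dist (φ x) (ψ y) < 5 / 4 := by
    intro x
    obtain ⟨_, ⟨y, rfl⟩, hy⟩ := exists_dist_lt_of_hausdorffDist_lt (mem_range_self x) h hfin
    exact ⟨y, hy⟩
  choose f hf using h1
  refine ⟨f, hf, fun x x' => ?_⟩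
  have e1 := hf x
  have e2 := hf x'
  rw [← hφ.dist_eq x x', ← hψ.dist_eq (f x) (f x'), abs_lt]
  have t1 := dist_triangle4 (φ x) (ψ (f x)) (ψ (f x')) (φ x')
  have t2 := dist_triangle4 (ψ (f x)) (φ x) (φ x') (ψ (f x'))
  rw [dist_comm (ψ (f x')) (φ x')] at t1
  rw [dist_comm (ψ (f x)) (φ x)] at t2
  constructor <;> linarith

theorem int_le {a b : ℤ} (h : |(a : ℝ) - b| < 5 / 2) : |a - b| ≤ 2 := by
  have h1 : ((|a - b| : ℤ) : ℝ) < 3 := by
    push_cast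
    linarith
  have h2 : |a - b| < 3 := by exact_mod_cast h1
  omega

theorem near_int {i j : Fin 3} {f : Sp i → Sp j}
    (hf : ∀ x x', |dist x x' - dist (f x) (f x')| < 5 / 2) (x x' : Fin 3) :
    |(|P i x - P i x'| - |P j (f ⟨x⟩).val - P j (f ⟨x'⟩).val| : ℤ)| ≤ 2 := by
  have := hf ⟨x⟩ ⟨x'⟩
  rw [dist_eq, dist_eq] at this
  exact int_le this

theorem c01 : ∀ a b c : Fin 3, |(|P 0 0 - P 0 1| - |P 1 a - P 1 b| : ℤ)| ≤ 2 →
    |(|P 0 0 - P 0 2| - |P 1 a - P 1 c| : ℤ)| ≤ 2 → a = 0 := by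
  decide

theorem c12 : ∀ a b c : Fin 3, |(|P 1 0 - P 1 1| - |P 2 a - P 2 b| : ℤ)| ≤ 2 →
    |(|P 1 0 - P 1 2| - |P 2 a - P 2 c| : ℤ)| ≤ 2 → b = 1 := by
  decide

theorem c02 : ∀ a b c : Fin 3, |(|P 0 0 - P 0 1| - |P 2 a - P 2 b| : ℤ)| ≤ 2 →
    |(|P 0 0 - P 0 2| - |P 2 a - P 2 c| : ℤ)| ≤ 2 → c = 2 := by
  decide

theorem not_realised {Z : Type u} [MetricSpace Z] (φ : ∀ i, Sp i → Z) (hφ : ∀ i, Isometry (φ i)) :
    ∃ i j, i ≠ j ∧ 5 / 4 ≤ hausdorffDist (range (φ i)) (range (φ j)) := by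
  by_contra hcon
  push Not at hcon
  obtain ⟨f, hf1, hf2⟩ := exists_near (hφ 0) (hφ 1) (hcon 0 1 (by decide))
  obtain ⟨g, hg1, hg2⟩ := exists_near (hφ 1) (hφ 2) (hcon 1 2 (by decide))
  obtain ⟨k, hk1, hk2⟩ := exists_near (hφ 0) (hφ 2) (hcon 0 2 (by decide))
  have F : f ⟨0⟩ = ⟨0⟩ :=
    congrArg Sp.mk (c01 _ _ _ (near_int hf2 0 1) (near_int hf2 0 2))
  have G : g ⟨1⟩ = ⟨1⟩ :=
    congrArg Sp.mk (c12 _ _ _ (near_int hg2 0 1) (near_int hg2 0 2))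
  have K : k ⟨2⟩ = ⟨2⟩ :=
    congrArg Sp.mk (c02 _ _ _ (near_int hk2 0 1) (near_int hk2 0 2))
  have e1 := hf1 ⟨0⟩
  have e2 := hg1 ⟨1⟩
  have e3 := hk1 ⟨2⟩
  rw [F] at e1
  rw [G] at e2
  rw [K] at e3
  have d1 : dist (φ 0 ⟨0⟩) (φ 0 ⟨2⟩) = 34 := by
    rw [(hφ 0).dist_eq, dist_eq, show |P 0 0 - P 0 2| = 34 by decide]
    norm_num
  have d2 : dist (φ 1 ⟨0⟩) (φ 1 ⟨1⟩) = 10 := by
    rw [(hφ 1).dist_eq, dist_eq, show |P 1 0 - P 1 1| = 10 by decide]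
    norm_num
  have d3 : dist (φ 2 ⟨1⟩) (φ 2 ⟨2⟩) = 20 := by
    rw [(hφ 2).dist_eq, dist_eq, show |P 2 1 - P 2 2| = 20 by decide]
    norm_num
  have t1 := dist_triangle4 (φ 0 ⟨0⟩) (φ 1 ⟨0⟩) (φ 1 ⟨1⟩) (φ 2 ⟨1⟩)
  have t2 := dist_triangle4 (φ 0 ⟨0⟩) (φ 2 ⟨1⟩) (φ 2 ⟨2⟩) (φ 0 ⟨2⟩)
  rw [dist_comm (φ 2 ⟨2⟩) (φ 0 ⟨2⟩)] at t2
  linarith

theorem dis_le_int : ∀ i j x x' : Fin 3,
    |(|P i x - P i x'| - |P j x - P j x'| : ℤ)| ≤ 2 := by
  decide

theorem dis_le (i j : Fin 3) (x x' : Fin 3) :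
    |dist (⟨x⟩ : Sp i) ⟨x'⟩ - dist (⟨x⟩ : Sp j) ⟨x'⟩| ≤ 2 := by
  rw [dist_eq, dist_eq]
  have := dis_le_int i j x x'
  exact_mod_cast this

end Pool.Agent.V11215.LineTriple
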