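import Mathlib
import Pool.Agent.V11215.Corr
import Pool.Agent.V11215.LineTriple

/-!
The three three-point spaces of `LineTriple` have a simultaneously optimal triple correspondence.
-/

set_option autoImplicit false

namespace Pool.Agent.V11215.CorrLine

open Set
open Pool.Agent.V11215.Corr Pool.Agent.V11215.LineTriple

/-- The diagonal. -/
def diag : Set (∀ k, Sp k) := {x | ∀ i j, (x i).val = (x j).val}

theorem mem_proj_diag (i j : Fin 3) (p : Sp i × Sp j) (h : p ∈ proj i j diag) :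
    p.1.val = p.2.val := by
  obtain ⟨x, hx, rfl⟩ := h
  exact hx i j

theorem proj_mem (i j : Fin 3) (m : Fin 3) :
    ((⟨m⟩, ⟨m⟩) : Sp i × Sp j) ∈ proj i j diag :=
  ⟨fun k => (⟨m⟩ : Sp k), fun _ _ => rfl, rfl⟩

theorem corr (i j : Fin 3) : IsCorrespondence (proj i j diag) :=
  ⟨fun x => ⟨⟨x.val⟩, proj_mem i j x.val⟩, fun y => ⟨⟨y.val⟩, proj_mem i j y.val⟩⟩

theorem dis_proj_le (i j : Fin 3) : dis (proj i j diag) ≤ 2 := by
  apply Corr.dis_le (by norm_num)
  intro p hp q hq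
  obtain ⟨⟨a⟩, ⟨b⟩⟩ := p
  obtain ⟨⟨c⟩, ⟨d⟩⟩ := q
  have h1 : a = b := mem_proj_diag _ _ _ hp
  have h2 : c = d := mem_proj_diag _ _ _ hq
  subst h1 h2
  exact LineTriple.dis_le i j a c

theorem dis_proj_self (i : Fin 3) : dis (proj i i diag) = 0 := by
  apply le_antisymm _ (dis_nonneg _)
  apply Corr.dis_le le_rfl
  intro p hp q hq
  obtain ⟨⟨a⟩, ⟨b⟩⟩ := p
  obtain ⟨⟨c⟩, ⟨d⟩⟩ := q
  have h1 : a = b := mem_proj_diag _ _ _ hp
  have h2 : c = d := mem_proj_diag _ _ _ hq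
  subst h1 h2
  simp

theorem sep : ∀ i j : Fin 3, i ≠ j → ∃ x x' : Fin 3, ∀ y y' : Fin 3,
    2 ≤ |(|P i x - P i x'| - |P j y - P j y'| : ℤ)| := by
  decide

theorem two_le_dis {i j : Fin 3} (hij : i ≠ j) (S : Set (Sp i × Sp j)) (hS : IsCorrespondence S) :
    2 ≤ dis S := by
  obtain ⟨x, x', h⟩ := sep i j hij
  obtain ⟨y, hy⟩ := hS.1 ⟨x⟩
  obtain ⟨y', hy'⟩ := hS.1 ⟨x'⟩
  refine le_trans ?_ (le_dis hy hy')
  rw [LineTriple.dist_eq, LineTriple.dist_eq]
  have := h y.val y'.val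
  exact_mod_cast this

theorem two_ghDist {i j : Fin 3} (hij : i ≠ j) : 2 * ghDist (Sp i) (Sp j) = 2 := by
  apply le_antisymm
  · exact (two_ghDist_le (corr i j)).trans (dis_proj_le i j)
  · exact le_two_ghDist (two_le_dis hij)

theorem ghDist_self (i : Fin 3) : 2 * ghDist (Sp i) (Sp i) = 0 := by
  apply le_antisymm
  · exact (two_ghDist_le (corr i i)).trans (dis_proj_self i).le
  · exact le_two_ghDist fun S _ => dis_nonneg S

theorem optimal (i j : Fin 3) : IsOptimal (proj i j diag) := by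
  refine ⟨corr i j, ?_⟩
  by_cases hij : i = j
  · subst hij
    rw [dis_proj_self, ghDist_self]
  · rw [two_ghDist hij]
    exact le_antisymm (dis_proj_le i j) (two_le_dis hij _ (corr i j))

end Pool.Agent.V11215.CorrLine
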