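import Mathlib

/-!
Dense plastic subgroups of separable Banach spaces of dimension at least two: the geometric part.
-/

set_option autoImplicit false

namespace Pool.Agent.V11215.Plastic

open Set Metric Filter Topology
open scoped Cardinal

variable {E : Type} [NormedAddCommGroup E] [NormedSpace ℝ E]

/-- `F` is non-expansive. -/
def NonExp (F : E → E) : Prop := ∀ x y, ‖F x - F y‖ ≤ ‖x - y‖

/-- `F` is globally of the form `x ↦ n x + h` with `n` an integer. -/
def Form (F : E → E) : Prop := ∃ (n : ℤ) (h : E), ∀ x, F x = (n : ℝ) • x + h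

/-- The open set where `F` is locally of the form `n x + h`. -/
def A (F : E → E) (n : ℤ) (h : E) : Set E := {x | ∀ᶠ y in 𝓝 x, F y = (n : ℝ) • y + h}

/-- The closed set where `F` is not locally of the form `n x + h`. -/
def K (F : E → E) : Set E := {x | ∀ n h, x ∉ A F n h}

theorem isOpen_A (F : E → E) (n : ℤ) (h : E) : IsOpen (A F n h) := isOpen_setOfPred_eventually_nhds

theorem A_eq {F : E → E} {n : ℤ} {h x : E} (hx : x ∈ A F n h) : F x = (n : ℝ) • x + h :=
  Eventually.self_of_nhds (p := fun y => F y = (n : ℝ) • y + h) hx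

theorem A_unique [Nontrivial E] {F : E → E} {n m : ℤ} {h c : E} {x : E} (h1 : x ∈ A F n h)
    (h2 : x ∈ A F m c) : n = m ∧ h = c := by
  have h3 : ∀ᶠ y in 𝓝 x, (n : ℝ) • y + h = (m : ℝ) • y + c := by
    filter_upwards [h1, h2] with y a b
    rw [← a, ← b]
  have h4 := h3.self_of_nhds
  have h5 : ∀ᶠ y in 𝓝[≠] x, (n : ℝ) • y + h = (m : ℝ) • y + c := h3.filter_mono nhdsWithin_le_nhds
  obtain ⟨y, hy, hyx⟩ := (h5.and self_mem_nhdsWithin).exists
  have h6 : ((n : ℝ) - m) • (y - x) = 0 := by
    have e : ((n : ℝ) - m) • (y - x) = ((n : ℝ) • y + h - ((m : ℝ) • y + c)) -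
        ((n : ℝ) • x + h - ((m : ℝ) • x + c)) := by
      module
    rw [e, hy, h4]
    simp
  rcases smul_eq_zero.1 h6 with h7 | h7
  · have h8 : (n : ℝ) = m := sub_eq_zero.1 h7
    have h9 : n = m := by exact_mod_cast h8
    refine ⟨h9, ?_⟩
    rw [h8] at h4
    exact add_left_cancel h4
  · exact absurd (sub_eq_zero.1 h7) hyx

theorem NonExp.continuous {F : E → E} (hF : NonExp F) : Continuous F := by
  apply LipschitzWith.continuous (K := 1)
  apply LipschitzWith.of_dist_le_mul
  intro x y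
  rw [dist_eq_norm, dist_eq_norm, NNReal.coe_one, one_mul]
  exact hF x y

theorem closure_A {F : E → E} (hF : Continuous F) {n : ℤ} {h : E} {x : E}
    (hx : x ∈ closure (A F n h)) : F x = (n : ℝ) • x + h := by
  have hc : IsClosed {x | F x = (n : ℝ) • x + h} := isClosed_eq hF (by fun_prop)
  exact closure_minimal (fun y hy => A_eq hy) hc hx

/-- Clopen argument. -/
theorem subset_A [Nontrivial E] {F : E → E} {n : ℤ} {h : E} {S : Set E}
    (hS : IsPreconnected S) (hne : (S ∩ A F n h).Nonempty)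
    (hK : ∀ x ∈ S, x ∈ closure (A F n h) → x ∉ K F) : S ⊆ A F n h := by
  refine hS.subset_of_closure_inter_subset (isOpen_A F n h) hne ?_
  rintro x ⟨hx, hxS⟩
  have h1 := hK x hxS hx
  simp only [K, mem_ofPred_eq, not_forall, not_not] at h1
  obtain ⟨m, c, hm⟩ := h1
  obtain ⟨z, hz1, hz2⟩ := mem_closure_iff.1 hx _ (isOpen_A F m c) hm
  obtain ⟨rfl, rfl⟩ := A_unique hz1 hz2
  exact hm

theorem K_nonempty [Nontrivial E] {F : E → E} (hform : ¬ Form F) :
    (K F).Nonempty := by
  by_contra hK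
  rw [not_nonempty_iff_eq_empty] at hK
  have h0 : (0 : E) ∉ K F := by
    rw [hK]
    exact notMem_empty 0
  simp only [K, mem_ofPred_eq, not_forall, not_not] at h0
  obtain ⟨n, h, h1⟩ := h0
  have h2 : (univ : Set E) ⊆ A F n h := by
    apply subset_A isPreconnected_univ ⟨0, mem_univ _, h1⟩
    intro x _ _
    rw [hK]
    exact notMem_empty x
  exact hform ⟨n, h, fun x => A_eq (h2 (mem_univ x))⟩

theorem preconnected_ball_diff (hE : 1 < Module.rank ℝ E) (p y0 : E) {r : ℝ} (hr : 0 < r) :
    IsPreconnected (ball p r \ {y0}) := by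
  by_cases hy : y0 ∈ ball p r
  · rw [← OpenPartialHomeomorph.univBall_target p hr] at hy
    set e := OpenPartialHomeomorph.univBall p r with he
    have h1 := (isConnected_compl_singleton_of_one_lt_rank hE (e.symm y0)).isPreconnected.image e
      (OpenPartialHomeomorph.continuous_univBall p r).continuousOn
    convert! h1 using 1
    rw [← OpenPartialHomeomorph.univBall_target p hr]
    ext y
    constructor
    · rintro ⟨hy1, hy2⟩
      refine ⟨e.symm y, ?_, e.right_inv hy1⟩
      intro h3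
      apply hy2
      rw [mem_singleton_iff] at h3 ⊢
      rw [← e.right_inv hy1, h3, e.right_inv hy]
    · rintro ⟨z, hz, rfl⟩
      have hzs : z ∈ e.source := by
        rw [he, OpenPartialHomeomorph.univBall_source]
        exact mem_univ z
      refine ⟨e.map_source hzs, ?_⟩
      intro h3
      apply hz
      rw [mem_singleton_iff] at h3 ⊢
      rw [← h3, e.left_inv hzs]
  · rw [sdiff_singleton_eq_self hy]
    exact isPreconnected_ball

theorem portion (hE : 1 < Module.rank ℝ E) {F : E → E} (hF : Continuous F) {p : E}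
    (hp : p ∈ K F) {r : ℝ} (hr : 0 < r) (n : ℤ) (h : E) :
    ∃ y ∈ K F ∩ ball p r, F y ≠ (n : ℝ) • y + h := by
  have hnt : Nontrivial E := (rank_pos_iff_nontrivial (R := ℝ)).1 (zero_lt_one.trans hE)
  by_contra hcon
  push Not at hcon
  -- a point with another local form
  obtain ⟨y1, hy1, m, c, hmc, hy1A⟩ : ∃ y1 ∈ ball p r, ∃ (m : ℤ) (c : E), ¬ (m = n ∧ c = h) ∧
      y1 ∈ A F m c := by
    by_contra hno
    push Not at hno
    apply hp n h
    filter_upwards [ball_mem_nhds p hr] with y hy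
    by_cases hyK : y ∈ K F
    · exact hcon y ⟨hyK, hy⟩
    · simp only [K, mem_ofPred_eq, not_forall, not_not] at hyK
      obtain ⟨m, c, hm⟩ := hyK
      by_cases hmn : m = n ∧ c = h
      · obtain ⟨rfl, rfl⟩ := hmn
        exact A_eq hm
      · exact absurd hm (hno y hy m c (fun h1 h2 => hmn ⟨h1, h2⟩))
  obtain ⟨y0, hy0⟩ : ∃ y0 : E, ∀ y, (m : ℝ) • y + c = (n : ℝ) • y + h → y = y0 := by
    by_cases hmn : m = n
    · refine ⟨p, fun y hy => ?_⟩
      rw [hmn] at hy
      exact absurd ⟨hmn, add_left_cancel hy⟩ hmc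
    · have hmn' : (m : ℝ) - n ≠ 0 := by
        rw [sub_ne_zero]
        exact_mod_cast hmn
      refine ⟨((m : ℝ) - n)⁻¹ • (h - c), fun y hy => ?_⟩
      rw [eq_inv_smul_iff₀ hmn', sub_smul]
      have : (m : ℝ) • y = (n : ℝ) • y + h - c := eq_sub_of_add_eq hy
      rw [this]
      abel
  have hSA : ball p r \ {y0} ⊆ A F m c := by
    apply subset_A (preconnected_ball_diff hE p y0 hr)
    · have hop : IsOpen (ball p r ∩ A F m c) := isOpen_ball.inter (isOpen_A F m c)
      have h1 : ∀ᶠ y in 𝓝[≠] y1, y ∈ ball p r ∩ A F m c :=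
        (hop.mem_nhds ⟨hy1, hy1A⟩ : _ ∈ 𝓝 y1) |> fun h => nhdsWithin_le_nhds h
      by_cases hy10 : y1 = y0
      · obtain ⟨y, hy, hyne⟩ := (h1.and self_mem_nhdsWithin).exists
        refine ⟨y, ⟨hy.1, ?_⟩, hy.2⟩
        rw [mem_singleton_iff, ← hy10]
        exact hyne
      · exact ⟨y1, ⟨hy1, hy10⟩, hy1A⟩
    · rintro y ⟨hyb, hyne⟩ hycl hyK
      apply hyne
      rw [mem_singleton_iff]
      apply hy0
      rw [← closure_A hF hycl]
      exact hcon y ⟨hyK, hyb⟩
  have hpy : p = y0 := by
    by_contra hne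
    exact hp m c (hSA ⟨mem_ball_self hr, hne⟩)
  -- `F = m y + c` also at `p`
  apply hp m c
  filter_upwards [ball_mem_nhds p hr] with y hy
  by_cases hyp : y = y0
  · apply closure_A hF
    have h1 : ball p r \ {y0} ∈ 𝓝[≠] y := by
      rw [hyp]
      apply inter_mem
      · apply nhdsWithin_le_nhds
        rw [← hpy]
        exact ball_mem_nhds p hr
      · exact self_mem_nhdsWithin
    rw [mem_closure_iff_frequently]
    have h2 : ∀ᶠ z in 𝓝[≠] y, z ∈ A F m c := by
      filter_upwards [h1] with z hz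
      exact hSA hz
    exact (h2.frequently).filter_mono nhdsWithin_le_nhds
  · exact A_eq (hSA ⟨hy, hyp⟩)

/-- In every portion of `K` we can avoid finitely many conditions simultaneously. -/
theorem portion_finset (hE : 1 < Module.rank ℝ E) {F : E → E} (hF : Continuous F) (N : Finset ℤ)
    (v : ℤ → E) : ∀ {p : E}, p ∈ K F → ∀ {r : ℝ}, 0 < r →
      ∃ y ∈ K F ∩ ball p r, ∀ n ∈ N, F y ≠ (n : ℝ) • y + v n := by
  classical
  induction N using Finset.induction_on with
  | empty =>
    intro p hp r hr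
    exact ⟨p, ⟨hp, mem_ball_self hr⟩, by simp⟩
  | insert n N _ ih =>
    intro p hp r hr
    obtain ⟨y, ⟨hyK, hyb⟩, hy⟩ := ih hp hr
    have hop : IsOpen (ball p r ∩ ⋂ m ∈ N, {z | F z ≠ (m : ℝ) • z + v m}) := by
      apply isOpen_ball.inter
      apply isOpen_biInter_finset
      intro m _
      exact isOpen_ne_fun hF (by fun_prop)
    have hymem : y ∈ ball p r ∩ ⋂ m ∈ N, {z | F z ≠ (m : ℝ) • z + v m} := by
      refine ⟨hyb, ?_⟩
      simp only [mem_iInter]
      exact hy
    obtain ⟨δ, hδ, hsub⟩ := Metric.isOpen_iff.1 hop y hymem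
    obtain ⟨z, ⟨hzK, hzb⟩, hz⟩ := portion hE hF hyK hδ n (v n)
    have hz2 := hsub hzb
    refine ⟨z, ⟨hzK, hz2.1⟩, ?_⟩
    intro m hm
    rcases Finset.mem_insert.1 hm with rfl | hm
    · exact hz
    · have := hz2.2
      simp only [mem_iInter] at this
      exact this m hm

/-! ### The Cantor scheme -/

/-- States of the scheme: a point of `K` and a positive radius. -/
abbrev St (F : E → E) : Type := {s : E × ℝ // s.1 ∈ K F ∧ 0 < s.2}

/-- Two points are separated by all `q_n`, `n = 0, ±1`. -/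
def Sep (F : E → E) (x y : E) : Prop :=
  ∀ n : ℤ, n ∈ ({0, 1, -1} : Finset ℤ) → F x - (n : ℝ) • x ≠ F y - (n : ℝ) • y

theorem Sep.symm {F : E → E} {x y : E} (h : Sep F x y) : Sep F y x := fun n hn => (h n hn).symm

theorem split (hE : 1 < Module.rank ℝ E) {F : E → E} (hF : NonExp F) (s : St F) :
    ∃ (x1 : E) (r' : ℝ), x1 ∈ K F ∧ 0 < r' ∧ r' ≤ s.1.2 / 2 ∧
      closedBall s.1.1 r' ⊆ closedBall s.1.1 s.1.2 ∧ closedBall x1 r' ⊆ closedBall s.1.1 s.1.2 ∧
      ∀ a ∈ closedBall s.1.1 r', ∀ b ∈ closedBall x1 r', Sep F a b := by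
  obtain ⟨⟨x, r⟩, hx, hr⟩ := s
  simp only at hx hr ⊢
  obtain ⟨x1, ⟨hx1, hx1b⟩, hsep⟩ := portion_finset hE hF.continuous {0, 1, -1}
    (fun n => F x - (n : ℝ) • x) hx (half_pos hr)
  have hδ : ∀ n ∈ ({0, 1, -1} : Finset ℤ), 0 < ‖(F x1 - (n : ℝ) • x1) - (F x - (n : ℝ) • x)‖ := by
    intro n hn
    rw [norm_pos_iff, sub_ne_zero]
    intro h
    apply hsep n hn
    rw [← h]
    abel
  set δ : ℝ := min ‖(F x1 - ((0 : ℤ) : ℝ) • x1) - (F x - ((0 : ℤ) : ℝ) • x)‖
    (min ‖(F x1 - ((1 : ℤ) : ℝ) • x1) - (F x - ((1 : ℤ) : ℝ) • x)‖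
      ‖(F x1 - ((-1 : ℤ) : ℝ) • x1) - (F x - ((-1 : ℤ) : ℝ) • x)‖) with hδdef
  have hδ0 : 0 < δ := lt_min (hδ 0 (by simp)) (lt_min (hδ 1 (by simp)) (hδ (-1) (by simp)))
  have hδle : ∀ n ∈ ({0, 1, -1} : Finset ℤ),
      δ ≤ ‖(F x1 - (n : ℝ) • x1) - (F x - (n : ℝ) • x)‖ := by
    intro n hn
    simp only [Finset.mem_insert, Finset.mem_singleton] at hn
    rcases hn with rfl | rfl | rfl
    · exact min_le_left _ _
    · exact (min_le_right _ _).trans (min_le_left _ _)
    · exact (min_le_right _ _).trans (min_le_right _ _)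
  refine ⟨x1, min (r / 2) (δ / 5), hx1, lt_min (half_pos hr) (by positivity), min_le_left _ _,
    ?_, ?_, ?_⟩
  · apply closedBall_subset_closedBall
    exact (min_le_left _ _).trans (by linarith)
  · apply closedBall_subset_closedBall'
    rw [mem_ball] at hx1b
    have := min_le_left (r / 2) (δ / 5)
    linarith
  · intro a ha b hb n hn heq
    rw [mem_closedBall, dist_eq_norm] at ha hb
    have hn1 : ‖(n : ℝ)‖ ≤ 1 := by
      simp only [Finset.mem_insert, Finset.mem_singleton] at hn
      rcases hn with rfl | rfl | rfl <;> simp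
    have lip : ∀ u v : E, ‖(F u - (n : ℝ) • u) - (F v - (n : ℝ) • v)‖ ≤ 2 * ‖u - v‖ := by
      intro u v
      have e : (F u - (n : ℝ) • u) - (F v - (n : ℝ) • v) = (F u - F v) - (n : ℝ) • (u - v) := by
        rw [smul_sub]
        abel
      rw [e]
      refine (norm_sub_le _ _).trans ?_
      have h1 := hF u v
      have h2 : ‖(n : ℝ) • (u - v)‖ ≤ 1 * ‖u - v‖ := by
        rw [norm_smul]
        gcongr
      linarith
    have h1 := lip a x
    have h2 := lip b x1
    have h3 := hδle n hn
    have h4 := min_le_right (r / 2) (δ / 5)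
    have h5 : (F x1 - (n : ℝ) • x1) - (F x - (n : ℝ) • x) =
        ((F a - (n : ℝ) • a) - (F x - (n : ℝ) • x)) -
          ((F b - (n : ℝ) • b) - (F x1 - (n : ℝ) • x1)) := by
      rw [heq]
      abel
    rw [h5] at h3
    have h6 := norm_sub_le ((F a - (n : ℝ) • a) - (F x - (n : ℝ) • x))
      ((F b - (n : ℝ) • b) - (F x1 - (n : ℝ) • x1))
    linarith

/-- Existence of a Cantor set of points which are pairwise separated. -/
theorem exists_cantor [CompleteSpace E] (hE : 1 < Module.rank ℝ E) {F : E → E} (hF : NonExp F)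
    (hform : ¬ Form F) : ∃ P : (ℕ → Bool) → E, ∀ a b, a ≠ b → Sep F (P a) (P b) := by
  classical
  have hnt : Nontrivial E := (rank_pos_iff_nontrivial (R := ℝ)).1 (zero_lt_one.trans hE)
  obtain ⟨p, hp⟩ := K_nonempty hform
  choose X R hXK hR0 hR hsub0 hsub1 hsep using fun s : St F => split hE hF s
  let next : Bool → St F → St F := fun b s =>
    if b then ⟨(X s, R s), hXK s, hR0 s⟩ else ⟨(s.1.1, R s), s.2.1, hR0 s⟩
  let st : (ℕ → Bool) → ℕ → St F := fun a n =>
    Nat.rec (⟨(p, 1), hp, one_pos⟩ : St F) (fun k s => next (a k) s) n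
  have st_succ : ∀ a n, st a (n + 1) = next (a n) (st a n) := fun a n => rfl
  have next_rad : ∀ b s, (next b s).1.2 = R s := by
    intro b s
    cases b <;> rfl
  have next_sub : ∀ b s, closedBall (next b s).1.1 (next b s).1.2 ⊆ closedBall s.1.1 s.1.2 := by
    intro b s
    cases b
    · exact hsub0 s
    · exact hsub1 s
  have rad_pow : ∀ a n, (st a n).1.2 ≤ (1 / 2) ^ n := by
    intro a n
    induction n with
    | zero => exact le_rfl
    | succ n ih =>
      rw [st_succ, next_rad, pow_succ]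
      have := hR (st a n)
      linarith
  have mono : ∀ a n k, closedBall (st a (n + k)).1.1 (st a (n + k)).1.2 ⊆
      closedBall (st a n).1.1 (st a n).1.2 := by
    intro a n k
    induction k with
    | zero => exact Subset.rfl
    | succ k ih =>
      have h1 := next_sub (a (n + k)) (st a (n + k))
      rw [← st_succ] at h1
      exact h1.trans ih
  have cau : ∀ a, CauchySeq fun n => (st a n).1.1 := by
    intro a
    apply cauchySeq_of_le_tendsto_0' (fun n => (1 / 2 : ℝ) ^ n)
    · intro n m hnm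
      obtain ⟨k, rfl⟩ := Nat.exists_eq_add_of_le hnm
      have h1 : (st a (n + k)).1.1 ∈ closedBall (st a n).1.1 (st a n).1.2 :=
        mono a n k (mem_closedBall_self (st a (n + k)).2.2.le)
      rw [mem_closedBall, dist_comm] at h1
      exact h1.trans (rad_pow a n)
    · exact tendsto_pow_atTop_nhds_zero_of_lt_one (by norm_num) (by norm_num)
  choose P hP using fun a => cauchySeq_tendsto_of_complete (cau a)
  have hPmem : ∀ a n, P a ∈ closedBall (st a n).1.1 (st a n).1.2 := by
    intro a n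
    apply isClosed_closedBall.mem_of_tendsto (hP a)
    filter_upwards [eventually_ge_atTop n] with m hm
    obtain ⟨k, rfl⟩ := Nat.exists_eq_add_of_le hm
    exact mono a n k (mem_closedBall_self (st a (n + k)).2.2.le)
  refine ⟨P, fun a b hab => ?_⟩
  -- the first difference
  have hex : ∃ n, a n ≠ b n := Function.ne_iff.1 hab
  set n := Nat.find hex with hn
  have hne : a n ≠ b n := Nat.find_spec hex
  have hlt : ∀ k < n, a k = b k := fun k hk => not_not.1 (Nat.find_min hex hk)
  have hst : ∀ k ≤ n, st a k = st b k := by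
    intro k
    induction k with
    | zero => intro _; rfl
    | succ k ih =>
      intro hk
      rw [st_succ, st_succ, ih (by omega), hlt k (by omega)]
  have ha := hPmem a (n + 1)
  have hb := hPmem b (n + 1)
  rw [st_succ] at ha hb
  rw [hst n le_rfl] at ha
  cases han : a n <;> cases hbn : b n
  · exact absurd (han.trans hbn.symm) hne
  · rw [han] at ha
    rw [hbn] at hb
    exact hsep (st b n) _ ha _ hb
  · rw [han] at ha
    rw [hbn] at hb
    exact (hsep (st b n) _ hb _ ha).symm
  · exact absurd (han.trans hbn.symm) hne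

/-- The injectivity of all `q_n` on the Cantor set. -/
theorem exists_cantor' [CompleteSpace E] (hE : 1 < Module.rank ℝ E) {F : E → E} (hF : NonExp F)
    (hform : ¬ Form F) : ∃ P : (ℕ → Bool) → E, (∀ n : ℤ, ∀ a b,
      F (P a) - (n : ℝ) • P a = F (P b) - (n : ℝ) • P b → a = b) ∧
      ∀ a b, P a = P b → a = b := by
  obtain ⟨P, hP⟩ := exists_cantor hE hF hform
  have hinj : ∀ a b, P a = P b → a = b := by
    intro a b h
    by_contra hab
    exact hP a b hab 0 (by simp) (by rw [h])
  refine ⟨P, ?_, hinj⟩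
  intro n a b h
  by_contra hab
  by_cases hn : n ∈ ({0, 1, -1} : Finset ℤ)
  · exact hP a b hab n hn h
  · have h2 : 2 ≤ |n| := by
      simp only [Finset.mem_insert, Finset.mem_singleton, not_or] at hn
      rcases le_total 0 n with h0 | h0
      · rw [abs_of_nonneg h0]
        omega
      · rw [abs_of_nonpos h0]
        omega
    have h3 : (2 : ℝ) ≤ ‖(n : ℝ)‖ := by
      rw [Real.norm_eq_abs]
      exact_mod_cast h2
    have h4 : F (P a) - F (P b) = (n : ℝ) • (P a - P b) := by
      rw [smul_sub]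
      have := sub_eq_sub_iff_sub_eq_sub.1 h
      exact this
    have h5 := hF (P a) (P b)
    rw [h4, norm_smul] at h5
    have h6 : 0 < ‖P a - P b‖ := by
      rw [norm_pos_iff, sub_ne_zero]
      exact fun h => hab (hinj a b h)
    nlinarith

end Pool.Agent.V11215.Plastic
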