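import Pool.Agent.V11215.Erdos

set_option autoImplicit false
set_option linter.unusedSectionVars false

/-!
# The homeomorphism group of a countable disjoint union of copies of a space
-/

namespace Pool.Agent.V11215.AuthShift

open Filter Topology Set
open Pool.Agent.V11215.Erdos

section

variable (N : Type) [TopologicalSpace N]

/-- the disjoint union of countably many copies of `N` -/
abbrev M : Type := ℕ × N

/-- the compact-open topology on the homeomorphism group -/
abbrev topM : TopologicalSpace (M N ≃ₜ M N) :=
  TopologicalSpace.induced (fun g : M N ≃ₜ M N => ContinuousMap.mk (⇑g) g.continuous) inferInstance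

/-- the shift of the copies -/
def sh (k : ℕ) (p : M N) : M N := (p.1 + k, p.2)

theorem continuous_sh (k : ℕ) : Continuous (sh N k) := by
  unfold sh
  have h1 : Continuous (fun i : ℕ => i + k) := continuous_of_discreteTopology
  exact (h1.comp continuous_fst).prodMk continuous_snd

theorem sh_inj (k : ℕ) : Function.Injective (sh N k) := by
  rintro ⟨i, x⟩ ⟨j, y⟩ h
  unfold sh at h
  rw [Prod.mk.injEq] at h
  obtain ⟨h1, h2⟩ := h
  dsimp only at h1 h2
  rw [Prod.mk.injEq]
  exact ⟨by omega, h2⟩

/-- unshift -/
def un (k : ℕ) (p : M N) : M N := (p.1 - k, p.2)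

theorem continuous_un (k : ℕ) : Continuous (un N k) := by
  unfold un
  have h1 : Continuous (fun i : ℕ => i - k) := continuous_of_discreteTopology
  exact (h1.comp continuous_fst).prodMk continuous_snd

theorem un_sh (k : ℕ) (p : M N) : un N k (sh N k p) = p := by
  obtain ⟨i, x⟩ := p
  simp [un, sh]

theorem sh_un (k : ℕ) (p : M N) (h : k ≤ p.1) : sh N k (un N k p) = p := by
  obtain ⟨i, x⟩ := p
  dsimp only at h
  simp [un, sh, h]

/-- the action on the copies with index at least `k` -/
def act (k : ℕ) (f : M N → M N) (p : M N) : M N :=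
  if p.1 < k then p else sh N k (f (un N k p))

theorem act_lt (k : ℕ) (f : M N → M N) (p : M N) (h : p.1 < k) : act N k f p = p := if_pos h

theorem act_ge (k : ℕ) (f : M N → M N) (p : M N) (h : k ≤ p.1) :
    act N k f p = sh N k (f (un N k p)) := if_neg (not_lt.2 h)

theorem act_sh (k : ℕ) (f : M N → M N) (p : M N) : act N k f (sh N k p) = sh N k (f p) := by
  rw [act_ge, un_sh]
  change k ≤ p.1 + k
  omega

theorem act_act (k : ℕ) (f g : M N → M N) (h : ∀ p, f (g p) = p) (p : M N) :
    act N k f (act N k g p) = p := by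
  by_cases hp : p.1 < k
  · rw [act_lt N k g p hp, act_lt N k f p hp]
  · push Not at hp
    rw [act_ge N k g p hp, act_sh, h, sh_un N k p hp]

theorem continuous_act (k : ℕ) (f : M N → M N) (hf : Continuous f) : Continuous (act N k f) := by
  rw [continuous_prod_of_discrete_left]
  intro i
  by_cases hi : i < k
  · have : (fun x : N => act N k f (i, x)) = fun x => (i, x) := by
      funext x
      exact act_lt N k f (i, x) hi
    rw [this]
    exact Continuous.prodMk_right i
  · push Not at hi
    have : (fun x : N => act N k f (i, x)) = fun x => sh N k (f (un N k (i, x))) := by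
      funext x
      exact act_ge N k f (i, x) hi
    rw [this]
    exact (continuous_sh N k).comp (hf.comp ((continuous_un N k).comp (Continuous.prodMk_right i)))

/-- the induced homeomorphism -/
def jj (k : ℕ) (h : M N ≃ₜ M N) : M N ≃ₜ M N where
  toFun := act N k h
  invFun := act N k h.symm
  left_inv := fun p => act_act N k h.symm h (fun q => h.symm_apply_apply q) p
  right_inv := fun p => act_act N k h h.symm (fun q => h.apply_symm_apply q) p
  continuous_toFun := continuous_act N k h h.continuous
  continuous_invFun := continuous_act N k h.symm h.symm.continuous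

theorem jj_apply (k : ℕ) (h : M N ≃ₜ M N) (p : M N) : jj N k h p = act N k h p := rfl

theorem jj_inj (k : ℕ) : Function.Injective (jj N k) := by
  intro f g h
  ext1 p
  have h1 : jj N k f (sh N k p) = jj N k g (sh N k p) := by rw [h]
  rw [jj_apply, jj_apply, act_sh, act_sh] at h1
  exact sh_inj N k h1

/-- subbasic sets are open -/
theorem isOpen_mapsTo {K O : Set (M N)} (hK : IsCompact K) (hO : IsOpen O) :
    IsOpen[topM N] {h : M N ≃ₜ M N | MapsTo h K O} := by
  have h1 := ContinuousMap.isOpen_setOfPred_mapsTo hK hO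
  exact isOpen_induced_iff.2 ⟨_, h1, rfl⟩

/-- continuity into the homeomorphism group -/
theorem continuous_into {Y : Type} (t : TopologicalSpace Y) (F : Y → (M N ≃ₜ M N))
    (hF : ∀ K O : Set (M N), IsCompact K → IsOpen O → IsOpen {y | MapsTo (F y) K O}) :
    @Continuous Y (M N ≃ₜ M N) t (topM N) F := by
  rw [continuous_induced_rng, ContinuousMap.continuous_compactOpen]
  intro K hK O hO
  exact hF K O hK hO

theorem mapsTo_jj_image (k : ℕ) (h : M N ≃ₜ M N) (K O : Set (M N)) :
    MapsTo (jj N k h) (sh N k '' K) (sh N k '' O) ↔ MapsTo h K O := by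
  constructor
  · intro H x hx
    obtain ⟨y, hy, hyx⟩ := H (mem_image_of_mem _ hx)
    rw [jj_apply, act_sh] at hyx
    rw [← sh_inj N k hyx]
    exact hy
  · rintro H _ ⟨x, hx, rfl⟩
    rw [jj_apply, act_sh]
    exact mem_image_of_mem _ (H hx)

theorem mapsTo_jj (k : ℕ) (h : M N ≃ₜ M N) (K O : Set (M N)) :
    MapsTo (jj N k h) K O ↔
      (∀ p ∈ K, p.1 < k → p ∈ O) ∧ MapsTo h (sh N k ⁻¹' K) (sh N k ⁻¹' O) := by
  constructor
  · intro H
    refine ⟨fun p hp hpk => ?_, fun x hx => ?_⟩
    · have := H hp
      rw [jj_apply, act_lt N k h p hpk] at this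
      exact this
    · have := H hx
      rw [jj_apply, act_sh] at this
      exact this
  · rintro ⟨H1, H2⟩ p hp
    rw [jj_apply]
    by_cases hpk : p.1 < k
    · rw [act_lt N k h p hpk]; exact H1 p hp hpk
    · push Not at hpk
      rw [act_ge N k h p hpk]
      apply H2
      change sh N k (un N k p) ∈ K
      rw [sh_un N k p hpk]; exact hp

theorem isOpenMap_sh (k : ℕ) : IsOpenMap (sh N k) := by
  intro O hO
  have : sh N k '' O = {p | k ≤ p.1} ∩ un N k ⁻¹' O := by
    ext p
    constructor
    · rintro ⟨q, hq, rfl⟩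
      refine ⟨?_, ?_⟩
      · change k ≤ q.1 + k; omega
      · change un N k (sh N k q) ∈ O
        rw [un_sh]; exact hq
    · rintro ⟨h1, h2⟩
      exact ⟨un N k p, h2, sh_un N k p h1⟩
  rw [this]
  refine IsOpen.inter ?_ (hO.preimage (continuous_un N k))
  exact (isOpen_discrete {i : ℕ | k ≤ i}).preimage continuous_fst

theorem isClosedEmbedding_sh (k : ℕ) : IsClosedEmbedding (sh N k) := by
  refine IsClosedEmbedding.of_continuous_injective_isClosedMap (continuous_sh N k) (sh_inj N k) ?_
  intro C hC
  have : sh N k '' C = {p | k ≤ p.1} ∩ un N k ⁻¹' C := by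
    ext p
    constructor
    · rintro ⟨q, hq, rfl⟩
      refine ⟨?_, ?_⟩
      · change k ≤ q.1 + k; omega
      · change un N k (sh N k q) ∈ C
        rw [un_sh]; exact hq
    · rintro ⟨h1, h2⟩
      exact ⟨un N k p, h2, sh_un N k p h1⟩
  rw [this]
  refine IsClosed.inter ?_ (hC.preimage (continuous_un N k))
  exact (isClosed_discrete {i : ℕ | k ≤ i}).preimage continuous_fst

theorem isEmbedding_jj (k : ℕ) : @IsEmbedding _ _ (topM N) (topM N) (jj N k) := by
  let _ : TopologicalSpace (M N ≃ₜ M N) := topM N
  refine ⟨⟨le_antisymm ?_ ?_⟩, jj_inj N k⟩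
  · rw [← continuous_iff_le_induced]
    apply continuous_into
    intro K O hK hO
    have : {y : M N ≃ₜ M N | MapsTo (jj N k y) K O} =
        {_y : M N ≃ₜ M N | (∀ p ∈ K, p.1 < k → p ∈ O)} ∩
          {y : M N ≃ₜ M N | MapsTo y (sh N k ⁻¹' K) (sh N k ⁻¹' O)} := by
      ext y
      exact mapsTo_jj N k y K O
    rw [this]
    refine IsOpen.inter isOpen_const ?_
    exact isOpen_mapsTo N ((isClosedEmbedding_sh N k).isCompact_preimage hK)
      (hO.preimage (continuous_sh N k))
  · have h2 : @Continuous (M N ≃ₜ M N) (M N ≃ₜ M N)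
        (TopologicalSpace.induced (jj N k) (topM N)) (topM N) id := by
      apply continuous_into
      intro K O hK hO
      have h1 := isOpen_mapsTo N (hK.image (continuous_sh N k)) (isOpenMap_sh N k O hO)
      refine isOpen_induced_iff.2 ⟨_, h1, ?_⟩
      ext y
      exact mapsTo_jj_image N k y K O
    exact continuous_id_iff_le.1 h2

/-- elements of the range -/
theorem range_jj (k : ℕ) : range (jj N k) = {h : M N ≃ₜ M N | ∀ p, p.1 < k → h p = p} := by
  ext h
  constructor
  · rintro ⟨g, rfl⟩ p hp
    rw [jj_apply, act_lt N k g p hp]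
  · intro hh
    have hh' : ∀ p, p.1 < k → h.symm p = p := by
      intro p hp
      rw [Homeomorph.symm_apply_eq]; exact (hh p hp).symm
    have hge : ∀ p, k ≤ p.1 → k ≤ (h p).1 := by
      intro p hp
      by_contra hc
      push Not at hc
      have h1 := hh (h p) hc
      have h2 : h p = p := h.injective h1
      rw [h2] at hc
      omega
    have hge' : ∀ p, k ≤ p.1 → k ≤ (h.symm p).1 := by
      intro p hp
      by_contra hc
      push Not at hc
      have h1 := hh' (h.symm p) hc
      have h2 : h.symm p = p := h.symm.injective h1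
      rw [h2] at hc
      omega
    have hshk : ∀ p, k ≤ (sh N k p).1 := by
      intro p
      change k ≤ p.1 + k; omega
    refine ⟨{ toFun := fun p => un N k (h (sh N k p))
              invFun := fun p => un N k (h.symm (sh N k p))
              left_inv := fun p => ?_
              right_inv := fun p => ?_
              continuous_toFun :=
                (continuous_un N k).comp (h.continuous.comp (continuous_sh N k))
              continuous_invFun :=
                (continuous_un N k).comp (h.symm.continuous.comp (continuous_sh N k)) }, ?_⟩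
    · dsimp only
      rw [sh_un N k _ (hge _ (hshk p)), h.symm_apply_apply, un_sh]
    · dsimp only
      rw [sh_un N k _ (hge' _ (hshk p)), h.apply_symm_apply, un_sh]
    · ext1 p
      rw [jj_apply]
      by_cases hp : p.1 < k
      · rw [act_lt N k _ p hp, hh p hp]
      · push Not at hp
        rw [act_ge N k _ p hp]
        change sh N k (un N k (h (sh N k (un N k p)))) = h p
        rw [sh_un N k p hp, sh_un N k _ (hge p hp)]

theorem isClosed_range_jj [T2Space N] (k : ℕ) : IsClosed[topM N] (range (jj N k)) := by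
  let _ : TopologicalSpace (M N ≃ₜ M N) := topM N
  rw [range_jj]
  have : {h : M N ≃ₜ M N | ∀ p, p.1 < k → h p = p} =
      ⋂ p : M N, ⋂ _ : p.1 < k, {h : M N ≃ₜ M N | h p = p} := by
    ext h
    simp
  rw [this]
  refine isClosed_iInter fun p => isClosed_iInter fun _ => ?_
  have hc : Continuous (fun h : M N ≃ₜ M N => h p) := by
    have h1 : Continuous (fun h : M N ≃ₜ M N => ContinuousMap.mk (⇑h) h.continuous) :=
      continuous_induced_dom
    have h2 : Continuous (fun f : C(M N, M N) => f p) := continuous_eval_const p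
    exact h2.comp h1
  exact isClosed_singleton.preimage hc

/-- neighbourhoods of the identity contain a range -/
theorem exists_range_subset (U : Set (M N ≃ₜ M N)) (hU : IsOpen[topM N] U)
    (h1 : Homeomorph.refl (M N) ∈ U) : ∃ k, range (jj N k) ⊆ U := by
  obtain ⟨V, hV, rfl⟩ := isOpen_induced_iff.1 hU
  have hid : ContinuousMap.id (M N) ∈ V := h1
  rw [ContinuousMap.compactOpen_eq] at hV
  -- finite intersections of subbasic sets
  have hb := TopologicalSpace.isTopologicalBasis_of_subbasis
    (t := TopologicalSpace.generateFrom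
      (image2 (fun K U : Set (M N) => {f : C(M N, M N) | MapsTo f K U}) {K | IsCompact K} {t | IsOpen t})) rfl
  obtain ⟨W, hW, hidW, hWV⟩ := hb.exists_subset_of_mem_open hid hV
  obtain ⟨S, ⟨hSf, hS⟩, rfl⟩ := hW
  have key : ∀ T ∈ S, ∃ k : ℕ, ∀ k' ≥ k, ∀ h ∈ range (jj N k'),
      ContinuousMap.mk (⇑h) h.continuous ∈ T := by
    intro T hT
    obtain ⟨K, hK, O, hO, rfl⟩ := hS hT
    have hidT : ContinuousMap.id (M N) ∈ {f : C(M N, M N) | MapsTo f K O} := hidW _ hT
    have hKO : ∀ p ∈ K, p ∈ O := fun p hp => hidT hp
    have hK' : IsCompact K := hK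
    -- the first coordinates of `K` are bounded
    have hfin : (Prod.fst '' K).Finite := (hK'.image continuous_fst).finite_of_discrete
    obtain ⟨b, hb⟩ := hfin.bddAbove
    refine ⟨b + 1, ?_⟩
    rintro k' hk' _ ⟨g, rfl⟩ p hp
    have h3 : p.1 < k' := by
      have := hb (mem_image_of_mem _ hp)
      omega
    change jj N k' g p ∈ O
    rw [jj_apply, act_lt N k' g p h3]
    exact hKO p hp
  choose! kk hkk using key
  obtain ⟨b, hb'⟩ := (hSf.image kk).bddAbove
  refine ⟨b, fun h hh => ?_⟩
  apply hWV
  intro T hT
  exact hkk T hT b (hb' (mem_image_of_mem _ hT)) h hh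

/-- **Main theorem.** For every Hausdorff space `N` the homeomorphism group of the disjoint union of
countably many copies of `N`, with the compact-open topology, is not homeomorphic to complete Erdős
space. -/
theorem not_homeomorphic [T2Space N] :
    ¬ Nonempty (@Homeomorph (M N ≃ₜ M N) EE (topM N) inferInstance) := by
  rintro ⟨φ⟩
  let _ : TopologicalSpace (M N ≃ₜ M N) := topM N
  -- a bounded neighbourhood
  set a : EE := φ (Homeomorph.refl (M N)) with ha
  have hU : IsOpen (φ ⁻¹' (Metric.ball a 1)) := Metric.isOpen_ball.preimage φ.continuous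
  obtain ⟨k, hk⟩ := exists_range_subset N (φ ⁻¹' (Metric.ball a 1)) hU
    (by change φ (Homeomorph.refl (M N)) ∈ Metric.ball a 1
        rw [← ha]; exact Metric.mem_ball_self one_pos)
  have hj : IsEmbedding (jj N k) := isEmbedding_jj N k
  have hjc : IsClosed (range (jj N k)) := isClosed_range_jj N k
  refine no_embed (fun x => φ (jj N k (φ.symm x))) ?_ ?_ (‖(a : L2)‖ + 1) ?_
  · exact φ.isEmbedding.comp (hj.comp φ.symm.isEmbedding)
  · have : range (fun x => φ (jj N k (φ.symm x))) = φ '' range (jj N k) := by
      ext y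
      constructor
      · rintro ⟨x, rfl⟩
        exact ⟨_, ⟨_, rfl⟩, rfl⟩
      · rintro ⟨_, ⟨g, rfl⟩, rfl⟩
        exact ⟨φ g, by simp⟩
    rw [this]
    exact φ.isClosed_image.2 hjc
  · intro x
    have h1 : φ (jj N k (φ.symm x)) ∈ Metric.ball a 1 := hk ⟨_, rfl⟩
    have h2 : dist ((φ (jj N k (φ.symm x)) : EE) : L2) a < 1 := h1
    rw [dist_eq_norm] at h2
    have h3 := norm_sub_norm_le ((φ (jj N k (φ.symm x)) : EE) : L2) (a : L2)
    linarith

end

end Pool.Agent.V11215.AuthShift
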