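import Pool.Agent.V11215.EntMatrix

/-! Counting cyclic words of a finite directed graph with lengths. -/

namespace Pool.Agent.V11215.Ent

open scoped ENNReal
open Filter

set_option linter.unusedSectionVars false

section Def

variable {D : Type} (S : D → D → Prop) (len : D → ℝ)

/-- total length of a cyclic word -/
noncomputable def clen (c : Cycle D) : ℝ := (c.toMultiset.map len).sum

/-- nonempty cyclic words whose consecutive letters are related by `S`, of length at most `t` -/
def circ (t : ℝ) : Set (Cycle D) := {c | c ≠ Cycle.nil ∧ c.Chain S ∧ clen len c ≤ t}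

/-- exponential growth rate of the number of cyclic words -/
noncomputable def ent : ℝ := limsup (fun t : ℝ => Real.log ((circ S len t).ncard : ℝ) / t) atTop

end Def

section Path

variable {D : Type} [Fintype D] [DecidableEq D] (S : D → D → Prop) [DecidableRel S]
  (w : D → ℝ≥0∞)

/-- transfer matrix -/
noncomputable def tm : Matrix D D ℝ≥0∞ := fun a b => if S a b then w a else 0

/-- weight of a path from `a` to `b` through the letters of the list -/
noncomputable def pw : D → List D → D → ℝ≥0∞
  | a, [], b => tm S w a b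
  | a, c :: l, b => tm S w a c * pw c l b

omit [DecidableEq D] in
theorem tsum_list {f : List D → ℝ≥0∞} : ∑' l, f l = f [] + ∑ a, ∑' l, f (a :: l) := by
  classical
  have h1 : ∑' l, f l = ∑' l, ((if l = [] then f l else 0) + (if l = [] then 0 else f l)) := by
    congr 1; ext l; split_ifs <;> simp
  rw [h1, ENNReal.tsum_add]
  congr 1
  · rw [tsum_eq_single []]
    · simp
    · intro l hl; simp [hl]
  · have hinj : Function.Injective (fun p : D × List D => p.1 :: p.2) := by
      rintro ⟨a, l⟩ ⟨b, m⟩ h
      simp only [List.cons.injEq] at h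
      exact Prod.ext h.1 h.2
    rw [← hinj.tsum_eq (f := fun l => if l = [] then 0 else f l)]
    · have h2 : ∀ c : D × List D, (if c.1 :: c.2 = [] then 0 else f (c.1 :: c.2)) =
          f (c.1 :: c.2) := fun c => if_neg (by simp)
      rw [tsum_congr h2, ENNReal.tsum_prod (f := fun a l => f (a :: l)), tsum_fintype]
    · intro l hl
      cases l with
      | nil => simp at hl
      | cons a l => exact ⟨(a, l), rfl⟩

theorem pow_eq (k : ℕ) : ∀ a b, (tm S w ^ (k + 1)) a b =
    ∑' l : List D, if l.length = k then pw S w a l b else 0 := by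
  induction k with
  | zero =>
    intro a b
    rw [tsum_eq_single []]
    · simp [pw]
    · intro l hl
      rw [if_neg]
      rw [List.length_eq_zero_iff]; exact hl
  | succ k ih =>
    intro a b
    rw [pow_succ', Matrix.mul_apply, tsum_list]
    simp only [List.length_nil, List.length_cons, pw]
    rw [if_neg (by omega), zero_add]
    apply Finset.sum_congr rfl
    intro c _
    rw [ih, ← ENNReal.tsum_mul_left]
    congr 1
    ext l
    by_cases h : l.length = k
    · rw [if_pos h, if_pos (by omega)]
    · rw [if_neg h, if_neg (by omega), mul_zero]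

theorem tsum_pow_eq (a b : D) : ∑' n, (tm S w ^ (n + 1)) a b = ∑' l : List D, pw S w a l b := by
  simp_rw [pow_eq]
  rw [ENNReal.tsum_comm]
  congr 1
  ext l
  rw [tsum_eq_single l.length]
  · simp
  · intro k hk
    rw [if_neg hk.symm]

omit [Fintype D] [DecidableEq D] in
theorem pw_eq (a : D) (l : List D) (b : D) : pw S w a l b =
    if List.IsChain S (a :: (l ++ [b])) then w a * (l.map w).prod else 0 := by
  induction l generalizing a with
  | nil =>
    simp [pw, tm]
  | cons c l ih =>
    rw [pw, ih, tm]
    simp only [List.cons_append, List.isChain_cons_cons, List.map_cons, List.prod_cons]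
    by_cases h1 : S a c
    · by_cases h2 : List.IsChain S (c :: (l ++ [b]))
      · rw [if_pos h1, if_pos h2, if_pos ⟨h1, h2⟩]
      · rw [if_pos h1, if_neg h2, if_neg (fun h => h2 (And.right h)), mul_zero]
    · rw [if_neg h1, if_neg (fun h => h1 (And.left h)), zero_mul]

open Classical in
/-- weight of a cyclic word -/
noncomputable def cw (c : Cycle D) : ℝ≥0∞ :=
  if c ≠ Cycle.nil ∧ c.Chain S then (c.toMultiset.map w).prod else 0

theorem tsum_cw : ∑' l : List D, cw S w (l : Cycle D) = ∑ a, ∑' n, (tm S w ^ (n + 1)) a a := by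
  rw [tsum_list]
  have h0 : cw S w (([] : List D) : Cycle D) = 0 := by
    unfold cw; rw [if_neg]; simp
  rw [h0, zero_add]
  apply Finset.sum_congr rfl
  intro a _
  rw [tsum_pow_eq]
  congr 1
  ext l
  rw [pw_eq]
  unfold cw
  have h1 : ((a :: l : List D) : Cycle D) ≠ Cycle.nil := by simp
  by_cases h : List.IsChain S (a :: (l ++ [a]))
  · rw [if_pos h, if_pos ⟨h1, by rw [Cycle.chain_coe_cons]; exact h⟩]
    simp
  · rw [if_neg h, if_neg]
    rintro ⟨_, h2⟩
    rw [Cycle.chain_coe_cons] at h2
    exact h h2

end Path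

section Count

variable {D : Type} [Fintype D] [DecidableEq D] (S : D → D → Prop) [DecidableRel S] (len : D → ℝ)

/-- exponential weights -/
noncomputable def ew (s : ℝ) (d : D) : ℝ≥0∞ := ENNReal.ofReal (Real.exp (-s * len d))

theorem prod_ew (s : ℝ) (m : Multiset D) :
    (m.map (ew len s)).prod = ENNReal.ofReal (Real.exp (-s * (m.map len).sum)) := by
  induction m using Multiset.induction with
  | empty => simp
  | cons a m ih =>
    rw [Multiset.map_cons, Multiset.prod_cons, ih, Multiset.map_cons, Multiset.sum_cons, ew,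
      ← ENNReal.ofReal_mul (Real.exp_pos _).le, ← Real.exp_add]
    congr 2
    ring

open Classical in
theorem cw_ew (s : ℝ) (c : Cycle D) : cw S (ew len s) c =
    if c ≠ Cycle.nil ∧ c.Chain S then ENNReal.ofReal (Real.exp (-s * clen len c)) else 0 := by
  unfold cw
  split_ifs
  · rw [prod_ew]; rfl
  · rfl

theorem clen_ge {lam : ℝ} (hlam : ∀ d, lam ≤ len d) (c : Cycle D) :
    lam * c.length ≤ clen len c := by
  unfold clen
  rw [← Cycle.card_toMultiset]
  generalize c.toMultiset = m
  induction m using Multiset.induction with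
  | empty => simp
  | cons a m ih =>
    rw [Multiset.card_cons, Multiset.map_cons, Multiset.sum_cons]
    push_cast
    have := hlam a
    linarith

theorem circ_finite {lam : ℝ} (hl : 0 < lam) (hlam : ∀ d, lam ≤ len d) (t : ℝ) :
    (circ S len t).Finite := by
  apply ((List.finite_length_le D ⌊t / lam⌋₊).image (fun l : List D => (l : Cycle D))).subset
  rintro c ⟨_, _, h3⟩
  obtain ⟨l, rfl⟩ := Quotient.exists_rep c
  refine ⟨l, ?_, rfl⟩
  have h4 := clen_ge len hlam (l : Cycle D)
  rw [Cycle.length_coe] at h4
  change clen len (l : Cycle D) ≤ t at h3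
  apply Nat.le_floor
  rw [le_div_iff₀ hl]
  linarith

theorem count_le {lam : ℝ} (hl : 0 < lam) (hlam : ∀ d, lam ≤ len d) {s : ℝ} (hs : 0 ≤ s) (t : ℝ) :
    ((circ S len t).ncard : ℝ≥0∞) * ENNReal.ofReal (Real.exp (-s * t)) ≤
      ∑' l : List D, cw S (ew len s) (l : Cycle D) := by
  classical
  have hf := circ_finite S len hl hlam t
  calc ((circ S len t).ncard : ℝ≥0∞) * ENNReal.ofReal (Real.exp (-s * t))
      = ∑ c ∈ hf.toFinset, ENNReal.ofReal (Real.exp (-s * t)) := by
        rw [Finset.sum_const, nsmul_eq_mul, Set.ncard_eq_toFinset_card _ hf]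
    _ ≤ ∑ c ∈ hf.toFinset, cw S (ew len s) c := by
        apply Finset.sum_le_sum
        intro c hc
        rw [Set.Finite.mem_toFinset] at hc
        obtain ⟨h1, h2, h3⟩ := hc
        rw [cw_ew, if_pos ⟨h1, h2⟩]
        apply ENNReal.ofReal_le_ofReal
        apply Real.exp_le_exp.2
        nlinarith
    _ ≤ ∑' c : Cycle D, cw S (ew len s) c := ENNReal.sum_le_tsum _
    _ = ∑' c : Cycle D, cw S (ew len s) ((Quotient.out c : List D) : Cycle D) := by
        congr 1
        ext c
        congr 1
        exact (Quotient.out_eq c).symm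
    _ ≤ _ := by
        apply ENNReal.tsum_comp_le_tsum_of_injective
          (f := fun c : Cycle D => (Quotient.out c : List D))
          (g := fun l : List D => cw S (ew len s) (l : Cycle D))
        exact Quotient.out_injective

theorem list_le (w : D → ℝ≥0∞) : ∑' l : List D, cw S w (l : Cycle D) ≤
    ∑' c : Cycle D, (c.length : ℝ≥0∞) * cw S w c := by
  classical
  have h1 : ∀ l : List D, cw S w (l : Cycle D) =
      ∑' c : Cycle D, if (l : Cycle D) = c then cw S w c else 0 := by
    intro l
    rw [tsum_eq_single (l : Cycle D)]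
    · rw [if_pos rfl]
    · intro c hc
      rw [if_neg hc.symm]
  rw [tsum_congr h1, ENNReal.tsum_comm]
  apply ENNReal.tsum_le_tsum
  intro c
  by_cases hc : c = Cycle.nil
  · have : cw S w c = 0 := by
      unfold cw; rw [if_neg]; exact fun h => h.1 hc
    rw [this, mul_zero]
    simp
  · have h2 : c.lists.card = c.length := by
      obtain ⟨l, rfl⟩ := Quotient.exists_rep c
      have hl : l ≠ [] := by
        intro h
        apply hc
        rw [h]
        rfl
      change Multiset.card (Cycle.lists (l : Cycle D)) = Cycle.length (l : Cycle D)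
      rw [Cycle.lists_coe, Multiset.coe_card, List.length_cyclicPermutations_of_ne_nil _ hl,
        Cycle.length_coe]
    rw [tsum_eq_sum (s := c.lists.toFinset)]
    · calc ∑ l ∈ c.lists.toFinset, (if (l : Cycle D) = c then cw S w c else 0)
          ≤ ∑ l ∈ c.lists.toFinset, cw S w c := by
            apply Finset.sum_le_sum
            intro l _
            split_ifs <;> simp
        _ = (c.lists.toFinset.card : ℝ≥0∞) * cw S w c := by
            rw [Finset.sum_const, nsmul_eq_mul]
        _ ≤ (c.length : ℝ≥0∞) * cw S w c := by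
            gcongr
            rw [← h2]
            exact Multiset.toFinset_card_le _
    · intro l hl
      rw [if_neg]
      intro h
      apply hl
      rw [Multiset.mem_toFinset, Cycle.mem_lists_iff_coe_eq]
      exact h

theorem cyc_fin {lam : ℝ} (hl : 0 < lam) (hlam : ∀ d, lam ≤ len d) {s s' : ℝ} (hs' : 0 ≤ s')
    (hss : s' < s) (hc : ∀ᶠ t in atTop, ((circ S len t).ncard : ℝ) ≤ Real.exp (s' * t)) :
    ∑' c : Cycle D, cw S (ew len s) c ≠ ⊤ := by
  classical
  have h1 : ∀ c : Cycle D, cw S (ew len s) c =
      ∑' k : ℕ, if ⌊clen len c⌋₊ = k then cw S (ew len s) c else 0 := by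
    intro c
    rw [tsum_eq_single ⌊clen len c⌋₊]
    · rw [if_pos rfl]
    · intro k hk
      rw [if_neg hk.symm]
  rw [tsum_congr h1, ENNReal.tsum_comm]
  have h2 : ∀ k : ℕ, ∑' c : Cycle D, (if ⌊clen len c⌋₊ = k then cw S (ew len s) c else 0) ≤
      ENNReal.ofReal (((circ S len (k + 1)).ncard : ℝ) * Real.exp (-s * k)) := by
    intro k
    have hf := circ_finite S len hl hlam (k + 1)
    rw [tsum_eq_sum (s := hf.toFinset)]
    · calc ∑ c ∈ hf.toFinset, (if ⌊clen len c⌋₊ = k then cw S (ew len s) c else 0)
          ≤ ∑ c ∈ hf.toFinset, ENNReal.ofReal (Real.exp (-s * k)) := by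
            apply Finset.sum_le_sum
            intro c _
            split_ifs with h
            · rw [cw_ew]
              split_ifs
              · apply ENNReal.ofReal_le_ofReal
                apply Real.exp_le_exp.2
                have h3 : 0 ≤ clen len c := by
                  have := clen_ge len hlam c
                  have h4 : 0 ≤ lam * (c.length : ℝ) := by positivity
                  linarith
                have h5 : (k : ℝ) ≤ clen len c := by
                  rw [← h]; exact Nat.floor_le h3
                nlinarith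
              · exact zero_le
            · exact zero_le
        _ = _ := by
            rw [Finset.sum_const, nsmul_eq_mul, Set.ncard_eq_toFinset_card _ hf,
              ENNReal.ofReal_mul (by positivity), ENNReal.ofReal_natCast]
    · intro c hc
      split_ifs with h
      · rw [cw_ew, if_neg]
        rintro ⟨h3, h4⟩
        apply hc
        rw [Set.Finite.mem_toFinset]
        refine ⟨h3, h4, ?_⟩
        have := Nat.lt_floor_add_one (clen len c)
        rw [h] at this
        exact this.le
      · rfl
  refine ne_top_of_le_ne_top ?_ (ENNReal.tsum_le_tsum h2)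
  apply Summable.tsum_ofReal_ne_top
  have hgeo : Summable fun k : ℕ => Real.exp s' * Real.exp (-(s - s')) ^ k := by
    apply Summable.mul_left
    apply summable_geometric_of_lt_one (Real.exp_pos _).le
    rw [Real.exp_lt_one_iff]
    linarith
  apply Summable.of_norm_bounded_eventually_nat hgeo
  have hk : Tendsto (fun k : ℕ => (k : ℝ) + 1) atTop atTop :=
    tendsto_atTop_add_const_right _ _ tendsto_natCast_atTop_atTop
  filter_upwards [hk.eventually hc] with k hk
  rw [Real.norm_of_nonneg (by positivity)]
  calc ((circ S len (k + 1)).ncard : ℝ) * Real.exp (-s * k)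
      ≤ Real.exp (s' * (k + 1)) * Real.exp (-s * k) := by gcongr
    _ = Real.exp s' * Real.exp (-(s - s')) ^ k := by
        rw [← Real.exp_add, ← Real.exp_nat_mul, ← Real.exp_add]
        congr 1
        ring

theorem list_fin {lam : ℝ} (hl : 0 < lam) (hlam : ∀ d, lam ≤ len d) {s s' : ℝ} (hs' : 0 ≤ s')
    (hss : s' < s) (hc : ∀ᶠ t in atTop, ((circ S len t).ncard : ℝ) ≤ Real.exp (s' * t)) :
    ∑' l : List D, cw S (ew len s) (l : Cycle D) ≠ ⊤ := by
  classical
  set s'' := (s + s') / 2 with hs''
  set δ := s - s'' with hδ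
  have hδ0 : 0 < δ := by rw [hδ, hs'']; linarith
  have hfin := cyc_fin S len hl hlam (s := s'') hs' (by rw [hs'']; linarith) hc
  refine ne_top_of_le_ne_top ?_ (list_le S (ew len s))
  have h1 : ∀ c : Cycle D, (c.length : ℝ≥0∞) * cw S (ew len s) c ≤
      ENNReal.ofReal (1 / (lam * δ)) * cw S (ew len s'') c := by
    intro c
    rw [cw_ew, cw_ew]
    split_ifs
    · rw [← ENNReal.ofReal_natCast, ← ENNReal.ofReal_mul (by positivity),
        ← ENNReal.ofReal_mul (by positivity)]
      apply ENNReal.ofReal_le_ofReal
      have h2 := clen_ge len hlam c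
      set L := clen len c
      have h3 : δ * L ≤ Real.exp (δ * L) := by
        have := Real.add_one_le_exp (δ * L)
        linarith
      have h4 : Real.exp (-s'' * L) = Real.exp (-s * L) * Real.exp (δ * L) := by
        rw [← Real.exp_add]
        congr 1
        rw [hδ]
        ring
      rw [h4]
      have h5 : (c.length : ℝ) ≤ 1 / (lam * δ) * Real.exp (δ * L) := by
        rw [div_mul_eq_mul_div, le_div_iff₀ (by positivity)]
        nlinarith
      calc (c.length : ℝ) * Real.exp (-s * L)
          ≤ (1 / (lam * δ) * Real.exp (δ * L)) * Real.exp (-s * L) := by gcongr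
        _ = _ := by ring
    · simp
  refine ne_top_of_le_ne_top ?_ (ENNReal.tsum_le_tsum h1)
  rw [ENNReal.tsum_mul_left]
  exact ENNReal.mul_ne_top ENNReal.ofReal_ne_top hfin

/-- the sum over all closed words -/
noncomputable def Zs (s : ℝ) : ℝ≥0∞ := ∑' l : List D, cw S (ew len s) (l : Cycle D)

theorem Zs_eq (s : ℝ) : Zs S len s = ∑ a, ∑' n, (tm S (ew len s) ^ (n + 1)) a a :=
  tsum_cw S (ew len s)

/-- positive strict supersolution implies finiteness -/
theorem Zs_fin_of_super {s : ℝ} {ρ : ℝ} (hρ : ρ < 1) {u : D → ℝ} (hu : ∀ d, 0 < u d)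
    (h : ∀ d, Real.exp (-s * len d) * ∑ d', (if S d d' then u d' else 0) ≤ ρ * u d) :
    Zs S len s ≠ ⊤ := by
  rw [Zs_eq]
  apply ENNReal.sum_ne_top.2
  intro a _
  have hρ0 : 0 ≤ ρ := by
    by_contra hneg
    push Not at hneg
    have h1 := h a
    have h2 : 0 ≤ Real.exp (-s * len a) * ∑ d', (if S a d' then u d' else 0) := by
      apply mul_nonneg (Real.exp_pos _).le
      apply Finset.sum_nonneg
      intro d _
      split_ifs
      · exact (hu d).le
      · exact le_rfl
    have h3 := mul_neg_of_neg_of_pos hneg (hu a)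
    linarith
  have h1 := green_of_super (tm S (ew len s)) (fun d => ENNReal.ofReal (u d))
    (fun d => by rw [Ne, ENNReal.ofReal_eq_zero, not_le]; exact hu d)
    (fun d => ENNReal.ofReal_ne_top) (ENNReal.ofReal ρ) (by
      rw [ENNReal.ofReal_lt_one]; exact hρ) (by
      intro d
      rw [← ENNReal.ofReal_mul hρ0]
      refine le_trans (le_of_eq ?_) (ENNReal.ofReal_le_ofReal (h d))
      rw [ENNReal.ofReal_mul (Real.exp_pos _).le, ENNReal.ofReal_sum_of_nonneg, Finset.mul_sum]
      · apply Finset.sum_congr rfl
        intro d' _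
        unfold tm ew
        split_ifs
        · rfl
        · simp
      · intro d' _
        split_ifs
        · exact (hu d').le
        · exact le_rfl) a
  refine ne_top_of_le_ne_top h1 ?_
  rw [tsum_eq_zero_add' (f := fun n => (tm S (ew len s) ^ n) a a) ENNReal.summable]
  exact le_add_self

/-- finiteness implies a positive supersolution (indeed the resolvent) -/
theorem super_of_Zs_fin {s : ℝ} (h : Zs S len s ≠ ⊤) :
    ∃ u : D → ℝ, (∀ d, 1 ≤ u d) ∧
      ∀ d, u d = 1 + Real.exp (-s * len d) * ∑ d', (if S d d' then u d' else 0) := by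
  rw [Zs_eq, Ne, ENNReal.sum_eq_top] at h
  push Not at h
  obtain ⟨u, hu, hu'⟩ := exists_resolvent (tm S (ew len s)) (by
    intro a b
    unfold tm ew
    split_ifs
    · exact ENNReal.ofReal_ne_top
    · exact ENNReal.zero_ne_top) (by
    intro a
    rw [tsum_eq_zero_add' ENNReal.summable]
    apply ENNReal.add_ne_top.2
    refine ⟨?_, h a (Finset.mem_univ a)⟩
    rw [pow_zero, Matrix.one_apply_eq]
    exact ENNReal.one_ne_top)
  have h1 : ∀ d, (u d).toReal = 1 + Real.exp (-s * len d) *
      ∑ d', (if S d d' then (u d').toReal else 0) := by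
    intro d
    have hne : ∀ d', tm S (ew len s) d d' * u d' ≠ ⊤ := by
      intro d'
      apply ENNReal.mul_ne_top _ (hu d')
      unfold tm ew
      split_ifs
      · exact ENNReal.ofReal_ne_top
      · exact ENNReal.zero_ne_top
    have h2 : (∑ d', tm S (ew len s) d d' * u d') ≠ ⊤ := ENNReal.sum_ne_top.2 fun d' _ => hne d'
    rw [hu' d, ENNReal.toReal_add ENNReal.one_ne_top h2, ENNReal.toReal_one,
      ENNReal.toReal_sum fun d' _ => hne d', Finset.mul_sum]
    congr 1
    apply Finset.sum_congr rfl
    intro d' _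
    rw [ENNReal.toReal_mul]
    unfold tm ew
    split_ifs
    · rw [ENNReal.toReal_ofReal (Real.exp_pos _).le]
    · simp
  refine ⟨fun d => (u d).toReal, fun d => ?_, h1⟩
  dsimp only
  rw [h1 d]
  have : 0 ≤ Real.exp (-s * len d) * ∑ d', (if S d d' then (u d').toReal else 0) := by
    apply mul_nonneg (Real.exp_pos _).le
    apply Finset.sum_nonneg
    intro d' _
    split_ifs
    · exact ENNReal.toReal_nonneg
    · exact le_rfl
  linarith

/-- count bound from finiteness -/
theorem count_of_Zs {lam : ℝ} (hl : 0 < lam) (hlam : ∀ d, lam ≤ len d) {s : ℝ} (hs : 0 ≤ s)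
    (h : Zs S len s ≠ ⊤) (t : ℝ) :
    ((circ S len t).ncard : ℝ) ≤ (Zs S len s).toReal * Real.exp (s * t) := by
  have h1 := count_le S len hl hlam hs t
  have h2 := ENNReal.toReal_mono h h1
  rw [ENNReal.toReal_mul, ENNReal.toReal_ofReal (Real.exp_pos _).le, ENNReal.toReal_natCast] at h2
  have h3 : Real.exp (-s * t) * Real.exp (s * t) = 1 := by
    rw [← Real.exp_add]; simp
  calc ((circ S len t).ncard : ℝ)
      = ((circ S len t).ncard : ℝ) * Real.exp (-s * t) * Real.exp (s * t) := by
        rw [mul_assoc, h3, mul_one]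
    _ ≤ _ := by gcongr

theorem exists_Zs_fin {lam : ℝ} (hl : 0 < lam) (hlam : ∀ d, lam ≤ len d) :
    ∃ s : ℝ, 0 ≤ s ∧ Zs S len s ≠ ⊤ := by
  set N : ℝ := 2 * (Fintype.card D : ℝ) + 1 with hN
  have hN1 : 1 ≤ N := by rw [hN]; have := Nat.cast_nonneg (α := ℝ) (Fintype.card D); linarith
  refine ⟨Real.log N / lam, by have := Real.log_nonneg hN1; positivity, ?_⟩
  apply Zs_fin_of_super S len (ρ := 1 / 2) (by norm_num) (u := fun _ => 1) (fun _ => one_pos)
  intro d
  have h1 : Real.exp (-(Real.log N / lam) * len d) ≤ 1 / N := by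
    rw [one_div, ← Real.exp_log (by linarith : 0 < N), ← Real.exp_neg, Real.exp_log (by linarith)]
    apply Real.exp_le_exp.2
    rw [neg_mul, neg_le_neg_iff, div_mul_eq_mul_div, le_div_iff₀ hl]
    have := Real.log_nonneg hN1
    have := hlam d
    nlinarith
  have h2 : ∑ d', (if S d d' then (1 : ℝ) else 0) ≤ Fintype.card D := by
    calc ∑ d', (if S d d' then (1 : ℝ) else 0) ≤ ∑ d' : D, (1 : ℝ) := by
          apply Finset.sum_le_sum
          intro d' _
          split_ifs <;> norm_num
      _ = _ := by simp
  calc Real.exp (-(Real.log N / lam) * len d) * ∑ d', (if S d d' then (1 : ℝ) else 0)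
      ≤ 1 / N * Fintype.card D := by gcongr
    _ ≤ 1 / 2 * 1 := by
      rw [div_mul_eq_mul_div, div_le_iff₀ (by linarith)]
      rw [hN]; linarith

theorem quot_nonneg {t : ℝ} (ht : 0 < t) : 0 ≤ Real.log ((circ S len t).ncard : ℝ) / t :=
  div_nonneg (Real.log_natCast_nonneg _) ht.le

theorem quot_le {lam : ℝ} (hl : 0 < lam) (hlam : ∀ d, lam ≤ len d) {s : ℝ} (hs : 0 ≤ s)
    (h : Zs S len s ≠ ⊤) {ε : ℝ} (hε : 0 < ε) :
    ∀ᶠ t in atTop, Real.log ((circ S len t).ncard : ℝ) / t ≤ s + ε := by
  set K := (Zs S len s).toReal + 1 with hK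
  have hK1 : 1 ≤ K := by have := ENNReal.toReal_nonneg (a := Zs S len s); rw [hK]; linarith
  filter_upwards [eventually_ge_atTop (Real.log K / ε), eventually_gt_atTop 0] with t ht ht0
  rw [div_le_iff₀ ht0]
  rcases Nat.eq_zero_or_pos (circ S len t).ncard with h0 | h0
  · rw [h0, Nat.cast_zero, Real.log_zero]; positivity
  · have h1 := count_of_Zs S len hl hlam hs h t
    have h2 : ((circ S len t).ncard : ℝ) ≤ K * Real.exp (s * t) := by
      refine h1.trans ?_
      gcongr
      rw [hK]; linarith
    have h3 : (0 : ℝ) < (circ S len t).ncard := by exact_mod_cast h0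
    calc Real.log ((circ S len t).ncard : ℝ) ≤ Real.log (K * Real.exp (s * t)) :=
          Real.log_le_log h3 h2
      _ = Real.log K + s * t := by
          rw [Real.log_mul (by linarith) (Real.exp_pos _).ne', Real.log_exp]
      _ ≤ (s + ε) * t := by
          rw [div_le_iff₀ hε] at ht
          linarith

theorem quot_bdd {lam : ℝ} (hl : 0 < lam) (hlam : ∀ d, lam ≤ len d) :
    IsBoundedUnder (· ≤ ·) atTop (fun t : ℝ => Real.log ((circ S len t).ncard : ℝ) / t) := by
  obtain ⟨s, hs, h⟩ := exists_Zs_fin S len hl hlam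
  exact ⟨s + 1, by simpa using quot_le S len hl hlam hs h one_pos⟩

theorem quot_cobdd :
    IsCoboundedUnder (· ≤ ·) atTop (fun t : ℝ => Real.log ((circ S len t).ncard : ℝ) / t) := by
  apply IsBoundedUnder.isCoboundedUnder_le
  exact ⟨0, by
    have : ∀ᶠ t : ℝ in atTop, 0 ≤ Real.log ((circ S len t).ncard : ℝ) / t := by
      filter_upwards [eventually_gt_atTop 0] with t ht using quot_nonneg S len ht
    simpa using this⟩

theorem ent_nonneg {lam : ℝ} (hl : 0 < lam) (hlam : ∀ d, lam ≤ len d) : 0 ≤ ent S len := by
  apply le_limsup_of_frequently_le _ (quot_bdd S len hl hlam)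
  apply Eventually.frequently
  filter_upwards [eventually_gt_atTop 0] with t ht using quot_nonneg S len ht

theorem ent_le_of_Zs {lam : ℝ} (hl : 0 < lam) (hlam : ∀ d, lam ≤ len d) {s : ℝ} (hs : 0 ≤ s)
    (h : Zs S len s ≠ ⊤) : ent S len ≤ s := by
  apply le_of_forall_pos_le_add
  intro ε hε
  exact limsup_le_of_le (quot_cobdd S len) (quot_le S len hl hlam hs h hε)

theorem Zs_of_ent_lt {lam : ℝ} (hl : 0 < lam) (hlam : ∀ d, lam ≤ len d) {s : ℝ}
    (h : ent S len < s) : Zs S len s ≠ ⊤ := by
  have h0 := ent_nonneg S len hl hlam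
  set s' := (ent S len + s) / 2 with hs'
  have h1 : ent S len < s' := by rw [hs']; linarith
  have h2 : ∀ᶠ t in atTop, Real.log ((circ S len t).ncard : ℝ) / t < s' :=
    eventually_lt_of_limsup_lt h1 (quot_bdd S len hl hlam)
  apply list_fin S len hl hlam (s' := s') (by linarith) (by rw [hs']; linarith)
  filter_upwards [h2, eventually_gt_atTop 0] with t ht ht0
  rw [div_lt_iff₀ ht0] at ht
  rcases Nat.eq_zero_or_pos (circ S len t).ncard with h3 | h3
  · rw [h3, Nat.cast_zero]; exact (Real.exp_pos _).le
  · rw [← Real.log_le_iff_le_exp (by exact_mod_cast h3)]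
    exact ht.le

theorem exists_lam (hpos : ∀ d, 0 < len d) : ∃ lam : ℝ, 0 < lam ∧ ∀ d, lam ≤ len d := by
  rcases isEmpty_or_nonempty D with h | h
  · exact ⟨1, one_pos, fun d => (h.false d).elim⟩
  · obtain ⟨d₀, hd₀⟩ := Finite.exists_min len
    exact ⟨len d₀, hpos d₀, hd₀⟩

/-- Perron–Frobenius eigenvector at the entropy. -/
theorem exists_eigen (hpos : ∀ d, 0 < len d) (he : 0 < ent S len) :
    ∃ p : D → ℝ, (∀ d, 0 ≤ p d) ∧ (∃ d, p d ≠ 0) ∧
      ∀ d, p d = Real.exp (-(ent S len) * len d) * ∑ d', (if S d d' then p d' else 0) := by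
  obtain ⟨lam, hl, hlam⟩ := exists_lam len hpos
  set e := ent S len with hedef
  have hne : Nonempty D := by
    by_contra hne
    rw [not_nonempty_iff] at hne
    have h1 : Zs S len 0 ≠ ⊤ := Zs_fin_of_super S len (ρ := 0) (by norm_num)
      (u := fun _ => 1) (fun _ => one_pos) (fun d => (hne.false d).elim)
    have := ent_le_of_Zs S len hl hlam le_rfl h1
    linarith
  have hres : ∀ k : ℕ, ∃ u : D → ℝ, (∀ d, 1 ≤ u d) ∧
      ∀ d, u d = 1 + Real.exp (-(e + 1 / ((k : ℝ) + 1)) * len d) *
        ∑ d', (if S d d' then u d' else 0) := by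
    intro k
    apply super_of_Zs_fin
    apply Zs_of_ent_lt S len hl hlam
    rw [← hedef]
    have : (0 : ℝ) < 1 / ((k : ℝ) + 1) := by positivity
    linarith
  choose u hu1 hu using hres
  set U : ℕ → ℝ := fun k => ∑ d, u k d with hU
  have hUge : ∀ k d, u k d ≤ U k := by
    intro k d
    exact Finset.single_le_sum (f := fun d => u k d)
      (fun d _ => zero_le_one.trans (hu1 k d)) (Finset.mem_univ d)
  have hU1 : ∀ k, 1 ≤ U k := fun k => (hu1 k hne.some).trans (hUge k _)
  have hU0 : ∀ k, 0 < U k := fun k => one_pos.trans_le (hU1 k)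
  set x : ℕ → (D → ℝ) × ℝ := fun k => (fun d => u k d / U k, 1 / U k) with hx
  have hxmem : ∀ k, x k ∈ Set.Icc (0 : (D → ℝ) × ℝ) 1 := by
    intro k
    constructor
    · refine ⟨fun d => ?_, ?_⟩
      · exact div_nonneg (zero_le_one.trans (hu1 k d)) (hU0 k).le
      · exact (one_div_pos.2 (hU0 k)).le
    · refine ⟨fun d => ?_, ?_⟩
      · exact (div_le_one (hU0 k)).2 (hUge k d)
      · exact (div_le_one (hU0 k)).2 (hU1 k)
  obtain ⟨⟨p, c⟩, hpc, φ, hφ, hlim⟩ := isCompact_Icc.tendsto_subseq hxmem
  have hplim : ∀ d, Tendsto (fun k => u (φ k) d / U (φ k)) atTop (nhds (p d)) := by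
    intro d
    have h1 : Tendsto (fun k => (x (φ k)).1) atTop (nhds p) :=
      (continuous_fst.tendsto _).comp hlim
    exact (tendsto_pi_nhds.1 h1) d
  have hclim : Tendsto (fun k => 1 / U (φ k)) atTop (nhds c) :=
    (continuous_snd.tendsto _).comp hlim
  have hp0 : ∀ d, 0 ≤ p d := fun d => hpc.1.1 d
  have hp1 : ∀ d, p d ≤ 1 := fun d => hpc.2.1 d
  have hc0 : 0 ≤ c := hpc.1.2
  have hsum : ∑ d, p d = 1 := by
    have h1 : Tendsto (fun k => ∑ d, u (φ k) d / U (φ k)) atTop (nhds (∑ d, p d)) :=
      tendsto_finsetSum _ fun d _ => hplim d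
    have h2 : ∀ k, ∑ d, u (φ k) d / U (φ k) = 1 := by
      intro k
      rw [← Finset.sum_div]
      exact div_self (hU0 _).ne'
    rw [funext h2] at h1
    exact tendsto_nhds_unique h1 tendsto_const_nhds |>.symm ▸ rfl
  have hslim : Tendsto (fun k => e + 1 / (((φ k : ℕ) : ℝ) + 1)) atTop (nhds e) := by
    have h1 : Tendsto (fun k : ℕ => 1 / ((k : ℝ) + 1)) atTop (nhds 0) :=
      tendsto_one_div_add_atTop_nhds_zero_nat
    have h2 := (h1.comp hφ.tendsto_atTop).const_add e
    rw [add_zero] at h2
    exact h2
  have heq : ∀ d, p d = c + Real.exp (-e * len d) * ∑ d', (if S d d' then p d' else 0) := by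
    intro d
    have h1 : Tendsto (fun k => 1 / U (φ k) +
        Real.exp (-(e + 1 / (((φ k : ℕ) : ℝ) + 1)) * len d) *
        ∑ d', (if S d d' then u (φ k) d' / U (φ k) else 0)) atTop
        (nhds (c + Real.exp (-e * len d) * ∑ d', (if S d d' then p d' else 0))) := by
      apply hclim.add
      apply Tendsto.mul
      · exact ((Real.continuous_exp.tendsto _).comp ((hslim.neg).mul_const (len d)))
      · apply tendsto_finsetSum
        intro d' _
        split_ifs
        · exact hplim d'
        · exact tendsto_const_nhds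
    refine tendsto_nhds_unique (hplim d) (h1.congr fun k => ?_)
    have h2 := hu (φ k) d
    have h3 : ∑ d', (if S d d' then u (φ k) d' / U (φ k) else 0) =
        (∑ d', (if S d d' then u (φ k) d' else 0)) / U (φ k) := by
      rw [Finset.sum_div]
      apply Finset.sum_congr rfl
      intro d' _
      split_ifs
      · rfl
      · rw [zero_div]
    rw [h3, ← mul_div_assoc, ← add_div, ← h2]
  rcases hc0.eq_or_lt with hc | hc
  · refine ⟨p, hp0, ?_, ?_⟩
    · by_contra hall
      push Not at hall
      rw [Finset.sum_eq_zero fun d _ => hall d] at hsum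
      exact zero_ne_one hsum
    · intro d
      rw [heq d, ← hc, zero_add]
  · -- a strict supersolution: contradiction
    exfalso
    have hc1 : c ≤ 1 := hpc.2.2
    set L : ℝ := ∑ d, len d with hL
    have hLge : ∀ d, len d ≤ L := fun d =>
      Finset.single_le_sum (f := len) (fun d _ => (hpos d).le) (Finset.mem_univ d)
    have hcont : Continuous fun δ : ℝ => Real.exp (δ * L) * (1 - c) := by fun_prop
    have h1 : ∀ᶠ δ : ℝ in nhds 0, Real.exp (δ * L) * (1 - c) < 1 - c / 2 := by
      apply (hcont.tendsto 0).eventually_lt_const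
      simp only [zero_mul, Real.exp_zero, one_mul]
      linarith
    obtain ⟨r, hr, hr'⟩ := Metric.eventually_nhds_iff.1 h1
    set δ := min (r / 2) e with hδ
    have hδ0 : 0 < δ := lt_min (by linarith) he
    have hδ1 : Real.exp (δ * L) * (1 - c) < 1 - c / 2 := by
      apply hr'
      rw [Real.dist_eq, sub_zero, abs_of_pos hδ0]
      exact (min_le_left _ _).trans_lt (by linarith)
    have hfin : Zs S len (e - δ) ≠ ⊤ := by
      apply Zs_fin_of_super S len (ρ := 1 - c / 2) (by linarith) (u := p)
      · intro d
        rw [heq d]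
        have : 0 ≤ Real.exp (-e * len d) * ∑ d', (if S d d' then p d' else 0) := by
          apply mul_nonneg (Real.exp_pos _).le
          apply Finset.sum_nonneg
          intro d' _
          split_ifs
          · exact hp0 d'
          · exact le_rfl
        linarith
      · intro d
        have h2 : Real.exp (-e * len d) * ∑ d', (if S d d' then p d' else 0) ≤
            (1 - c) * p d := by
          have h3 := heq d
          have h4 := hp1 d
          nlinarith
        have h5 : Real.exp (-(e - δ) * len d) ≤ Real.exp (δ * L) * Real.exp (-e * len d) := by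
          rw [← Real.exp_add]
          apply Real.exp_le_exp.2
          have := hLge d
          nlinarith
        have h6 : 0 ≤ ∑ d', (if S d d' then p d' else 0) := by
          apply Finset.sum_nonneg
          intro d' _
          split_ifs
          · exact hp0 d'
          · exact le_rfl
        calc Real.exp (-(e - δ) * len d) * ∑ d', (if S d d' then p d' else 0)
            ≤ Real.exp (δ * L) * Real.exp (-e * len d) *
              ∑ d', (if S d d' then p d' else 0) := by gcongr
          _ = Real.exp (δ * L) * (Real.exp (-e * len d) *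
              ∑ d', (if S d d' then p d' else 0)) := by ring
          _ ≤ Real.exp (δ * L) * ((1 - c) * p d) := by gcongr
          _ = Real.exp (δ * L) * (1 - c) * p d := by ring
          _ ≤ (1 - c / 2) * p d := by
            apply mul_le_mul_of_nonneg_right hδ1.le (hp0 d)
    have := ent_le_of_Zs S len hl hlam (s := e - δ) (by
      have := min_le_right (r / 2) e
      rw [← hδ] at this
      linarith) hfin
    rw [← hedef] at this
    linarith

end Count

end Pool.Agent.V11215.Ent
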