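import Mathlib

/-! The one-edge inequality. -/

namespace Pool.Agent.V11215.Ent

open Set

theorem edge_ineq {α p ℓ m s θ θ' : ℝ} (hα : 0 ≤ α) (hp : 0 ≤ p) (hℓ : 0 ≤ ℓ) (hm : 0 < m)
    (hf : ∀ t ∈ Icc 0 ℓ, m ≤ α * Real.exp (-t) + p * Real.exp t) (hs0 : 0 ≤ s) (hs1 : s ≤ 1)
    (hθ0 : 0 ≤ θ) (hθ1 : θ ≤ 1)
    (h : Real.exp (-(2 * s * ℓ)) * ((1 - θ) * (1 - θ')) ≤ θ * θ') :
    (1 - s) * m ^ (2 * s) * (1 - p / (α + p) -
        α * Real.exp (-ℓ) / (α * Real.exp (-ℓ) + p * Real.exp ℓ)) ≤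
      (α + p) ^ (2 * s) * (θ - p / (α + p)) +
      (α * Real.exp (-ℓ) + p * Real.exp ℓ) ^ (2 * s) *
        (θ' - α * Real.exp (-ℓ) / (α * Real.exp (-ℓ) + p * Real.exp ℓ)) := by
  set f : ℝ → ℝ := fun t => α * Real.exp (-t) + p * Real.exp t with hfdef
  set g : ℝ → ℝ := fun t => p * Real.exp t - α * Real.exp (-t) with hgdef
  have hap : 0 < α + p := by
    have := hf 0 ⟨le_rfl, hℓ⟩
    simp at this
    linarith
  have hfpos : ∀ t, 0 < f t := by
    intro t
    rw [hfdef]
    dsimp only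
    rcases hα.eq_or_lt with h0 | h0
    · rw [← h0, zero_add] at hap
      rw [← h0, zero_mul, zero_add]
      positivity
    · have := Real.exp_pos (-t)
      have := Real.exp_pos t
      have h1 : 0 < α * Real.exp (-t) := by positivity
      have h2 : 0 ≤ p * Real.exp t := by positivity
      linarith
  have hfd : ∀ t, HasDerivAt f (g t) t := by
    intro t
    have h1 : HasDerivAt (fun t : ℝ => Real.exp (-t)) (Real.exp (-t) * (-1)) t :=
      (hasDerivAt_neg t).exp
    have h2 := (h1.const_mul α).add ((Real.hasDerivAt_exp t).const_mul p)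
    refine h2.congr_deriv ?_
    rw [hgdef]
    ring
  have hgd : ∀ t, HasDerivAt g (f t) t := by
    intro t
    have h1 : HasDerivAt (fun t : ℝ => Real.exp (-t)) (Real.exp (-t) * (-1)) t :=
      (hasDerivAt_neg t).exp
    have h2 := ((Real.hasDerivAt_exp t).const_mul p).sub (h1.const_mul α)
    refine h2.congr_deriv ?_
    rw [hfdef]
    ring
  set W : ℝ → ℝ := fun t => g t / f t with hW
  have hWd : ∀ t, HasDerivAt W (1 - W t ^ 2) t := by
    intro t
    have h1 := (hgd t).div (hfd t) (hfpos t).ne'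
    refine h1.congr_deriv ?_
    rw [hW]
    have := (hfpos t).ne'
    field_simp
  have hW1 : ∀ t, 0 ≤ 1 - W t ^ 2 := by
    intro t
    have h1 : 1 - W t ^ 2 = 4 * (α * p) / f t ^ 2 := by
      have h2 : Real.exp (-t) * Real.exp t = 1 := by rw [← Real.exp_add]; simp
      have := (hfpos t).ne'
      rw [hW]
      dsimp only
      rw [div_pow, eq_div_iff (by positivity), sub_mul, div_mul_cancel₀ _ (by positivity)]
      rw [hfdef, hgdef]
      dsimp only
      linear_combination (4 * α * p) * h2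
    rw [h1]
    positivity
  set N : ℝ → ℝ := fun t => θ * Real.exp (2 * s * t) - (1 - θ) with hN
  set M : ℝ → ℝ := fun t => θ * Real.exp (2 * s * t) + (1 - θ) with hM
  have hMpos : ∀ t, 0 < M t := by
    intro t
    rw [hM]
    dsimp only
    have h0 := Real.exp_pos (2 * s * t)
    rcases hθ0.eq_or_lt with h1 | h1
    · rw [← h1]; norm_num
    · have : 0 < θ * Real.exp (2 * s * t) := by positivity
      linarith
  set R : ℝ → ℝ := fun t => N t / M t with hR
  have hEd : ∀ t, HasDerivAt (fun t : ℝ => Real.exp (2 * s * t))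
      (Real.exp (2 * s * t) * (2 * s)) t := by
    intro t
    have := ((hasDerivAt_id t).const_mul (2 * s)).exp
    simpa using this
  have hRd : ∀ t, HasDerivAt R (s * (1 - R t ^ 2)) t := by
    intro t
    have h1 : HasDerivAt N (θ * (Real.exp (2 * s * t) * (2 * s))) t :=
      ((hEd t).const_mul θ).sub_const _
    have h2 : HasDerivAt M (θ * (Real.exp (2 * s * t) * (2 * s))) t :=
      ((hEd t).const_mul θ).add_const _
    have h3 := h1.div h2 (hMpos t).ne'
    refine h3.congr_deriv ?_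
    have h4 := (hMpos t).ne'
    rw [hR]
    dsimp only
    rw [div_pow, div_eq_iff (by positivity)]
    have h5 : s * (1 - N t ^ 2 / M t ^ 2) * M t ^ 2 = s * (M t ^ 2 - N t ^ 2) := by
      field_simp
    rw [h5]
    rw [hM, hN]
    ring
  set κ := (1 - s) * m ^ (2 * s) with hκ
  set D : ℝ → ℝ := fun t => f t ^ (2 * s) * (W t - R t) - κ * W t with hD
  have hDd : ∀ t, HasDerivAt D (f t ^ (2 * s) * (s * (W t - R t) ^ 2) +
      (1 - s) * (1 - W t ^ 2) * (f t ^ (2 * s) - m ^ (2 * s))) t := by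
    intro t
    have h1 := ((hfd t).rpow_const (p := 2 * s) (Or.inl (hfpos t).ne'))
    have h2 := (h1.mul ((hWd t).sub (hRd t))).sub ((hWd t).const_mul κ)
    refine h2.congr_deriv ?_
    have h3 : g t * (2 * s) * f t ^ (2 * s - 1) = 2 * s * W t * f t ^ (2 * s) := by
      rw [Real.rpow_sub (hfpos t), Real.rpow_one, hW]
      have := (hfpos t).ne'
      field_simp
    rw [h3, hκ, Pi.sub_apply]
    ring
  have hmono : MonotoneOn D (Icc 0 ℓ) := by
    apply monotoneOn_of_deriv_nonneg (convex_Icc 0 ℓ)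
    · exact fun t _ => (hDd t).continuousAt.continuousWithinAt
    · exact fun t _ => (hDd t).differentiableAt.differentiableWithinAt
    · intro t ht
      rw [interior_Icc] at ht
      rw [(hDd t).deriv]
      have h1 : m ^ (2 * s) ≤ f t ^ (2 * s) :=
        Real.rpow_le_rpow hm.le (hf t ⟨ht.1.le, ht.2.le⟩) (by linarith)
      have h2 : 0 ≤ f t ^ (2 * s) := (Real.rpow_pos_of_pos (hfpos t) _).le
      have h3 := hW1 t
      have h4 : 0 ≤ 1 - s := by linarith
      have h5 : 0 ≤ f t ^ (2 * s) - m ^ (2 * s) := by linarith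
      positivity
  have hfin := hmono ⟨le_rfl, hℓ⟩ ⟨hℓ, le_rfl⟩ hℓ
  have hf0 : f 0 = α + p := by rw [hfdef]; simp
  have hfl : f ℓ = α * Real.exp (-ℓ) + p * Real.exp ℓ := rfl
  have hW0 : W 0 = 2 * (p / (α + p)) - 1 := by
    have hg0 : g 0 = p - α := by rw [hgdef]; simp
    rw [hW]
    dsimp only
    rw [hf0, hg0]
    field_simp
    ring
  have hWl : W ℓ = 1 - 2 * (α * Real.exp (-ℓ) / f ℓ) := by
    rw [hW]
    dsimp only
    have h0 := (hfpos ℓ).ne'
    rw [eq_sub_iff_add_eq, ← mul_div_assoc, ← add_div, div_eq_one_iff_eq h0, hgdef, hfl]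
    ring
  have hR0 : R 0 = 2 * θ - 1 := by
    rw [hR, hN, hM]; simp
    ring
  have hRl : 1 - 2 * θ' ≤ R ℓ := by
    rw [hR]
    dsimp only
    rw [le_div_iff₀ (hMpos ℓ), hM, hN]
    dsimp only
    have h1 : Real.exp (-(2 * s * ℓ)) * Real.exp (2 * s * ℓ) = 1 := by
      rw [← Real.exp_add]; simp
    have h2 := mul_le_mul_of_nonneg_right h (Real.exp_pos (2 * s * ℓ)).le
    have h3 : Real.exp (-(2 * s * ℓ)) * ((1 - θ) * (1 - θ')) * Real.exp (2 * s * ℓ) =
        (1 - θ) * (1 - θ') := by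
      linear_combination ((1 - θ) * (1 - θ')) * h1
    rw [h3] at h2
    nlinarith
  have hfl2 : 0 ≤ f ℓ ^ (2 * s) := (Real.rpow_pos_of_pos (hfpos ℓ) _).le
  rw [← hfl, ← hf0]
  rw [hD] at hfin
  dsimp only at hfin
  rw [hW0, hWl, hR0, hf0] at hfin
  rw [hf0]
  have h6 := mul_le_mul_of_nonneg_left hRl hfl2
  nlinarith

/-- The inequality at the point where the ground state is minimal. -/
theorem min_ineq {s t : ℝ} (hs0 : 0 ≤ s) (hs1 : s ≤ 1) (ht : 0 ≤ t) :
    Real.cosh t ^ (2 * s) * (1 - Real.tanh t) + (1 - s) * Real.tanh t ≤ 1 := by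
  have hc := Real.cosh_pos t
  have hT0 : 0 ≤ Real.tanh t := by
    rw [Real.tanh_eq_sinh_div_cosh]
    exact div_nonneg (Real.sinh_nonneg_iff.2 ht) hc.le
  have hT1 : Real.tanh t < 1 := Real.tanh_lt_one t
  set T := Real.tanh t with hT
  have h1 : Real.cosh t ^ (2 * s) = ((1 - T) * (1 + T)) ^ (-s) := by
    have h2 : (1 - T) * (1 + T) = (Real.cosh t ^ 2)⁻¹ := by
      have h3 := Real.cosh_sq t
      rw [hT, Real.tanh_eq_sinh_div_cosh]
      field_simp
      linarith
    rw [h2, Real.rpow_neg (by positivity), ← Real.inv_rpow (by positivity), inv_inv,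
      ← Real.rpow_natCast, ← Real.rpow_mul hc.le]
    norm_num
  have h4 : ((1 - T) * (1 + T)) ^ (-s) * (1 - T) = (1 - T) ^ (1 - s) * (1 + T) ^ (-s) := by
    rw [Real.mul_rpow (by linarith) (by linarith)]
    have h5 : (1 - T) ^ (1 - s) = (1 - T) ^ (-s) * (1 - T) := by
      rw [← Real.rpow_add_one (by linarith)]
      congr 1
      ring
    rw [h5]
    ring
  have h6 : (1 - T) ^ (1 - s) ≤ 1 - (1 - s) * T := by
    have h7 := rpow_one_add_le_one_add_mul_self (s := -T) (by linarith) (p := 1 - s)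
      (by linarith) (by linarith)
    have h8 : (1 + -T) ^ (1 - s) = (1 - T) ^ (1 - s) := by ring_nf
    rw [h8] at h7
    linarith
  have h9 : (1 + T) ^ (-s) ≤ 1 := by
    rw [Real.rpow_neg (by linarith)]
    apply inv_le_one_of_one_le₀
    exact Real.one_le_rpow (by linarith) hs0
  have h10 : 0 ≤ (1 - T) ^ (1 - s) := Real.rpow_nonneg (by linarith) _
  rw [h1, h4]
  nlinarith

end Pool.Agent.V11215.Ent
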