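import Pool.Agent.V11215.EntCirc
import Pool.Agent.V11215.EntEdge

/-! Metric graphs: the subgraph entropy bound. -/

namespace Pool.Agent.V11215.Ent

open Set

/-- A finite graph; loops and multiple edges are allowed. -/
structure MGraph where
  /-- vertices -/
  V : Type
  /-- unoriented edges -/
  E : Type
  [finV : Finite V]
  [finE : Finite E]
  /-- one endpoint -/
  src : E → V
  /-- the other endpoint -/
  tgt : E → V

attribute [instance] MGraph.finV MGraph.finE

namespace MGraph

variable (G : MGraph)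

/-- Oriented edges: `(e, true)` runs from `src e` to `tgt e`, `(e, false)` the other way. -/
abbrev Dart : Type := G.E × Bool

variable {G}

/-- origin of an oriented edge -/
def start (d : G.Dart) : G.V := if d.2 then G.src d.1 else G.tgt d.1

/-- terminus of an oriented edge -/
def stop (d : G.Dart) : G.V := if d.2 then G.tgt d.1 else G.src d.1

/-- the opposite orientation -/
def rev (d : G.Dart) : G.Dart := (d.1, !d.2)

variable (G)

/-- `d'` may follow `d` in a circuit: it starts where `d` ends and it is not the reverse of `d` -/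
def Step (d d' : G.Dart) : Prop := start d' = stop d ∧ d' ≠ rev d

/-- entropy: exponential growth rate of the number of circuits of length at most `t` -/
noncomputable def entropy (ℓ : G.E → ℝ) : ℝ := ent G.Step (fun d => ℓ d.1)

/-- connectedness -/
def Connected : Prop :=
  Nonempty G.V ∧ ∀ x y : G.V, Relation.EqvGen (fun a b => ∃ e, G.src e = a ∧ G.tgt e = b) x y

/-- the rank `|E| - |V| + 1` of the fundamental group (of a connected graph) is `r` -/
def HasRank (r : ℕ) : Prop := Nat.card G.E + 1 = Nat.card G.V + r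

/-- subgraphs: sets of vertices and edges closed under taking endpoints -/
structure Subgraph where
  /-- its vertices -/
  W : Set G.V
  /-- its edges -/
  F : Set G.E
  src_mem : ∀ e ∈ F, G.src e ∈ W
  tgt_mem : ∀ e ∈ F, G.tgt e ∈ W

/-- a subgraph is a graph -/
def Subgraph.toGraph {G : MGraph} (H : G.Subgraph) : MGraph where
  V := H.W
  E := H.F
  src e := ⟨G.src e.1, H.src_mem e.1 e.2⟩
  tgt e := ⟨G.tgt e.1, H.tgt_mem e.1 e.2⟩

/-- proper subgraphs -/
def Subgraph.IsProper {G : MGraph} (H : G.Subgraph) : Prop := H.W ≠ univ ∨ H.F ≠ univ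

/-- the subgraph obtained by deleting an edge -/
def del (e : G.E) : G.Subgraph where
  W := univ
  F := {e}ᶜ
  src_mem _ _ := mem_univ _
  tgt_mem _ _ := mem_univ _

variable {G}

theorem rev_rev (d : G.Dart) : rev (rev d) = d := by
  unfold rev; simp

theorem start_rev (d : G.Dart) : start (rev d) = stop d := by
  unfold start stop rev
  rcases d with ⟨e, b⟩
  cases b <;> simp

theorem stop_rev (d : G.Dart) : stop (rev d) = start d := by
  rw [← start_rev, rev_rev]

/-- an oriented edge of a subgraph, as an oriented edge of the graph -/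
def Subgraph.incl (H : G.Subgraph) (d : H.toGraph.Dart) : G.Dart := (d.1.1, d.2)

theorem start_incl (H : G.Subgraph) (d : H.toGraph.Dart) : (start d).1 = start (H.incl d) := by
  obtain ⟨⟨a, ha⟩, b⟩ := d
  cases b <;> rfl

theorem stop_incl (H : G.Subgraph) (d : H.toGraph.Dart) : (stop d).1 = stop (H.incl d) := by
  obtain ⟨⟨a, ha⟩, b⟩ := d
  cases b <;> rfl

theorem rev_incl (H : G.Subgraph) (d : H.toGraph.Dart) : H.incl (rev d) = rev (H.incl d) := rfl

theorem incl_inj (H : G.Subgraph) : Function.Injective H.incl := by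
  rintro ⟨⟨a, ha⟩, b⟩ ⟨⟨c, hc⟩, d⟩ h
  simp only [Subgraph.incl, Prod.mk.injEq] at h
  obtain ⟨rfl, rfl⟩ := h
  rfl

theorem step_incl (H : G.Subgraph) (d d' : H.toGraph.Dart) :
    H.toGraph.Step d d' ↔ G.Step (H.incl d) (H.incl d') := by
  unfold MGraph.Step
  rw [← start_incl, ← stop_incl, ← rev_incl, (incl_inj H).ne_iff]
  exact and_congr_left' Subtype.ext_iff

end MGraph

open MGraph

theorem half_le {α p m L : ℝ} (hL : 0 < L) (hm : α + p = m)
    (h : ∀ t ∈ Icc 0 L, m ≤ α * Real.exp (-t) + p * Real.exp t) : m / 2 ≤ p := by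
  have h1 : ∀ t ∈ Ioc 0 L, α * Real.exp (-t) ≤ p := by
    intro t ht
    have h2 := h t ⟨ht.1.le, ht.2⟩
    have h3 : Real.exp (-t) * Real.exp t = 1 := by rw [← Real.exp_add]; simp
    have h4 : 1 < Real.exp t := Real.one_lt_exp_iff.2 ht.1
    have h5 : 0 ≤ (Real.exp t - 1) * (p - α * Real.exp (-t)) := by
      have : (Real.exp t - 1) * (p - α * Real.exp (-t)) =
          α * Real.exp (-t) + p * Real.exp t - m := by
        rw [← hm]
        linear_combination (-α) * h3
      rw [this]
      linarith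
    by_contra hneg
    push Not at hneg
    nlinarith
  have h2 : Filter.Tendsto (fun t : ℝ => α * Real.exp (-t)) (nhdsWithin 0 (Ioi 0)) (nhds α) := by
    have : Continuous fun t : ℝ => α * Real.exp (-t) := by fun_prop
    have h3 := this.tendsto 0
    simp only [neg_zero, Real.exp_zero, mul_one] at h3
    exact h3.mono_left nhdsWithin_le_nhds
  have h3 : α ≤ p := by
    apply le_of_tendsto h2
    filter_upwards [Ioc_mem_nhdsGT hL] with t ht using h1 t ht
  linarith

/-- The main theorem: deleting a suitable edge does not decrease the entropy too much. -/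
theorem main_bound (G : MGraph) (hG : G.Connected) (r : ℕ) (hr : G.HasRank r) (hr2 : 2 ≤ r)
    (ℓ : G.E → ℝ) (hℓ : ∀ e, 0 < ℓ e) (h1 : G.entropy ℓ = 1) :
    ∃ e : G.E, ((r : ℝ) - 2) / ((r : ℝ) - 1) ≤ (G.del e).toGraph.entropy (fun f => ℓ f.1) := by
  classical
  let _ : Fintype G.V := Fintype.ofFinite _
  let _ : Fintype G.E := Fintype.ofFinite _
  obtain ⟨⟨x₀⟩, hconn⟩ := hG
  -- the eigenvector
  obtain ⟨p, hp0, ⟨d₁, hd₁⟩, hp⟩ := exists_eigen G.Step (fun d => ℓ d.1) (fun d => hℓ d.1)
    (by change 0 < G.entropy ℓ; rw [h1]; exact one_pos)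
  change ∀ d : G.Dart, p d = Real.exp (-(G.entropy ℓ) * ℓ d.1) * _ at hp
  rw [h1] at hp
  set φ : G.V → ℝ := fun x => ∑ d : G.Dart, if start d = x then p d else 0 with hφ
  have hstep : ∀ d : G.Dart, ∑ d' : G.Dart, (if G.Step d d' then p d' else 0) =
      φ (stop d) - p (rev d) := by
    intro d
    rw [eq_sub_iff_add_eq, hφ]
    dsimp only
    have h2 : p (rev d) = ∑ d' : G.Dart, if d' = rev d then p d' else 0 := by
      rw [Finset.sum_ite_eq' Finset.univ (rev d)]
      simp
    rw [h2, ← Finset.sum_add_distrib]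
    apply Finset.sum_congr rfl
    intro d' _
    unfold MGraph.Step
    by_cases h3 : d' = rev d
    · subst h3
      rw [if_neg (by simp), if_pos rfl, if_pos (start_rev d), zero_add]
    · rw [if_neg h3, add_zero]
      by_cases h4 : start d' = stop d
      · rw [if_pos ⟨h4, h3⟩, if_pos h4]
      · rw [if_neg (fun h => h4 h.1), if_neg h4]
  have hp' : ∀ d : G.Dart, p d = Real.exp (-ℓ d.1) * (φ (stop d) - p (rev d)) := by
    intro d
    rw [hp d, hstep d]
    congr 2
    ring
  have hple : ∀ d : G.Dart, p d ≤ φ (start d) := by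
    intro d
    rw [hφ]
    dsimp only
    have := Finset.single_le_sum (f := fun d' : G.Dart => if start d' = start d then p d' else 0)
      (s := Finset.univ) (fun d' _ => by split_ifs; exacts [hp0 d', le_rfl])
      (Finset.mem_univ d)
    simpa using this
  -- positivity of `φ`
  have hφ0 : ∀ x, 0 ≤ φ x := by
    intro x
    rw [hφ]
    apply Finset.sum_nonneg
    intro d _
    split_ifs
    exacts [hp0 d, le_rfl]
  have hprop : ∀ d : G.Dart, 0 < φ (start d) → 0 < φ (stop d) := by
    intro d hd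
    by_contra hneg
    have h2 : φ (stop d) = 0 := le_antisymm (not_lt.1 hneg) (hφ0 _)
    have h3 : p (rev d) = 0 := by
      apply le_antisymm _ (hp0 _)
      have := hple (rev d)
      rwa [start_rev, h2] at this
    have h4 : p d = 0 := by rw [hp' d, h2, h3]; simp
    have h5 := hp' (rev d)
    rw [rev_rev, stop_rev, h4, h3, sub_zero] at h5
    have h6 : 0 < Real.exp (-ℓ (rev d).1) * φ (start d) := mul_pos (Real.exp_pos _) hd
    linarith
  have hφpos : ∀ x, 0 < φ x := by
    have h2 : 0 < φ (start d₁) := lt_of_lt_of_le (lt_of_le_of_ne (hp0 _) (Ne.symm hd₁)) (hple d₁)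
    have h3 : ∀ x y : G.V, Relation.EqvGen (fun a b => ∃ e, G.src e = a ∧ G.tgt e = b) x y →
        (0 < φ x ↔ 0 < φ y) := by
      intro x y hxy
      induction hxy with
      | rel x y h =>
        obtain ⟨e, rfl, rfl⟩ := h
        exact ⟨hprop (e, true), hprop (e, false)⟩
      | refl x => exact Iff.rfl
      | symm x y _ ih => exact ih.symm
      | trans x y z _ _ ih1 ih2 => exact ih1.trans ih2
    exact fun x => (h3 _ _ (hconn (start d₁) x)).1 h2
  set α : G.Dart → ℝ := fun d => φ (start d) - p d with hα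
  have hα0 : ∀ d, 0 ≤ α d := fun d => sub_nonneg.2 (hple d)
  have hexp : ∀ x : ℝ, Real.exp (-x) * Real.exp x = 1 := fun x => by rw [← Real.exp_add]; simp
  have hprev : ∀ d : G.Dart, p (rev d) = α d * Real.exp (-ℓ d.1) := by
    intro d
    have h5 := hp' (rev d)
    rw [rev_rev, stop_rev] at h5
    rw [h5, hα]
    change Real.exp (-ℓ d.1) * _ = _
    ring
  have hstop : ∀ d : G.Dart, φ (stop d) = α d * Real.exp (-ℓ d.1) + p d * Real.exp (ℓ d.1) := by
    intro d
    have h5 := hp' d
    rw [← hprev]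
    have h6 : p d * Real.exp (ℓ d.1) = φ (stop d) - p (rev d) := by
      rw [h5]
      linear_combination (φ (stop d) - p (rev d)) * hexp (ℓ d.1)
    rw [h6]; ring
  have hstart : ∀ d : G.Dart, φ (start d) = α d + p d := fun d => by rw [hα]; ring
  set f : G.Dart → ℝ → ℝ := fun d t => α d * Real.exp (-t) + p d * Real.exp t with hf
  have hfcont : ∀ d, Continuous (f d) := by intro d; rw [hf]; fun_prop
  have hf0 : ∀ d, f d 0 = φ (start d) := fun d => by rw [hf, hstart]; simp
  have hfpos : ∀ d t, 0 < f d t := by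
    intro d t
    have h2 : 0 < α d + p d := by rw [← hstart]; exact hφpos _
    rw [hf]
    dsimp only
    have h3 := Real.exp_pos t
    have h4 := Real.exp_pos (-t)
    rcases (hα0 d).eq_or_lt with h0 | h0
    · rw [← h0, zero_add] at h2
      have : 0 < p d * Real.exp t := by positivity
      rw [← h0, zero_mul, zero_add]; exact this
    · have h5 : 0 < α d * Real.exp (-t) := by positivity
      have h6 : 0 ≤ p d * Real.exp t := mul_nonneg (hp0 d) h3.le
      linarith
  -- the minimum
  have hmin : ∀ d : G.Dart, ∃ t ∈ Icc 0 (ℓ d.1), ∀ t' ∈ Icc 0 (ℓ d.1), f d t ≤ f d t' := by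
    intro d
    obtain ⟨t, ht, ht'⟩ := isCompact_Icc.exists_isMinOn (s := Icc 0 (ℓ d.1))
      ⟨0, le_rfl, (hℓ _).le⟩ (hfcont d).continuousOn
    exact ⟨t, ht, fun t' h => ht' h⟩
  choose τ hτ hτ' using hmin
  have : Nonempty G.Dart := ⟨d₁⟩
  obtain ⟨d₀, hd₀⟩ := Finite.exists_min (fun d => f d (τ d))
  set m := f d₀ (τ d₀) with hm
  have hm0 : 0 < m := hfpos _ _
  have hmle : ∀ d, ∀ t ∈ Icc 0 (ℓ d.1), m ≤ f d t := fun d t ht => (hd₀ d).trans (hτ' d t ht)
  -- the edge to delete
  have hedge : ∃ d : G.Dart, ∀ s : ℝ, 0 ≤ s → s ≤ 1 →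
      φ (start d) ^ (2 * s) * (p d / φ (start d)) +
      φ (stop d) ^ (2 * s) * (p (rev d) / φ (stop d)) +
      (1 - s) * m ^ (2 * s) * (1 - p d / φ (start d) - p (rev d) / φ (stop d)) ≤ m ^ (2 * s) := by
    -- zero derivative case
    have hA : ∀ (d : G.Dart) (t : ℝ), t ∈ Icc 0 (ℓ d.1) → α d * Real.exp (-t) = m / 2 →
        p d * Real.exp t = m / 2 → ∀ s : ℝ, 0 ≤ s → s ≤ 1 →
        φ (start d) ^ (2 * s) * (p d / φ (start d)) +
        φ (stop d) ^ (2 * s) * (p (rev d) / φ (stop d)) +
        (1 - s) * m ^ (2 * s) * (1 - p d / φ (start d) - p (rev d) / φ (stop d)) ≤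
          m ^ (2 * s) := by
      intro d t ht ha hb s hs0 hs1
      have ha' : α d = m / 2 * Real.exp t := by
        rw [← ha]; linear_combination (-(α d)) * hexp t
      have hb' : p d = m / 2 * Real.exp (-t) := by
        rw [← hb]; linear_combination (-(p d)) * hexp t
      have hc1 : φ (start d) = m * Real.cosh t := by
        rw [hstart, ha', hb', Real.cosh_eq]; ring
      have hpr : p (rev d) = m / 2 * Real.exp (-(ℓ d.1 - t)) := by
        rw [hprev, ha', mul_assoc, ← Real.exp_add]
        congr 2; ring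
      have hc2 : φ (stop d) = m * Real.cosh (ℓ d.1 - t) := by
        rw [hstop, ← hprev, hpr, hb', Real.cosh_eq, mul_assoc (m / 2), ← Real.exp_add]
        have : -t + ℓ d.1 = ℓ d.1 - t := by ring
        rw [this]; ring
      have hpi : ∀ x : ℝ, m / 2 * Real.exp (-x) / (m * Real.cosh x) = (1 - Real.tanh x) / 2 := by
        intro x
        have hc := Real.cosh_pos x
        rw [Real.tanh_eq_sinh_div_cosh, ← Real.cosh_sub_sinh]
        field_simp
      have hq : ∀ x : ℝ, (m * Real.cosh x) ^ (2 * s) = m ^ (2 * s) * Real.cosh x ^ (2 * s) :=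
        fun x => Real.mul_rpow hm0.le (Real.cosh_pos x).le
      rw [hc1, hc2, hpr, hb', hpi, hpi, hq, hq]
      have i1 := min_ineq hs0 hs1 ht.1
      have i2 := min_ineq hs0 hs1 (sub_nonneg.2 ht.2)
      have hM : 0 < m ^ (2 * s) := Real.rpow_pos_of_pos hm0 _
      nlinarith
    -- minimum at the start of a dart
    have hB : ∀ d : G.Dart, φ (start d) = m → ∃ d : G.Dart, ∀ s : ℝ, 0 ≤ s → s ≤ 1 →
        φ (start d) ^ (2 * s) * (p d / φ (start d)) +
        φ (stop d) ^ (2 * s) * (p (rev d) / φ (stop d)) +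
        (1 - s) * m ^ (2 * s) * (1 - p d / φ (start d) - p (rev d) / φ (stop d)) ≤
          m ^ (2 * s) := by
      intro d hd
      have hhalf : ∀ d' : G.Dart, start d' = start d → m / 2 ≤ p d' := by
        intro d' hd'
        apply half_le (hℓ d'.1) (α := α d') (m := m)
        · rw [← hstart, hd', hd]
        · exact hmle d'
      rcases (hhalf d rfl).eq_or_lt with h0 | h0
      · refine ⟨d, hA d 0 ⟨le_rfl, (hℓ _).le⟩ ?_ ?_⟩
        · have := hstart d
          rw [hd] at this
          simp only [neg_zero, Real.exp_zero, mul_one]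
          linarith
        · simp only [Real.exp_zero, mul_one]
          exact h0.symm
      · -- `d` is the only dart starting there
        have honly : ∀ d' : G.Dart, start d' = start d → d' = d := by
          intro d' hd'
          by_contra hne
          have h2 : p d + p d' ≤ φ (start d) := by
            rw [hφ]
            dsimp only
            have h3 : ∑ x ∈ ({d, d'} : Finset G.Dart), (if start x = start d then p x else 0) ≤
                ∑ x : G.Dart, if start x = start d then p x else 0 := by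
              apply Finset.sum_le_sum_of_subset_of_nonneg (Finset.subset_univ _)
              intro x _ _
              split_ifs
              exacts [hp0 x, le_rfl]
            rw [Finset.sum_pair (Ne.symm hne), if_pos rfl, if_pos hd'] at h3
            exact h3
          have := hhalf d' hd'
          linarith
        have hpm : p d = m := by
          rw [← hd, hφ]
          dsimp only
          rw [Finset.sum_eq_single d]
          · rw [if_pos rfl]
          · intro d' _ hne
            rw [if_neg]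
            exact fun h => hne (honly d' h)
          · intro h; exact absurd (Finset.mem_univ _) h
        have hα1 : α d = 0 := by rw [hα]; dsimp only; rw [hd, hpm]; ring
        have hpr : p (rev d) = 0 := by rw [hprev, hα1, zero_mul]
        refine ⟨d, fun s hs0 hs1 => ?_⟩
        rw [hpr, hd, hpm, div_self hm0.ne']
        simp
    obtain ⟨ht0, ht1⟩ := hτ d₀
    rcases ht0.eq_or_lt with h0 | h0
    · apply hB d₀
      rw [← hf0, h0]
    rcases ht1.eq_or_lt with h2 | h2
    · apply hB (rev d₀)
      rw [start_rev, hstop, hm, hf, h2]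
    · refine ⟨d₀, hA d₀ (τ d₀) ⟨ht0, ht1⟩ ?_ ?_⟩
      all_goals
        have hder : HasDerivAt (f d₀)
            (p d₀ * Real.exp (τ d₀) - α d₀ * Real.exp (-(τ d₀))) (τ d₀) := by
          have e1 : HasDerivAt (fun t : ℝ => Real.exp (-t)) (Real.exp (-(τ d₀)) * (-1)) (τ d₀) :=
            (hasDerivAt_neg (τ d₀)).exp
          have e2 := (e1.const_mul (α d₀)).add ((Real.hasDerivAt_exp (τ d₀)).const_mul (p d₀))
          refine e2.congr_deriv ?_
          ring
        have hloc : IsLocalMin (f d₀) (τ d₀) := by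
          filter_upwards [Icc_mem_nhds h0 h2] with t ht using hτ' d₀ t ht
        have hz := hloc.hasDerivAt_eq_zero hder
        have hs : α d₀ * Real.exp (-(τ d₀)) + p d₀ * Real.exp (τ d₀) = m := rfl
        linarith
  obtain ⟨d₂, hd₂⟩ := hedge
  refine ⟨d₂.1, ?_⟩
  by_contra hcon
  push Not at hcon
  set e₂ := d₂.1 with he₂
  set H := (G.del e₂).toGraph with hH
  have hr1 : (0 : ℝ) < (r : ℝ) - 1 := by
    have : (2 : ℝ) ≤ r := by exact_mod_cast hr2
    linarith
  -- choose `s`
  let _ : Fintype H.V := Fintype.ofFinite _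
  let _ : Fintype H.E := Fintype.ofFinite _
  obtain ⟨lam, hl, hlam⟩ := exists_lam (fun d : H.Dart => ℓ d.1.1) (fun d => hℓ _)
  have hent0 : 0 ≤ H.entropy (fun f => ℓ f.1) := ent_nonneg H.Step _ hl hlam
  obtain ⟨s, hs1, hs2⟩ := exists_between hcon
  have hs0 : 0 ≤ s := hent0.trans hs1.le
  have hsle : s ≤ 1 := by
    refine hs2.le.trans ?_
    rw [div_le_one hr1]; linarith
  obtain ⟨u, hu1, hu⟩ := super_of_Zs_fin H.Step (fun d : H.Dart => ℓ d.1.1)
    (Zs_of_ent_lt H.Step (fun d : H.Dart => ℓ d.1.1) hl hlam hs1)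
  -- extension by zero
  set ι : H.Dart → G.Dart := fun d => (d.1.1, d.2) with hι
  have hιinj : Function.Injective ι := by
    rintro ⟨⟨a, ha⟩, b⟩ ⟨⟨c, hc⟩, d⟩ h
    simp only [hι, Prod.mk.injEq] at h
    obtain ⟨rfl, rfl⟩ := h
    rfl
  set u₀ : G.Dart → ℝ := fun d => if h : d.1 ≠ e₂ then u (⟨d.1, h⟩, d.2) else 0 with hu₀
  have hu₀ι : ∀ d : H.Dart, u₀ (ι d) = u d := by
    rintro ⟨⟨a, ha⟩, b⟩
    rw [hu₀, hι]
    dsimp only
    rw [dif_pos (show a ≠ e₂ from ha)]
  have hu₀z : ∀ d : G.Dart, d.1 = e₂ → u₀ d = 0 := by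
    intro d hd
    rw [hu₀]
    dsimp only
    rw [dif_neg (by simpa using hd)]
  have hu₀1 : ∀ d : G.Dart, d.1 ≠ e₂ → 1 ≤ u₀ d := by
    intro d hd
    rw [hu₀]
    dsimp only
    rw [dif_pos hd]
    exact hu1 _
  have hu₀0 : ∀ d : G.Dart, 0 ≤ u₀ d := by
    intro d
    by_cases hd : d.1 = e₂
    · rw [hu₀z d hd]
    · exact zero_le_one.trans (hu₀1 d hd)
  have hsumι : ∀ g : G.Dart → ℝ, (∀ d, d.1 = e₂ → g d = 0) → ∑ d : H.Dart, g (ι d) = ∑ d, g d := by
    intro g hg
    apply Fintype.sum_of_injective ι hιinj _ _ _ (fun _ => rfl)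
    intro d hd
    apply hg
    by_contra hne
    exact hd ⟨(⟨d.1, hne⟩, d.2), rfl⟩
  set U : G.V → ℝ := fun x => ∑ d : G.Dart, if start d = x then u₀ d else 0 with hU
  have hUge : ∀ d : G.Dart, u₀ d ≤ U (start d) := by
    intro d
    rw [hU]
    dsimp only
    have := Finset.single_le_sum (f := fun d' : G.Dart => if start d' = start d then u₀ d' else 0)
      (s := Finset.univ) (fun d' _ => by split_ifs; exacts [hu₀0 d', le_rfl])
      (Finset.mem_univ d)
    simpa using this
  have hsuper : ∀ d : G.Dart, d.1 ≠ e₂ →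
      Real.exp (-s * ℓ d.1) * (U (stop d) - u₀ (rev d)) ≤ u₀ d := by
    intro d hd
    have h2 := hu (⟨d.1, hd⟩, d.2)
    have h3 : u₀ d = u (⟨d.1, hd⟩, d.2) := by
      rw [hu₀]; dsimp only; rw [dif_pos hd]
    rw [h3, h2]
    have h4 : ∑ d' : H.Dart, (if H.Step (⟨d.1, hd⟩, d.2) d' then u d' else 0) =
        U (stop d) - u₀ (rev d) := by
      have h5 : ∀ d' : H.Dart, (if H.Step (⟨d.1, hd⟩, d.2) d' then u d' else 0) =
          (fun d' : G.Dart => if G.Step d d' then u₀ d' else 0) (ι d') := by
        intro d'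
        dsimp only
        rw [hu₀ι]
        have h6 : H.Step (⟨d.1, hd⟩, d.2) d' ↔ G.Step d (ι d') :=
          step_incl (G.del e₂) (⟨d.1, hd⟩, d.2) d'
        by_cases h7 : G.Step d (ι d')
        · rw [if_pos (h6.2 h7), if_pos h7]
        · rw [if_neg (fun h => h7 (h6.1 h)), if_neg h7]
      refine (Finset.sum_congr rfl fun d' _ => h5 d').trans
        ((hsumι (fun d' => if G.Step d d' then u₀ d' else 0) ?_).trans ?_)
      · intro d' hd'
        rw [hu₀z d' hd']
        simp
      · rw [eq_sub_iff_add_eq, hU]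
        dsimp only
        have h2 : u₀ (rev d) = ∑ d' : G.Dart, if d' = rev d then u₀ d' else 0 := by
          rw [Finset.sum_ite_eq' Finset.univ (rev d)]
          simp
        rw [h2, ← Finset.sum_add_distrib]
        apply Finset.sum_congr rfl
        intro d' _
        unfold MGraph.Step
        by_cases h3 : d' = rev d
        · subst h3
          rw [if_neg (by simp), if_pos rfl, if_pos (start_rev d), zero_add]
        · rw [if_neg h3, add_zero]
          by_cases h4 : start d' = stop d
          · rw [if_pos ⟨h4, h3⟩, if_pos h4]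
          · rw [if_neg (fun h => h4 h.1), if_neg h4]
    rw [h4]
    linarith
  set θ : G.Dart → ℝ := fun d => u₀ d / U (start d) with hθ
  have hU0 : ∀ d : G.Dart, d.1 ≠ e₂ → 0 < U (start d) := fun d hd =>
    one_pos.trans_le ((hu₀1 d hd).trans (hUge d))
  have hθ0 : ∀ d : G.Dart, d.1 ≠ e₂ → 0 ≤ θ d := fun d hd => div_nonneg (hu₀0 d) (hU0 d hd).le
  have hθ1 : ∀ d : G.Dart, d.1 ≠ e₂ → θ d ≤ 1 := fun d hd => (div_le_one (hU0 d hd)).2 (hUge d)
  have hθθ : ∀ d : G.Dart, d.1 ≠ e₂ →
      Real.exp (-(2 * s * ℓ d.1)) * ((1 - θ d) * (1 - θ (rev d))) ≤ θ d * θ (rev d) := by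
    intro d hd
    have hd' : (rev d).1 ≠ e₂ := hd
    have a1 := hsuper d hd
    have a2 := hsuper (rev d) hd'
    rw [rev_rev, stop_rev] at a2
    change Real.exp (-s * ℓ d.1) * (U (start d) - u₀ d) ≤ u₀ (rev d) at a2
    rw [← start_rev] at a1
    have b1 : u₀ d = θ d * U (start d) := by
      rw [hθ]; exact (div_mul_cancel₀ _ (hU0 d hd).ne').symm
    have b2 : u₀ (rev d) = θ (rev d) * U (start (rev d)) := by
      rw [hθ]; exact (div_mul_cancel₀ _ (hU0 _ hd').ne').symm
    rw [b1, b2] at a1 a2
    set y := Real.exp (-s * ℓ d.1) with hy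
    have hy0 : 0 < y := Real.exp_pos _
    have hyy : Real.exp (-(2 * s * ℓ d.1)) = y * y := by
      rw [hy, ← Real.exp_add]; congr 1; ring
    set X := U (start d)
    set X' := U (start (rev d))
    have hX : 0 < X := hU0 d hd
    have hX' : 0 < X' := hU0 _ hd'
    have c1 : 0 ≤ y * (X' - θ (rev d) * X') := by
      have := hθ1 _ hd'
      have : 0 ≤ X' - θ (rev d) * X' := by nlinarith
      positivity
    have c2 : 0 ≤ y * (X - θ d * X) := by
      have := hθ1 _ hd
      have : 0 ≤ X - θ d * X := by nlinarith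
      positivity
    have c3 := mul_le_mul a1 a2 c2 (mul_nonneg (hθ0 d hd) hX.le)
    rw [hyy]
    have c4 : (y * y * ((1 - θ d) * (1 - θ (rev d)))) * (X * X') ≤
        (θ d * θ (rev d)) * (X * X') := by
      calc (y * y * ((1 - θ d) * (1 - θ (rev d)))) * (X * X')
          = y * (X' - θ (rev d) * X') * (y * (X - θ d * X)) := by ring
        _ ≤ _ := c3
        _ = _ := by ring
    exact le_of_mul_le_mul_right c4 (by positivity)
  -- apply the edge inequality
  have hedge2 : ∀ d : G.Dart, d.1 ≠ e₂ →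
      (1 - s) * m ^ (2 * s) * (1 - p d / φ (start d) - p (rev d) / φ (start (rev d))) ≤
      φ (start d) ^ (2 * s) * (θ d - p d / φ (start d)) +
      φ (start (rev d)) ^ (2 * s) * (θ (rev d) - p (rev d) / φ (start (rev d))) := by
    intro d hd
    have h2 := edge_ineq (hα0 d) (hp0 d) (hℓ d.1).le hm0 (hmle d) hs0 hsle (hθ0 d hd) (hθ1 d hd)
      (hθθ d hd)
    rw [← hstart, ← hstop, ← hprev, ← start_rev] at h2
    exact h2
  -- summation
  set κ := (1 - s) * m ^ (2 * s) with hκ
  set π : G.Dart → ℝ := fun d => p d / φ (start d) with hπ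
  set Ψ : G.Dart → ℝ := fun d => φ (start d) ^ (2 * s) with hΨ
  have hsum1 : ∑ e ∈ Finset.univ.erase e₂, κ * (1 - π (e, true) - π (e, false)) ≤
      ∑ e ∈ Finset.univ.erase e₂, (Ψ (e, true) * (θ (e, true) - π (e, true)) +
        Ψ (e, false) * (θ (e, false) - π (e, false))) := by
    apply Finset.sum_le_sum
    intro e he
    exact hedge2 (e, true) (Finset.ne_of_mem_erase he)
  have hvert : ∀ g : G.Dart → ℝ, ∑ d : G.Dart, g d = ∑ x, ∑ d : G.Dart, if start d = x then g d else 0 := by
    intro g
    rw [Finset.sum_comm]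
    apply Finset.sum_congr rfl
    intro d _
    rw [Finset.sum_ite_eq]
    simp
  have hπsum : ∑ d : G.Dart, π d = Fintype.card G.V := by
    rw [hvert]
    have : ∀ x : G.V, ∑ d : G.Dart, (if start d = x then π d else 0) = 1 := by
      intro x
      have h2 : ∀ d : G.Dart, (if start d = x then π d else 0) =
          (if start d = x then p d else 0) / φ x := by
        intro d
        by_cases h3 : start d = x
        · rw [if_pos h3, if_pos h3, hπ]; dsimp only; rw [h3]
        · rw [if_neg h3, if_neg h3, zero_div]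
      rw [Finset.sum_congr rfl fun d _ => h2 d, ← Finset.sum_div]
      exact div_self (hφpos x).ne'
    rw [Finset.sum_congr rfl fun x _ => this x]
    simp
  have hΨπ : ∑ d : G.Dart, Ψ d * π d = ∑ x, φ x ^ (2 * s) := by
    rw [hvert]
    apply Finset.sum_congr rfl
    intro x _
    have h2 : ∀ d : G.Dart, (if start d = x then Ψ d * π d else 0) =
        φ x ^ (2 * s) * ((if start d = x then p d else 0) / φ x) := by
      intro d
      by_cases h3 : start d = x
      · rw [if_pos h3, if_pos h3, hπ, hΨ]; dsimp only; rw [h3]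
      · rw [if_neg h3, if_neg h3, zero_div, mul_zero]
    rw [Finset.sum_congr rfl fun d _ => h2 d, ← Finset.mul_sum, ← Finset.sum_div]
    have : (∑ d : G.Dart, if start d = x then p d else 0) / φ x = 1 := div_self (hφpos x).ne'
    rw [this, mul_one]
  have hΨθ : ∑ d : G.Dart, Ψ d * θ d ≤ ∑ x, φ x ^ (2 * s) := by
    rw [hvert]
    apply Finset.sum_le_sum
    intro x _
    have h2 : ∀ d : G.Dart, (if start d = x then Ψ d * θ d else 0) =
        φ x ^ (2 * s) * ((if start d = x then u₀ d else 0) / U x) := by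
      intro d
      by_cases h3 : start d = x
      · rw [if_pos h3, if_pos h3, hθ, hΨ]; dsimp only; rw [h3]
      · rw [if_neg h3, if_neg h3, zero_div, mul_zero]
    rw [Finset.sum_congr rfl fun d _ => h2 d, ← Finset.mul_sum, ← Finset.sum_div]
    have h3 : (∑ d : G.Dart, if start d = x then u₀ d else 0) / U x ≤ 1 := div_self_le_one _
    have h4 : 0 ≤ φ x ^ (2 * s) := (Real.rpow_pos_of_pos (hφpos x) _).le
    nlinarith
  have hθz : ∀ b, θ (e₂, b) = 0 := by
    intro b
    rw [hθ]; dsimp only
    rw [hu₀z (e₂, b) rfl, zero_div]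
  have hsplit : ∀ g : G.Dart → ℝ, ∑ d : G.Dart, g d =
      (g (e₂, true) + g (e₂, false)) + ∑ e ∈ Finset.univ.erase e₂, (g (e, true) + g (e, false)) := by
    intro g
    rw [Fintype.sum_prod_type]
    simp only [Fintype.sum_bool]
    rw [Finset.add_sum_erase _ (fun e => g (e, true) + g (e, false)) (Finset.mem_univ e₂)]
  have s1 := hsplit π
  have s2 := hsplit (fun d => Ψ d * π d)
  have s3 := hsplit (fun d => Ψ d * θ d)
  simp only [hθz, mul_zero, add_zero, zero_add] at s3
  have hsum2 : ∑ e ∈ Finset.univ.erase e₂, κ * (1 - π (e, true) - π (e, false)) =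
      κ * (((Fintype.card G.E : ℝ) - 1) -
        ∑ e ∈ Finset.univ.erase e₂, (π (e, true) + π (e, false))) := by
    rw [← Finset.mul_sum]
    congr 1
    have : ∀ e : G.E, 1 - π (e, true) - π (e, false) = 1 - (π (e, true) + π (e, false)) :=
      fun e => by ring
    rw [Finset.sum_congr rfl fun e _ => this e, Finset.sum_sub_distrib]
    congr 1
    rw [Finset.sum_const, Finset.card_erase_of_mem (Finset.mem_univ _), Finset.card_univ,
      nsmul_eq_mul, mul_one, Nat.cast_sub, Nat.cast_one]
    exact Fintype.card_pos_iff.2 ⟨e₂⟩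
  have hsum3 : ∑ e ∈ Finset.univ.erase e₂, (Ψ (e, true) * (θ (e, true) - π (e, true)) +
        Ψ (e, false) * (θ (e, false) - π (e, false))) =
      ∑ e ∈ Finset.univ.erase e₂, (Ψ (e, true) * θ (e, true) + Ψ (e, false) * θ (e, false)) -
      ∑ e ∈ Finset.univ.erase e₂, (Ψ (e, true) * π (e, true) + Ψ (e, false) * π (e, false)) := by
    rw [← Finset.sum_sub_distrib]
    apply Finset.sum_congr rfl
    intro e _
    ring
  have hcost := hd₂ s hs0 hsle
  rw [← start_rev] at hcost
  change Ψ d₂ * π d₂ + Ψ (rev d₂) * π (rev d₂) + κ * (1 - π d₂ - π (rev d₂)) ≤ m ^ (2 * s) at hcost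
  have hcost2 : Ψ (e₂, true) * π (e₂, true) + Ψ (e₂, false) * π (e₂, false) +
      κ * (1 - π (e₂, true) - π (e₂, false)) ≤ m ^ (2 * s) := by
    have : (d₂ = (e₂, true) ∧ rev d₂ = (e₂, false)) ∨ (d₂ = (e₂, false) ∧ rev d₂ = (e₂, true)) := by
      rcases hdd : d₂ with ⟨a, b⟩
      rw [he₂, hdd]
      cases b
      · right; exact ⟨rfl, rfl⟩
      · left; exact ⟨rfl, rfl⟩
    rcases this with ⟨h2, h3⟩ | ⟨h2, h3⟩
    · rw [h3, h2] at hcost; exact hcost
    · rw [h3, h2] at hcost; linarith
  -- conclusion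
  have hcardr : (Fintype.card G.E : ℝ) - Fintype.card G.V = (r : ℝ) - 1 := by
    unfold HasRank at hr
    rw [Nat.card_eq_fintype_card, Nat.card_eq_fintype_card] at hr
    have : (Fintype.card G.E : ℝ) + 1 = Fintype.card G.V + r := by exact_mod_cast hr
    linarith
  have hM : 0 < m ^ (2 * s) := Real.rpow_pos_of_pos hm0 _
  have hfinal : κ * ((r : ℝ) - 1) ≤ m ^ (2 * s) := by
    rw [← hcardr]
    rw [hsum2, hsum3] at hsum1
    have : κ * ((Fintype.card G.E : ℝ) - Fintype.card G.V) =
        κ * (((Fintype.card G.E : ℝ) - 1) -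
          ∑ e ∈ Finset.univ.erase e₂, (π (e, true) + π (e, false))) +
        κ * (1 - π (e₂, true) - π (e₂, false)) := by
      rw [← hπsum, s1]; ring
    rw [this]
    linarith
  have h9 : (1 - s) * ((r : ℝ) - 1) ≤ 1 := by
    rw [hκ] at hfinal
    have : ((1 - s) * ((r : ℝ) - 1)) * m ^ (2 * s) ≤ 1 * m ^ (2 * s) := by linarith
    exact le_of_mul_le_mul_right this hM
  rw [lt_div_iff₀ hr1] at hs2
  linarith

end Pool.Agent.V11215.Ent
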