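import Mathlib

/-! Green functions of nonnegative matrices. -/

namespace Pool.Agent.V11215.Ent

open scoped ENNReal

variable {ι : Type*} [Fintype ι] [DecidableEq ι]

/-- partial sums of the powers of a nonnegative matrix -/
noncomputable def part (A : Matrix ι ι ℝ≥0∞) (N : ℕ) : Matrix ι ι ℝ≥0∞ :=
  ∑ n ∈ Finset.range N, A ^ n

theorem part_zero (A : Matrix ι ι ℝ≥0∞) : part A 0 = 0 := by
  unfold part; rw [Finset.sum_range_zero]

theorem part_succ (A : Matrix ι ι ℝ≥0∞) (N : ℕ) : part A (N + 1) = 1 + part A N * A := by
  unfold part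
  rw [Finset.sum_range_succ', Finset.sum_mul, pow_zero, add_comm]
  simp only [pow_succ]

theorem part_succ' (A : Matrix ι ι ℝ≥0∞) (N : ℕ) : part A (N + 1) = 1 + A * part A N := by
  unfold part
  rw [Finset.sum_range_succ', Finset.mul_sum, pow_zero, add_comm]
  simp only [pow_succ']

theorem part_mono_N (A : Matrix ι ι ℝ≥0∞) (N : ℕ) (i j : ι) : part A N i j ≤ part A (N + 1) i j := by
  unfold part
  rw [Finset.sum_range_succ, Matrix.add_apply]
  exact le_self_add

omit [DecidableEq ι] in
theorem mul_mono' {A A' B B' : Matrix ι ι ℝ≥0∞} (h1 : ∀ i j, A i j ≤ A' i j)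
    (h2 : ∀ i j, B i j ≤ B' i j) (i j : ι) : (A * B) i j ≤ (A' * B') i j := by
  rw [Matrix.mul_apply, Matrix.mul_apply]
  exact Finset.sum_le_sum fun k _ => mul_le_mul' (h1 _ _) (h2 _ _)

theorem part_mono {A B : Matrix ι ι ℝ≥0∞} (h : ∀ i j, A i j ≤ B i j) (N : ℕ) :
    ∀ i j, part A N i j ≤ part B N i j := by
  induction N with
  | zero => intro i j; rw [part_zero, part_zero]
  | succ N ih =>
    intro i j
    rw [part_succ, part_succ, Matrix.add_apply, Matrix.add_apply]
    gcongr
    exact mul_mono' ih h i j

theorem part_decomp {A B R : Matrix ι ι ℝ≥0∞} (h : A = B + R) (N : ℕ) :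
    ∀ i j, part A N i j ≤ (part B N + part A N * R * part B N) i j := by
  induction N with
  | zero => intro i j; rw [part_zero, part_zero]; simp
  | succ N ih =>
    intro i j
    have h1 : part A (N + 1) = 1 + part A N * B + part A N * R := by
      have h0 : part A N * A = part A N * B + part A N * R := by
        rw [← mul_add, ← h]
      rw [part_succ, h0, ← add_assoc]
    have h2 : part B (N + 1) + part A N * R * part B (N + 1) =
        1 + (part B N + part A N * R * part B N) * B + part A N * R := by
      rw [part_succ, mul_add, add_mul, mul_one, ← mul_assoc]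
      abel
    calc part A (N + 1) i j = (1 + part A N * B + part A N * R) i j := by rw [h1]
      _ ≤ (1 + (part B N + part A N * R * part B N) * B + part A N * R) i j := by
        rw [Matrix.add_apply, Matrix.add_apply, Matrix.add_apply, Matrix.add_apply]
        exact add_le_add_left (add_le_add_right (mul_mono' ih (fun _ _ => le_rfl) i j) _) _
      _ = (part B (N + 1) + part A N * R * part B (N + 1)) i j := by rw [h2]
      _ ≤ _ := by
        rw [Matrix.add_apply, Matrix.add_apply]
        exact add_le_add_right (mul_mono' (mul_mono' (part_mono_N A N) (fun _ _ => le_rfl))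
          (fun _ _ => le_rfl) i j) _

theorem green_finite (n : ℕ) : ∀ (S : Finset ι), S.card = n → ∀ A : Matrix ι ι ℝ≥0∞,
    (∀ i j, A i j ≠ ⊤) → (∀ i j, A i j ≠ 0 → i ∈ S ∧ j ∈ S) →
    (∀ i, ∃ C : ℝ≥0∞, C ≠ ⊤ ∧ ∀ N, part A N i i ≤ C) →
    ∀ i j, ∃ C : ℝ≥0∞, C ≠ ⊤ ∧ ∀ N, part A N i j ≤ C := by
  induction n with
  | zero =>
    intro S hS A hA hAS hd i j
    have hS0 : S = ∅ := Finset.card_eq_zero.1 hS
    have hA0 : A = 0 := by
      ext a b
      by_contra h
      have := (hAS a b h).1
      rw [hS0] at this
      exact absurd this (Finset.notMem_empty _)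
    refine ⟨1, ENNReal.one_ne_top, fun N => ?_⟩
    rw [hA0]
    cases N with
    | zero => rw [part_zero]; simp
    | succ N =>
      rw [part_succ, mul_zero, add_zero, Matrix.one_apply]
      split_ifs <;> simp
  | succ n ih =>
    intro S hS A hA hAS hd i j
    by_cases hi : i ∈ S
    · by_cases hij : j = i
      · subst hij; exact hd j
      · -- remove the state `i`
        set B : Matrix ι ι ℝ≥0∞ := fun a b => if a = i ∨ b = i then 0 else A a b with hB
        set R : Matrix ι ι ℝ≥0∞ := fun a b => if a = i ∨ b = i then A a b else 0 with hR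
        have hABR : A = B + R := by
          ext a b
          rw [Matrix.add_apply, hB, hR]
          dsimp only
          split_ifs <;> simp
        have hBA : ∀ a b, B a b ≤ A a b := by
          intro a b
          rw [hB]
          dsimp only
          split_ifs <;> simp
        have hIH := ih (S.erase i) (by rw [Finset.card_erase_of_mem hi, hS]; rfl) B
          (fun a b => ne_top_of_le_ne_top (hA a b) (hBA a b))
          (by
            intro a b hab
            rw [hB] at hab
            dsimp only at hab
            split_ifs at hab with h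
            · exact absurd rfl hab
            · push Not at h
              obtain ⟨h1, h2⟩ := hAS a b hab
              exact ⟨Finset.mem_erase.2 ⟨h.1, h1⟩, Finset.mem_erase.2 ⟨h.2, h2⟩⟩)
          (by
            intro a
            obtain ⟨C, hC, hC'⟩ := hd a
            exact ⟨C, hC, fun N => (part_mono hBA N a a).trans (hC' N)⟩)
        obtain ⟨Ci, hCi, hCi'⟩ := hd i
        choose C hC hC' using fun b => hIH b j
        -- entries `(i,j)` of the partial sums of `B` vanish
        have hBz : ∀ N, part B N i j = 0 := by
          intro N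
          cases N with
          | zero => rw [part_zero]; rfl
          | succ N =>
            rw [part_succ', Matrix.add_apply, Matrix.one_apply_ne (Ne.symm hij), zero_add,
              Matrix.mul_apply]
            apply Finset.sum_eq_zero
            intro k _
            rw [hB]
            simp
        refine ⟨∑ b, Ci * A i b * C b, ?_, fun N => ?_⟩
        · apply ENNReal.sum_ne_top.2
          intro b _
          exact ENNReal.mul_ne_top (ENNReal.mul_ne_top hCi (hA _ _)) (hC b)
        · refine (part_decomp hABR N i j).trans ?_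
          rw [Matrix.add_apply, hBz, zero_add, Matrix.mul_apply]
          apply Finset.sum_le_sum
          intro b _
          by_cases hb : b = i
          · subst hb
            rw [hBz, mul_zero]
            exact zero_le
          · rw [Matrix.mul_apply]
            have : ∑ a, part A N i a * R a b = part A N i i * A i b := by
              rw [Finset.sum_eq_single i]
              · rw [hR]; simp
              · intro a _ ha
                rw [hR]
                simp [ha, hb]
              · intro h; exact absurd (Finset.mem_univ _) h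
            rw [this]
            gcongr
            · exact hCi' N
            · exact hC' b N
    · refine ⟨1, ENNReal.one_ne_top, fun N => ?_⟩
      cases N with
      | zero => rw [part_zero]; simp
      | succ N =>
        rw [part_succ', Matrix.add_apply, Matrix.mul_apply]
        have : ∑ k, A i k * part A N k j = 0 := by
          apply Finset.sum_eq_zero
          intro k _
          have : A i k = 0 := by
            by_contra h
            exact hi (hAS i k h).1
          rw [this, zero_mul]
        rw [this, add_zero, Matrix.one_apply]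
        split_ifs <;> simp

/-- If all diagonal Green functions of a nonnegative matrix with finite entries are finite, then
there is a finite vector `u` with `u = 1 + A u`. -/
theorem exists_resolvent (A : Matrix ι ι ℝ≥0∞) (hA : ∀ i j, A i j ≠ ⊤)
    (hd : ∀ i, ∑' n, (A ^ n) i i ≠ ⊤) :
    ∃ u : ι → ℝ≥0∞, (∀ i, u i ≠ ⊤) ∧ ∀ i, u i = 1 + ∑ j, A i j * u j := by
  have hpart : ∀ N i j, part A N i j = ∑ n ∈ Finset.range N, (A ^ n) i j := by
    intro N i j
    unfold part
    rw [Matrix.sum_apply]
  have hfin : ∀ i j, ∑' n, (A ^ n) i j ≠ ⊤ := by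
    intro i j
    obtain ⟨C, hC, hC'⟩ := green_finite _ Finset.univ rfl A hA
      (fun _ _ _ => ⟨Finset.mem_univ _, Finset.mem_univ _⟩)
      (fun i => ⟨∑' n, (A ^ n) i i, hd i, fun N => by
        rw [hpart]; exact ENNReal.sum_le_tsum _⟩) i j
    refine ne_top_of_le_ne_top hC ?_
    rw [ENNReal.tsum_eq_iSup_nat]
    exact iSup_le fun N => by rw [← hpart]; exact hC' N
  refine ⟨fun i => ∑ j, ∑' n, (A ^ n) i j, fun i => ENNReal.sum_ne_top.2 fun j _ => hfin i j, ?_⟩
  intro i
  have h1 : ∀ j, ∑' n, (A ^ n) i j = (1 : Matrix ι ι ℝ≥0∞) i j +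
      ∑ k, A i k * ∑' n, (A ^ n) k j := by
    intro j
    rw [tsum_eq_zero_add' ENNReal.summable, pow_zero]
    congr 1
    simp_rw [pow_succ', Matrix.mul_apply]
    rw [Summable.tsum_finsetSum (fun _ _ => ENNReal.summable)]
    apply Finset.sum_congr rfl
    intro k _
    rw [ENNReal.tsum_mul_left]
  dsimp only
  rw [Finset.sum_congr rfl fun j _ => h1 j, Finset.sum_add_distrib]
  congr 1
  · simp [Matrix.one_apply]
  · rw [Finset.sum_comm]
    apply Finset.sum_congr rfl
    intro k _
    rw [Finset.mul_sum]

/-- A positive strict supersolution bounds the diagonal Green function. -/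
theorem green_of_super (A : Matrix ι ι ℝ≥0∞) (u : ι → ℝ≥0∞) (hu0 : ∀ i, u i ≠ 0)
    (hut : ∀ i, u i ≠ ⊤) (ρ : ℝ≥0∞) (hρ : ρ < 1) (h : ∀ i, ∑ j, A i j * u j ≤ ρ * u i) (i : ι) :
    ∑' n, (A ^ n) i i ≠ ⊤ := by
  have h1 : ∀ n i, ∑ j, (A ^ n) i j * u j ≤ ρ ^ n * u i := by
    intro n
    induction n with
    | zero =>
      intro i
      rw [pow_zero, pow_zero, one_mul]
      simp [Matrix.one_apply]
    | succ n ih =>
      intro i
      have : ∑ j, (A ^ (n + 1)) i j * u j = ∑ k, A i k * ∑ j, (A ^ n) k j * u j := by
        simp_rw [pow_succ', Matrix.mul_apply, Finset.sum_mul, Finset.mul_sum, mul_assoc]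
        rw [Finset.sum_comm]
      rw [this]
      calc ∑ k, A i k * ∑ j, (A ^ n) k j * u j ≤ ∑ k, A i k * (ρ ^ n * u k) := by
            gcongr with k _; exact ih k
        _ = ρ ^ n * ∑ k, A i k * u k := by
            rw [Finset.mul_sum]; apply Finset.sum_congr rfl; intro k _; ring
        _ ≤ ρ ^ n * (ρ * u i) := by gcongr; exact h i
        _ = _ := by ring
  have h2 : ∀ n, (A ^ n) i i ≤ ρ ^ n := by
    intro n
    have h3 : (A ^ n) i i * u i ≤ ρ ^ n * u i :=
      (Finset.single_le_sum (f := fun j => (A ^ n) i j * u j) (fun _ _ => zero_le)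
        (Finset.mem_univ i)).trans (h1 n i)
    exact (ENNReal.mul_le_mul_iff_left (hu0 i) (hut i)).1 h3
  refine ne_top_of_le_ne_top ?_ (ENNReal.tsum_le_tsum h2)
  rw [ENNReal.tsum_geometric]
  apply ENNReal.inv_ne_top.2
  exact (tsub_pos_of_lt hρ).ne'

end Pool.Agent.V11215.Ent
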