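import Mathlib

set_option autoImplicit false

/-!
# Complete Erdős space has no bounded closed copy of itself
-/

namespace Pool.Agent.V11215.Erdos

open Filter Topology Set
open scoped InnerProductSpace

/-- the Hilbert space -/
abbrev L2 : Type := lp (fun _ : ℕ => ℝ) 2

/-- complete Erdős space -/
def EE : Set L2 := {x | ∀ i : ℕ, (x : ℕ → ℝ) i = 0 ∨ ∃ k : ℕ, 0 < k ∧ (x : ℕ → ℝ) i = 1 / (k : ℝ)}

theorem inner_eq (x y : L2) : ⟪x, y⟫_ℝ = ∑' i, (x : ℕ → ℝ) i * (y : ℕ → ℝ) i := by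
  rw [lp.inner_eq_tsum]
  congr 1
  funext i
  simp [mul_comm]

theorem summable_mul (x y : L2) : Summable (fun i => (x : ℕ → ℝ) i * (y : ℕ → ℝ) i) := by
  have h := lp.summable_inner (𝕜 := ℝ) x y
  refine h.congr (fun i => ?_)
  simp [mul_comm]

theorem EE_nonneg {x : L2} (hx : x ∈ EE) (i : ℕ) : 0 ≤ (x : ℕ → ℝ) i := by
  rcases hx i with h | ⟨k, _, h⟩
  · exact h.ge
  · rw [h]; positivity

theorem le_inner (F : Finset ℕ) {x y : L2} (hx : x ∈ EE) (hy : y ∈ EE) :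
    ∑ i ∈ F, (x : ℕ → ℝ) i * (y : ℕ → ℝ) i ≤ ⟪x, y⟫_ℝ := by
  rw [inner_eq]
  exact (summable_mul x y).sum_le_tsum F (fun i _ => mul_nonneg (EE_nonneg hx i) (EE_nonneg hy i))

theorem inner_mono {x y : L2} (hx : x ∈ EE) (hxy : ∀ i, (x : ℕ → ℝ) i ≤ (y : ℕ → ℝ) i) :
    ‖x‖ ^ 2 ≤ ⟪x, y⟫_ℝ := by
  rw [← real_inner_self_eq_norm_sq, inner_eq, inner_eq]
  exact (summable_mul x x).tsum_le_tsum
    (fun i => mul_le_mul_of_nonneg_left (hxy i) (EE_nonneg hx i)) (summable_mul x y)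

theorem norm_sub_mono {x y : L2} (hx : x ∈ EE) (hxy : ∀ i, (x : ℕ → ℝ) i ≤ (y : ℕ → ℝ) i) :
    ‖y - x‖ ^ 2 ≤ ‖y‖ ^ 2 - ‖x‖ ^ 2 := by
  have h1 := inner_mono hx hxy
  have h2 := norm_sub_sq_real y x
  rw [real_inner_comm] at h2
  linarith

theorem eval_lipschitz (i : ℕ) (x y : L2) :
    |(x : ℕ → ℝ) i - (y : ℕ → ℝ) i| ≤ ‖x - y‖ := by
  have h := lp.norm_apply_le_norm (by norm_num) (x - y) i
  rw [Real.norm_eq_abs] at h
  exact h

theorem continuous_eval (i : ℕ) : Continuous (fun x : L2 => (x : ℕ → ℝ) i) := by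
  have : LipschitzWith 1 (fun x : L2 => (x : ℕ → ℝ) i) := by
    refine LipschitzWith.of_dist_le_mul fun x y => ?_
    rw [Real.dist_eq, dist_eq_norm, NNReal.coe_one, one_mul]
    exact eval_lipschitz i x y
  exact this.continuous

/-- the set of values -/
def vals : Set ℝ := {v | v = 0 ∨ ∃ k : ℕ, 0 < k ∧ v = 1 / (k : ℝ)}

theorem vals_eq : vals = insert 0 (range (fun k : ℕ => 1 / ((k : ℝ) + 1))) := by
  ext v
  constructor
  · rintro (h | ⟨k, hk, h⟩)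
    · left; exact h
    · right
      refine ⟨k - 1, ?_⟩
      have : ((k - 1 : ℕ) : ℝ) = (k : ℝ) - 1 := by
        rw [Nat.cast_sub hk]; simp
      dsimp only
      rw [this, h]; ring
  · rintro (h | ⟨k, h⟩)
    · left; exact h
    · right
      exact ⟨k + 1, by omega, by rw [← h]; push_cast; rfl⟩

theorem isClosed_vals : IsClosed vals := by
  rw [vals_eq]
  exact (tendsto_one_div_add_atTop_nhds_zero_nat (𝕜 := ℝ)).isCompact_insert_range.isClosed

theorem isClosed_EE : IsClosed EE := by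
  have : EE = ⋂ i : ℕ, {x : L2 | (x : ℕ → ℝ) i ∈ vals} := by
    ext x
    simp only [mem_iInter]
    rfl
  rw [this]
  exact isClosed_iInter fun i => isClosed_vals.preimage (continuous_eval i)

theorem isClopen_coord (i k : ℕ) (hk : 0 < k) :
    IsClopen {x : EE | ((x : L2) : ℕ → ℝ) i = 1 / (k : ℝ)} := by
  have hc : Continuous (fun x : EE => ((x : L2) : ℕ → ℝ) i) :=
    (continuous_eval i).comp continuous_subtype_val
  refine ⟨isClosed_singleton.preimage hc, ?_⟩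
  have hk' : (1 : ℝ) ≤ k := by exact_mod_cast hk
  have : {x : EE | ((x : L2) : ℕ → ℝ) i = 1 / (k : ℝ)} =
      (fun x : EE => ((x : L2) : ℕ → ℝ) i) ⁻¹' (Ioo (1 / ((k : ℝ) + 1 / 2)) (1 / ((k : ℝ) - 1 / 2))) := by
    ext x
    change ((x : L2) : ℕ → ℝ) i = 1 / (k : ℝ) ↔
      1 / ((k : ℝ) + 1 / 2) < ((x : L2) : ℕ → ℝ) i ∧ ((x : L2) : ℕ → ℝ) i < 1 / ((k : ℝ) - 1 / 2)
    constructor
    · intro h
      rw [h]
      exact ⟨one_div_lt_one_div_of_lt (by linarith) (by linarith),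
        one_div_lt_one_div_of_lt (by linarith) (by linarith)⟩
    · rintro ⟨h1, h2⟩
      rcases x.2 i with h | ⟨m, hm, h⟩
      · rw [h] at h1
        have : (0 : ℝ) < 1 / ((k : ℝ) + 1 / 2) := by positivity
        linarith
      · have hm' : (1 : ℝ) ≤ m := by exact_mod_cast hm
        rw [h] at h1 h2 ⊢
        have h3 := lt_of_one_div_lt_one_div (by linarith : (0 : ℝ) < (k : ℝ) + 1 / 2) h1
        have h4 := lt_of_one_div_lt_one_div (by linarith : (0 : ℝ) < (m : ℝ)) h2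
        have h5 : m < k + 1 := by
          have : (m : ℝ) < (k : ℝ) + 1 := by linarith
          exact_mod_cast this
        have h6 : k < m + 1 := by
          have : (k : ℝ) < (m : ℝ) + 1 := by linarith
          exact_mod_cast this
        have : m = k := by omega
        rw [this]
  rw [this]
  exact isOpen_Ioo.preimage hc

/-- one step of Erdős' argument -/
theorem erdos_step (C : Set L2) (R : ℝ) (hR : ∀ x ∈ C, ‖x‖ ≤ R) (x : L2) (hx : x ∈ EE)
    (hxC : x ∈ C) (n : ℕ) :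
    ∃ y ∈ EE, y ∈ C ∧ (∀ i, (x : ℕ → ℝ) i ≤ (y : ℕ → ℝ) i) ∧
      ∃ z ∈ EE, z ∉ C ∧ ‖z - y‖ ≤ 1 / ((n : ℝ) + 1) := by
  classical
  by_contra hcon
  push Not at hcon
  set v : ℝ := 1 / ((n : ℝ) + 1) with hv
  have hv0 : 0 < v := by positivity
  -- small coordinates
  have hsm : ∃ N : ℕ, ∀ i ≥ N, (x : ℕ → ℝ) i ≤ v := by
    have h1 : Tendsto (fun i => (x : ℕ → ℝ) i * (x : ℕ → ℝ) i) atTop (𝓝 0) :=
      (summable_mul x x).tendsto_atTop_zero
    have h2 := (h1.eventually (gt_mem_nhds (show (0 : ℝ) < v * v by positivity)))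
    obtain ⟨N, hN⟩ := eventually_atTop.1 h2
    refine ⟨N, fun i hi => ?_⟩
    have h3 := hN i hi
    by_contra h4
    push Not at h4
    have := mul_lt_mul'' h4 h4 hv0.le hv0.le
    linarith
  obtain ⟨N, hN⟩ := hsm
  have key : ∀ m : ℕ, ∃ y ∈ EE, y ∈ C ∧ (∀ i, (x : ℕ → ℝ) i ≤ (y : ℕ → ℝ) i) ∧
      (∀ i ∈ Finset.Ico N (N + m), (y : ℕ → ℝ) i = v) ∧
      (∀ i, N + m ≤ i → (y : ℕ → ℝ) i = (x : ℕ → ℝ) i) := by
    intro m
    induction m with
    | zero =>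
      refine ⟨x, hx, hxC, fun i => le_rfl, ?_, fun i _ => rfl⟩
      intro i hi
      simp at hi
    | succ m ih =>
      obtain ⟨y, hyE, hyC, hxy, hy1, hy2⟩ := ih
      set j := N + m with hj
      set z : L2 := y + lp.single 2 j (v - (y : ℕ → ℝ) j) with hz
      have hzj : (z : ℕ → ℝ) j = v := by
        rw [hz, lp.coeFn_add, Pi.add_apply, lp.single_apply_self]; ring
      have hzi : ∀ i, i ≠ j → (z : ℕ → ℝ) i = (y : ℕ → ℝ) i := by
        intro i hi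
        rw [hz, lp.coeFn_add, Pi.add_apply, lp.single_apply_ne _ _ _ hi, add_zero]
      have hyj : (y : ℕ → ℝ) j ≤ v := by rw [hy2 j le_rfl]; exact hN j (by omega)
      have hyz : ∀ i, (y : ℕ → ℝ) i ≤ (z : ℕ → ℝ) i := by
        intro i
        by_cases hi : i = j
        · rw [hi, hzj]; exact hyj
        · rw [hzi i hi]
      have hzE : z ∈ EE := by
        intro i
        by_cases hi : i = j
        · right
          refine ⟨n + 1, by omega, ?_⟩
          rw [hi, hzj, hv]; push_cast; rfl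
        · rw [hzi i hi]; exact hyE i
      have hzC : z ∈ C := by
        by_contra h
        have h1 := hcon y hyE hyC hxy z hzE h
        have h2 : ‖z - y‖ = |v - (y : ℕ → ℝ) j| := by
          rw [hz, add_sub_cancel_left, lp.norm_single (by norm_num), Real.norm_eq_abs]
        rw [h2, abs_of_nonneg (by linarith)] at h1
        have := EE_nonneg hyE j
        linarith
      refine ⟨z, hzE, hzC, fun i => (hxy i).trans (hyz i), ?_, ?_⟩
      · intro i hi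
        rw [Finset.mem_Ico] at hi
        by_cases hij : i = j
        · rw [hij, hzj]
        · rw [hzi i hij]
          exact hy1 i (by rw [Finset.mem_Ico]; omega)
      · intro i hi
        rw [hzi i (by omega)]
        exact hy2 i (by omega)
  obtain ⟨m, hm⟩ := exists_nat_gt (R ^ 2 / v ^ 2)
  obtain ⟨y, hyE, hyC, _, hy1, _⟩ := key m
  have h1 := le_inner (Finset.Ico N (N + m)) hyE hyE
  rw [real_inner_self_eq_norm_sq] at h1
  have h2 : ∑ i ∈ Finset.Ico N (N + m), (y : ℕ → ℝ) i * (y : ℕ → ℝ) i = m * v ^ 2 := by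
    rw [Finset.sum_congr rfl (g := fun _ => v ^ 2) (fun i hi => by rw [hy1 i hi, sq])]
    rw [Finset.sum_const, Nat.card_Ico, nsmul_eq_mul, add_tsub_cancel_left]
  rw [h2] at h1
  have h3 := hR y hyC
  have h4 : ‖y‖ ^ 2 ≤ R ^ 2 := pow_le_pow_left₀ (norm_nonneg _) h3 2
  rw [div_lt_iff₀ (by positivity)] at hm
  linarith

/-- Erdős: nonempty clopen sets are unbounded -/
theorem erdos (C : Set EE) (hC : IsClopen C) (hne : C.Nonempty) (R : ℝ)
    (hR : ∀ x ∈ C, ‖(x : L2)‖ ≤ R) : False := by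
  classical
  -- the sequence
  have step := fun (n : ℕ) (x : C) => erdos_step (Subtype.val '' C) R
    (by rintro _ ⟨x, hx, rfl⟩; exact hR x hx) (x.1 : L2) x.1.2 ⟨x.1, x.2, rfl⟩ n
  have step' : ∀ (n : ℕ) (x : C), ∃ y : C, (∀ i, ((x.1 : L2) : ℕ → ℝ) i ≤ ((y.1 : L2) : ℕ → ℝ) i) ∧
      ∃ z : EE, z ∉ C ∧ ‖(z : L2) - y.1‖ ≤ 1 / ((n : ℝ) + 1) := by
    intro n x
    obtain ⟨y, hyE, ⟨y', hy', hyy⟩, h1, z, hzE, hzC, h2⟩ := step n x
    refine ⟨⟨y', hy'⟩, ?_, ⟨z, hzE⟩, ?_, ?_⟩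
    · rw [hyy]; exact h1
    · intro h
      exact hzC ⟨⟨z, hzE⟩, h, rfl⟩
    · rw [hyy]; exact h2
  choose nxt hnxt bd hbd using step'
  obtain ⟨x0, hx0⟩ := hne
  let X : ℕ → C := fun n => Nat.rec ⟨x0, hx0⟩ (fun n x => nxt n x) n
  have hX : ∀ n, X (n + 1) = nxt n (X n) := fun n => rfl
  have hmono1 : ∀ n i, (((X n).1 : L2) : ℕ → ℝ) i ≤ (((X (n + 1)).1 : L2) : ℕ → ℝ) i := by
    intro n i
    rw [hX]; exact hnxt n (X n) i
  have hmono : ∀ i, Monotone (fun n => (((X n).1 : L2) : ℕ → ℝ) i) := fun i =>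
    monotone_nat_of_le_succ (fun n => hmono1 n i)
  have hnm : Monotone (fun n => ‖((X n).1 : L2)‖ ^ 2) := by
    intro m n hmn
    have := norm_sub_mono (X m).1.2 (fun i => hmono i hmn)
    have h2 : 0 ≤ ‖((X n).1 : L2) - (X m).1‖ ^ 2 := by positivity
    dsimp only
    linarith
  have hbdd : BddAbove (range (fun n => ‖((X n).1 : L2)‖ ^ 2)) := by
    refine ⟨R ^ 2, ?_⟩
    rintro _ ⟨n, rfl⟩
    exact pow_le_pow_left₀ (norm_nonneg _) (hR _ (X n).2) 2
  have hconv := tendsto_atTop_ciSup hnm hbdd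
  set S := ⨆ n, ‖((X n).1 : L2)‖ ^ 2 with hS
  have hle : ∀ n, ‖((X n).1 : L2)‖ ^ 2 ≤ S := fun n => le_ciSup hbdd n
  have hcau : CauchySeq (fun n => ((X n).1 : L2)) := by
    rw [Metric.cauchySeq_iff']
    intro ε hε
    have h1 := hconv.eventually (lt_mem_nhds (show S - ε ^ 2 < S by
      have : 0 < ε ^ 2 := by positivity
      linarith))
    obtain ⟨N, hN⟩ := eventually_atTop.1 h1
    refine ⟨N, fun n hn => ?_⟩
    have h2 := norm_sub_mono (X N).1.2 (fun i => hmono i hn)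
    have h3 := hN N le_rfl
    have h4 := hle n
    rw [dist_eq_norm]
    have h5 : ‖((X n).1 : L2) - (X N).1‖ ^ 2 < ε ^ 2 := by linarith
    exact lt_of_pow_lt_pow_left₀ 2 hε.le h5
  obtain ⟨x, hx⟩ := cauchySeq_tendsto_of_complete hcau
  have hxE : x ∈ EE := isClosed_EE.mem_of_tendsto hx (Eventually.of_forall fun n => (X n).1.2)
  have hx' : Tendsto (fun n => (X n).1) atTop (𝓝 (⟨x, hxE⟩ : EE)) := by
    rw [tendsto_subtype_rng]; exact hx
  have hxC : (⟨x, hxE⟩ : EE) ∈ C :=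
    hC.1.mem_of_tendsto hx' (Eventually.of_forall fun n => (X n).2)
  -- the points outside
  have hz : Tendsto (fun n => bd n (X n)) atTop (𝓝 (⟨x, hxE⟩ : EE)) := by
    rw [tendsto_subtype_rng]
    have h1 : Tendsto (fun n => ((X (n + 1)).1 : L2)) atTop (𝓝 x) :=
      hx.comp (tendsto_add_atTop_nat 1)
    rw [tendsto_iff_dist_tendsto_zero] at h1 ⊢
    have h2 : Tendsto (fun n : ℕ => 1 / ((n : ℝ) + 1) + dist ((X (n + 1)).1 : L2) x) atTop
        (𝓝 (0 + 0)) := tendsto_one_div_add_atTop_nhds_zero_nat.add h1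
    rw [add_zero] at h2
    refine squeeze_zero (fun n => dist_nonneg) (fun n => ?_) h2
    refine (dist_triangle _ ((X (n + 1)).1 : L2) _).trans ?_
    have := (hbd n (X n)).2
    rw [dist_eq_norm]
    exact add_le_add this le_rfl
  have hxCc : (⟨x, hxE⟩ : EE) ∈ Cᶜ :=
    hC.2.isClosed_compl.mem_of_tendsto hz (Eventually.of_forall fun n => (hbd n (X n)).1)
  exact hxCc hxC

/-- bounded sets have small clopen pieces -/
theorem small_step (ψ : EE → EE) (hψ : Continuous ψ) (R : ℝ) (hR : ∀ x, ‖(ψ x : L2)‖ ≤ R)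
    (C : Set EE) (hC : IsClopen C) (hne : C.Nonempty) (ε : ℝ) (hε : 0 < ε) :
    ∃ C' : Set EE, C' ⊆ C ∧ IsClopen C' ∧ C'.Nonempty ∧ ∀ x ∈ C', ∀ y ∈ C', dist (ψ x) (ψ y) ≤ ε := by
  classical
  set s : ℝ := sSup ((fun x : EE => ‖(ψ x : L2)‖ ^ 2) '' C) with hs
  have hbdd : BddAbove ((fun x : EE => ‖(ψ x : L2)‖ ^ 2) '' C) := by
    refine ⟨R ^ 2, ?_⟩
    rintro _ ⟨x, _, rfl⟩
    exact pow_le_pow_left₀ (norm_nonneg _) (hR x) 2
  set δ : ℝ := ε ^ 2 / 8 with hδ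
  have hδ0 : 0 < δ := by positivity
  obtain ⟨_, ⟨c, hc, rfl⟩, hcs⟩ := exists_lt_of_lt_csSup (hne.image _) (show s - δ < s by linarith)
  dsimp only at hcs
  -- a finite set of coordinates
  have hsum : ‖(ψ c : L2)‖ ^ 2 = ∑' i, ((ψ c : L2) : ℕ → ℝ) i * ((ψ c : L2) : ℕ → ℝ) i := by
    rw [← real_inner_self_eq_norm_sq, inner_eq]
  have hten : Tendsto (fun F : Finset ℕ => ∑ i ∈ F, ((ψ c : L2) : ℕ → ℝ) i * ((ψ c : L2) : ℕ → ℝ) i)
      atTop (𝓝 (‖(ψ c : L2)‖ ^ 2)) := by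
    rw [hsum]; exact (summable_mul _ _).hasSum
  obtain ⟨F, hF⟩ := (hten.eventually (lt_mem_nhds hcs)).exists
  -- the clopen set
  set G : Finset ℕ := F.filter (fun i => ((ψ c : L2) : ℕ → ℝ) i ≠ 0) with hG
  have hGs : ∑ i ∈ G, ((ψ c : L2) : ℕ → ℝ) i * ((ψ c : L2) : ℕ → ℝ) i =
      ∑ i ∈ F, ((ψ c : L2) : ℕ → ℝ) i * ((ψ c : L2) : ℕ → ℝ) i := by
    rw [hG, Finset.sum_filter]
    apply Finset.sum_congr rfl
    intro i _
    by_cases h : ((ψ c : L2) : ℕ → ℝ) i = 0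
    · simp [h]
    · simp [h]
  set C' : Set EE := C ∩ ⋂ i ∈ G, {x | ((ψ x : L2) : ℕ → ℝ) i = ((ψ c : L2) : ℕ → ℝ) i} with hC'
  have hC'clo : IsClopen C' := by
    refine hC.inter (Set.Finite.isClopen_biInter G.finite_toSet (fun i hi => ?_))
    have hi' : ((ψ c : L2) : ℕ → ℝ) i ≠ 0 := (Finset.mem_filter.1 (Finset.mem_coe.1 hi)).2
    rcases (ψ c).2 i with h | ⟨k, hk, h⟩
    · exact absurd h hi'
    · have := (isClopen_coord i k hk).preimage hψ
      rw [h]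
      exact this
  have hcC' : c ∈ C' := by
    refine ⟨hc, ?_⟩
    simp
  -- distance to `c`
  have hdist : ∀ x ∈ C', dist (ψ x) (ψ c) ≤ ε / 2 := by
    intro x hx
    have hxC : x ∈ C := hx.1
    have hxG : ∀ i ∈ G, ((ψ x : L2) : ℕ → ℝ) i = ((ψ c : L2) : ℕ → ℝ) i := by
      intro i hi
      have := hx.2
      rw [mem_iInter₂] at this
      exact this i hi
    have h1 : s - δ < ⟪(ψ x : L2), (ψ c : L2)⟫_ℝ := by
      have h2 := le_inner G (ψ x).2 (ψ c).2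
      rw [Finset.sum_congr rfl (fun i hi => by rw [hxG i hi]), hGs] at h2
      linarith
    have h3 : ‖(ψ x : L2)‖ ^ 2 ≤ s := le_csSup hbdd ⟨x, hxC, rfl⟩
    have h4 : ‖(ψ c : L2)‖ ^ 2 ≤ s := le_csSup hbdd ⟨c, hc, rfl⟩
    have h5 := norm_sub_sq_real (ψ x : L2) (ψ c : L2)
    have h6 : ‖(ψ x : L2) - ψ c‖ ^ 2 ≤ (ε / 2) ^ 2 := by
      rw [h5]
      have : (ε / 2) ^ 2 = 2 * δ := by rw [hδ]; ring
      rw [this]; linarith
    have h7 : ‖(ψ x : L2) - ψ c‖ ≤ ε / 2 := by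
      exact le_of_sq_le_sq h6 (by positivity)
    rw [Subtype.dist_eq, dist_eq_norm]
    exact h7
  refine ⟨C', inter_subset_left, hC'clo, ⟨c, hcC'⟩, fun x hx y hy => ?_⟩
  have h1 := hdist x hx
  have h2 := hdist y hy
  have h3 := dist_triangle (ψ x) (ψ c) (ψ y)
  rw [dist_comm (ψ c) (ψ y)] at h3
  linarith

/-- complete Erdős space has no bounded closed copy of itself -/
theorem no_embed (ψ : EE → EE) (hψ : IsEmbedding ψ) (hcl : IsClosed (range ψ))
    (R : ℝ) (hR : ∀ x, ‖(ψ x : L2)‖ ≤ R) : False := by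
  classical
  have hcomp : CompleteSpace EE := isClosed_EE.completeSpace_coe
  have hstep : ∀ (n : ℕ) (C : {C : Set EE // IsClopen C ∧ C.Nonempty}),
      ∃ C' : {C : Set EE // IsClopen C ∧ C.Nonempty}, C'.1 ⊆ C.1 ∧
        ∀ x ∈ C'.1, ∀ y ∈ C'.1, dist (ψ x) (ψ y) ≤ 1 / ((n : ℝ) + 1) := by
    rintro n ⟨C, hC, hne⟩
    obtain ⟨C', h1, h2, h3, h4⟩ := small_step ψ hψ.continuous R hR C hC hne (1 / ((n : ℝ) + 1))
      (by positivity)
    exact ⟨⟨C', h2, h3⟩, h1, h4⟩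
  choose nxt hnxt1 hnxt2 using hstep
  have hz : (0 : L2) ∈ EE := fun i => Or.inl rfl
  let X : ℕ → {C : Set EE // IsClopen C ∧ C.Nonempty} := fun n =>
    Nat.rec ⟨univ, isClopen_univ, ⟨⟨0, hz⟩, mem_univ _⟩⟩ (fun n C => nxt n C) n
  have hX : ∀ n, X (n + 1) = nxt n (X n) := fun n => rfl
  have hanti : ∀ m n, m ≤ n → (X n).1 ⊆ (X m).1 := by
    intro m n hmn
    induction n, hmn using Nat.le_induction with
    | base => exact subset_rfl
    | succ n _ ih => rw [hX]; exact (hnxt1 n (X n)).trans ih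
  choose c hc using fun n => (X n).2.2
  have hd : ∀ n, ∀ x ∈ (X (n + 1)).1, ∀ y ∈ (X (n + 1)).1,
      dist (ψ x) (ψ y) ≤ 1 / ((n : ℝ) + 1) := by
    intro n
    rw [hX]; exact hnxt2 n (X n)
  have hcau : CauchySeq (fun n => ψ (c (n + 1))) := by
    refine cauchySeq_of_le_tendsto_0 (fun n : ℕ => 1 / ((n : ℝ) + 1)) (fun n m N hn hm => ?_)
      tendsto_one_div_add_atTop_nhds_zero_nat
    exact hd N _ (hanti (N + 1) (n + 1) (by omega) (hc (n + 1))) _
      (hanti (N + 1) (m + 1) (by omega) (hc (m + 1)))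
  obtain ⟨a, ha⟩ := cauchySeq_tendsto_of_complete hcau
  have har : a ∈ range ψ := hcl.mem_of_tendsto ha (Eventually.of_forall fun n => ⟨_, rfl⟩)
  obtain ⟨b, rfl⟩ := har
  have hb : Tendsto (fun n => c (n + 1)) atTop (𝓝 b) := by
    rw [hψ.tendsto_nhds_iff]; exact ha
  have hbX : ∀ n, b ∈ (X n).1 := by
    intro n
    refine (X n).2.1.1.mem_of_tendsto hb ?_
    filter_upwards [eventually_ge_atTop n] with m hm
    exact hanti n (m + 1) (by omega) (hc (m + 1))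
  have hnhds : 𝓝 b = comap ψ (𝓝 (ψ b)) := hψ.nhds_eq_comap b
  have hball : Metric.ball b 1 ∈ 𝓝 b := Metric.ball_mem_nhds b one_pos
  rw [hnhds, mem_comap] at hball
  obtain ⟨V, hV, hVb⟩ := hball
  obtain ⟨δ, hδ, hδV⟩ := Metric.mem_nhds_iff.1 hV
  obtain ⟨n, hn⟩ := exists_nat_one_div_lt hδ
  refine erdos (X (n + 1)).1 (X (n + 1)).2.1 (X (n + 1)).2.2 (‖(b : L2)‖ + 1) (fun x hx => ?_)
  have h1 : dist (ψ x) (ψ b) < δ := lt_of_le_of_lt (hd n x hx b (hbX (n + 1))) hn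
  have h2 : x ∈ Metric.ball b 1 := hVb (hδV h1)
  have h3 : dist (x : L2) b < 1 := h2
  rw [dist_eq_norm] at h3
  have h4 := norm_sub_norm_le (x : L2) b
  linarith

end Pool.Agent.V11215.Erdos
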