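import Mathlib

/-! Merge trees and their interleaving distance. -/

namespace Pool.Agent.V11215.MTree

open Set Filter Topology
open scoped unitInterval ENNReal NNReal

/-- A finite rooted tree with at least one edge, given by its parent map. -/
structure RTree where
  /-- vertices -/
  V : Type
  [fin : Finite V]
  /-- the root -/
  root : V
  /-- the parent map; the edges are the pairs `{v, parent v}`, `v ≠ root` -/
  parent : V → V
  parent_root : parent root = root
  reach : ∀ v, ∃ k : ℕ, parent^[k] v = root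
  nontriv : ∃ v, v ≠ root

attribute [instance] RTree.fin

namespace RTree

variable (R : RTree)

open Classical in
/-- the vertex `v`, as a point of the realisation -/
noncomputable def pt (v : R.V) : R.V → ℝ := fun u => if u = v then 1 else 0

/-- the point at parameter `t` on the edge from `v` to its parent -/
noncomputable def ep (v : R.V) (t : ℝ) : R.V → ℝ := (1 - t) • R.pt v + t • R.pt (R.parent v)

/-- the topological realisation `X` of the tree -/
def real : Set (R.V → ℝ) := {x | ∃ v, ∃ t ∈ Icc (0 : ℝ) 1, x = R.ep v t}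

/-- the space `X ⊔ [0,1) / (root ∼ 0)`, realised inside `(V → ℝ) × ℝ` -/
def carrier : Set ((R.V → ℝ) × ℝ) :=
  {p | (p.1 ∈ R.real ∧ p.2 = 0) ∨ (p.1 = R.pt R.root ∧ p.2 ∈ Ico (0 : ℝ) 1)}

/-- the space underlying a merge tree -/
abbrev Pt : Type := R.carrier

/-- the point at parameter `t` on the edge from `v` to its parent -/
noncomputable def edgePt (v : R.V) (t : Icc (0 : ℝ) 1) : R.Pt :=
  ⟨(R.ep v t, 0), Or.inl ⟨⟨v, t, t.2, rfl⟩, rfl⟩⟩

/-- the point at parameter `t` on the ray `[0,1)` -/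
noncomputable def rayPt (t : Ico (0 : ℝ) 1) : R.Pt := ⟨(R.pt R.root, t), Or.inr ⟨rfl, t.2⟩⟩

/-- leaves: vertices other than the root without children -/
def leaves : Set R.V := {v | v ≠ R.root ∧ ∀ u, R.parent u ≠ v}

end RTree

/-- Merge trees. -/
structure MergeTree extends RTree where
  /-- the height function -/
  f : toRTree.Pt → ℝ
  f_cont : Continuous f
  edge_mono : ∀ v, v ≠ root → StrictMono fun t => f (toRTree.edgePt v t)
  ray_mono : StrictMono fun t => f (toRTree.rayPt t)
  ray_tendsto : Tendsto (fun t => f (toRTree.rayPt t)) (comap Subtype.val (𝓝[<] 1)) atTop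

/-- `x` is joined to `y` by a path along which `f` is nondecreasing -/
def Below (T : MergeTree) (x y : T.Pt) : Prop := ∃ γ : Path x y, Monotone fun t => T.f (γ t)

/-- `ε`-interleavings. The condition `β ∘ α = i^{2ε}` reads: `β (α x)`, which has height
`f x + 2 ε`, is reached from `x` by an `f`-increasing path. -/
def Interleaved (ε : ℝ≥0) (T T' : MergeTree) : Prop :=
  ∃ (α : C(T.Pt, T'.Pt)) (β : C(T'.Pt, T.Pt)),
    (∀ x, T'.f (α x) = T.f x + ε) ∧ (∀ y, T.f (β y) = T'.f y + ε) ∧
    (∀ x, Below T x (β (α x))) ∧ (∀ y, Below T' y (α (β y)))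

/-- the interleaving distance -/
noncomputable def dI (T T' : MergeTree) : ℝ≥0∞ := ⨅ (ε : ℝ≥0) (_ : Interleaved ε T T'), (ε : ℝ≥0∞)

/-- merge trees with at most `n` leaves -/
def MT (n : ℕ) : Set MergeTree := {T | T.leaves.ncard ≤ n}

/-- `γ` is a continuous path from `T` to `T'` in the space of merge trees with at most `n` leaves -/
structure IsPathIn (n : ℕ) (γ : I → MergeTree) (T T' : MergeTree) : Prop where
  mem : ∀ t, γ t ∈ MT n
  source : γ 0 = T
  target : γ 1 = T'
  cont : ∀ t, Tendsto (fun s => dI (γ s) (γ t)) (𝓝 t) (𝓝 0)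

/-- the length of a path -/
noncomputable def len (γ : I → MergeTree) : ℝ≥0∞ :=
  ⨆ (k : ℕ) (t : ℕ → I) (_ : Monotone t ∧ t 0 = 0 ∧ t k = 1),
    ∑ i ∈ Finset.range k, dI (γ (t (i + 1))) (γ (t i))

/-- the intrinsic distance in the space of merge trees with at most `n` leaves -/
noncomputable def intr (n : ℕ) (T T' : MergeTree) : ℝ≥0∞ :=
  ⨅ (γ : I → MergeTree) (_ : IsPathIn n γ T T'), len γ

/-! ### Basic properties -/

theorem Below.refl (T : MergeTree) (x : T.Pt) : Below T x x :=
  ⟨Path.refl x, fun _ _ _ => le_rfl⟩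

theorem Below.le {T : MergeTree} {x y : T.Pt} (h : Below T x y) : T.f x ≤ T.f y := by
  obtain ⟨γ, hγ⟩ := h
  have := hγ (zero_le_one : (0 : I) ≤ 1)
  simpa using this

theorem Below.trans {T : MergeTree} {x y z : T.Pt} (h1 : Below T x y) (h2 : Below T y z) :
    Below T x z := by
  obtain ⟨γ, hγ⟩ := h1
  obtain ⟨δ, hδ⟩ := h2
  refine ⟨γ.trans δ, ?_⟩
  intro s t hst
  have hst' : (s : ℝ) ≤ t := hst
  have hγ1 : ∀ u : I, T.f (γ u) ≤ T.f y := by
    intro u
    have := hγ (show u ≤ 1 from u.2.2)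
    simpa using this
  have hδ1 : ∀ u : I, T.f y ≤ T.f (δ u) := by
    intro u
    have := hδ (show 0 ≤ u from u.2.1)
    simpa using this
  simp only [Path.trans_apply]
  split_ifs with h3 h4 h4
  · apply hγ
    rw [Subtype.mk_le_mk]
    linarith
  · exact (hγ1 _).trans (hδ1 _)
  · exact absurd (hst'.trans h4) h3
  · apply hδ
    rw [Subtype.mk_le_mk]
    linarith

theorem Below.map {T T' : MergeTree} {ε : ℝ} {α : C(T.Pt, T'.Pt)}
    (hα : ∀ x, T'.f (α x) = T.f x + ε) {x y : T.Pt} (h : Below T x y) :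
    Below T' (α x) (α y) := by
  obtain ⟨γ, hγ⟩ := h
  refine ⟨γ.map α.continuous, ?_⟩
  intro s t hst
  have := hγ hst
  change T'.f (α (γ s)) ≤ T'.f (α (γ t))
  rw [hα, hα]
  exact add_le_add this le_rfl

theorem below_of_mono {T : MergeTree} {J : Set ℝ} [hJ : OrdConnected J] {e : J → T.Pt}
    (he : Continuous e) (hm : Monotone fun t => T.f (e t)) {s t : J} (hst : s ≤ t) :
    Below T (e s) (e t) := by
  have hmem : ∀ u : I, (s : ℝ) + u * (t - s) ∈ J := by
    intro u
    have h0 := u.2.1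
    have h1 := u.2.2
    have hst' : (s : ℝ) ≤ t := hst
    apply hJ.out s.2 t.2
    constructor <;> nlinarith
  refine ⟨⟨⟨fun u => e ⟨(s : ℝ) + u * (t - s), hmem u⟩, ?_⟩, ?_, ?_⟩, ?_⟩
  · apply he.comp
    apply Continuous.subtype_mk
    fun_prop
  · simp
  · simp
  · intro u v huv
    apply hm
    rw [Subtype.mk_le_mk]
    have huv' : (u : ℝ) ≤ v := huv
    have hst' : (s : ℝ) ≤ t := hst
    nlinarith

theorem ep_cont (R : RTree) (v : R.V) : Continuous (R.ep v) := by
  unfold RTree.ep
  fun_prop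

theorem edgePt_cont (R : RTree) (v : R.V) : Continuous (R.edgePt v) := by
  apply Continuous.subtype_mk
  apply Continuous.prodMk
  · exact (ep_cont R v).comp continuous_subtype_val
  · exact continuous_const

theorem rayPt_cont (R : RTree) : Continuous R.rayPt := by
  apply Continuous.subtype_mk
  apply Continuous.prodMk
  · exact continuous_const
  · exact continuous_subtype_val

theorem ep_root (R : RTree) (t : ℝ) : R.ep R.root t = R.pt R.root := by
  unfold RTree.ep
  rw [R.parent_root, ← add_smul]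
  simp

theorem edge_below (T : MergeTree) (v : T.V) {s t : Icc (0 : ℝ) 1} (h : s ≤ t) :
    Below T (T.edgePt v s) (T.edgePt v t) := by
  by_cases hv : v = T.root
  · subst hv
    have : T.edgePt T.root s = T.edgePt T.root t := by
      apply Subtype.ext
      change (T.ep T.root s, (0 : ℝ)) = (T.ep T.root t, 0)
      rw [ep_root, ep_root]
    rw [this]
    exact Below.refl _ _
  · exact below_of_mono (edgePt_cont _ v) (T.edge_mono v hv).monotone h

theorem ray_below (T : MergeTree) {s t : Ico (0 : ℝ) 1} (h : s ≤ t) :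
    Below T (T.rayPt s) (T.rayPt t) :=
  below_of_mono (rayPt_cont _) T.ray_mono.monotone h

/-- the vertex `v` as a point of the merge tree -/
noncomputable def vert (T : MergeTree) (v : T.V) : T.Pt := T.edgePt v ⟨0, by simp⟩

theorem vert_val (T : MergeTree) (v : T.V) : (vert T v).1 = (T.pt v, (0 : ℝ)) := by
  unfold vert RTree.edgePt RTree.ep
  simp

theorem edge_one (T : MergeTree) (v : T.V) : T.edgePt v ⟨1, by simp⟩ = vert T (T.parent v) := by
  apply Subtype.ext
  rw [vert_val]
  unfold RTree.edgePt RTree.ep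
  simp

theorem ray_zero (T : MergeTree) : T.rayPt ⟨0, by simp⟩ = vert T T.root := by
  apply Subtype.ext
  rw [vert_val]
  rfl

theorem vert_below_parent (T : MergeTree) (v : T.V) : Below T (vert T v) (vert T (T.parent v)) := by
  rw [← edge_one]
  exact edge_below T v (by rw [Subtype.mk_le_mk]; norm_num)

theorem vert_lt_parent (T : MergeTree) {v : T.V} (hv : v ≠ T.root) :
    T.f (vert T v) < T.f (vert T (T.parent v)) := by
  rw [← edge_one]
  exact T.edge_mono v hv (by rw [Subtype.mk_lt_mk]; norm_num)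

theorem root_has_child (T : MergeTree) : ∃ u, u ≠ T.root ∧ T.parent u = T.root := by
  classical
  obtain ⟨v, hv⟩ := T.nontriv
  have hex := T.reach v
  set k := Nat.find hex with hk
  have hk1 : T.parent^[k] v = T.root := Nat.find_spec hex
  have hk0 : k ≠ 0 := by
    intro h
    rw [h] at hk1
    exact hv hk1
  obtain ⟨j, hj⟩ := Nat.exists_eq_succ_of_ne_zero hk0
  refine ⟨T.parent^[j] v, ?_, ?_⟩
  · exact Nat.find_min hex (m := j) (by omega)
  · rw [← Function.iterate_succ_apply' T.parent j v, ← hj]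
    exact hk1

/-- every vertex lies above a leaf -/
theorem exists_leaf_below_vert (T : MergeTree) (v : T.V) :
    ∃ u ∈ T.leaves, Below T (vert T u) (vert T v) := by
  classical
  have hfin : {u : T.V | Below T (vert T u) (vert T v)}.Finite := Set.toFinite _
  obtain ⟨u, hu, hmin⟩ := Set.exists_min_image _ (fun u => T.f (vert T u)) hfin
    ⟨v, Below.refl _ _⟩
  refine ⟨u, ?_, hu⟩
  have hnochild : ∀ c, c ≠ T.root → T.parent c ≠ u := by
    intro c hc hcu
    have h1 : Below T (vert T c) (vert T u) := by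
      rw [← hcu]; exact vert_below_parent T c
    have h2 := hmin c (h1.trans hu)
    have h3 := vert_lt_parent T hc
    rw [hcu] at h3
    linarith
  have hur : u ≠ T.root := by
    rintro rfl
    obtain ⟨c, hc, hc'⟩ := root_has_child T
    exact hnochild c hc hc'
  refine ⟨hur, fun c hc => ?_⟩
  by_cases h : c = T.root
  · rw [h, T.parent_root] at hc
    exact hur hc.symm
  · exact hnochild c h hc

/-- every point lies above a leaf -/
theorem exists_leaf_below (T : MergeTree) (x : T.Pt) :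
    ∃ u ∈ T.leaves, Below T (vert T u) x := by
  obtain ⟨p, hp⟩ := x
  rcases hp with ⟨⟨v, t, ht, h1⟩, h2⟩ | ⟨h1, h2⟩
  · obtain ⟨u, hu, hu'⟩ := exists_leaf_below_vert T v
    refine ⟨u, hu, hu'.trans ?_⟩
    have : (⟨p, Or.inl ⟨⟨v, t, ht, h1⟩, h2⟩⟩ : T.Pt) = T.edgePt v ⟨t, ht⟩ := by
      apply Subtype.ext
      exact Prod.ext h1 h2
    rw [this]
    exact edge_below T v (by rw [Subtype.mk_le_mk]; exact ht.1)
  · obtain ⟨u, hu, hu'⟩ := exists_leaf_below_vert T T.root
    refine ⟨u, hu, hu'.trans ?_⟩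
    have : (⟨p, Or.inr ⟨h1, h2⟩⟩ : T.Pt) = T.rayPt ⟨p.2, h2⟩ := by
      apply Subtype.ext
      exact Prod.ext h1 rfl
    rw [this, ← ray_zero]
    exact ray_below T (by rw [Subtype.mk_le_mk]; exact h2.1)

theorem Interleaved.symm {ε : ℝ≥0} {T T' : MergeTree} (h : Interleaved ε T T') :
    Interleaved ε T' T := by
  obtain ⟨α, β, h1, h2, h3, h4⟩ := h
  exact ⟨β, α, h2, h1, h4, h3⟩

theorem Interleaved.trans {ε δ : ℝ≥0} {T T' T'' : MergeTree} (h : Interleaved ε T T')
    (h' : Interleaved δ T' T'') : Interleaved (ε + δ) T T'' := by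
  obtain ⟨α, β, h1, h2, h3, h4⟩ := h
  obtain ⟨α', β', h1', h2', h3', h4'⟩ := h'
  refine ⟨α'.comp α, β.comp β', ?_, ?_, ?_, ?_⟩
  · intro x
    rw [ContinuousMap.comp_apply, h1', h1]
    push_cast; ring
  · intro x
    rw [ContinuousMap.comp_apply, h2, h2']
    push_cast; ring
  · intro x
    exact (h3 x).trans ((h3' (α x)).map h2)
  · intro y
    exact (h4' y).trans ((h4 (β' y)).map h1')

theorem dI_symm (T T' : MergeTree) : dI T T' = dI T' T := by
  unfold dI
  apply le_antisymm
  · exact le_iInf₂ fun ε h => iInf₂_le ε h.symm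
  · exact le_iInf₂ fun ε h => iInf₂_le ε h.symm

theorem exists_of_dI_lt {T T' : MergeTree} {r : ℝ≥0∞} (h : dI T T' < r) :
    ∃ ε : ℝ≥0, (ε : ℝ≥0∞) < r ∧ Interleaved ε T T' := by
  unfold dI at h
  rw [iInf_lt_iff] at h
  obtain ⟨ε, h⟩ := h
  rw [iInf_lt_iff] at h
  obtain ⟨h1, h2⟩ := h
  exact ⟨ε, h2, h1⟩

theorem dI_triangle (T T' T'' : MergeTree) : dI T T'' ≤ dI T T' + dI T' T'' := by
  apply le_of_forall_gt
  intro r hr
  by_cases ha : dI T T' = ⊤
  · rw [ha, top_add] at hr; exact absurd hr not_top_lt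
  by_cases hb : dI T' T'' = ⊤
  · rw [hb, add_top] at hr; exact absurd hr not_top_lt
  obtain ⟨r1, r2, h1, h2, h3⟩ : ∃ r1 r2 : ℝ≥0∞, dI T T' < r1 ∧ dI T' T'' < r2 ∧ r1 + r2 ≤ r := by
    obtain ⟨c, hc, hc'⟩ := ENNReal.lt_iff_exists_add_pos_lt.1 hr
    refine ⟨dI T T' + c / 2, dI T' T'' + c / 2, ?_, ?_, ?_⟩
    · apply ENNReal.lt_add_right ha
      have : (c : ℝ≥0∞) ≠ 0 := by exact_mod_cast hc.ne'
      simpa using hc.ne'
    · apply ENNReal.lt_add_right hb
      simpa using hc.ne'
    · calc dI T T' + c / 2 + (dI T' T'' + c / 2) = dI T T' + dI T' T'' + (c / 2 + c / 2) := by ring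
        _ = dI T T' + dI T' T'' + c := by rw [ENNReal.add_halves]
        _ ≤ r := hc'.le
  obtain ⟨ε, hε, hε'⟩ := exists_of_dI_lt h1
  obtain ⟨δ, hδ, hδ'⟩ := exists_of_dI_lt h2
  calc dI T T'' ≤ ((ε + δ : ℝ≥0) : ℝ≥0∞) := iInf₂_le (ε + δ) (hε'.trans hδ')
    _ = ε + δ := by push_cast; rfl
    _ < r1 + r2 := ENNReal.add_lt_add hε hδ
    _ ≤ r := h3

/-- The path argument. -/
theorem intr_ge {n : ℕ} {T T' : MergeTree} {c : ℝ≥0∞}
    (hc0 : c ≤ dI T T') (h : ∀ S ∈ MT n, c ≤ dI T S ∨ c ≤ dI S T') : c + c ≤ intr n T T' := by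
  apply le_iInf₂
  intro γ hγ
  have hTT : ∀ t, dI (γ t) (γ t) = 0 := by
    intro t
    have h1 := hγ.cont t
    have h2 : Tendsto (fun s : I => dI (γ s) (γ t)) (pure t) (𝓝 0) := h1.mono_left (pure_le_nhds t)
    exact tendsto_nhds_unique (tendsto_pure_nhds (fun s : I => dI (γ s) (γ t)) t) h2
  -- the two closed sets
  have hcl : ∀ (U : MergeTree), IsClosed {t : I | c ≤ dI U (γ t)} := by
    intro U
    rw [← isOpen_compl_iff, isOpen_iff_mem_nhds]
    intro t ht
    rw [mem_compl_iff, mem_ofPred_eq, not_le] at ht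
    have h1 : Tendsto (fun s => dI U (γ t) + dI (γ s) (γ t)) (𝓝 t) (𝓝 (dI U (γ t) + 0)) :=
      tendsto_const_nhds.add (hγ.cont t)
    rw [add_zero] at h1
    filter_upwards [h1.eventually_lt_const ht] with s hs
    rw [mem_compl_iff, mem_ofPred_eq, not_le]
    refine lt_of_le_of_lt ?_ hs
    rw [dI_symm (γ s)]
    exact dI_triangle _ _ _
  have hA := hcl T
  have hB := hcl T'
  have hcov : (univ : Set I) ⊆ {t : I | c ≤ dI T (γ t)} ∪ {t : I | c ≤ dI T' (γ t)} := by
    intro t _
    rcases h (γ t) (hγ.mem t) with h1 | h1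
    · left; exact h1
    · right; rw [mem_ofPred_eq, dI_symm]; exact h1
  have hconn := isPreconnected_closed_iff.1 (isPreconnected_univ (α := I)) _ _ hA hB hcov
    ⟨1, mem_univ _, by rw [mem_ofPred_eq, hγ.target]; exact hc0⟩
    ⟨0, mem_univ _, by rw [mem_ofPred_eq, hγ.source, dI_symm]; exact hc0⟩
  obtain ⟨t, _, ht1, ht2⟩ := hconn
  -- the partition `0 ≤ t ≤ 1`
  set u : ℕ → I := fun k => if k = 0 then 0 else if k = 1 then t else 1 with hu
  have hmono : Monotone u := by
    apply monotone_nat_of_le_succ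
    intro k
    rw [hu]
    dsimp only
    rcases k with _ | _ | k
    · simp
    · simp only [zero_add, one_ne_zero, if_true, if_false]
      norm_num
      exact t.2.2
    · simp
  have hsum : ∑ i ∈ Finset.range 2, dI (γ (u (i + 1))) (γ (u i)) =
      dI (γ t) (γ 0) + dI (γ 1) (γ t) := by
    rw [Finset.sum_range_succ, Finset.sum_range_one]
    simp [hu]
  calc c + c ≤ dI (γ t) (γ 0) + dI (γ 1) (γ t) := by
        apply add_le_add
        · rw [hγ.source, dI_symm]; exact ht1
        · rw [hγ.target]; exact ht2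
    _ = ∑ i ∈ Finset.range 2, dI (γ (u (i + 1))) (γ (u i)) := hsum.symm
    _ ≤ len γ := by
        unfold len
        exact le_iSup_of_le 2 (le_iSup_of_le u (le_iSup_of_le
          ⟨hmono, by simp [hu], by simp [hu]⟩ le_rfl))

end Pool.Agent.V11215.MTree
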